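import Pool.Agent.helper69.FlexPoly.Exact

set_option autoImplicit false

open MeasureTheory Filter Topology

namespace Pool.Agent.helper69.FlexPoly

/-- `P` is embedded, i.e. injective as a map `K → S^n`: two nonnegative combinations of the vertex
vectors of simplices of `K` agree only if they have the same coefficients (a function on the set of
vertices supported on a simplex). -/
def Embedded {V : Type} {n : ℕ} (K : OrientedPseudomanifold V n)
    (P : V → Fin (n + 1) → ℝ) : Prop :=
  ∀ F ∈ K.facets, ∀ G ∈ K.facets, ∀ c d : V → ℝ, (∀ v, 0 ≤ c v) → (∀ v, 0 ≤ d v) →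
    (∀ v, v ∉ Set.range F → c v = 0) → (∀ v, v ∉ Set.range G → d v = 0) →
    ∑ i, c (F i) • P (F i) = ∑ i, d (G i) • P (G i) → c = d

section nondeg

variable {n : ℕ} {N : Matrix (Fin n) (Fin n) ℝ} {lam : Fin n → ℝ}

lemma cc_zero (i : Fin n) : cc lam 0 i = 1 := by simp [cc]

lemma Adm.cs_sq (h : Adm N lam) (θ : ℝ) (i : Fin n) :
    cc lam θ i ^ 2 + ss lam θ i ^ 2 = 1 := by
  have h1 := h.rel θ i i
  rw [h.gr_self, sub_self, mul_zero, add_zero, one_mul] at h1
  linear_combination h1

lemma Adm.raw_ne (h : Adm N lam) (θ : ℝ) (v : Fin n × Bool) : raw N lam θ v ≠ 0 := by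
  obtain ⟨i, b⟩ := v
  cases b
  · exact vA_ne h.det_ne i
  · exact h.vB_ne θ i

/-- the distance of opposite vertices -/
lemma Adm.opp_dot (h : Adm N lam) (i : Fin n) : ∃ a b : ℝ, 0 < b ∧ ∀ θ,
    curve N lam θ (i, false) ⬝ᵥ curve N lam θ (i, true) = a + b * cc lam θ i := by
  set a := ∑ l, du N i l * (∑ k, xx N lam i k * du N k l) with ha
  set r₀ := (√(raw N lam 0 (i, false) ⬝ᵥ raw N lam 0 (i, false)))⁻¹ with hr0
  set r₁ := (√(raw N lam 0 (i, true) ⬝ᵥ raw N lam 0 (i, true)))⁻¹ with hr1
  refine ⟨r₀ * (r₁ * a), r₀ * r₁, ?_, ?_⟩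
  · exact mul_pos (nz_pos (h.raw_ne _ _)) (nz_pos (h.raw_ne _ _))
  · intro θ
    rw [curve_eq, curve_eq, nz_dot, h.raw_dot θ 0 (v := (i, false)) (w := (i, false)) (Or.inr rfl),
      h.raw_dot θ 0 (v := (i, true)) (w := (i, true)) (Or.inr rfl), ← hr0, ← hr1]
    have h1 : raw N lam θ (i, false) ⬝ᵥ raw N lam θ (i, true) = a + cc lam θ i := by
      have h2 := vA_vB (x := xx N lam) (c := cc lam θ) (s := ss lam θ) h.det_ne i i
      simp only [raw, Bool.false_eq_true, if_false, if_true] at h2 ⊢
      rw [h2, mul_one]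
    rw [h1]
    ring

/-- All states are flexible, and stay so after the antipodes are taken. -/
lemma Adm.flexible (h : Adm N lam) (hn : 0 < n) (A : Set (Fin n × Bool)) (θ : ℝ) :
    Flexible (crossPolytope n) (antipodes A (curve N lam θ)) := by
  set i : Fin n := ⟨0, hn⟩
  obtain ⟨θ', hθ'⟩ : ∃ θ', cc lam θ' i ≠ cc lam θ i := by
    by_cases h1 : cc lam θ i = 1
    · refine ⟨Real.pi / 2, ?_⟩
      rw [h.cc_half, h1]; norm_num
    · exact ⟨0, by rw [cc_zero]; exact fun h2 => h1 h2.symm⟩
  refine ⟨fun t => antipodes A (curve N lam (θ + t * (θ' - θ))), ?_, ?_, ?_, ?_⟩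
  · exact (continuous_antipodes A).comp (h.continuous_curve.comp (by fun_prop))
  · simp
  · intro t
    exact h.mem_Conf _ _ A
  · rintro ⟨B, _, hB0, hB⟩
    simp only at hB
    have h1 := hB 1 (i, false)
    have h2 := hB 1 (i, true)
    have hort : (B 1).transpose * B 1 = 1 := by
      have := (Matrix.mem_orthogonalGroup_iff' (Fin (n + 1)) ℝ).1 (hB0 1)
      simpa using this
    have h3 : antipodes A (curve N lam (θ + ((1 : unitInterval) : ℝ) * (θ' - θ))) (i, false) ⬝ᵥ
        antipodes A (curve N lam (θ + ((1 : unitInterval) : ℝ) * (θ' - θ))) (i, true) =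
        antipodes A (curve N lam θ) (i, false) ⬝ᵥ antipodes A (curve N lam θ) (i, true) := by
      rw [h1, h2, mulVec_dot hort]
    rw [antipodes_dot, antipodes_dot] at h3
    have h4 := mul_left_cancel₀ (ev_ne A (i, true)) (mul_left_cancel₀ (ev_ne A (i, false)) h3)
    obtain ⟨a, b, hb, hab⟩ := h.opp_dot i
    rw [hab, hab] at h4
    have h5 : cc lam (θ + ((1 : unitInterval) : ℝ) * (θ' - θ)) i = cc lam θ i :=
      mul_left_cancel₀ hb.ne' (add_left_cancel h4)
    apply hθ'
    rw [← h5, Set.Icc.coe_one]
    congr 1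
    ring

/-! ### Embedded states -/

lemma Adm.embedded_of (h : Adm N lam) (θ : ℝ)
    (hpos : ∀ w : Fin n → ℝ, w ≠ 0 → ∑ i, ∑ k, w i * w k * (cc lam θ i * gr N i k) < 0) :
    Embedded (crossPolytope n) (curve N lam θ) := by
  intro F hF G hG c d hc hd hcF hdG hE
  obtain ⟨s, rfl⟩ := mem_facets hF
  obtain ⟨s', rfl⟩ := mem_facets hG
  have hcs : ∀ i a, a ≠ s i → c (i, a) = 0 := by
    intro i a ha
    apply hcF
    rw [mem_range_facet]
    exact ha.symm
  have hds : ∀ i a, a ≠ s' i → d (i, a) = 0 := by
    intro i a ha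
    apply hdG
    rw [mem_range_facet]
    exact ha.symm
  set r : Fin n × Bool → ℝ := fun v => (√(raw N lam θ v ⬝ᵥ raw N lam θ v))⁻¹ with hr
  have hrpos : ∀ v, 0 < r v := fun v => nz_pos (h.raw_ne θ v)
  -- sums over facets
  have hsum : ∀ (e : Fin n × Bool → ℝ) (τ : Fin n → Bool), (∀ i a, a ≠ τ i → e (i, a) = 0) →
      ∑ i, e (facet τ i) • curve N lam θ (facet τ i) =
      ∑ i, ((e (i, false) * r (i, false)) • vA N i +
        (e (i, true) * r (i, true)) • vB N (xx N lam) (cc lam θ) (ss lam θ) i) := by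
    intro e τ he
    refine Finset.sum_congr rfl fun i _ => ?_
    have h1 : ∀ v : Fin n × Bool, curve N lam θ v = r v • raw N lam θ v := fun v => rfl
    have h2 : facet τ i = (i, τ i) := rfl
    rw [h1, h2, smul_smul]
    have h3 := he i (! τ i)
    cases hτ : τ i
    · rw [hτ] at h3
      have h4 := h3 (by simp)
      simp only [Bool.not_false] at h4
      rw [h4, zero_mul, zero_smul, add_zero]
      simp [raw]
    · rw [hτ] at h3
      have h4 := h3 (by simp)
      simp only [Bool.not_true] at h4
      rw [h4, zero_mul, zero_smul, zero_add]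
      simp [raw]
  rw [hsum c s hcs, hsum d s' hds] at hE
  set u : Fin n → ℝ := fun i => c (i, false) * r (i, false) with hu
  set v : Fin n → ℝ := fun i => c (i, true) * r (i, true) with hv
  set u' : Fin n → ℝ := fun i => d (i, false) * r (i, false) with hu'
  set v' : Fin n → ℝ := fun i => d (i, true) * r (i, true) with hv'
  have hnn : ∀ i, 0 ≤ u i ∧ 0 ≤ v i ∧ 0 ≤ u' i ∧ 0 ≤ v' i := fun i =>
    ⟨mul_nonneg (hc _) (hrpos _).le, mul_nonneg (hc _) (hrpos _).le,
      mul_nonneg (hd _) (hrpos _).le, mul_nonneg (hd _) (hrpos _).le⟩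
  have huv : ∀ i, u i * v i = 0 := by
    intro i
    simp only [hu, hv]
    cases hs : s i
    · rw [hcs i true (by rw [hs]; simp)]; ring
    · rw [hcs i false (by rw [hs]; simp)]; ring
  have huv' : ∀ i, u' i * v' i = 0 := by
    intro i
    simp only [hu', hv']
    cases hs : s' i
    · rw [hds i true (by rw [hs]; simp)]; ring
    · rw [hds i false (by rw [hs]; simp)]; ring
  -- the dot products with the normals
  have hdot : ∀ k, (u k - u' k) + ∑ i, (v i - v' i) * (xx N lam i k + cc lam θ i * gr N i k) =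
      0 := by
    intro k
    have h1 := congrArg (fun z => z ⬝ᵥ ext (N k) 0) hE
    simp only [sum_dotProduct, add_dotProduct, smul_dotProduct, smul_eq_mul, vA_dot h.det_ne,
      vB_dot h.det_ne, Finset.sum_add_distrib] at h1
    simp only [mul_ite, mul_one, mul_zero, Finset.sum_ite_eq', Finset.mem_univ, if_true] at h1
    simp only [sub_mul, Finset.sum_sub_distrib]
    simp only [hu, hv, hu', hv']
    linarith
  have hq : ∑ k, (u k - u' k) * (v k - v' k) +
      ∑ i, ∑ k, (v i - v' i) * (v k - v' k) * (cc lam θ i * gr N i k) = 0 := by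
    have h1 : ∑ k, (v k - v' k) * ((u k - u' k) + ∑ i, (v i - v' i) *
        (xx N lam i k + cc lam θ i * gr N i k)) = 0 :=
      Finset.sum_eq_zero fun k _ => by rw [hdot k, mul_zero]
    have h2 := anti_quad (xx_anti (N := N) (lam := lam)) (fun i => v i - v' i)
    have h3 : ∑ k, (v k - v' k) * ((u k - u' k) + ∑ i, (v i - v' i) *
        (xx N lam i k + cc lam θ i * gr N i k)) = ∑ k, (u k - u' k) * (v k - v' k) +
        (∑ i, ∑ k, (v i - v' i) * (v k - v' k) * xx N lam i k +
        ∑ i, ∑ k, (v i - v' i) * (v k - v' k) * (cc lam θ i * gr N i k)) := by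
      rw [Finset.sum_comm (f := fun i k => (v i - v' i) * (v k - v' k) * xx N lam i k),
        Finset.sum_comm (f := fun i k => (v i - v' i) * (v k - v' k) * (cc lam θ i * gr N i k)),
        ← Finset.sum_add_distrib, ← Finset.sum_add_distrib]
      refine Finset.sum_congr rfl fun k _ => ?_
      rw [mul_add, Finset.mul_sum, ← Finset.sum_add_distrib]
      congr 1
      · ring
      · refine Finset.sum_congr rfl fun i _ => ?_
        ring
    rw [h3, h2, zero_add] at h1
    exact h1
  have hle : ∀ k, (u k - u' k) * (v k - v' k) ≤ 0 := by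
    intro k
    have h1 := huv k
    have h2 := huv' k
    obtain ⟨h3, h4, h5, h6⟩ := hnn k
    have h7 : (u k - u' k) * (v k - v' k) = - (u k * v' k + u' k * v k) := by
      linear_combination h1 + h2
    rw [h7]
    have := mul_nonneg h3 h6
    have := mul_nonneg h5 h4
    linarith
  have hV : (fun i => v i - v' i) = 0 := by
    by_contra hne
    have h1 := hpos _ hne
    have h2 : ∑ k, (u k - u' k) * (v k - v' k) ≤ 0 := Finset.sum_nonpos fun k _ => hle k
    linarith
  have hV' : ∀ i, v i - v' i = 0 := fun i => congrFun hV i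
  have hU' : ∀ k, u k - u' k = 0 := by
    intro k
    have h1 := hdot k
    simp only [hV', zero_mul, Finset.sum_const_zero, add_zero] at h1
    exact h1
  funext ⟨i, b⟩
  cases b
  · have h1 := hU' i
    simp only [hu, hu', ← sub_mul] at h1
    rcases mul_eq_zero.1 h1 with h2 | h2
    · linarith
    · exact absurd h2 (hrpos _).ne'
  · have h1 := hV' i
    simp only [hv, hv', ← sub_mul] at h1
    rcases mul_eq_zero.1 h1 with h2 | h2
    · linarith
    · exact absurd h2 (hrpos _).ne'

/-- All states near the second flat state are embedded. -/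
lemma Adm.embedded (h : Adm N lam) :
    ∀ᶠ θ in 𝓝 (Real.pi / 2), Embedded (crossPolytope n) (curve N lam θ) := by
  have h1 : ∀ᶠ θ in 𝓝 (Real.pi / 2), ∀ w ∈ Metric.sphere (0 : Fin n → ℝ) 1,
      ∑ i, ∑ k, w i * w k * (cc lam θ i * gr N i k) < 0 := by
    apply (isCompact_sphere (0 : Fin n → ℝ) 1).eventually_forall_of_forall_eventually
    intro w hw
    have hc : Continuous fun z : ℝ × (Fin n → ℝ) =>
        ∑ i, ∑ k, z.2 i * z.2 k * (cc lam z.1 i * gr N i k) := by
      apply continuous_finsetSum
      intro i _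
      apply continuous_finsetSum
      intro k _
      have h2 : Continuous fun z : ℝ × (Fin n → ℝ) => cc lam z.1 i :=
        (h.continuous_cc i).comp continuous_fst
      fun_prop
    apply hc.continuousAt.eventually (gt_mem_nhds _)
    show ∑ i, ∑ k, w i * w k * (cc lam (Real.pi / 2) i * gr N i k) < 0
    have hne : w ≠ 0 := by
      rintro rfl
      simp at hw
    have h3 : ∑ i, ∑ k, w i * w k * (cc lam (Real.pi / 2) i * gr N i k) =
        - ∑ i, ∑ k, w i * w k * gr N i k := by
      rw [← Finset.sum_neg_distrib]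
      refine Finset.sum_congr rfl fun i _ => ?_
      rw [← Finset.sum_neg_distrib]
      refine Finset.sum_congr rfl fun k _ => ?_
      rw [h.cc_half]; ring
    rw [h3]
    by_contra h4
    push Not at h4
    exact hne (gr_zero h.det_ne (by linarith))
  filter_upwards [h1] with θ hθ
  apply h.embedded_of
  intro w hw
  have hn : 0 < ‖w‖ := norm_pos_iff.2 hw
  have h2 := hθ (‖w‖⁻¹ • w) (by
    rw [mem_sphere_zero_iff_norm, norm_smul, norm_inv, norm_norm, inv_mul_cancel₀ hn.ne'])
  have h3 : ∑ i, ∑ k, (‖w‖⁻¹ • w) i * (‖w‖⁻¹ • w) k * (cc lam θ i * gr N i k) =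
      ‖w‖⁻¹ ^ 2 * ∑ i, ∑ k, w i * w k * (cc lam θ i * gr N i k) := by
    rw [Finset.mul_sum]
    refine Finset.sum_congr rfl fun i _ => ?_
    rw [Finset.mul_sum]
    refine Finset.sum_congr rfl fun k _ => ?_
    simp only [Pi.smul_apply, smul_eq_mul]
    ring
  rw [h3] at h2
  by_contra h4
  push Not at h4
  have h5 : 0 ≤ ‖w‖⁻¹ ^ 2 := sq_nonneg _
  have := mul_nonneg h5 h4
  linarith

/-! ### Different vertices -/

lemma xx_add (h : Adm N lam) {i k : Fin n} (hik : k ≠ i) :
    (xx N lam i k + gr N i k = 0 ↔ gr N i k * lam i = lam k) ∧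
    (xx N lam i k - gr N i k = 0 ↔ gr N i k * lam k = lam i) := by
  have hi := h.pos i
  have hk := h.pos k
  have h1 : lam i ^ 2 - lam k ^ 2 ≠ 0 := by
    intro h2
    apply hik
    apply h.inj
    have h3 : (lam i - lam k) * (lam i + lam k) = 0 := by linear_combination h2
    rcases mul_eq_zero.1 h3 with h4 | h4
    · linarith
    · linarith
  unfold xx
  constructor
  · rw [div_add' _ _ _ h1, div_eq_zero_iff, or_iff_left h1]
    constructor
    · intro h2
      have h3 : 2 * lam i * (gr N i k * lam i - lam k) = 0 := by linear_combination h2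
      rcases mul_eq_zero.1 h3 with h4 | h4
      · linarith
      · linarith
    · intro h2
      rw [← h2]; ring
  · rw [div_sub' h1, div_eq_zero_iff, or_iff_left h1]
    constructor
    · intro h2
      have h3 : 2 * lam k * (gr N i k * lam k - lam i) = 0 := by linear_combination h2
      rcases mul_eq_zero.1 h3 with h4 | h4
      · linarith
      · linarith
    · intro h2
      rw [← h2]; ring

/-- If `g_ij lam_i ≠ lam_j` for `i ≠ j`, then different vertices are never parallel. -/
lemma Adm.not_parallel (h : Adm N lam) (hn : 2 ≤ n)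
    (hg : ∀ i k, i ≠ k → gr N i k * lam i ≠ lam k) (θ : ℝ) {v w : Fin n × Bool} (hvw : v ≠ w)
    (a b : ℝ) (hab : a • curve N lam θ v = b • curve N lam θ w) : a = 0 ∧ b = 0 := by
  have hraw : ∀ v, curve N lam θ v =
      (√(raw N lam θ v ⬝ᵥ raw N lam θ v))⁻¹ • raw N lam θ v := fun v => rfl
  have hpos : ∀ v, 0 < (√(raw N lam θ v ⬝ᵥ raw N lam θ v))⁻¹ := fun v => nz_pos (h.raw_ne θ v)
  -- opposite vertices
  have hopp : ∀ (i : Fin n) (p q : ℝ),
      p • vA N i = q • vB N (xx N lam) (cc lam θ) (ss lam θ) i → q = 0 := by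
    intro i p q hpq
    by_contra hq
    have h1 : ss lam θ i = 0 := by
      have h2 := congrFun hpq (Fin.last n)
      simp only [Pi.smul_apply, vA_last, smul_eq_mul, mul_zero, vB, ext_last] at h2
      exact (mul_eq_zero.1 h2.symm).resolve_left hq
    obtain ⟨k, hk⟩ : ∃ k : Fin n, k ≠ i := by
      have : Nontrivial (Fin n) := Fin.nontrivial_iff_two_le.2 hn
      exact exists_ne i
    have h2 : xx N lam i k + cc lam θ i * gr N i k = 0 := by
      have h3 := congrArg (fun z => z ⬝ᵥ ext (N k) 0) hpq
      simp only [smul_dotProduct, vA_dot h.det_ne, vB_dot h.det_ne, if_neg hk.symm, smul_eq_mul,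
        mul_zero] at h3
      exact (mul_eq_zero.1 h3.symm).resolve_left hq
    have h3 := h.cs_sq θ i
    rw [h1] at h3
    have h4 : cc lam θ i = 1 ∨ cc lam θ i = -1 := by
      have h5 : (cc lam θ i - 1) * (cc lam θ i + 1) = 0 := by linear_combination h3
      rcases mul_eq_zero.1 h5 with h6 | h6
      · left; linarith
      · right; linarith
    rcases h4 with h4 | h4
    · rw [h4, one_mul] at h2
      exact hg i k hk.symm ((xx_add h hk).1.1 h2)
    · rw [h4] at h2
      have h5 := (xx_add h hk).2.1 (by linarith)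
      rw [gr_comm] at h5
      exact hg k i hk h5
  have hne : ∀ v, curve N lam θ v ≠ 0 := by
    intro v h1
    rw [hraw, smul_eq_zero] at h1
    rcases h1 with h1 | h1
    · exact (hpos v).ne' h1
    · exact h.raw_ne θ v h1
  have hopp' : ∀ (i : Fin n) (p q : ℝ),
      p • curve N lam θ (i, false) = q • curve N lam θ (i, true) → p = 0 ∧ q = 0 := by
    intro i p q hpq
    have h1 : q = 0 := by
      have h2 := hpq
      rw [hraw, hraw, smul_smul, smul_smul] at h2
      have h3 := hopp i _ _ h2
      exact (mul_eq_zero.1 h3).resolve_right (hpos _).ne'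
    refine ⟨?_, h1⟩
    rw [h1, zero_smul] at hpq
    exact (smul_eq_zero.1 hpq).resolve_right (hne _)
  obtain ⟨i, e⟩ := v
  obtain ⟨j, f⟩ := w
  by_cases hij : i = j
  · subst hij
    cases e <;> cases f
    · exact absurd rfl hvw
    · exact hopp' i a b hab
    · exact (hopp' i b a hab.symm).symm
    · exact absurd rfl hvw
  · have hF : facet (fun k : Fin n => if k = i then e else f) ∈ (crossPolytope n).facets := by
      simp [crossPolytope]
    have h1 := (h.isPolyhedron θ).2 _ hF
    rw [Fintype.linearIndependent_iff] at h1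
    have h2 := h1 (fun k => if k = i then a else if k = j then -b else 0) (by
      have h3 : ∀ k : Fin n, (if k = i then a else if k = j then -b else 0) •
          curve N lam θ (facet (fun k : Fin n => if k = i then e else f) k) =
          (if k = i then a • curve N lam θ (i, e) else 0) +
          (if k = j then -(b • curve N lam θ (j, f)) else 0) := by
        intro k
        have h4 : facet (fun k : Fin n => if k = i then e else f) k =
          (k, if k = i then e else f) := rfl
        rw [h4]
        by_cases hk : k = i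
        · subst hk
          rw [if_pos rfl, if_pos rfl, if_pos rfl, if_neg hij, add_zero]
        · rw [if_neg hk, if_neg hk, if_neg hk, zero_add]
          by_cases hk' : k = j
          · subst hk'
            rw [if_pos rfl, if_pos rfl, neg_smul]
          · rw [if_neg hk', if_neg hk', zero_smul]
      rw [Finset.sum_congr rfl fun k _ => h3 k, Finset.sum_add_distrib]
      simp only [Finset.sum_ite_eq', Finset.mem_univ, if_true]
      rw [hab, add_neg_cancel])
    have h3 := h2 i
    have h4 := h2 j
    rw [if_pos rfl] at h3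
    rw [if_neg (Ne.symm hij), if_pos rfl] at h4
    exact ⟨h3, by linarith⟩

end nondeg

end Pool.Agent.helper69.FlexPoly
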