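import Pool.Agent.helper69.FlexPoly.Sharp
import Pool.Agent.helper69.FlexPoly.Nondeg

set_option autoImplicit false

open MeasureTheory Filter Topology

namespace Pool.Agent.helper69.FlexPoly

/-! ### The volume of the new polyhedron -/

section add

variable {V : Type} {n : ℕ} {R : OrientedPseudomanifold V n}

/-- the cross-polytope on the facet `F` -/
def pc (F : FT R) (P : SV R → Fin (n + 1) → ℝ) : Fin n × Bool → Fin (n + 1) → ℝ :=
  fun v => P (if v.2 then Sum.inr (F, v.1) else Sum.inl (F.1 v.1))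

/-- the old polyhedron -/
def rst (P : SV R → Fin (n + 1) → ℝ) : V → Fin (n + 1) → ℝ := fun v => P (Sum.inl v)

lemma pc_facet (F : FT R) (P : SV R → Fin (n + 1) → ℝ) (s : Fin n → Bool) (i : Fin n) :
    pc F P (facet s i) = P (tup F s i) := rfl

lemma pc_facet_false (F : FT R) (P : SV R → Fin (n + 1) → ℝ) (i : Fin n) :
    pc F P (facet (fun _ => false) i) = rst P (F.1 i) := rfl

lemma sharp_isPolyhedron {hn : 2 ≤ n} {P : SV R → Fin (n + 1) → ℝ} (h0 : ∀ v, OnSphere (P v))
    (h : ∀ F, IsPolyhedron (crossPolytope n) (pc F P)) : IsPolyhedron (sharp R hn) P := by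
  refine ⟨h0, ?_⟩
  intro G hG
  obtain ⟨F, s, _, rfl⟩ := mem_shFacets.1 hG
  have h1 := (h F).2 (facet s) (by simp [crossPolytope])
  exact h1

lemma sum_shFacets (f : (Fin n → SV R) → ℤ) : ∑ G ∈ shFacets R, f G =
    ∑ F : FT R, (∑ s : Fin n → Bool, f (tup F s) - f (tup F fun _ => false)) := by
  classical
  unfold shFacets
  rw [Finset.sum_image]
  · rw [← Finset.univ_product_univ, Finset.sum_filter, Finset.sum_product]
    refine Finset.sum_congr rfl fun F _ => ?_
    rw [eq_sub_iff_add_eq, ← Finset.sum_filter]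
    have h1 : (Finset.univ.filter fun s : Fin n → Bool => ∃ i, s i = true) =
        Finset.univ.erase fun _ => false := by
      ext s
      simp only [Finset.mem_filter, Finset.mem_univ, true_and, Finset.mem_erase, ne_eq, and_true]
      constructor
      · rintro ⟨i, hi⟩ h2
        rw [h2] at hi
        exact absurd hi (by simp)
      · intro h2
        by_contra h3
        push Not at h3
        apply h2
        funext i
        simpa using h3 i
    rw [h1]
    exact Finset.sum_erase_add _ _ (Finset.mem_univ _)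
  · rintro ⟨F, s⟩ hp ⟨G, s'⟩ _ h
    simp only [Finset.coe_filter, Finset.mem_univ, true_and, Set.mem_ofPred_eq] at hp
    obtain ⟨h1, h2⟩ := tup_inj h hp
    exact Prod.ext h1 h2

lemma ind_sharp {hn : 2 ≤ n} (P : SV R → Fin (n + 1) → ℝ) (y x : Fin (n + 1) → ℝ) :
    ind (sharp R hn) P y x = ind R (rst P) y x -
      ∑ F : FT R, R.or F.1 * ind (crossPolytope n) (pc F P) y x := by
  classical
  rw [ind_eq_chi, ind_eq_chi]
  simp only [ind_eq_chi]
  have h1 : ∑ G ∈ (sharp R hn).facets, (sharp R hn).or G *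
      chi (Fin.snoc (fun k => P (G k)) (-y)) x =
      ∑ G ∈ shFacets R, shOr R G * chi (Fin.snoc (fun k => P (G k)) (-y)) x := rfl
  rw [h1]
  have h2 : ∑ G ∈ shFacets R, shOr R G * chi (Fin.snoc (fun k => P (G k)) (-y)) x =
      ∑ G ∈ shFacets R, (∑ p : FT R × (Fin n → Bool), if tup p.1 p.2 = G then
        - (R.or p.1.1 * ∏ i, sg (p.2 i)) else 0) *
          chi (Fin.snoc (fun k => P (G k)) (-y)) x := rfl
  have h3 : ∑ G ∈ shFacets R, shOr R G * chi (Fin.snoc (fun k => P (G k)) (-y)) x =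
      ∑ F : FT R, (∑ s : Fin n → Bool, (- (R.or F.1 * ∏ i, sg (s i)) *
        chi (Fin.snoc (fun k => P (tup F s k)) (-y)) x) -
        (- (R.or F.1 * ∏ i : Fin n, sg ((fun _ => false : Fin n → Bool) i)) *
        chi (Fin.snoc (fun k => P (tup F (fun _ => false) k)) (-y)) x)) := by
    -- replace the orientation by a function of the pair
    have h4 : ∀ F : FT R, ∑ s : Fin n → Bool, (- (R.or F.1 * ∏ i, sg (s i)) *
        chi (Fin.snoc (fun k => P (tup F s k)) (-y)) x) -
        (- (R.or F.1 * ∏ i : Fin n, sg ((fun _ => false : Fin n → Bool) i)) *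
        chi (Fin.snoc (fun k => P (tup F (fun _ => false) k)) (-y)) x) =
        ∑ s ∈ Finset.univ.erase (fun _ : Fin n => false), (- (R.or F.1 * ∏ i, sg (s i)) *
        chi (Fin.snoc (fun k => P (tup F s k)) (-y)) x) := by
      intro F
      rw [sub_eq_iff_eq_add]
      exact (Finset.sum_erase_add _ _ (Finset.mem_univ _)).symm
    rw [sum_shFacets, Finset.sum_congr rfl fun F _ => h4 F]
    refine Finset.sum_congr rfl fun F _ => ?_
    rw [sub_eq_iff_eq_add, ← Finset.sum_erase_add _ _ (Finset.mem_univ fun _ : Fin n => false)]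
    congr 1
    refine Finset.sum_congr rfl fun s hs => ?_
    rw [shOr_tup F]
    by_contra h5
    push Not at h5
    apply (Finset.mem_erase.1 hs).1
    funext i
    simpa using h5 i
  rw [h3, Finset.sum_sub_distrib]
  have h5 : ∑ F ∈ R.facets, R.or F * chi (Fin.snoc (fun k => rst P (F k)) (-y)) x =
      ∑ F : FT R, R.or F.1 * chi (Fin.snoc (fun k => rst P (F.1 k)) (-y)) x := by
    rw [← Finset.sum_coe_sort]
  rw [h5]
  have h6 : ∀ F : FT R, ∑ G ∈ (crossPolytope n).facets, (crossPolytope n).or G *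
      chi (Fin.snoc (fun k => pc F P (G k)) (-y)) x =
      ∑ s : Fin n → Bool, (∏ i, sg (s i)) * chi (Fin.snoc (fun k => P (tup F s k)) (-y)) x := by
    intro F
    have h7 : (crossPolytope n).facets = Finset.univ.map ⟨facet, facet_injective⟩ := rfl
    rw [h7, Finset.sum_map]
    rfl
  simp only [h6]
  have h8 : ∀ F : FT R, (- (R.or F.1 * ∏ i : Fin n, sg ((fun _ => false : Fin n → Bool) i)) *
        chi (Fin.snoc (fun k => P (tup F (fun _ => false) k)) (-y)) x) =
      - (R.or F.1 * chi (Fin.snoc (fun k => rst P (F.1 k)) (-y)) x) := by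
    intro F
    have h9 : ∏ i : Fin n, sg ((fun _ => false : Fin n → Bool) i) = 1 := by simp [sg]
    rw [h9, mul_one, neg_mul]
    rfl
  rw [Finset.sum_congr rfl fun F _ => h8 F, Finset.sum_neg_distrib]
  have h10 : ∀ F : FT R, ∑ s : Fin n → Bool, (- (R.or F.1 * ∏ i, sg (s i)) *
        chi (Fin.snoc (fun k => P (tup F s k)) (-y)) x) =
      - (R.or F.1 * ∑ s : Fin n → Bool, (∏ i, sg (s i)) *
        chi (Fin.snoc (fun k => P (tup F s k)) (-y)) x) := by
    intro F
    rw [Finset.mul_sum, ← Finset.sum_neg_distrib]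
    refine Finset.sum_congr rfl fun s _ => ?_
    ring
  rw [Finset.sum_congr rfl fun F _ => h10 F, Finset.sum_neg_distrib]
  ring

lemma volFrom_sharp {hn : 2 ≤ n} (P : SV R → Fin (n + 1) → ℝ) (y : Fin (n + 1) → ℝ) :
    volFrom (sharp R hn) P y = volFrom R (rst P) y -
      ∑ F : FT R, (R.or F.1 : ℝ) * volFrom (crossPolytope n) (pc F P) y := by
  unfold volFrom
  simp only [ind_sharp]
  push_cast
  rw [integral_sub (integrable_ind _ _ _)]
  · rw [integral_finsetSum]
    · simp only [integral_const_mul]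
    · intro F _
      exact (integrable_ind _ _ _).const_mul _
  · apply integrable_finsetSum
    intro F _
    exact (integrable_ind _ _ _).const_mul _

lemma ae_notMem {W : Type} {K : OrientedPseudomanifold W n} {P : W → Fin (n + 1) → ℝ}
    (hP : IsPolyhedron K P) : ∀ᵐ y ∂(surf (n + 1)), y ∉ image K P := by
  filter_upwards [ae_gen hP 0] with y' h1
  rintro ⟨_, F, hF, c, _, h⟩
  apply (h1 F hF).1
  rw [← update_snoc_last (fun k => P (F k)) 0 y', h]
  unfold dt
  rw [AlternatingMap.map_update_sum]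
  apply Finset.sum_eq_zero
  intro k _
  rw [AlternatingMap.map_update_smul]
  have h3 : P (F k) = (Fin.snoc (fun k => P (F k)) 0 : Fin (n + 1) → Fin (n + 1) → ℝ)
      k.castSucc := by
    rw [Fin.snoc_castSucc (α := fun _ => Fin (n + 1) → ℝ)]
  rw [h3, AlternatingMap.map_update_self, smul_zero]
  exact (Fin.castSucc_lt_last k).ne'

/-- The oriented volume of the new polyhedron. -/
lemma isOV_sharp {hn : 2 ≤ n} {P : SV R → Fin (n + 1) → ℝ} (hR : IsPolyhedron R (rst P))
    (hF : ∀ F, IsPolyhedron (crossPolytope n) (pc F P)) (hP : IsPolyhedron (sharp R hn) P)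
    {w : ℝ} {u : FT R → ℝ} (hw : IsOrientedVolume R (rst P) w)
    (hu : ∀ F, IsOrientedVolume (crossPolytope n) (pc F P) (u F)) :
    IsOrientedVolume (sharp R hn) P (w - ∑ F, (R.or F.1 : ℝ) * u F) := by
  have h1 : ∀ᵐ y ∂(surf (n + 1)), ∀ F : FT R, y ∉ image (crossPolytope n) (pc F P) :=
    ae_all_iff.2 fun F => ae_notMem (hF F)
  have hne : (ae (surf (n + 1))).NeBot := by
    rw [ae_neBot]; exact surf_ne_zero n
  obtain ⟨y, ⟨⟨hy1, hy2⟩, hy3⟩, hy4⟩ :=
    (((ae_onSphere (n := n)).and (ae_notMem hR)).and h1 |>.and (ae_notMem hP)).exists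
  obtain ⟨k, hk⟩ := hw.2 y hy1 hy2
  choose l hl using fun F => (hu F).2 y hy1 (hy3 F)
  apply isOrientedVolume_of_one hP hy1 hy4
  refine ⟨k - ∑ F, R.or F.1 * l F, ?_⟩
  rw [volFrom_sharp, hk]
  simp only [hl]
  push_cast
  have h2 : ∑ F : FT R, (R.or F.1 : ℝ) * (u F + l F * sphereVol n) =
      ∑ F : FT R, (R.or F.1 : ℝ) * u F + (∑ F : FT R, (R.or F.1 : ℝ) * l F) * sphereVol n := by
    rw [Finset.sum_mul, ← Finset.sum_add_distrib]
    refine Finset.sum_congr rfl fun F _ => ?_
    ring
  rw [h2]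
  ring

end add

end Pool.Agent.helper69.FlexPoly
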