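import Pool.Agent.helper69.FlexPoly.Meas

set_option autoImplicit false

open MeasureTheory

namespace Pool.Agent.helper69.FlexPoly

section base

variable {V : Type} {n : ℕ}

lemma dt_ne_zero_iff {N : ℕ} (v : Fin N → Fin N → ℝ) : dt v ≠ 0 ↔ LinearIndependent ℝ v := by
  have h := Matrix.linearIndependent_rows_iff_isUnit (A := Matrix.of v)
  rw [Matrix.isUnit_iff_isUnit_det, isUnit_iff_ne_zero] at h
  exact h.symm

lemma exists_dt_snoc_ne {G : Fin n → Fin (n + 1) → ℝ} (hG : LinearIndependent ℝ G) :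
    ∃ z, dt (Fin.snoc G z : Fin (n + 1) → Fin (n + 1) → ℝ) ≠ 0 := by
  have h1 : Submodule.span ℝ (Set.range G) ≠ ⊤ := by
    apply (Submodule.lt_top_of_finrank_lt_finrank _).ne
    rw [finrank_span_eq_card hG, Fintype.card_fin, Module.finrank_fin_fun]
    exact Nat.lt_succ_self n
  have h2 : ∃ z, z ∉ Submodule.span ℝ (Set.range G) := by
    by_contra hcon
    push Not at hcon
    exact h1 (Submodule.eq_top_iff'.2 hcon)
  obtain ⟨z, hz⟩ := h2
  exact ⟨z, (dt_ne_zero_iff _).2 (hG.finSnoc hz)⟩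

lemma ae_snoc {G : Fin n → Fin (n + 1) → ℝ}
    (hG : ∃ z, dt (Fin.snoc G z : Fin (n + 1) → Fin (n + 1) → ℝ) ≠ 0) :
    ∀ᵐ z ∂(surf (n + 1)), dt (Fin.snoc G z : Fin (n + 1) → Fin (n + 1) → ℝ) ≠ 0 := by
  obtain ⟨z, hz⟩ := hG
  have hf : dtL (Fin.snoc G 0 : Fin (n + 1) → Fin (n + 1) → ℝ) (Fin.last n) ≠ 0 := by
    intro h
    have := congrArg (fun f : (Fin (n + 1) → ℝ) →ₗ[ℝ] ℝ => f z) h
    simp only [dtL_apply, update_snoc_last, LinearMap.zero_apply] at this
    exact hz this
  filter_upwards [ae_functional _ hf] with x hx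
  rwa [dtL_apply, update_snoc_last] at hx

/-- `y'` is in general position with respect to `y` and `P` -/
def Gen (K : OrientedPseudomanifold V n) (P : V → Fin (n + 1) → ℝ) (y y' : Fin (n + 1) → ℝ) :
    Prop :=
  ∀ F ∈ K.facets, dt (Fin.snoc (fun k => P (F k)) y' : Fin (n + 1) → Fin (n + 1) → ℝ) ≠ 0 ∧
    ∀ i : Fin n, (∃ z, dt (Fin.snoc (Function.update (fun k => P (F k)) i y) z :
      Fin (n + 1) → Fin (n + 1) → ℝ) ≠ 0) →
      dt (Fin.snoc (Function.update (fun k => P (F k)) i y) y' :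
        Fin (n + 1) → Fin (n + 1) → ℝ) ≠ 0

lemma ae_gen {K : OrientedPseudomanifold V n} {P : V → Fin (n + 1) → ℝ}
    (hP : IsPolyhedron K P) (y : Fin (n + 1) → ℝ) : ∀ᵐ y' ∂(surf (n + 1)), Gen K P y y' := by
  unfold Gen
  rw [Filter.eventually_all_finset]
  intro F hF
  refine Filter.Eventually.and (ae_snoc (exists_dt_snoc_ne (hP.2 F hF))) ?_
  rw [Filter.eventually_all]
  intro i
  by_cases h : ∃ z, dt (Fin.snoc (Function.update (fun k => P (F k)) i y) z :
      Fin (n + 1) → Fin (n + 1) → ℝ) ≠ 0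
  · filter_upwards [ae_snoc h] with y' hy' _
    exact hy'
  · exact ae_of_all _ fun y' h' => absurd h' h

lemma snoc_update_castSucc (G : Fin n → Fin (n + 1) → ℝ) (z w : Fin (n + 1) → ℝ) (i : Fin n) :
    Function.update (Fin.snoc G z : Fin (n + 1) → Fin (n + 1) → ℝ) i.castSucc w =
      Fin.snoc (Function.update G i w) z := by
  rw [Fin.snoc_update]

lemma last_coord_zero {G : Fin n → Fin (n + 1) → ℝ} {y y' : Fin (n + 1) → ℝ}
    (hG : dt (Fin.snoc G y' : Fin (n + 1) → Fin (n + 1) → ℝ) ≠ 0) (i : Fin n)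
    (h0 : ∀ z, dt (Fin.snoc (Function.update G i y) z : Fin (n + 1) → Fin (n + 1) → ℝ) = 0)
    {c : Fin n → ℝ} {d : ℝ} (hy : y = ∑ k, c k • G k + d • y') : d = 0 := by
  set u : Fin (n + 1) → Fin (n + 1) → ℝ := Fin.snoc G (G i) with hu
  have hu1 : ∀ k : Fin n, u k.castSucc = G k := fun k => by
    rw [hu, Fin.snoc_castSucc (α := fun _ => Fin (n + 1) → ℝ)]
  have hu2 : u (Fin.last n) = G i := by
    rw [hu, Fin.snoc_last (α := fun _ => Fin (n + 1) → ℝ)]
  have h1 : dt (Function.update u i.castSucc y) = 0 := by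
    rw [hu, snoc_update_castSucc]
    exact h0 _
  have hne : i.castSucc ≠ Fin.last n := (Fin.castSucc_lt_last i).ne
  have hk : ∀ k : Fin n, dt (Function.update u i.castSucc (G k)) = 0 := by
    intro k
    by_cases hki : k = i
    · rw [hki, ← hu1 i, Function.update_eq_self]
      unfold dt
      exact AlternatingMap.map_eq_zero_of_eq _ _ (by rw [hu1, hu2]) hne
    · rw [← hu1 k]
      unfold dt
      apply AlternatingMap.map_update_self
      intro h
      exact hki (Fin.castSucc_injective _ h).symm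
  have hy' : dt (Function.update u i.castSucc y') =
      - dt (Fin.snoc G y' : Fin (n + 1) → Fin (n + 1) → ℝ) := by
    have e1 : Function.update u i.castSucc y' =
        (Fin.snoc G y' : Fin (n + 1) → Fin (n + 1) → ℝ) ∘
          (Equiv.swap i.castSucc (Fin.last n)) := by
      funext k
      rw [Function.comp_apply]
      refine Fin.lastCases ?_ (fun k => ?_) k
      · rw [Equiv.swap_apply_right, Function.update_of_ne hne.symm, hu2,
          Fin.snoc_castSucc (α := fun _ => Fin (n + 1) → ℝ)]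
      · by_cases hki : k = i
        · rw [hki, Equiv.swap_apply_left, Function.update_self,
            Fin.snoc_last (α := fun _ => Fin (n + 1) → ℝ)]
        · have h2 : k.castSucc ≠ i.castSucc := fun h => hki (Fin.castSucc_injective _ h)
          have h3 : k.castSucc ≠ Fin.last n := (Fin.castSucc_lt_last k).ne
          rw [Equiv.swap_apply_of_ne_of_ne h2 h3, Function.update_of_ne h2, hu1,
            Fin.snoc_castSucc (α := fun _ => Fin (n + 1) → ℝ)]
    rw [e1, dt_perm, Equiv.Perm.sign_swap hne]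
    simp
  have h2 : dt (Function.update u i.castSucc y) =
      - (d * dt (Fin.snoc G y' : Fin (n + 1) → Fin (n + 1) → ℝ)) := by
    rw [hy, dt_update_add, dt_update_smul, hy']
    have h3 : dt (Function.update u i.castSucc (∑ k, c k • G k)) = 0 := by
      unfold dt
      rw [AlternatingMap.map_update_sum]
      apply Finset.sum_eq_zero
      intro k _
      rw [AlternatingMap.map_update_smul]
      have := hk k
      unfold dt at this
      rw [this, smul_zero]
    rw [h3]; ring
  rw [h1] at h2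
  have h4 : d * dt (Fin.snoc G y' : Fin (n + 1) → Fin (n + 1) → ℝ) = 0 := by linarith
  exact (mul_eq_zero.1 h4).resolve_right hG

lemma hlam_of_gen {K : OrientedPseudomanifold V n} {P : V → Fin (n + 1) → ℝ}
    {y y' : Fin (n + 1) → ℝ} (hsp : OnSphere y) (hy : y ∉ image K P) (hgen : Gen K P y y')
    {F : Fin n → V} (hF : F ∈ K.facets)
    (h : ∀ k, coord (Fin.snoc (fun k => P (F k)) (-y')) (-y) k ≤ 0) :
    ∀ k, coord (Fin.snoc (fun k => P (F k)) (-y')) (-y) k < 0 := by
  set v : Fin (n + 1) → Fin (n + 1) → ℝ := Fin.snoc (fun k => P (F k)) (-y') with hv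
  obtain ⟨hg1, hg2⟩ := hgen F hF
  have hdt : dt v ≠ 0 := by rw [hv, dt_snoc_neg]; exact neg_ne_zero.2 hg1
  have hsum := sum_coord hdt (-y)
  have hsum' : y = ∑ k : Fin n, (-coord v (-y) k.castSucc) • P (F k) +
      coord v (-y) (Fin.last n) • y' := by
    have h1 := sum_snoc (fun k => P (F k)) (-y') (coord v (-y))
    rw [← hv, ← hsum] at h1
    have h2 : y = - (∑ k : Fin n, coord v (-y) k.castSucc • P (F k) +
        coord v (-y) (Fin.last n) • -y') := by rw [← h1, neg_neg]
    rw [neg_add, ← Finset.sum_neg_distrib] at h2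
    rw [h2]
    congr 1
    · apply Finset.sum_congr rfl
      intro k _
      rw [← h2, neg_smul]
    · rw [← h2, smul_neg, neg_neg]
  intro k
  rcases (h k).lt_or_eq with h1 | h1
  · exact h1
  exfalso
  -- the last coordinate vanishes
  have hlast : coord v (-y) (Fin.last n) = 0 := by
    revert h1
    refine Fin.lastCases (fun h1 => h1) (fun i h1 => ?_) k
    apply last_coord_zero (G := fun k => P (F k)) hg1 i _ hsum'
    by_contra hcon
    push Not at hcon
    have h2 := hg2 i hcon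
    apply h2
    unfold coord at h1
    rw [div_eq_zero_iff] at h1
    have h3 := h1.resolve_right hdt
    rw [dt_update_neg, hv, snoc_update_castSucc, dt_snoc_neg, neg_neg] at h3
    exact h3
  apply hy
  refine ⟨hsp, F, hF, fun k => -coord v (-y) k.castSucc, fun k => ?_, ?_⟩
  · have := h k.castSucc
    linarith
  · rw [hlast, zero_smul, add_zero] at hsum'
    exact hsum'

/-! ### Change of the base point -/

lemma ind_eq_chi (K : OrientedPseudomanifold V n) (P : V → Fin (n + 1) → ℝ)
    (y x : Fin (n + 1) → ℝ) :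
    ind K P y x = ∑ F ∈ K.facets, K.or F * chi (Fin.snoc (fun k => P (F k)) (-y)) x := by
  unfold ind
  exact Finset.sum_congr rfl fun F _ => crossing_eq_chi K P y x F

open Classical in
/-- the constant by which the index changes -/
noncomputable def kap (K : OrientedPseudomanifold V n) (P : V → Fin (n + 1) → ℝ)
    (y y' : Fin (n + 1) → ℝ) : ℤ :=
  ∑ F ∈ K.facets, K.or F *
    ((SignType.sign (dt (Fin.snoc (fun k => P (F k)) (-y') : Fin (n + 1) → Fin (n + 1) → ℝ)) : ℤ) *
      (if ∀ k, coord (Fin.snoc (fun k => P (F k)) (-y')) (-y) k < 0 then 1 else 0))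

lemma ae_ind_base {K : OrientedPseudomanifold V n} {P : V → Fin (n + 1) → ℝ}
    {y y' : Fin (n + 1) → ℝ} (hsp : OnSphere y) (hy : y ∉ image K P) (hgen : Gen K P y y') :
    ∀ᵐ x ∂(surf (n + 1)), ind K P y' x = ind K P y x + kap K P y y' := by
  have e : ∀ᵐ x ∂(surf (n + 1)), ∀ F ∈ K.facets,
      (∀ i, coord (Fin.snoc (fun k => P (F k)) (-y')) x i ≠ 0) ∧
      ∀ i k, k ≠ i → coord (Fin.snoc (fun k => P (F k)) (-y')) (-y) i ≠ 0 →
        coord (Fin.snoc (fun k => P (F k)) (-y')) x k -
          coord (Fin.snoc (fun k => P (F k)) (-y')) (-y) k *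
          (coord (Fin.snoc (fun k => P (F k)) (-y')) x i /
            coord (Fin.snoc (fun k => P (F k)) (-y')) (-y) i) ≠ 0 := by
    rw [Filter.eventually_all_finset]
    intro F hF
    apply ae_generic
    rw [dt_snoc_neg]
    exact neg_ne_zero.2 (hgen F hF).1
  filter_upwards [e] with x hx
  rw [ind_eq_chi, ind_eq_chi, kap]
  have h1 : ∀ F ∈ K.facets, K.or F * chi (Fin.snoc (fun k => P (F k)) (-y')) x =
      (∑ i : Fin n, K.or F *
        chi (Function.update (Fin.snoc (fun k => P (F k)) (-y')) i.castSucc (-y)) x) +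
      (K.or F * chi (Fin.snoc (fun k => P (F k)) (-y)) x +
      K.or F *
    ((SignType.sign (dt (Fin.snoc (fun k => P (F k)) (-y') : Fin (n + 1) → Fin (n + 1) → ℝ)) : ℤ) *
      (if ∀ k, coord (Fin.snoc (fun k => P (F k)) (-y')) (-y) k < 0 then 1 else 0))) := by
    intro F hF
    have hdt : dt (Fin.snoc (fun k => P (F k)) (-y') : Fin (n + 1) → Fin (n + 1) → ℝ) ≠ 0 := by
      rw [dt_snoc_neg]; exact neg_ne_zero.2 (hgen F hF).1
    rw [chi_identity hdt (-y) x (hx F hF).1 (hx F hF).2 (hlam_of_gen hsp hy hgen hF),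
      Fin.sum_univ_castSucc, update_snoc_last, ← Finset.mul_sum]
    ring
  rw [Finset.sum_congr rfl h1, Finset.sum_add_distrib, ridge_chi_zero, zero_add,
    Finset.sum_add_distrib]

lemma integrable_ind (K : OrientedPseudomanifold V n) (P : V → Fin (n + 1) → ℝ)
    (y : Fin (n + 1) → ℝ) : Integrable (fun x => (ind K P y x : ℝ)) (surf (n + 1)) := by
  have h : (fun x => (ind K P y x : ℝ)) = fun x => ∑ F ∈ K.facets,
      (K.or F : ℝ) * (chi (Fin.snoc (fun k => P (F k)) (-y)) x : ℝ) := by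
    funext x
    rw [ind_eq_chi]
    push_cast
    rfl
  rw [h]
  apply integrable_finsetSum
  intro F _
  apply Integrable.const_mul
  exact Integrable.of_bound (measurable_chi _).aestronglyMeasurable 1
    (ae_of_all _ fun x => norm_chi_le _ x)

lemma volFrom_base {K : OrientedPseudomanifold V n} {P : V → Fin (n + 1) → ℝ}
    {y y' : Fin (n + 1) → ℝ} (hsp : OnSphere y) (hy : y ∉ image K P) (hgen : Gen K P y y') :
    volFrom K P y' = volFrom K P y + kap K P y y' * sphereVol n := by
  unfold volFrom sphereVol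
  have h : (fun x => (ind K P y' x : ℝ)) =ᵐ[surf (n + 1)]
      fun x => (ind K P y x : ℝ) + (kap K P y y' : ℝ) := by
    filter_upwards [ae_ind_base hsp hy hgen] with x hx
    rw [hx]; push_cast; ring
  rw [integral_congr_ae h, integral_add (integrable_ind K P y) (integrable_const _),
    integral_const, smul_eq_mul]
  ring

/-- `V_y(P)` modulo `vol(S^n)` does not depend on the point `y ∉ P(K)`. -/
lemma volFrom_congr {K : OrientedPseudomanifold V n} {P : V → Fin (n + 1) → ℝ}
    (hP : IsPolyhedron K P) {y₁ y₂ : Fin (n + 1) → ℝ} (hs₁ : OnSphere y₁) (hy₁ : y₁ ∉ image K P)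
    (hs₂ : OnSphere y₂) (hy₂ : y₂ ∉ image K P) :
    ∃ k : ℤ, volFrom K P y₁ = volFrom K P y₂ + k * sphereVol n := by
  obtain ⟨y', h1, h2⟩ := ((ae_gen hP y₁).and (ae_gen hP y₂)).exists
  refine ⟨kap K P y₂ y' - kap K P y₁ y', ?_⟩
  have e1 := volFrom_base hs₁ hy₁ h1
  have e2 := volFrom_base hs₂ hy₂ h2
  push_cast
  linarith

lemma exists_notMem_image {K : OrientedPseudomanifold V n} {P : V → Fin (n + 1) → ℝ}
    (hP : IsPolyhedron K P) : ∃ y, OnSphere y ∧ y ∉ image K P := by
  obtain ⟨y', h1, h2⟩ := ((ae_gen hP 0).and ae_onSphere).exists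
  refine ⟨y', h2, ?_⟩
  rintro ⟨_, F, hF, c, _, h⟩
  apply (h1 F hF).1
  rw [← update_snoc_last (fun k => P (F k)) 0 y', h]
  unfold dt
  rw [AlternatingMap.map_update_sum]
  apply Finset.sum_eq_zero
  intro k _
  rw [AlternatingMap.map_update_smul]
  have h3 : P (F k) = (Fin.snoc (fun k => P (F k)) 0 : Fin (n + 1) → Fin (n + 1) → ℝ)
      k.castSucc := by
    rw [Fin.snoc_castSucc (α := fun _ => Fin (n + 1) → ℝ)]
  rw [h3, AlternatingMap.map_update_self, smul_zero]
  exact (Fin.castSucc_lt_last k).ne'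

lemma isOrientedVolume_of_one {K : OrientedPseudomanifold V n} {P : V → Fin (n + 1) → ℝ}
    (hP : IsPolyhedron K P) {y : Fin (n + 1) → ℝ} (hs : OnSphere y) (hy : y ∉ image K P) {v : ℝ}
    (h : ∃ k : ℤ, volFrom K P y = v + k * sphereVol n) : IsOrientedVolume K P v := by
  refine ⟨⟨y, hs, hy⟩, fun y' hs' hy' => ?_⟩
  obtain ⟨k, hk⟩ := h
  obtain ⟨l, hl⟩ := volFrom_congr hP hs' hy' hs hy
  refine ⟨k + l, ?_⟩
  rw [hl, hk]; push_cast; ring

end base

end Pool.Agent.helper69.FlexPoly
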