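import Pool.Agent.helper69.FlexPoly.Sq

set_option autoImplicit false

open MeasureTheory Filter Topology

namespace Pool.Agent.helper69.FlexPoly

section block

lemma cc_anti {n : ℕ} {lam : Fin n → ℝ} {i : Fin n} (h : 0 < lam i) :
    StrictAntiOn (fun θ => cc lam θ i) (Set.Icc 0 (Real.pi / 2)) := by
  intro x hx y hy hxy
  have hpi := Real.pi_pos
  have h1 : Real.sin x < Real.sin y := by
    apply Real.strictMonoOn_sin _ _ hxy
    · exact ⟨by linarith [hx.1], hx.2⟩
    · exact ⟨by linarith [hy.1], hy.2⟩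
  have h2 : 0 ≤ Real.sin x := Real.sin_nonneg_of_nonneg_of_le_pi hx.1 (by linarith [hx.2])
  have h3 : Real.sin x ^ 2 < Real.sin y ^ 2 := by
    apply pow_lt_pow_left₀ h1 h2 two_ne_zero
  have h4 : 0 < lam i ^ 2 := pow_pos h 2
  have hD : ∀ θ, 0 < Real.cos θ ^ 2 + lam i ^ 2 * Real.sin θ ^ 2 := by
    intro θ
    have e1 := Real.sin_sq_add_cos_sq θ
    rcases (sq_nonneg (Real.cos θ)).lt_or_eq with e3 | e3
    · have : 0 ≤ lam i ^ 2 * Real.sin θ ^ 2 := mul_nonneg h4.le (sq_nonneg _)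
      linarith
    · have e4 : Real.sin θ ^ 2 = 1 := by linarith
      rw [← e3, e4]
      linarith
  show cc lam y i < cc lam x i
  unfold cc
  rw [div_lt_div_iff₀ (hD y) (hD x)]
  have e1 := Real.sin_sq_add_cos_sq x
  have e2 := Real.sin_sq_add_cos_sq y
  have e3 : Real.cos x ^ 2 = 1 - Real.sin x ^ 2 := by linarith
  have e4 : Real.cos y ^ 2 = 1 - Real.sin y ^ 2 := by linarith
  rw [e3, e4]
  have e5 : 0 < 2 * lam i ^ 2 * (Real.sin y ^ 2 - Real.sin x ^ 2) := by
    have := sub_pos.2 h3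
    positivity
  nlinarith

lemma nz_smul {n : ℕ} {r : ℝ} (hr : 0 < r) (v : Fin (n + 1) → ℝ) : nz (r • v) = nz v := by
  unfold nz
  rw [smul_dotProduct, dotProduct_smul, smul_eq_mul, smul_eq_mul, ← mul_assoc,
    Real.sqrt_mul (mul_self_nonneg r), Real.sqrt_mul_self hr.le, smul_smul, mul_inv, mul_comm r⁻¹,
    mul_assoc, inv_mul_cancel₀ hr.ne', mul_one]

lemma nz_unit {n : ℕ} {v : Fin (n + 1) → ℝ} (h : v ⬝ᵥ v = 1) : nz v = v := by
  unfold nz
  rw [h, Real.sqrt_one, inv_one, one_smul]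

/-! ### The positions with a given inner product -/

lemma finite_quad {a b c : ℝ} (ha : a ≠ 0) : {x : ℝ | a * x ^ 2 + b * x + c = 0}.Finite := by
  by_cases h : ∃ x₀, a * x₀ ^ 2 + b * x₀ + c = 0
  · obtain ⟨x₀, h0⟩ := h
    apply Set.Finite.subset (Set.toFinite ({x₀, -x₀ - b / a} : Set ℝ))
    intro x hx
    have hx' : a * x ^ 2 + b * x + c = 0 := hx
    have h1 : (x - x₀) * (a * (x + x₀) + b) = 0 := by linear_combination hx' - h0
    rcases mul_eq_zero.1 h1 with h2 | h2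
    · left; linarith
    · right
      show x = -x₀ - b / a
      field_simp
      linarith
  · push Not at h
    convert Set.finite_empty (α := ℝ)
    ext x
    simp only [Set.mem_ofPred_eq, Set.mem_empty_iff_false, iff_false]
    exact h x

lemma Adm.finite_dot {n : ℕ} {N : Matrix (Fin n) (Fin n) ℝ} {lam : Fin n → ℝ} (h : Adm N lam)
    (j : Fin n) (z : Fin (n + 1) → ℝ) (hz : ext (N j) 0 ⬝ᵥ z ≠ 0 ∨ z (Fin.last n) ≠ 0) (c : ℝ) :
    {θ ∈ Set.Ioo 0 (Real.pi / 2) | curve N lam θ (j, true) ⬝ᵥ z = c}.Finite := by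
  set r := (√(raw N lam 0 (j, true) ⬝ᵥ raw N lam 0 (j, true)))⁻¹ with hr
  have hrpos : 0 < r := nz_pos (h.raw_ne _ _)
  set f : Fin (n + 1) → ℝ := ext (fun l => ∑ k, xx N lam j k * du N k l) 0 with hf
  set α := f ⬝ᵥ z with hα
  set β := ext (N j) 0 ⬝ᵥ z with hβ
  set γ := z (Fin.last n) with hγ
  have hdot : ∀ θ, curve N lam θ (j, true) ⬝ᵥ z =
      r * (α + β * cc lam θ j + γ * ss lam θ j) := by
    intro θ
    have h1 : curve N lam θ (j, true) = r • raw N lam θ (j, true) := by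
      rw [curve_eq]
      unfold nz
      rw [h.raw_dot θ 0 (v := (j, true)) (w := (j, true)) (Or.inr rfl)]
    have h2 : raw N lam θ (j, true) = f + (cc lam θ j) • ext (N j) 0 + (ss lam θ j) • eL n := by
      simp only [raw, if_true]
      unfold vB
      funext l
      refine Fin.lastCases ?_ (fun l => ?_) l
      · simp only [Pi.add_apply, Pi.smul_apply, hf, ext_last, eL_last, smul_eq_mul, mul_zero,
          zero_add, mul_one]
      · rw [eL_ext]
        simp [hf, ext]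
    have h3 : eL n ⬝ᵥ z = γ := by
      rw [eL_ext, dotProduct, Fin.sum_univ_castSucc]
      simp [ext, hγ]
    rw [h1, smul_dotProduct, h2, add_dotProduct, add_dotProduct, smul_dotProduct, smul_dotProduct,
      h3]
    simp only [smul_eq_mul, hα, hβ]
    ring
  have hne : β ^ 2 + γ ^ 2 ≠ 0 := by
    rcases hz with h1 | h1
    · have := pow_pos (abs_pos.2 h1) 2
      rw [sq_abs] at this
      positivity
    · have := pow_pos (abs_pos.2 h1) 2
      rw [sq_abs] at this
      positivity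
  have hZ := finite_quad (a := β ^ 2 + γ ^ 2) (b := - 2 * (c / r - α) * β)
    (c := (c / r - α) ^ 2 - γ ^ 2) hne
  have hinj : Set.InjOn (fun θ => cc lam θ j) (Set.Ioo 0 (Real.pi / 2)) :=
    (cc_anti (h.pos j)).injOn.mono Set.Ioo_subset_Icc_self
  have h3 : {θ ∈ Set.Ioo 0 (Real.pi / 2) | curve N lam θ (j, true) ⬝ᵥ z = c} ⊆
      Set.Ioo 0 (Real.pi / 2) ∩ (fun θ => cc lam θ j) ⁻¹'
        {x : ℝ | (β ^ 2 + γ ^ 2) * x ^ 2 + (- 2 * (c / r - α) * β) * x +
          ((c / r - α) ^ 2 - γ ^ 2) = 0} := by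
    rintro θ ⟨h4, h5⟩
    refine ⟨h4, ?_⟩
    rw [hdot] at h5
    have h6 : α + β * cc lam θ j + γ * ss lam θ j = c / r := by
      rw [← h5]; field_simp
    have h7 := h.cs_sq θ j
    show (β ^ 2 + γ ^ 2) * cc lam θ j ^ 2 + (- 2 * (c / r - α) * β) * cc lam θ j +
          ((c / r - α) ^ 2 - γ ^ 2) = 0
    have h8 : γ * ss lam θ j = c / r - α - β * cc lam θ j := by linarith
    have h9 : γ ^ 2 * ss lam θ j ^ 2 = (c / r - α - β * cc lam θ j) ^ 2 := by
      rw [← h8]; ring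
    linear_combination γ ^ 2 * h7 - h9
  apply Set.Finite.subset _ h3
  rw [Set.inter_comm]
  have h4 := Set.Finite.preimage (f := fun θ : Set.Ioo (0 : ℝ) (Real.pi / 2) => cc lam θ.1 j)
    (s := {x : ℝ | (β ^ 2 + γ ^ 2) * x ^ 2 + (- 2 * (c / r - α) * β) * x +
          ((c / r - α) ^ 2 - γ ^ 2) = 0}) (by
      intro x _ y _ hxy
      exact Subtype.ext (hinj x.2 y.2 hxy)) hZ
  have h5 := h4.image Subtype.val
  apply h5.subset
  rintro θ ⟨h6, h7⟩
  exact ⟨⟨θ, h7⟩, h6, rfl⟩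

lemma univ3 : ∀ j m n : Fin 3, j ≠ m → j ≠ n → m ≠ n →
    (Finset.univ : Finset (Fin 3)) = {j, m, n} := by
  decide

/-- the Gram determinant -/
def g3 (x y z : Fin 4 → ℝ) : ℝ :=
  (x ⬝ᵥ x) * (y ⬝ᵥ y) * (z ⬝ᵥ z) + 2 * (x ⬝ᵥ y) * (y ⬝ᵥ z) * (x ⬝ᵥ z) -
    (x ⬝ᵥ x) * (y ⬝ᵥ z) ^ 2 - (y ⬝ᵥ y) * (x ⬝ᵥ z) ^ 2 - (z ⬝ᵥ z) * (x ⬝ᵥ y) ^ 2

lemma g3_zero (x y : Fin 4 → ℝ) (α β : ℝ) : g3 x y (α • x + β • y) = 0 := by
  unfold g3
  simp only [add_dotProduct, dotProduct_add, smul_dotProduct, dotProduct_smul, smul_eq_mul]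
  rw [dotProduct_comm y x]
  ring

lemma expand_dual {n : ℕ} {N : Matrix (Fin n) (Fin n) ℝ} (hN : N.det ≠ 0)
    (z : Fin (n + 1) → ℝ) (hz : z (Fin.last n) = 0) :
    z = ∑ m, (ext (N m) 0 ⬝ᵥ z) • vA N m := by
  have hu : IsUnit N.det := isUnit_iff_ne_zero.2 hN
  have hd : ∀ m, ext (N m) 0 ⬝ᵥ z = ∑ l, N m l * z l.castSucc := by
    intro m
    rw [dotProduct, Fin.sum_univ_castSucc]
    simp [ext]
  funext l
  rw [Finset.sum_apply]
  refine Fin.lastCases ?_ (fun l => ?_) l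
  · rw [hz]
    symm
    apply Finset.sum_eq_zero
    intro m _
    rw [Pi.smul_apply, vA_last, smul_zero]
  · have h1 : ∀ l l', ∑ m, N m l' * du N m l = if l = l' then 1 else 0 := by
      intro l l'
      have h2 := congrFun (congrFun (Matrix.nonsing_inv_mul N hu) l) l'
      rw [Matrix.mul_apply, Matrix.one_apply] at h2
      rw [← h2]
      exact Finset.sum_congr rfl fun m _ => mul_comm _ _
    have h3 : ∀ m, ((ext (N m) 0 ⬝ᵥ z) • vA N m) l.castSucc =
        ∑ l', (N m l' * du N m l) * z l'.castSucc := by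
      intro m
      rw [Pi.smul_apply, hd, smul_eq_mul, Finset.sum_mul]
      refine Finset.sum_congr rfl fun l' _ => ?_
      simp only [vA, ext, Fin.snoc_castSucc]
      ring
    rw [Finset.sum_congr rfl fun m _ => h3 m, Finset.sum_comm]
    simp only [← Finset.sum_mul, h1]
    simp

/-- three vectors with negative inner products as the base of an octahedron with three circles -/
lemma exists_place (p : Fin 3 → Fin 4 → ℝ) (hp : ∀ i, OnSphere (p i))
    (hLI : LinearIndependent ℝ p) (hneg : ∀ i j, i ≠ j → p i ⬝ᵥ p j < 0) :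
    ∃ (M : Matrix (Fin 4) (Fin 4) ℝ) (N : Matrix (Fin 3) (Fin 3) ℝ), M.transpose * M = 1 ∧
      ObtN N ∧ ∀ i, M.mulVec (nz (vA N i)) = p i := by
  obtain ⟨M₀, hM₀, hlast⟩ := exists_orth (n := 3) p
  set u : Matrix (Fin 3) (Fin 3) ℝ := Matrix.of fun i l => M₀.mulVec (p i) l.castSucc with hu
  have hext : ∀ i, ext (u i) 0 = M₀.mulVec (p i) := by
    intro i
    funext l
    refine Fin.lastCases ?_ (fun l => ?_) l
    · rw [ext_last]; exact (hlast i).symm
    · simp [ext, hu]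
  have hdet : u.det ≠ 0 := by
    have h1 : LinearIndependent ℝ (fun i => (u i : Fin 3 → ℝ)) := by
      rw [Fintype.linearIndependent_iff]
      intro g hg
      rw [Fintype.linearIndependent_iff] at hLI
      apply hLI
      have h2 : ∑ i, g i • M₀.mulVec (p i) = 0 := by
        funext l
        rw [Finset.sum_apply]
        refine Fin.lastCases ?_ (fun l => ?_) l
        · apply Finset.sum_eq_zero
          intro i _
          rw [Pi.smul_apply]
          have := hlast i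
          rw [this, smul_zero]
        · have h3 := congrFun hg l
          rw [Finset.sum_apply] at h3
          exact h3
      have h4 := congrArg (fun z => M₀.transpose.mulVec z) h2
      simp only [Matrix.mulVec_sum, Matrix.mulVec_smul, Matrix.mulVec_mulVec, hM₀,
        Matrix.one_mulVec, Matrix.mulVec_zero] at h4
      exact h4
    exact (dt_ne_zero_iff _).2 h1
  obtain ⟨N, hN, hunit, r, hr, hdu⟩ := exists_N u hdet
  have hvA : ∀ i, vA N i = r i • M₀.mulVec (p i) := by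
    intro i
    rw [← hext]
    unfold vA
    funext l
    refine Fin.lastCases ?_ (fun l => ?_) l
    · rw [Pi.smul_apply, ext_last, ext_last, smul_zero]
    · simp [ext, hdu]
  have hdot : ∀ i j, M₀.mulVec (p i) ⬝ᵥ M₀.mulVec (p j) = ∑ l, u i l * u j l := by
    intro i j
    rw [← hext, ← hext, ext_dot]
    simp
  refine ⟨M₀.transpose, N, ?_, ⟨hN, hunit, ?_⟩, ?_⟩
  · rw [Matrix.transpose_transpose]
    exact mul_eq_one_comm.1 hM₀
  · apply obt_of hN hunit
    intro i j hij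
    have h1 : ∑ l, du N i l * du N j l = r i * r j * (p i ⬝ᵥ p j) := by
      rw [← mulVec_dot hM₀, hdot, Finset.mul_sum]
      refine Finset.sum_congr rfl fun l _ => ?_
      rw [hdu, hdu]; ring
    rw [h1]
    exact mul_neg_of_pos_of_neg (mul_pos (hr i) (hr j)) (hneg i j hij)
  · intro i
    have h1 : M₀.mulVec (p i) ⬝ᵥ M₀.mulVec (p i) = 1 := by
      rw [mulVec_dot hM₀]
      exact (hp i).dot_self
    rw [hvA, nz_smul (hr i), nz_unit h1, Matrix.mulVec_mulVec, hM₀, Matrix.one_mulVec]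

/-- three closed curves of octahedra on a common base -/
structure Block (p : Fin 3 → Fin 4 → ℝ) (Q : Fin 3 → ℝ → Fin 3 × Bool → Fin 4 → ℝ)
    (k : Fin 3 → Set (Fin 3 × Bool) → ℤ) : Prop where
  cont : ∀ e, Continuous (Q e)
  zero : ∀ e, Q e 0 = Q 0 0
  pi : ∀ e, Q e Real.pi = Q e 0
  base : ∀ e θ i, Q e θ (i, false) = p i
  poly : ∀ e θ, IsPolyhedron (crossPolytope 3) (Q e θ)
  dot : ∀ e e' θ θ' (v w : Fin 3 × Bool), (v.1 ≠ w.1 ∨ v = w) →
    Q e θ v ⬝ᵥ Q e θ w = Q e' θ' v ⬝ᵥ Q e' θ' w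
  par : ∀ e θ v w, v ≠ w → ∀ a b : ℝ, a • Q e θ v = b • Q e θ w → a = 0 ∧ b = 0
  anti : ∀ e i, StrictAntiOn (fun θ => Q e θ (i, false) ⬝ᵥ Q e θ (i, true))
    (Set.Icc 0 (Real.pi / 2))
  sq : ∀ e θ (i k : Fin 3), i ≠ k → (Q e θ (i, true) ⬝ᵥ p k) ^ 2 = (p i ⬝ᵥ p k) ^ 2
  fin : ∀ (j m n : Fin 3), j ≠ m → j ≠ n → m ≠ n → ∀ z, g3 (p m) (p n) z ≠ 0 → ∀ c,
    {θ ∈ Set.Ioo 0 (Real.pi / 2) | Q 0 θ (j, true) ⬝ᵥ z = c}.Finite
  inc : ∀ e A, IncrementAlong (crossPolytope 3)
    (fun t => antipodes A (Q e (Real.pi * t))) (k e A)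
  ne : ∀ A : Set (Fin 3 × Bool), (∀ i j, (i, false) ∈ A ↔ (j, false) ∈ A) → ∃ e, k e A ≠ 0

lemma IncrementAlong.mv {V : Type} {n : ℕ} {K : OrientedPseudomanifold V n}
    {M : Matrix (Fin (n + 1)) (Fin (n + 1)) ℝ} (hM : M.transpose * M = 1)
    {γ : unitInterval → V → Fin (n + 1) → ℝ} {k : ℤ} (h : IncrementAlong K γ k) :
    ∃ s : ℤ, (s = 1 ∨ s = -1) ∧ (s : ℝ) = M.det ∧
      IncrementAlong K (fun t => mv M (γ t)) (s * k) := by
  obtain ⟨W, hW, hov, hinc⟩ := h
  obtain ⟨s, hs, hs'⟩ : ∃ s : ℤ, (s = 1 ∨ s = -1) ∧ (s : ℝ) = M.det := by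
    rcases det_sq hM with h1 | h1
    · exact ⟨1, Or.inl rfl, by rw [h1]; norm_num⟩
    · exact ⟨-1, Or.inr rfl, by rw [h1]; norm_num⟩
  refine ⟨s, hs, hs', fun t => M.det * W t, continuous_const.mul hW, fun t => (hov t).mv hM, ?_⟩
  push_cast
  rw [hs', ← mul_sub, hinc]
  ring

lemma exists_block (p : Fin 3 → Fin 4 → ℝ) (hp : ∀ i, OnSphere (p i))
    (hLI : LinearIndependent ℝ p) (hneg : ∀ i j, i ≠ j → p i ⬝ᵥ p j < 0) :
    ∃ Q k, Block p Q k := by
  obtain ⟨M, N, hM, hO, hbase⟩ := exists_place p hp hLI hneg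
  have hinc : ∀ e (A : Set (Fin 3 × Bool)), ∃ s : ℤ, (s = 1 ∨ s = -1) ∧
      IncrementAlong (crossPolytope 3)
        (fun t => antipodes A (mv M (curve N (lm N e) (Real.pi * t))))
        (s * (tau N A * cnt (lm N e) A)) := by
    intro e A
    obtain ⟨s, hs, _, h1⟩ := ((hO.adm e).increment_exact A).mv hM
    refine ⟨s, hs, ?_⟩
    have h2 : (fun t => mv M (antipodes A (loop N (lm N e) t))) =
        fun t : unitInterval => antipodes A (mv M (curve N (lm N e) (Real.pi * t))) := by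
      funext t
      rw [mv_antipodes]
      rfl
    rw [h2] at h1
    exact h1
  choose s hs hs' using hinc
  refine ⟨fun e θ => mv M (curve N (lm N e) θ), fun e A => s e A * (tau N A * cnt (lm N e) A),
    ?_, ?_, ?_, ?_, ?_, ?_, ?_, ?_, ?_, ?_, ?_, ?_⟩
  · intro e
    have h1 : Continuous (fun P : Fin 3 × Bool → Fin 4 → ℝ => mv M P) := by
      rw [continuous_pi_iff]
      intro v
      unfold mv
      fun_prop
    exact h1.comp (hO.adm e).continuous_curve
  · intro e
    simp only [hO.curve_zero_eq e]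
  · intro e
    simp only [curve_pi]
  · intro e θ i
    exact hbase i
  · intro e θ
    have h1 := (hO.adm e).isPolyhedron θ
    constructor
    · intro v
      exact mv_onSphere hM (h1.1 v)
    · intro F hF
      have h2 := h1.2 F hF
      rw [Fintype.linearIndependent_iff] at h2 ⊢
      intro g hg
      apply h2
      have h4 := congrArg (fun z => M.transpose.mulVec z) hg
      simp only [mv, Matrix.mulVec_sum, Matrix.mulVec_smul, Matrix.mulVec_mulVec, hM,
        Matrix.one_mulVec, Matrix.mulVec_zero] at h4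
      exact h4
  · intro e e' θ θ' v w hvw
    unfold mv
    rw [mulVec_dot hM, mulVec_dot hM]
    exact hO.curve_dot e e' θ θ' hvw
  · intro e θ v w hvw a b hab
    apply (hO.adm e).not_parallel (by norm_num) (hO.par e) θ hvw
    have h4 := congrArg (fun z => M.transpose.mulVec z) hab
    simp only [mv, Matrix.mulVec_smul, Matrix.mulVec_mulVec, hM,
      Matrix.one_mulVec] at h4
    exact h4
  · intro e i x hx y hy hxy
    obtain ⟨a, b, hb, hab⟩ := (hO.adm e).opp_dot i
    simp only [mv, mulVec_dot hM, hab]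
    have := cc_anti ((hO.adm e).pos i) hx hy hxy
    simp only at this
    have := mul_lt_mul_of_pos_left this hb
    linarith
  · intro e θ i k hik
    rw [← hbase i, ← hbase k]
    simp only [mv]
    rw [mulVec_dot hM, mulVec_dot hM]
    exact hO.sq_dot e θ hik
  · intro j m n hjm hjn hmn z hz c
    have h1 : ∀ θ, mv M (curve N (lm N 0) θ) (j, true) ⬝ᵥ z =
        curve N (lm N 0) θ (j, true) ⬝ᵥ M.transpose.mulVec z := by
      intro θ
      unfold mv
      have hM' : M * M.transpose = 1 := mul_eq_one_comm.1 hM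
      have h2 := mulVec_dot hM (curve N (lm N 0) θ (j, true)) (M.transpose.mulVec z)
      rw [Matrix.mulVec_mulVec, hM', Matrix.one_mulVec] at h2
      exact h2
    simp only [h1]
    apply (hO.adm 0).finite_dot
    by_contra hcon
    push Not at hcon
    obtain ⟨h2, h3⟩ := hcon
    apply hz
    have h4 := expand_dual hO.det_ne (M.transpose.mulVec z) h3
    have h5 : ∀ i, M.mulVec (vA N i) = √(vA N i ⬝ᵥ vA N i) • p i := by
      intro i
      rw [← hbase i]
      unfold nz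
      rw [Matrix.mulVec_smul, smul_smul, mul_inv_cancel₀
        (Real.sqrt_pos.2 (dot_self_pos (vA_ne hO.det_ne i))).ne', one_smul]
    have h6 : z = ∑ i, ((ext (N i) 0 ⬝ᵥ M.transpose.mulVec z) * √(vA N i ⬝ᵥ vA N i)) • p i := by
      have hM' : M * M.transpose = 1 := mul_eq_one_comm.1 hM
      have h7 := congrArg (fun y => M.mulVec y) h4
      simp only [Matrix.mulVec_mulVec, hM', Matrix.one_mulVec, Matrix.mulVec_sum,
        Matrix.mulVec_smul, h5, smul_smul] at h7
      exact h7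
    rw [univ3 j m n hjm hjn hmn, Finset.sum_insert (by simp [hjm, hjn]), Finset.sum_insert (by simp [hmn]),
      Finset.sum_singleton, h2, zero_mul, zero_smul, zero_add] at h6
    rw [h6]
    exact g3_zero _ _ _ _
  · intro e A
    exact hs' e A
  · intro A hA
    obtain ⟨e, he⟩ := hO.exists_cnt A hA
    refine ⟨e, ?_⟩
    have h1 : s e A ≠ 0 := by rcases hs e A with h | h <;> rw [h] <;> norm_num
    have h2 : tau N A ≠ 0 := by rcases tau_cases hO.det_ne A with h | h <;> rw [h] <;> norm_num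
    exact mul_ne_zero h1 (mul_ne_zero h2 he)

end block

end Pool.Agent.helper69.FlexPoly
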