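import Pool.Agent.helper69.FlexPoly.Defs

set_option autoImplicit false

open MeasureTheory

namespace Pool.Agent.helper69.FlexPoly

/-! ### A combinatorial identity for real numbers -/

section real

variable {ι : Type*} [Fintype ι] [DecidableEq ι]

/-- the event that the line `c - s * lam` leaves or enters the positive orthant through the
`i`-th facet, for a positive value of the parameter `s` -/
def Ev (lam c : ι → ℝ) (i : ι) : Prop :=
  0 < c i / lam i ∧ ∀ k, k ≠ i → 0 < c k - lam k * (c i / lam i)

/-- the line meets the open positive orthant for some positive parameter -/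
def Good (lam c : ι → ℝ) : Prop := ∃ s : ℝ, 0 < s ∧ ∀ k, 0 < c k - lam k * s

lemma good_of_ev_pos {lam c : ι → ℝ} {i : ι} (hi : 0 < lam i) (h : Ev lam c i) : Good lam c := by
  obtain ⟨h0, h1⟩ := h
  have e : ∀ k, ∀ᶠ s in nhdsWithin (c i / lam i) (Set.Iio (c i / lam i)), 0 < c k - lam k * s := by
    intro k
    by_cases hk : k = i
    · subst hk
      filter_upwards [self_mem_nhdsWithin] with s hs
      rw [Set.mem_Iio, lt_div_iff₀ hi] at hs
      linarith
    · have hc : Filter.Tendsto (fun s => c k - lam k * s)
          (nhdsWithin (c i / lam i) (Set.Iio (c i / lam i))) (nhds (c k - lam k * (c i / lam i))) :=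
        ((continuous_const.sub (continuous_const.mul continuous_id)).tendsto _).mono_left
          nhdsWithin_le_nhds
      exact hc.eventually (lt_mem_nhds (h1 k hk))
  have e' := Filter.eventually_all.2 e
  have e0 : ∀ᶠ s in nhdsWithin (c i / lam i) (Set.Iio (c i / lam i)), 0 < s :=
    nhdsWithin_le_nhds (lt_mem_nhds h0)
  obtain ⟨s, hs1, hs2⟩ := (e'.and e0).exists
  exact ⟨s, hs2, hs1⟩

lemma good_of_ev_neg {lam c : ι → ℝ} {i : ι} (hi : lam i < 0) (h : Ev lam c i) : Good lam c := by
  obtain ⟨h0, h1⟩ := h
  have e : ∀ k, ∀ᶠ s in nhdsWithin (c i / lam i) (Set.Ioi (c i / lam i)), 0 < c k - lam k * s := by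
    intro k
    by_cases hk : k = i
    · subst hk
      filter_upwards [self_mem_nhdsWithin] with s hs
      rw [Set.mem_Ioi, div_lt_iff_of_neg hi] at hs
      linarith
    · have hc : Filter.Tendsto (fun s => c k - lam k * s)
          (nhdsWithin (c i / lam i) (Set.Ioi (c i / lam i))) (nhds (c k - lam k * (c i / lam i))) :=
        ((continuous_const.sub (continuous_const.mul continuous_id)).tendsto _).mono_left
          nhdsWithin_le_nhds
      exact hc.eventually (lt_mem_nhds (h1 k hk))
  have e' := Filter.eventually_all.2 e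
  have e0 : ∀ᶠ s in nhdsWithin (c i / lam i) (Set.Ioi (c i / lam i)), 0 < s :=
    nhdsWithin_le_nhds (lt_mem_nhds h0)
  obtain ⟨s, hs1, hs2⟩ := (e'.and e0).exists
  exact ⟨s, hs2, hs1⟩

open Classical in
lemma sum_pos {lam c : ι → ℝ} (hgen : ∀ i k, k ≠ i → lam i ≠ 0 → c k - lam k * (c i / lam i) ≠ 0) :
    ∑ i, (if 0 < lam i ∧ Ev lam c i then (1 : ℤ) else 0) =
      if Good lam c ∧ ∃ i, 0 < lam i then 1 else 0 := by
  by_cases h : Good lam c ∧ ∃ i, 0 < lam i
  · rw [if_pos h]
    obtain ⟨⟨s₀, hs₀, hgood⟩, j, hj⟩ := h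
    obtain ⟨i, hi, hmin⟩ := Finset.exists_min_image (Finset.univ.filter fun i => 0 < lam i)
      (fun i => c i / lam i) ⟨j, by simpa using hj⟩
    simp only [Finset.mem_filter, Finset.mem_univ, true_and] at hi hmin
    have hratio : ∀ k, 0 < lam k → s₀ < c k / lam k := by
      intro k hk
      rw [lt_div_iff₀ hk]
      linarith [hgood k]
    have hev : Ev lam c i := by
      refine ⟨hs₀.trans (hratio i hi), fun k hk => ?_⟩
      rcases le_or_gt (lam k) 0 with h1 | h1
      · have := hgood k
        nlinarith [hratio i hi]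
      · have h2 := hmin k h1
        rw [le_div_iff₀ h1] at h2
        exact lt_of_le_of_ne (by linarith) (hgen i k hk hi.ne').symm
    rw [Finset.sum_eq_single i]
    · rw [if_pos ⟨hi, hev⟩]
    · intro k _ hki
      rw [if_neg]
      rintro ⟨hk, hev'⟩
      have h1 := hev'.2 i (Ne.symm hki)
      have h2 := hmin k hk
      have h3 : c i / lam i > c k / lam k := by
        rw [gt_iff_lt, lt_div_iff₀ hi]; linarith
      linarith
    · simp
  · rw [if_neg h]
    apply Finset.sum_eq_zero
    intro i _
    rw [if_neg]
    rintro ⟨hi, hev⟩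
    exact h ⟨good_of_ev_pos hi hev, i, hi⟩

open Classical in
lemma sum_neg {lam c : ι → ℝ} (hc : ∀ i, c i ≠ 0)
    (hgen : ∀ i k, k ≠ i → lam i ≠ 0 → c k - lam k * (c i / lam i) ≠ 0) :
    (if ∀ k, 0 < c k then (1 : ℤ) else 0) +
      ∑ i, (if lam i < 0 ∧ Ev lam c i then (1 : ℤ) else 0) =
      if Good lam c then 1 else 0 := by
  by_cases hpos : ∀ k, 0 < c k
  · rw [if_pos hpos, if_pos]
    · rw [Finset.sum_eq_zero, add_zero]
      intro i _
      rw [if_neg]
      rintro ⟨hi, hev⟩
      have h1 := div_neg_of_pos_of_neg (hpos i) hi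
      linarith [hev.1]
    · have e : ∀ k, ∀ᶠ s in nhdsWithin (0 : ℝ) (Set.Ioi 0), 0 < c k - lam k * s := by
        intro k
        have hc : Filter.Tendsto (fun s => c k - lam k * s)
            (nhdsWithin (0 : ℝ) (Set.Ioi 0)) (nhds (c k - lam k * 0)) :=
          ((continuous_const.sub (continuous_const.mul continuous_id)).tendsto _).mono_left
            nhdsWithin_le_nhds
        exact hc.eventually (lt_mem_nhds (by simpa using hpos k))
      have e' := Filter.eventually_all.2 e
      obtain ⟨s, hs1, hs2⟩ := (e'.and self_mem_nhdsWithin).exists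
      exact ⟨s, hs2, hs1⟩
  · rw [if_neg hpos, zero_add]
    push Not at hpos
    obtain ⟨j, hj⟩ := hpos
    have hj' : c j < 0 := lt_of_le_of_ne hj (hc j)
    by_cases h : Good lam c
    · rw [if_pos h]
      obtain ⟨s₀, hs₀, hgood⟩ := h
      have hlj : lam j < 0 := by
        by_contra hcon
        push Not at hcon
        have := hgood j
        nlinarith
      obtain ⟨i, hi, hmax⟩ := Finset.exists_max_image (Finset.univ.filter fun i => lam i < 0)
        (fun i => c i / lam i) ⟨j, by simpa using hlj⟩
      simp only [Finset.mem_filter, Finset.mem_univ, true_and] at hi hmax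
      have hratio : ∀ k, lam k < 0 → c k / lam k < s₀ := by
        intro k hk
        rw [div_lt_iff_of_neg hk]
        linarith [hgood k]
      have hev : Ev lam c i := by
        refine ⟨(div_pos_of_neg_of_neg hj' hlj).trans_le (hmax j hlj), fun k hk => ?_⟩
        rcases le_or_gt 0 (lam k) with h1 | h1
        · have := hgood k
          nlinarith [hratio i hi]
        · have h2 := hmax k h1
          rw [div_le_iff_of_neg h1] at h2
          exact lt_of_le_of_ne (by linarith) (hgen i k hk hi.ne).symm
      rw [Finset.sum_eq_single i]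
      · rw [if_pos ⟨hi, hev⟩]
      · intro k _ hki
        rw [if_neg]
        rintro ⟨hk, hev'⟩
        have h1 := hev'.2 i (Ne.symm hki)
        have h2 := hmax k hk
        have h3 : c i / lam i < c k / lam k := by
          rw [div_lt_iff_of_neg hi]; linarith
        linarith
      · simp
    · rw [if_neg h]
      apply Finset.sum_eq_zero
      intro i _
      rw [if_neg]
      rintro ⟨hi, hev⟩
      exact h (good_of_ev_neg hi hev)

open Classical in
/-- The combinatorial identity. -/
lemma real_identity (lam c : ι → ℝ) (hc : ∀ i, c i ≠ 0)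
    (hgen : ∀ i k, k ≠ i → lam i ≠ 0 → c k - lam k * (c i / lam i) ≠ 0)
    (hlam : (∀ k, lam k ≤ 0) → ∀ k, lam k < 0) :
    (if ∀ k, 0 < c k then (1 : ℤ) else 0) =
      ∑ i, (if Ev lam c i then (SignType.sign (lam i) : ℤ) else 0) +
        (if ∀ k, lam k < 0 then 1 else 0) := by
  have h1 := sum_pos hgen
  have h2 := sum_neg hc hgen
  have h3 : ∑ i, (if Ev lam c i then (SignType.sign (lam i) : ℤ) else 0) =
      ∑ i, (if 0 < lam i ∧ Ev lam c i then (1 : ℤ) else 0) -
        ∑ i, (if lam i < 0 ∧ Ev lam c i then (1 : ℤ) else 0) := by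
    rw [← Finset.sum_sub_distrib]
    apply Finset.sum_congr rfl
    intro i _
    by_cases hev : Ev lam c i
    · rcases lt_trichotomy (lam i) 0 with h | h | h
      · simp [hev, h, not_lt.2 h.le, sign_neg h]
      · simp [hev, h]
      · simp [hev, h, not_lt.2 h.le, sign_pos h]
    · simp [hev]
  rw [h3, h1]
  by_cases hp : ∃ i, 0 < lam i
  · have h4 : ¬ ∀ k, lam k < 0 := by
      obtain ⟨i, hi⟩ := hp
      intro h
      linarith [h i]
    simp only [hp, and_true, h4, if_false]
    linarith
  · have h5 : ∀ k, lam k < 0 := hlam (by push Not at hp; exact hp)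
    have h6 : Good lam c := by
      have e : ∀ k, ∀ᶠ s in Filter.atTop, 0 < c k - lam k * s := by
        intro k
        have : Filter.Tendsto (fun s => c k + (-lam k) * s) Filter.atTop Filter.atTop :=
          Filter.tendsto_atTop_add_const_left _ _
            (Filter.Tendsto.const_mul_atTop (by linarith [h5 k]) Filter.tendsto_id)
        filter_upwards [this.eventually_gt_atTop 0] with s hs
        linarith
      have e' := Filter.eventually_all.2 e
      obtain ⟨s, hs1, hs2⟩ := (e'.and (Filter.eventually_gt_atTop (0 : ℝ))).exists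
      exact ⟨s, hs2, hs1⟩
    have h7 : ¬ (Good lam c ∧ ∃ i, 0 < lam i) := fun h => hp h.2
    rw [if_neg h7, if_pos h5]
    rw [if_pos h6] at h2
    linarith

end real

end Pool.Agent.helper69.FlexPoly
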