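import Pool.Agent.helper69.FlexPoly.Three

set_option autoImplicit false

open MeasureTheory Filter Topology

namespace Pool.Agent.helper69.FlexPoly

section circle

/-- the potentials of the three circles of `N` -/
noncomputable def lm (N : Matrix (Fin 3) (Fin 3) ℝ) (e : Fin 3) : Fin 3 → ℝ :=
  lamc (gr N 1 2) (gr N 2 0) (gr N 0 1) e

/-- the assumptions on the normals -/
structure ObtN (N : Matrix (Fin 3) (Fin 3) ℝ) : Prop where
  det_ne : N.det ≠ 0
  unit : ∀ i, ∑ l, N i l ^ 2 = 1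
  obt : Obt (gr N 1 2) (gr N 2 0) (gr N 0 1)

variable {N : Matrix (Fin 3) (Fin 3) ℝ}

lemma ObtN.adm (h : ObtN N) (e : Fin 3) : Adm N (lm N e) :=
  ⟨h.det_ne, h.unit, lamc_pos h.obt e, lamc_inj h.obt e⟩

lemma ObtN.xx_eq (h : ObtN N) (e : Fin 3) : xx N (lm N e) = xx N (lm N 0) := by
  have h1 := xx_circle h.obt e
  have h2 := xx_circle h.obt 0
  have hd : ∀ e i, xx N (lm N e) i i = 0 := by
    intro e i
    have := xx_anti (N := N) (lam := lm N e) i i
    linarith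
  have h01 : xx N (lm N e) 0 1 = xx N (lm N 0) 0 1 := h1.1.trans h2.1.symm
  have h12 : xx N (lm N e) 1 2 = xx N (lm N 0) 1 2 := h1.2.1.trans h2.2.1.symm
  have h20 : xx N (lm N e) 2 0 = xx N (lm N 0) 2 0 := h1.2.2.trans h2.2.2.symm
  have h02 : xx N (lm N e) 0 2 = xx N (lm N 0) 0 2 := by
    rw [xx_anti 0 2, h20, ← xx_anti]
  have h10 : xx N (lm N e) 1 0 = xx N (lm N 0) 1 0 := by
    rw [xx_anti 1 0, h01, ← xx_anti]
  have h21 : xx N (lm N e) 2 1 = xx N (lm N 0) 2 1 := by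
    rw [xx_anti 2 1, h12, ← xx_anti]
  funext i j
  fin_cases i <;> fin_cases j
  · exact (hd _ _).trans (hd _ _).symm
  · exact h01
  · exact h02
  · exact h10
  · exact (hd _ _).trans (hd _ _).symm
  · exact h12
  · exact h20
  · exact h21
  · exact (hd _ _).trans (hd _ _).symm

lemma ObtN.curve_zero_eq (h : ObtN N) (e : Fin 3) :
    curve N (lm N e) 0 = curve N (lm N 0) 0 := by
  rw [curve_zero, curve_zero, h.xx_eq e]

lemma ObtN.curve_dot (h : ObtN N) (e e' : Fin 3) (θ θ' : ℝ) {v w : Fin 3 × Bool}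
    (hvw : v.1 ≠ w.1 ∨ v = w) :
    curve N (lm N e) θ v ⬝ᵥ curve N (lm N e) θ w =
      curve N (lm N e') θ' v ⬝ᵥ curve N (lm N e') θ' w := by
  rw [(h.adm e).curve_dot θ 0 hvw, (h.adm e').curve_dot θ' 0 hvw, h.curve_zero_eq e,
    h.curve_zero_eq e']

lemma xx_lt (h : Obt (gr N 1 2) (gr N 2 0) (gr N 0 1)) (e : Fin 3) :
    |xx N (lm N e) 0 1| < gr N 0 1 ∧ |xx N (lm N e) 1 2| < gr N 1 2 ∧
      |xx N (lm N e) 2 0| < gr N 2 0 := by
  have h1 := xx_circle h e
  have hS := h.SS_pos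
  unfold lm
  rw [h1.1, h1.2.1, h1.2.2]
  refine ⟨?_, ?_, ?_⟩
  · rw [abs_div, abs_of_pos hS, div_lt_iff₀ hS]
    have := h.rot.rot.abs_nn
    rwa [SS_rot, SS_rot] at this
  · rw [abs_div, abs_of_pos hS, div_lt_iff₀ hS]
    exact h.abs_nn
  · rw [abs_div, abs_of_pos hS, div_lt_iff₀ hS]
    have := h.rot.abs_nn
    rwa [SS_rot] at this

lemma ObtN.par (h : ObtN N) (e : Fin 3) (i k : Fin 3) (hik : i ≠ k) :
    gr N i k * lm N e i ≠ lm N e k := by
  have h1 := xx_lt h.obt e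
  intro h2
  have h3 := (xx_add (h.adm e) hik.symm).1.2 h2
  have key : ∀ i j : Fin 3, |xx N (lm N e) i j| < gr N i j → xx N (lm N e) i j + gr N i j ≠ 0 ∧
      xx N (lm N e) j i + gr N j i ≠ 0 := by
    intro i j hij
    have := abs_lt.1 hij
    constructor
    · intro h4; linarith
    · rw [gr_comm, xx_anti]
      intro h4; linarith
  fin_cases i <;> fin_cases k
  · exact hik rfl
  · exact (key 0 1 h1.1).1 h3
  · exact (key 2 0 h1.2.2).2 h3
  · exact (key 0 1 h1.1).2 h3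
  · exact hik rfl
  · exact (key 1 2 h1.2.1).1 h3
  · exact (key 2 0 h1.2.2).1 h3
  · exact (key 1 2 h1.2.1).2 h3
  · exact hik rfl

/-! ### The increments -/

/-- the number that determines the increment, for the circle `e` -/
def cntB (e : Fin 3) (α β : Fin 3 → Bool) : ℤ :=
  ∑ i, if ∀ j, (rk e j < rk e i → β j = !(α j)) ∧ (rk e i < rk e j → β j = α j)
    then (if α i then -1 else 1) else 0

lemma cnt_eq (h : Obt (gr N 1 2) (gr N 2 0) (gr N 0 1)) (e : Fin 3) (A : Set (Fin 3 × Bool))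
    (α β : Fin 3 → Bool) (hα : ∀ i, α i = true ↔ (i, false) ∈ A)
    (hβ : ∀ i, β i = true ↔ (i, true) ∈ A) : cnt (lm N e) A = cntB e α β := by
  classical
  unfold cnt cntB
  refine Finset.sum_congr rfl fun i _ => ?_
  have h1 : (∀ j, (lm N e j < lm N e i → ((j, true) ∈ A ↔ (j, false) ∉ A)) ∧
      (lm N e i < lm N e j → ((j, true) ∈ A ↔ (j, false) ∈ A))) ↔
      ∀ j, (rk e j < rk e i → β j = !(α j)) ∧ (rk e i < rk e j → β j = α j) := by
    refine forall_congr' fun j => ?_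
    unfold lm
    rw [lamc_lt h e j i, lamc_lt h e i j, ← hα, ← hβ]
    cases α j <;> cases β j <;> simp
  have h2 : (i, false) ∈ A ↔ α i = true := (hα i).symm
  simp only [h1, h2]

lemma cntB_ne (α β : Fin 3 → Bool) (hα : ∀ i j, α i = α j) : ∃ e, cntB e α β ≠ 0 := by
  revert α β
  decide

lemma ObtN.exists_cnt (h : ObtN N) (A : Set (Fin 3 × Bool))
    (hA : ∀ i j, (i, false) ∈ A ↔ (j, false) ∈ A) : ∃ e, cnt (lm N e) A ≠ 0 := by
  classical
  set α : Fin 3 → Bool := fun i => decide ((i, false) ∈ A) with hα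
  set β : Fin 3 → Bool := fun i => decide ((i, true) ∈ A) with hβ
  obtain ⟨e, he⟩ := cntB_ne α β (fun i j => by simp only [hα, hA i j])
  refine ⟨e, ?_⟩
  rw [cnt_eq h.obt e A α β (fun i => by simp [hα]) (fun i => by simp [hβ])]
  exact he

end circle

end Pool.Agent.helper69.FlexPoly
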