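import Pool.Agent.helper69.FlexPoly.Nondeg

set_option autoImplicit false

open MeasureTheory Filter Topology

namespace Pool.Agent.helper69.FlexPoly

/-! ### Combining loops -/

section comb

variable {V : Type} {n : ℕ} {K : OrientedPseudomanifold V n} {C : Set (V → Fin (n + 1) → ℝ)}

/-- `γ` is a path in `C`, and for every `A` the increment of the oriented volume, after replacing
the vertices in `A` by their antipodes, is `r A`. -/
def GoodP (K : OrientedPseudomanifold V n) (C : Set (V → Fin (n + 1) → ℝ))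
    {P Q : V → Fin (n + 1) → ℝ} (γ : Path P Q) (r : Set V → ℝ) : Prop :=
  (∀ t, γ t ∈ C) ∧ ∀ A, Inc K (γ.map (continuous_antipodes A)) (r A)

lemma GoodP.trans {P Q R : V → Fin (n + 1) → ℝ} {γ : Path P Q} {γ' : Path Q R}
    {r r' : Set V → ℝ} (h : GoodP K C γ r) (h' : GoodP K C γ' r') :
    GoodP K C (γ.trans γ') (fun A => r A + r' A) := by
  constructor
  · intro t
    rw [Path.trans_apply]
    split_ifs
    · exact h.1 _
    · exact h'.1 _
  · intro A
    rw [Path.map_trans]
    exact inc_trans (h.2 A) (h'.2 A)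

lemma GoodP.symm {P Q : V → Fin (n + 1) → ℝ} {γ : Path P Q}
    {r : Set V → ℝ} (h : GoodP K C γ r) : GoodP K C γ.symm (fun A => - r A) := by
  constructor
  · intro t
    rw [Path.symm_apply]
    exact h.1 _
  · intro A
    rw [← Path.map_symm]
    exact inc_symm (h.2 A)

lemma goodP_refl (hC : ∀ P ∈ C, IsPolyhedron K P) {P : V → Fin (n + 1) → ℝ} (h : P ∈ C) :
    GoodP K C (Path.refl P) (fun _ => 0) := by
  constructor
  · intro t; exact h
  · intro A
    have : (Path.refl P).map (continuous_antipodes A) = Path.refl (antipodes A P) := by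
      ext t; rfl
    rw [this]
    exact inc_refl ((hC P h).antipodes A)

lemma GoodP.pow (hC : ∀ P ∈ C, IsPolyhedron K P) {P : V → Fin (n + 1) → ℝ} {γ : Path P P}
    {r : Set V → ℝ} (h : GoodP K C γ r) (m : ℕ) :
    ∃ γ' : Path P P, GoodP K C γ' (fun A => m * r A) := by
  induction m with
  | zero =>
      refine ⟨Path.refl P, ?_⟩
      have hP : P ∈ C := by
        have := h.1 0
        rwa [γ.source] at this
      simpa using goodP_refl hC hP
  | succ m ih =>
      obtain ⟨γ', hγ'⟩ := ih
      refine ⟨γ'.trans γ, ?_⟩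
      have := hγ'.trans h
      convert this using 2
      push_cast
      ring

lemma exists_goodP (hC : ∀ P ∈ C, IsPolyhedron K P) {P Q : V → Fin (n + 1) → ℝ}
    (h : JoinedIn C P Q) : ∃ (γ : Path P Q) (r : Set V → ℝ), GoodP K C γ r := by
  obtain ⟨γ, hγ⟩ := h
  have h1 : ∀ A, ∃ r, Inc K (γ.map (continuous_antipodes A)) r := by
    intro A
    apply inc_exists
    intro t
    exact (hC _ (hγ t)).antipodes A
  choose r hr using h1
  exact ⟨γ, r, hγ, hr⟩

lemma goodP_conj (hC : ∀ P ∈ C, IsPolyhedron K P) {P Q : V → Fin (n + 1) → ℝ}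
    (h : JoinedIn C P Q) {ρ : Path Q Q} {r : Set V → ℝ} (hρ : GoodP K C ρ r) :
    ∃ γ : Path P P, GoodP K C γ r := by
  obtain ⟨p, s, hp⟩ := exists_goodP hC h
  refine ⟨p.trans (ρ.trans p.symm), ?_⟩
  have := hp.trans (hρ.trans hp.symm)
  convert this using 2
  ring

/-- One loop detects all sets that are detected by one of finitely many loops. -/
lemma exists_single {ι : Type*} (hC : ∀ P ∈ C, IsPolyhedron K P)
    {P : V → Fin (n + 1) → ℝ} (hP : P ∈ C) (T : Finset ι) (Q : ι → V → Fin (n + 1) → ℝ)
    (ρ : ∀ i, Path (Q i) (Q i)) (k : ι → Set V → ℤ) (hj : ∀ i, JoinedIn C P (Q i))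
    (hρ : ∀ i, GoodP K C (ρ i) (fun A => k i A * sphereVol n)) :
    ∃ (γ : Path P P) (m : Set V → ℤ), GoodP K C γ (fun A => m A * sphereVol n) ∧
      ∀ A, (∃ i ∈ T, k i A ≠ 0) → m A ≠ 0 := by
  classical
  have hfin : Finite V := finite_vertices K
  induction T using Finset.induction_on with
  | empty =>
      refine ⟨Path.refl P, fun _ => 0, ?_, ?_⟩
      · simpa using goodP_refl hC hP
      · rintro A ⟨i, hi, _⟩
        exact absurd hi (Finset.notMem_empty i)
  | insert a T ha ih =>
      obtain ⟨γ, m, hγ, hm⟩ := ih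
      obtain ⟨γ₁, hγ₁⟩ := goodP_conj hC (hj a) (hρ a)
      obtain ⟨M, hM⟩ : ∃ M : ℕ, ∀ A, (m A).natAbs ≤ M := by
        have h1 : (Set.range fun A => (m A).natAbs).Finite := Set.finite_range _
        obtain ⟨M, hM⟩ := h1.bddAbove
        exact ⟨M, fun A => hM ⟨A, rfl⟩⟩
      obtain ⟨γ₂, hγ₂⟩ := hγ₁.pow hC (M + 1)
      refine ⟨γ₂.trans γ, fun A => ((M + 1 : ℕ) : ℤ) * k a A + m A, ?_, ?_⟩
      · have := hγ₂.trans hγ
        convert this using 2
        push_cast
        ring
      · rintro A ⟨i, hi, hne⟩ h0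
        simp only at h0
        by_cases hka : k a A = 0
        · rw [hka, mul_zero, zero_add] at h0
          apply hm A _ h0
          rcases Finset.mem_insert.1 hi with h1 | h1
          · rw [h1] at hne
            exact absurd hka hne
          · exact ⟨i, h1, hne⟩
        · have h1 : m A = - (((M + 1 : ℕ) : ℤ) * k a A) := by linarith
          have h2 := hM A
          rw [h1, Int.natAbs_neg, Int.natAbs_mul, Int.natAbs_natCast] at h2
          have h3 : 1 ≤ (k a A).natAbs := Int.natAbs_pos.2 hka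
          have h4 : (M + 1) * 1 ≤ (M + 1) * (k a A).natAbs := Nat.mul_le_mul_left _ h3
          omega

end comb

end Pool.Agent.helper69.FlexPoly
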