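import Pool.Agent.helper69.FlexPoly.Chi

set_option autoImplicit false

open MeasureTheory

namespace Pool.Agent.helper69.FlexPoly

section cone

variable {N : ℕ}

/-- the determinant of the matrix with rows `v` -/
noncomputable def dt (v : Fin N → Fin N → ℝ) : ℝ := Matrix.detRowAlternating v

lemma dt_eq_det (v : Fin N → Fin N → ℝ) : dt v = Matrix.det (Matrix.of v) := rfl

lemma dt_update_smul (v : Fin N → Fin N → ℝ) (i : Fin N) (a : ℝ) (x : Fin N → ℝ) :
    dt (Function.update v i (a • x)) = a * dt (Function.update v i x) := by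
  unfold dt
  rw [AlternatingMap.map_update_smul, smul_eq_mul]

lemma dt_update_neg (v : Fin N → Fin N → ℝ) (i : Fin N) (x : Fin N → ℝ) :
    dt (Function.update v i (-x)) = - dt (Function.update v i x) := by
  unfold dt
  rw [AlternatingMap.map_update_neg]

lemma dt_update_add (v : Fin N → Fin N → ℝ) (i : Fin N) (x y : Fin N → ℝ) :
    dt (Function.update v i (x + y)) =
      dt (Function.update v i x) + dt (Function.update v i y) := by
  unfold dt
  rw [AlternatingMap.map_update_add]

lemma dt_update_sum (v : Fin N → Fin N → ℝ) (i : Fin N) (c : Fin N → ℝ) :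
    dt (Function.update v i (∑ k, c k • v k)) = c i * dt v := by
  unfold dt
  rw [AlternatingMap.map_update_sum, Finset.sum_eq_single i]
  · rw [AlternatingMap.map_update_smul, Function.update_eq_self, smul_eq_mul]
  · intro k _ hk
    rw [AlternatingMap.map_update_smul, AlternatingMap.map_update_self _ _ hk.symm, smul_zero]
  · simp

lemma sum_dt_update (v : Fin N → Fin N → ℝ) (x : Fin N → ℝ) :
    ∑ i, dt (Function.update v i x) • v i = dt v • x := by
  have h := Matrix.mulVec_cramer (Matrix.transpose (Matrix.of v)) x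
  rw [Matrix.det_transpose] at h
  rw [dt_eq_det, ← h]
  ext j
  simp only [Finset.sum_apply, Pi.smul_apply, smul_eq_mul, Matrix.mulVec, dotProduct,
    Matrix.transpose_apply, Matrix.of_apply]
  apply Finset.sum_congr rfl
  intro i _
  rw [Matrix.cramer_transpose_apply, mul_comm]
  rfl

/-- the coordinates of `x` in the basis `v` -/
noncomputable def coord (v : Fin N → Fin N → ℝ) (x : Fin N → ℝ) (i : Fin N) : ℝ :=
  dt (Function.update v i x) / dt v

lemma sum_coord {v : Fin N → Fin N → ℝ} (hv : dt v ≠ 0) (x : Fin N → ℝ) :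
    x = ∑ i, coord v x i • v i := by
  have h := sum_dt_update v x
  have h2 : ∑ i, coord v x i • v i = (dt v)⁻¹ • ∑ i, dt (Function.update v i x) • v i := by
    rw [Finset.smul_sum]
    apply Finset.sum_congr rfl
    intro i _
    rw [smul_smul, coord, div_eq_inv_mul]
  rw [h2, h, smul_smul, inv_mul_cancel₀ hv, one_smul]

lemma coord_eq {v : Fin N → Fin N → ℝ} (hv : dt v ≠ 0) {x : Fin N → ℝ} {c : Fin N → ℝ}
    (h : x = ∑ i, c i • v i) : coord v x = c := by
  funext i
  unfold coord
  rw [h, dt_update_sum, mul_div_assoc, div_self hv, mul_one]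

/-- `x` lies in the open cone spanned by `v` -/
def InCone (v : Fin N → Fin N → ℝ) (x : Fin N → ℝ) : Prop :=
  ∃ c : Fin N → ℝ, (∀ i, 0 < c i) ∧ x = ∑ i, c i • v i

lemma inCone_iff {v : Fin N → Fin N → ℝ} (hv : dt v ≠ 0) (x : Fin N → ℝ) :
    InCone v x ↔ ∀ i, 0 < coord v x i := by
  constructor
  · rintro ⟨c, hc, h⟩ i
    rw [coord_eq hv h]
    exact hc i
  · intro h
    exact ⟨coord v x, h, sum_coord hv x⟩

lemma dt_update {v : Fin N → Fin N → ℝ} (hv : dt v ≠ 0) (i : Fin N) (w : Fin N → ℝ) :
    dt (Function.update v i w) = coord v w i * dt v := by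
  unfold coord
  rw [div_mul_cancel₀ _ hv]

lemma coord_update {v : Fin N → Fin N → ℝ} (hv : dt v ≠ 0) (i : Fin N) (w x : Fin N → ℝ)
    (hi : coord v w i ≠ 0) :
    coord (Function.update v i w) x = fun k => if k = i then coord v x i / coord v w i
      else coord v x k - coord v w k * (coord v x i / coord v w i) := by
  apply coord_eq
  · rw [dt_update hv]
    exact mul_ne_zero hi hv
  · have hw := sum_coord hv w
    have hx := sum_coord hv x
    rw [← Finset.add_sum_erase _ _ (Finset.mem_univ i)]
    have h1 : ∑ k ∈ Finset.univ.erase i, (if k = i then coord v x i / coord v w i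
        else coord v x k - coord v w k * (coord v x i / coord v w i)) •
          Function.update v i w k =
        ∑ k ∈ Finset.univ.erase i, (coord v x k • v k -
          (coord v x i / coord v w i) • (coord v w k • v k)) := by
      apply Finset.sum_congr rfl
      intro k hk
      have hk' := Finset.ne_of_mem_erase hk
      rw [if_neg hk', Function.update_of_ne hk', sub_smul, smul_smul, mul_comm]
    rw [h1, Finset.sum_sub_distrib, ← Finset.smul_sum, if_pos rfl, Function.update_self]
    have h2 : ∑ k ∈ Finset.univ.erase i, coord v x k • v k = x - coord v x i • v i := by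
      rw [eq_sub_iff_add_eq, Finset.sum_erase_add _ _ (Finset.mem_univ i), ← hx]
    have h3 : ∑ k ∈ Finset.univ.erase i, coord v w k • v k = w - coord v w i • v i := by
      rw [eq_sub_iff_add_eq, Finset.sum_erase_add _ _ (Finset.mem_univ i), ← hw]
    rw [h2, h3, smul_sub, smul_smul, div_mul_cancel₀ _ hi]
    abel

open Classical in
/-- the oriented indicator function of the open cone spanned by `v` -/
noncomputable def chi (v : Fin N → Fin N → ℝ) (x : Fin N → ℝ) : ℤ :=
  if InCone v x then (SignType.sign (dt v) : ℤ) else 0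

lemma chi_of_dt_eq_zero {v : Fin N → Fin N → ℝ} (hv : dt v = 0) (x : Fin N → ℝ) :
    chi v x = 0 := by
  unfold chi
  rw [hv]
  simp

open Classical in
lemma chi_update {v : Fin N → Fin N → ℝ} (hv : dt v ≠ 0) (i : Fin N) (w x : Fin N → ℝ) :
    chi (Function.update v i w) x =
      (SignType.sign (dt v) : ℤ) *
        (if Ev (coord v w) (coord v x) i then (SignType.sign (coord v w i) : ℤ) else 0) := by
  by_cases hi : coord v w i = 0
  · rw [chi_of_dt_eq_zero (by rw [dt_update hv, hi, zero_mul])]
    rw [hi]; simp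
  · have hdt : dt (Function.update v i w) ≠ 0 := by
      rw [dt_update hv]; exact mul_ne_zero hi hv
    have hiff : InCone (Function.update v i w) x ↔ Ev (coord v w) (coord v x) i := by
      rw [inCone_iff hdt, coord_update hv i w x hi]
      constructor
      · intro h
        refine ⟨?_, fun k hk => ?_⟩
        · simpa using h i
        · simpa [hk] using h k
      · rintro ⟨h1, h2⟩ k
        by_cases hk : k = i
        · simp only [hk, if_true]; exact h1
        · simp only [hk, if_false]; exact h2 k hk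
    unfold chi
    by_cases h : InCone (Function.update v i w) x
    · rw [if_pos h, if_pos (hiff.1 h), dt_update hv, sign_mul, SignType.coe_mul, mul_comm]
    · rw [if_neg h, if_neg (fun h' => h (hiff.2 h')), mul_zero]

open Classical in
lemma chi_eq {v : Fin N → Fin N → ℝ} (hv : dt v ≠ 0) (x : Fin N → ℝ) :
    chi v x = (SignType.sign (dt v) : ℤ) * (if ∀ i, 0 < coord v x i then 1 else 0) := by
  unfold chi
  by_cases h : InCone v x
  · rw [if_pos h, if_pos ((inCone_iff hv x).1 h), mul_one]
  · rw [if_neg h, if_neg (fun h' => h ((inCone_iff hv x).2 h')), mul_zero]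

open Classical in
/-- The oriented indicator functions of the cones spanned by `N` among `N + 1` vectors of `ℝ^N`
satisfy a linear relation up to a constant. -/
lemma chi_identity {v : Fin N → Fin N → ℝ} (hv : dt v ≠ 0) (w x : Fin N → ℝ)
    (hc : ∀ i, coord v x i ≠ 0)
    (hgen : ∀ i k, k ≠ i → coord v w i ≠ 0 →
      coord v x k - coord v w k * (coord v x i / coord v w i) ≠ 0)
    (hlam : (∀ k, coord v w k ≤ 0) → ∀ k, coord v w k < 0) :
    chi v x = ∑ i, chi (Function.update v i w) x +
      (SignType.sign (dt v) : ℤ) * (if ∀ k, coord v w k < 0 then 1 else 0) := by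
  have key : (if ∀ i, 0 < coord v x i then (1 : ℤ) else 0) =
      ∑ i, (if Ev (coord v w) (coord v x) i then (SignType.sign (coord v w i) : ℤ) else 0) +
        (if ∀ k, coord v w k < 0 then 1 else 0) := by
    convert real_identity (coord v w) (coord v x) hc hgen hlam
  rw [chi_eq hv, key, mul_add, Finset.mul_sum]
  congr 1
  apply Finset.sum_congr rfl
  intro i _
  rw [chi_update hv]

lemma inCone_perm (v : Fin N → Fin N → ℝ) (σ : Equiv.Perm (Fin N)) (x : Fin N → ℝ) :
    InCone (v ∘ σ) x ↔ InCone v x := by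
  constructor
  · rintro ⟨c, hc, h⟩
    refine ⟨c ∘ σ.symm, fun i => hc _, ?_⟩
    rw [h, ← Equiv.sum_comp σ (fun i => (c ∘ σ.symm) i • v i)]
    simp
  · rintro ⟨c, hc, h⟩
    refine ⟨c ∘ σ, fun i => hc _, ?_⟩
    rw [h, ← Equiv.sum_comp σ (fun i => c i • v i)]
    simp

lemma dt_perm (v : Fin N → Fin N → ℝ) (σ : Equiv.Perm (Fin N)) :
    dt (v ∘ σ) = (Equiv.Perm.sign σ : ℤ) * dt v := by
  unfold dt
  rw [AlternatingMap.map_perm]
  simp [Units.smul_def]

lemma sign_perm_cast (σ : Equiv.Perm (Fin N)) (a : ℝ) :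
    (SignType.sign (((Equiv.Perm.sign σ : ℤ) : ℝ) * a) : ℤ) =
      (Equiv.Perm.sign σ : ℤ) * (SignType.sign a : ℤ) := by
  rcases Int.units_eq_one_or (Equiv.Perm.sign σ) with h | h
  · rw [h]; simp
  · rw [h]; simp [Left.sign_neg]

lemma chi_perm (v : Fin N → Fin N → ℝ) (σ : Equiv.Perm (Fin N)) (x : Fin N → ℝ) :
    chi (v ∘ σ) x = (Equiv.Perm.sign σ : ℤ) * chi v x := by
  unfold chi
  by_cases h : InCone v x
  · rw [if_pos h, if_pos ((inCone_perm v σ x).2 h), dt_perm, sign_perm_cast]
  · rw [if_neg h, if_neg (fun h' => h ((inCone_perm v σ x).1 h')), mul_zero]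

end cone

/-! ### The crossing number in terms of `chi` -/

section crossing

variable {V : Type} {n : ℕ}

lemma sum_snoc (G : Fin n → Fin (n + 1) → ℝ) (z : Fin (n + 1) → ℝ) (c : Fin (n + 1) → ℝ) :
    ∑ i, c i • (Fin.snoc G z : Fin (n + 1) → Fin (n + 1) → ℝ) i =
      ∑ i : Fin n, c i.castSucc • G i + c (Fin.last n) • z := by
  rw [Fin.sum_univ_castSucc]
  congr 1
  · apply Finset.sum_congr rfl
    intro i _
    rw [Fin.snoc_castSucc (α := fun _ => Fin (n + 1) → ℝ)]
  · rw [Fin.snoc_last (α := fun _ => Fin (n + 1) → ℝ)]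

lemma crosses_iff (P : V → Fin (n + 1) → ℝ) (y x : Fin (n + 1) → ℝ) (F : Fin n → V) :
    Crosses P y x F ↔ InCone (Fin.snoc (fun k => P (F k)) (-y)) x := by
  constructor
  · rintro ⟨t, ⟨ht0, ht1⟩, c, hc, h⟩
    refine ⟨Fin.snoc (fun i => c i / t) ((1 - t) / t), ?_, ?_⟩
    · intro i
      refine Fin.lastCases ?_ (fun i => ?_) i
      · rw [Fin.snoc_last (α := fun _ => ℝ)]
        exact div_pos (by linarith) ht0
      · rw [Fin.snoc_castSucc (α := fun _ => ℝ)]
        exact div_pos (hc i) ht0
    · rw [sum_snoc]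
      simp only [Fin.snoc_castSucc (α := fun _ => ℝ), Fin.snoc_last (α := fun _ => ℝ)]
      have h1 : ∑ i : Fin n, (c i / t) • P (F i) = t⁻¹ • ((1 - t) • y + t • x) := by
        rw [h, Finset.smul_sum]
        apply Finset.sum_congr rfl
        intro i _
        rw [smul_smul, div_eq_inv_mul]
      rw [h1, smul_add, smul_smul, smul_smul, inv_mul_cancel₀ ht0.ne', one_smul, smul_neg,
        div_eq_inv_mul]
      abel
  · rintro ⟨c, hc, h⟩
    rw [sum_snoc] at h
    set s := c (Fin.last n) with hs
    have hs0 : 0 < s := hc _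
    have hs1 : (0 : ℝ) < 1 + s := by linarith
    refine ⟨1 / (1 + s), ⟨by positivity, by rw [div_lt_one hs1]; linarith⟩,
      fun i => c i.castSucc / (1 + s), fun i => div_pos (hc _) hs1, ?_⟩
    have h1 : (1 : ℝ) - 1 / (1 + s) = s / (1 + s) := by field_simp; ring
    have h2 : ∑ i : Fin n, (c i.castSucc / (1 + s)) • P (F i) =
        (1 + s)⁻¹ • ∑ i : Fin n, c i.castSucc • P (F i) := by
      rw [Finset.smul_sum]
      apply Finset.sum_congr rfl
      intro i _
      rw [smul_smul, div_eq_inv_mul]
    have h3 : ∑ i : Fin n, c i.castSucc • P (F i) = x + s • y := by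
      rw [h]; simp
    rw [h1, h2, h3, smul_add, smul_smul, div_eq_inv_mul, one_div]
    abel

lemma update_snoc_last (G : Fin n → Fin (n + 1) → ℝ) (z w : Fin (n + 1) → ℝ) :
    Function.update (Fin.snoc G z : Fin (n + 1) → Fin (n + 1) → ℝ) (Fin.last n) w =
      Fin.snoc G w := by
  rw [Fin.update_snoc_last]

lemma dt_snoc_neg (G : Fin n → Fin (n + 1) → ℝ) (z : Fin (n + 1) → ℝ) :
    dt (Fin.snoc G (-z) : Fin (n + 1) → Fin (n + 1) → ℝ) =
      - dt (Fin.snoc G z : Fin (n + 1) → Fin (n + 1) → ℝ) := by
  rw [← update_snoc_last G z (-z), dt_update_neg, update_snoc_last]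

lemma crossing_eq_chi (K : OrientedPseudomanifold V n) (P : V → Fin (n + 1) → ℝ)
    (y x : Fin (n + 1) → ℝ) (F : Fin n → V) :
    crossing K P y x F = K.or F * chi (Fin.snoc (fun k => P (F k)) (-y)) x := by
  unfold crossing chi
  by_cases h : Crosses P y x F
  · rw [if_pos h, if_pos ((crosses_iff P y x F).1 h)]
    congr 2
    obtain ⟨c, hc, hx⟩ := (crosses_iff P y x F).1 h
    have h1 : dt (Fin.snoc (fun k => P (F k)) x : Fin (n + 1) → Fin (n + 1) → ℝ) =
        c (Fin.last n) * dt (Fin.snoc (fun k => P (F k)) (-y) :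
          Fin (n + 1) → Fin (n + 1) → ℝ) := by
      have h2 := dt_update_sum (Fin.snoc (fun k => P (F k)) (-y) :
          Fin (n + 1) → Fin (n + 1) → ℝ) (Fin.last n) c
      rw [← hx, update_snoc_last] at h2
      exact h2
    change (SignType.sign (dt (Fin.snoc (fun k => P (F k)) x :
      Fin (n + 1) → Fin (n + 1) → ℝ))) = _
    rw [h1, sign_mul, sign_pos (hc _), one_mul]
  · rw [if_neg h, if_neg (fun h' => h ((crosses_iff P y x F).2 h')), mul_zero]

end crossing

end Pool.Agent.helper69.FlexPoly
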