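import Pool.Agent.helper69.FlexPoly.Base

set_option autoImplicit false

open MeasureTheory Filter Topology

namespace Pool.Agent.helper69.FlexPoly

section cont

variable {V : Type} {n : ℕ}

lemma continuous_dt {N : ℕ} : Continuous (dt : (Fin N → Fin N → ℝ) → ℝ) := by
  have : (dt : (Fin N → Fin N → ℝ) → ℝ) = fun v => Matrix.det (Matrix.of v) := rfl
  rw [this]
  exact Continuous.matrix_det continuous_id

lemma continuous_snoc (F : Fin n → V) (x : Fin (n + 1) → ℝ) :
    Continuous (fun P : V → Fin (n + 1) → ℝ =>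
      (Fin.snoc (fun k => P (F k)) x : Fin (n + 1) → Fin (n + 1) → ℝ)) := by
  rw [continuous_pi_iff]
  intro i
  refine Fin.lastCases ?_ (fun i => ?_) i
  · simp only [Fin.snoc_last (α := fun _ => Fin (n + 1) → ℝ)]
    exact continuous_const
  · simp only [Fin.snoc_castSucc (α := fun _ => Fin (n + 1) → ℝ)]
    exact continuous_apply _

lemma continuous_dt_snoc (F : Fin n → V) (x : Fin (n + 1) → ℝ) :
    Continuous (fun P : V → Fin (n + 1) → ℝ =>
      dt (Fin.snoc (fun k => P (F k)) x : Fin (n + 1) → Fin (n + 1) → ℝ)) :=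
  continuous_dt.comp (continuous_snoc F x)

lemma continuousAt_coord (F : Fin n → V) (x y : Fin (n + 1) → ℝ) (i : Fin (n + 1))
    {P₀ : V → Fin (n + 1) → ℝ}
    (h : dt (Fin.snoc (fun k => P₀ (F k)) x : Fin (n + 1) → Fin (n + 1) → ℝ) ≠ 0) :
    ContinuousAt (fun P : V → Fin (n + 1) → ℝ =>
      coord (Fin.snoc (fun k => P (F k)) x) y i) P₀ := by
  unfold coord
  apply ContinuousAt.div
  · apply Continuous.continuousAt
    apply continuous_dt.comp
    rw [continuous_pi_iff]
    intro k
    by_cases hk : k = i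
    · subst hk
      simp only [Function.update_self]
      exact continuous_const
    · simp only [Function.update_of_ne hk]
      exact (continuous_apply k).comp (continuous_snoc F x)
  · exact (continuous_dt_snoc F x).continuousAt
  · exact h

lemma crosses_iff_coord {P : V → Fin (n + 1) → ℝ} {y x : Fin (n + 1) → ℝ} {F : Fin n → V}
    (h : dt (Fin.snoc (fun k => P (F k)) x : Fin (n + 1) → Fin (n + 1) → ℝ) ≠ 0) :
    Crosses P y x F ↔ (∀ i : Fin n, 0 < coord (Fin.snoc (fun k => P (F k)) x) y i.castSucc) ∧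
      coord (Fin.snoc (fun k => P (F k)) x) y (Fin.last n) < 0 := by
  set v : Fin (n + 1) → Fin (n + 1) → ℝ := Fin.snoc (fun k => P (F k)) x with hv
  constructor
  · rintro ⟨t, ⟨ht0, ht1⟩, c, hc, heq⟩
    have h1 : (0 : ℝ) < 1 - t := by linarith
    have h2 : y = ∑ i, (Fin.snoc (fun i => c i / (1 - t)) (-(t / (1 - t))) : Fin (n + 1) → ℝ) i •
        v i := by
      rw [hv, sum_snoc]
      simp only [Fin.snoc_castSucc (α := fun _ => ℝ), Fin.snoc_last (α := fun _ => ℝ)]
      have h3 : ∑ i : Fin n, (c i / (1 - t)) • P (F i) = (1 - t)⁻¹ • ((1 - t) • y + t • x) := by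
        rw [heq, Finset.smul_sum]
        apply Finset.sum_congr rfl
        intro i _
        rw [smul_smul, div_eq_inv_mul]
      rw [h3, smul_add, smul_smul, smul_smul, inv_mul_cancel₀ h1.ne', one_smul, neg_smul,
        div_eq_inv_mul]
      abel
    rw [coord_eq h h2]
    simp only [Fin.snoc_castSucc (α := fun _ => ℝ), Fin.snoc_last (α := fun _ => ℝ)]
    exact ⟨fun i => div_pos (hc i) h1, neg_neg_of_pos (div_pos ht0 h1)⟩
  · rintro ⟨h1, h2⟩
    set μ := coord v y (Fin.last n) with hμ
    have h3 : (0 : ℝ) < 1 - μ := by linarith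
    refine ⟨-μ / (1 - μ), ⟨div_pos (by linarith) h3, by rw [div_lt_one h3]; linarith⟩,
      fun i => coord v y i.castSucc / (1 - μ), fun i => div_pos (h1 i) h3, ?_⟩
    have h4 := sum_coord h y
    have h5 := sum_snoc (fun k => P (F k)) x (coord v y)
    rw [← hv, ← h4] at h5
    have h6 : ∑ i : Fin n, (coord v y i.castSucc / (1 - μ)) • P (F i) =
        (1 - μ)⁻¹ • ∑ i : Fin n, coord v y i.castSucc • P (F i) := by
      rw [Finset.smul_sum]
      apply Finset.sum_congr rfl
      intro i _
      rw [smul_smul, div_eq_inv_mul]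
    have h7 : ∑ i : Fin n, coord v y i.castSucc • P (F i) = y - μ • x := by
      rw [eq_sub_iff_add_eq, ← h5]
    have h8 : (1 : ℝ) - -μ / (1 - μ) = 1 / (1 - μ) := by field_simp; ring
    rw [h6, h7, h8, smul_sub, smul_smul, one_div, neg_div, neg_smul, div_eq_inv_mul]
    abel

/-- For a generic `x`, the position of `y` with respect to `P(F)` is locally constant. -/
lemma eventually_crosses {K : OrientedPseudomanifold V n} {P₀ : V → Fin (n + 1) → ℝ}
    {y x : Fin (n + 1) → ℝ} (hsp : OnSphere y) (hy : y ∉ image K P₀) (hgen : Gen K P₀ y x)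
    {F : Fin n → V} (hF : F ∈ K.facets) :
    (∀ᶠ P in 𝓝 P₀, (Crosses P y x F ↔ Crosses P₀ y x F)) ∧
      (∀ᶠ P in 𝓝 P₀, ¬ ∃ c : Fin n → ℝ, (∀ i, 0 ≤ c i) ∧ y = ∑ i, c i • P (F i)) := by
  obtain ⟨hg1, hg2⟩ := hgen F hF
  have hc := fun i => continuousAt_coord F x y i hg1
  have hd : ∀ᶠ P in 𝓝 P₀, dt (Fin.snoc (fun k => P (F k)) x :
      Fin (n + 1) → Fin (n + 1) → ℝ) ≠ 0 :=
    (continuous_dt_snoc F x).continuousAt.eventually_ne hg1
  set v₀ : Fin (n + 1) → Fin (n + 1) → ℝ := Fin.snoc (fun k => P₀ (F k)) x with hv₀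
  -- the coordinates of a point of the cone
  have hcone : ∀ P : V → Fin (n + 1) → ℝ, dt (Fin.snoc (fun k => P (F k)) x :
      Fin (n + 1) → Fin (n + 1) → ℝ) ≠ 0 →
      ∀ c : Fin n → ℝ, y = ∑ i, c i • P (F i) →
      (∀ i : Fin n, coord (Fin.snoc (fun k => P (F k)) x) y i.castSucc = c i) ∧
      coord (Fin.snoc (fun k => P (F k)) x) y (Fin.last n) = 0 := by
    intro P hP c hyc
    have h1 : y = ∑ i, (Fin.snoc c 0 : Fin (n + 1) → ℝ) i •
        (Fin.snoc (fun k => P (F k)) x : Fin (n + 1) → Fin (n + 1) → ℝ) i := by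
      rw [sum_snoc]
      simp only [Fin.snoc_castSucc (α := fun _ => ℝ), Fin.snoc_last (α := fun _ => ℝ)]
      rw [zero_smul, add_zero]
      exact hyc
    rw [coord_eq hP h1]
    simp [Fin.snoc_castSucc (α := fun _ => ℝ), Fin.snoc_last (α := fun _ => ℝ)]
  by_cases hμ : coord v₀ y (Fin.last n) = 0
  · -- `y` lies in the span of the simplex, some coordinate is negative
    have h1 : y = ∑ i : Fin n, coord v₀ y i.castSucc • P₀ (F i) := by
      have h4 := sum_coord hg1 y
      have h5 := sum_snoc (fun k => P₀ (F k)) x (coord v₀ y)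
      rw [hμ, zero_smul, add_zero] at h5
      rw [← h5]
      exact h4
    have h2 : ∃ j : Fin n, coord v₀ y j.castSucc < 0 := by
      by_contra hcon
      push Not at hcon
      exact hy ⟨hsp, F, hF, _, hcon, h1⟩
    obtain ⟨j, hj⟩ := h2
    have hj' : ∀ᶠ P in 𝓝 P₀, coord (Fin.snoc (fun k => P (F k)) x) y j.castSucc < 0 :=
      (hc j.castSucc).eventually (gt_mem_nhds hj)
    constructor
    · filter_upwards [hj', hd] with P hPj hPd
      rw [crosses_iff_coord hPd, crosses_iff_coord hg1]
      constructor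
      · rintro ⟨h3, _⟩
        linarith [h3 j]
      · rintro ⟨h3, _⟩
        linarith [h3 j]
    · filter_upwards [hj', hd] with P hPj hPd
      rintro ⟨c, hc0, hyc⟩
      have h3 := (hcone P hPd c hyc).1 j
      linarith [hc0 j]
  · -- all coordinates are non-zero
    have h1 : ∀ i : Fin n, coord v₀ y i.castSucc ≠ 0 := by
      intro i h0
      apply hμ
      have hsum' : y = ∑ k : Fin n, coord v₀ y k.castSucc • P₀ (F k) +
          coord v₀ y (Fin.last n) • x := by
        have h4 := sum_coord hg1 y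
        have h5 := sum_snoc (fun k => P₀ (F k)) x (coord v₀ y)
        rw [← h5]
        exact h4
      apply last_coord_zero (G := fun k => P₀ (F k)) hg1 i _ hsum'
      by_contra hcon
      push Not at hcon
      have h2 := hg2 i hcon
      apply h2
      unfold coord at h0
      rw [div_eq_zero_iff] at h0
      have h3 := h0.resolve_right hg1
      rw [hv₀, snoc_update_castSucc] at h3
      exact h3
    constructor
    · by_cases hcr : (∀ i : Fin n, 0 < coord v₀ y i.castSucc) ∧ coord v₀ y (Fin.last n) < 0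
      · have e1 : ∀ᶠ P in 𝓝 P₀, ∀ i : Fin n,
            0 < coord (Fin.snoc (fun k => P (F k)) x) y i.castSucc := by
          rw [Filter.eventually_all]
          intro i
          exact (hc i.castSucc).eventually (lt_mem_nhds (hcr.1 i))
        have e2 : ∀ᶠ P in 𝓝 P₀, coord (Fin.snoc (fun k => P (F k)) x) y (Fin.last n) < 0 :=
          (hc (Fin.last n)).eventually (gt_mem_nhds hcr.2)
        filter_upwards [e1, e2, hd] with P h3 h4 hPd
        rw [crosses_iff_coord hPd, crosses_iff_coord hg1]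
        exact ⟨fun _ => hcr, fun _ => ⟨h3, h4⟩⟩
      · have hcr' : (∃ i : Fin n, coord v₀ y i.castSucc < 0) ∨ 0 < coord v₀ y (Fin.last n) := by
          by_contra hcon
          push Not at hcon
          apply hcr
          exact ⟨fun i => lt_of_le_of_ne (hcon.1 i) (h1 i).symm, lt_of_le_of_ne hcon.2 hμ⟩
        have e1 : ∀ᶠ P in 𝓝 P₀,
            (∃ i : Fin n, coord (Fin.snoc (fun k => P (F k)) x) y i.castSucc < 0) ∨
              0 < coord (Fin.snoc (fun k => P (F k)) x) y (Fin.last n) := by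
          rcases hcr' with ⟨i, hi⟩ | hl
          · filter_upwards [(hc i.castSucc).eventually (gt_mem_nhds hi)] with P h3
            exact Or.inl ⟨i, h3⟩
          · filter_upwards [(hc (Fin.last n)).eventually (lt_mem_nhds hl)] with P h3
            exact Or.inr h3
        filter_upwards [e1, hd] with P h3 hPd
        rw [crosses_iff_coord hPd, crosses_iff_coord hg1]
        constructor
        · rintro ⟨h4, h5⟩
          rcases h3 with ⟨i, hi⟩ | hl
          · linarith [h4 i]
          · linarith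
        · intro h4
          exact absurd h4 hcr
    · filter_upwards [(hc (Fin.last n)).eventually_ne hμ, hd] with P h3 hPd
      rintro ⟨c, _, hyc⟩
      exact h3 (hcone P hPd c hyc).2

lemma eventually_crossing {K : OrientedPseudomanifold V n} {P₀ : V → Fin (n + 1) → ℝ}
    {y x : Fin (n + 1) → ℝ} (hsp : OnSphere y) (hy : y ∉ image K P₀) (hgen : Gen K P₀ y x)
    {F : Fin n → V} (hF : F ∈ K.facets) :
    ∀ᶠ P in 𝓝 P₀, crossing K P y x F = crossing K P₀ y x F := by
  have hg1 := (hgen F hF).1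
  have h1 := (eventually_crosses hsp hy hgen hF).1
  have h2 : ∀ᶠ P in 𝓝 P₀, SignType.sign (dt (Fin.snoc (fun k => P (F k)) x :
      Fin (n + 1) → Fin (n + 1) → ℝ)) = SignType.sign (dt (Fin.snoc (fun k => P₀ (F k)) x :
      Fin (n + 1) → Fin (n + 1) → ℝ)) := by
    have hc := (continuous_dt_snoc F x).continuousAt (x := P₀)
    rcases lt_or_gt_of_ne hg1 with h | h
    · filter_upwards [hc.eventually (gt_mem_nhds h)] with P hP
      rw [sign_neg h, sign_neg hP]
    · filter_upwards [hc.eventually (lt_mem_nhds h)] with P hP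
      rw [sign_pos h, sign_pos hP]
  filter_upwards [h1, h2] with P h3 h4
  unfold crossing
  rw [dt_eq_det, dt_eq_det] at h4
  by_cases h5 : Crosses P₀ y x F
  · rw [if_pos h5, if_pos (h3.2 h5), h4]
  · rw [if_neg h5, if_neg (fun h => h5 (h3.1 h))]

lemma finite_vertices (K : OrientedPseudomanifold V n) : Finite V := by
  have h : Set.Finite (⋃ F ∈ K.facets, Set.range F) :=
    K.facets.finite_toSet.biUnion fun F _ => Set.finite_range F
  have h2 : (⋃ F ∈ K.facets, Set.range F) = Set.univ := by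
    rw [Set.eq_univ_iff_forall]
    intro v
    obtain ⟨F, hF, hv⟩ := K.cover v
    exact Set.mem_biUnion (show F ∈ (K.facets : Set _) from hF) hv
  rw [h2] at h
  exact Set.finite_univ_iff.1 h

lemma eventually_notMem {K : OrientedPseudomanifold V n} {P₀ : V → Fin (n + 1) → ℝ}
    (hP₀ : IsPolyhedron K P₀) {y : Fin (n + 1) → ℝ} (hsp : OnSphere y) (hy : y ∉ image K P₀) :
    ∀ᶠ P in 𝓝 P₀, y ∉ image K P := by
  obtain ⟨x, hx⟩ := (ae_gen hP₀ y).exists
  have h : ∀ᶠ P in 𝓝 P₀, ∀ F ∈ K.facets,
      ¬ ∃ c : Fin n → ℝ, (∀ i, 0 ≤ c i) ∧ y = ∑ i, c i • P (F i) := by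
    rw [Filter.eventually_all_finset]
    intro F hF
    exact (eventually_crosses hsp hy hx hF).2
  filter_upwards [h] with P hP
  rintro ⟨_, F, hF, c, hc, hyc⟩
  exact hP F hF ⟨c, hc, hyc⟩

lemma norm_ind_le (K : OrientedPseudomanifold V n) (P : V → Fin (n + 1) → ℝ)
    (y x : Fin (n + 1) → ℝ) : ‖(ind K P y x : ℝ)‖ ≤ ∑ F ∈ K.facets, ‖(K.or F : ℝ)‖ := by
  rw [ind_eq_chi]
  push_cast
  refine (norm_sum_le _ _).trans (Finset.sum_le_sum fun F _ => ?_)
  rw [norm_mul]
  exact mul_le_of_le_one_right (norm_nonneg _) (norm_chi_le _ _)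

lemma continuousAt_volFrom {K : OrientedPseudomanifold V n} {P₀ : V → Fin (n + 1) → ℝ}
    (hP₀ : IsPolyhedron K P₀) {y : Fin (n + 1) → ℝ} (hsp : OnSphere y) (hy : y ∉ image K P₀) :
    ContinuousAt (fun P => volFrom K P y) P₀ := by
  haveI := finite_vertices K
  unfold volFrom
  apply continuousAt_of_dominated (bound := fun _ => ∑ F ∈ K.facets, ‖(K.or F : ℝ)‖)
  · exact Eventually.of_forall fun P => (integrable_ind K P y).1
  · exact Eventually.of_forall fun P => ae_of_all _ fun x => norm_ind_le K P y x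
  · exact integrable_const _
  · filter_upwards [ae_gen hP₀ y] with x hx
    have h : ∀ᶠ P in 𝓝 P₀, ∀ F ∈ K.facets, crossing K P y x F = crossing K P₀ y x F := by
      rw [Filter.eventually_all_finset]
      intro F hF
      exact eventually_crossing hsp hy hx hF
    have h2 : (fun P => (ind K P y x : ℝ)) =ᶠ[𝓝 P₀] fun _ => (ind K P₀ y x : ℝ) := by
      filter_upwards [h] with P hP
      unfold ind
      rw [Finset.sum_congr rfl hP]
    exact continuousAt_const.congr h2.symm

/-! ### The oriented volume as a continuous function with values in a circle -/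

lemma coe_eq_coe {p a b : ℝ} : (a : AddCircle p) = (b : AddCircle p) ↔ ∃ k : ℤ, a = b + k * p := by
  rw [← sub_eq_zero, ← AddCircle.coe_sub, AddCircle.coe_eq_zero_iff]
  constructor
  · rintro ⟨k, hk⟩
    refine ⟨k, ?_⟩
    rw [zsmul_eq_mul] at hk
    linarith
  · rintro ⟨k, hk⟩
    refine ⟨k, ?_⟩
    rw [zsmul_eq_mul]
    linarith

open Classical in
/-- the oriented volume -/
noncomputable def vbar (K : OrientedPseudomanifold V n) (P : V → Fin (n + 1) → ℝ) :
    AddCircle (sphereVol n) :=
  if h : ∃ y, OnSphere y ∧ y ∉ image K P then (volFrom K P h.choose : AddCircle (sphereVol n))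
  else 0

lemma vbar_eq {K : OrientedPseudomanifold V n} {P : V → Fin (n + 1) → ℝ}
    (hP : IsPolyhedron K P) {y : Fin (n + 1) → ℝ} (hsp : OnSphere y) (hy : y ∉ image K P) :
    vbar K P = (volFrom K P y : AddCircle (sphereVol n)) := by
  have h : ∃ y, OnSphere y ∧ y ∉ image K P := ⟨y, hsp, hy⟩
  unfold vbar
  rw [dif_pos h, coe_eq_coe]
  exact volFrom_congr hP h.choose_spec.1 h.choose_spec.2 hsp hy

lemma isOrientedVolume_iff {K : OrientedPseudomanifold V n} {P : V → Fin (n + 1) → ℝ}
    (hP : IsPolyhedron K P) (v : ℝ) :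
    IsOrientedVolume K P v ↔ vbar K P = (v : AddCircle (sphereVol n)) := by
  obtain ⟨y, hsp, hy⟩ := exists_notMem_image hP
  rw [vbar_eq hP hsp hy, coe_eq_coe]
  constructor
  · intro h
    exact h.2 y hsp hy
  · intro h
    exact isOrientedVolume_of_one hP hsp hy h

lemma continuousOn_vbar (K : OrientedPseudomanifold V n) :
    ContinuousOn (vbar K) {P | IsPolyhedron K P} := by
  intro P₀ hP₀
  obtain ⟨y, hsp, hy⟩ := exists_notMem_image hP₀
  have h1 : ContinuousWithinAt (fun P => (volFrom K P y : AddCircle (sphereVol n)))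
      {P | IsPolyhedron K P} P₀ := by
    have h2 := continuousAt_volFrom hP₀ hsp hy
    exact (((AddCircle.continuous_mk' (sphereVol n)).continuousAt).comp h2).continuousWithinAt
  apply h1.congr_of_eventuallyEq
  · filter_upwards [self_mem_nhdsWithin,
      mem_nhdsWithin_of_mem_nhds (eventually_notMem hP₀ hsp hy)] with P hP hyP
    exact vbar_eq hP hsp hyP
  · exact vbar_eq hP₀ hsp hy

lemma exists_lift (K : OrientedPseudomanifold V n) (γ : unitInterval → V → Fin (n + 1) → ℝ)
    (hγ : Continuous γ) (h : ∀ t, IsPolyhedron K (γ t)) :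
    ∃ W : unitInterval → ℝ, Continuous W ∧ ∀ t, IsOrientedVolume K (γ t) (W t) := by
  have hc : Continuous (fun t => vbar K (γ t)) := by
    rw [← continuousOn_univ]
    exact (continuousOn_vbar K).comp hγ.continuousOn (fun t _ => h t)
  obtain ⟨e, he⟩ := QuotientAddGroup.mk_surjective (vbar K (γ 0))
  obtain ⟨Γ, hΓ, _⟩ := (AddCircle.isCoveringMap_coe (sphereVol n)).exists_path_lifts
    ⟨fun t => vbar K (γ t), hc⟩ e he.symm
  refine ⟨Γ, Γ.continuous, fun t => ?_⟩
  rw [isOrientedVolume_iff (h t)]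
  exact (congrFun hΓ t).symm

end cont

end Pool.Agent.helper69.FlexPoly
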