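import Pool.Agent.helper69.FlexPoly.Inc

set_option autoImplicit false

open MeasureTheory Filter Topology

namespace Pool.Agent.helper69.FlexPoly

section loop

variable {m : ℕ}

/-- the sign of a vertex -/
noncomputable def ev {V : Type} (A : Set V) (v : V) : ℝ :=
  open Classical in if v ∈ A then -1 else 1

lemma ev_sq {V : Type} (A : Set V) (v : V) : ev A v * ev A v = 1 := by
  unfold ev; split_ifs <;> norm_num

/-- the angle shift of a vertex -/
noncomputable def sh {V : Type} (A : Set V) (v : V) : ℝ :=
  open Classical in if v ∈ A then Real.pi else 0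

lemma sh_nonneg {V : Type} (A : Set V) (v : V) : 0 ≤ sh A v := by
  unfold sh; split_ifs
  · exact Real.pi_pos.le
  · exact le_rfl

lemma sh_le {V : Type} (A : Set V) (v : V) : sh A v ≤ Real.pi := by
  unfold sh; split_ifs
  · exact le_rfl
  · exact Real.pi_pos.le

lemma neg_wv (φ : ℝ) : - wv m φ = wv m (φ + Real.pi) := by
  funext j
  simp only [wv, Pi.neg_apply, Real.cos_add_pi, Real.sin_add_pi]
  split_ifs <;> simp

lemma antipodes_cfg (A : Set (Fin (m + 1) × Bool)) (c : Fin (m + 1) → Bool → ℝ)
    (φ : Bool → ℝ) : antipodes A (cfg m c φ) =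
      cfg m (fun i b => ev A (i, b) * c i b) (fun b => φ b + sh A (Fin.last m, b)) := by
  funext ⟨i, b⟩
  refine Fin.lastCases ?_ (fun i => ?_) i
  · rw [cfg_last]
    unfold antipodes sh
    by_cases h : (Fin.last m, b) ∈ A
    · rw [if_pos h, if_pos h, cfg_last, neg_wv]
    · rw [if_neg h, if_neg h, cfg_last, add_zero]
  · funext j
    rw [cfg_castSucc_apply]
    unfold antipodes ev
    by_cases h : (i.castSucc, b) ∈ A
    · rw [if_pos h, if_pos h, Pi.neg_apply, cfg_castSucc_apply]
      split_ifs <;> simp
    · rw [if_neg h, if_neg h, cfg_castSucc_apply]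
      split_ifs <;> simp

lemma wv_two_pi (φ : ℝ) : wv m (φ + 2 * Real.pi) = wv m φ := by
  funext j
  simp [wv]

lemma cfg_congr {c c' : Fin (m + 1) → Bool → ℝ} {φ φ' : Bool → ℝ}
    (h : ∀ (i : Fin m) b, c i.castSucc b = c' i.castSucc b) (h' : ∀ b, wv m (φ b) = wv m (φ' b)) :
    cfg m c φ = cfg m c' φ' := by
  funext ⟨i, b⟩
  refine Fin.lastCases ?_ (fun i => ?_) i
  · rw [cfg_last, cfg_last, h']
  · funext j
    rw [cfg_castSucc_apply, cfg_castSucc_apply, h]

lemma continuous_wv : Continuous (wv m) := by
  rw [continuous_pi_iff]
  intro j
  unfold wv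
  split_ifs
  · exact Real.continuous_cos
  · exact Real.continuous_sin
  · exact continuous_const

lemma continuous_cfg (c : Fin (m + 1) → Bool → ℝ) {X : Type*} [TopologicalSpace X]
    {φ : X → Bool → ℝ} (hφ : ∀ b, Continuous fun x => φ x b) :
    Continuous (fun x => cfg m c (φ x)) := by
  rw [continuous_pi_iff]
  rintro ⟨i, b⟩
  refine Fin.lastCases ?_ (fun i => ?_) i
  · simp only [cfg_last]
    exact continuous_wv.comp (hφ b)
  · have h : (fun x => cfg m c (φ x) (i.castSucc, b)) =
        fun _ => fun j => if j = i.castSucc.castSucc then c i.castSucc b else 0 := by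
      funext x j
      rw [cfg_castSucc_apply]
    rw [h]
    exact continuous_const

/-! ### The full rotation -/

/-- the angles during the rotation -/
noncomputable def rot (t : ℝ) : Bool → ℝ := fun b => if b then 2 * Real.pi * t else 0

lemma continuous_rot (b : Bool) : Continuous fun t : unitInterval => rot t b := by
  unfold rot
  cases b
  · simp only [Bool.false_eq_true, if_false]; exact continuous_const
  · simp only [if_true]; fun_prop

/-- the full rotation of the vertex `(m, true)` -/
noncomputable def rho (m : ℕ) (c : Fin (m + 1) → Bool → ℝ) :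
    Path (cfg m c fun _ => 0) (cfg m c fun _ => 0) where
  toFun t := cfg m c (rot t)
  continuous_toFun := continuous_cfg c continuous_rot
  source' := by
    apply cfg_congr (fun _ _ => rfl)
    intro b; cases b <;> simp [rot]
  target' := by
    apply cfg_congr (fun _ _ => rfl)
    intro b
    cases b
    · simp [rot]
    · simp only [rot, if_true, Set.Icc.coe_one, mul_one]
      have := wv_two_pi (m := m) 0
      rwa [zero_add] at this

/-- extension of `Wf` -/
noncomputable def Wx (m : ℕ) (φ : ℝ) : ℝ :=
  Wf m (min φ (2 * Real.pi)) + Wf m (max (φ - 2 * Real.pi) 0)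

lemma continuous_Wx : Continuous (Wx m) := by
  unfold Wx
  have := continuous_Wf (m := m)
  fun_prop

lemma Wx_of_le {φ : ℝ} (h : φ ≤ 2 * Real.pi) : Wx m φ = Wf m φ := by
  unfold Wx
  rw [min_eq_left h, max_eq_right (by linarith), Wf_zero, add_zero]

lemma Wx_of_ge {φ : ℝ} (h : 2 * Real.pi ≤ φ) :
    Wx m φ = Wf m (φ - 2 * Real.pi) + sphereVol (m + 1) := by
  unfold Wx
  rw [min_eq_right h, max_eq_left (by linarith), Wf_two_pi, add_comm]

lemma isOV_lune' {a : Fin (m + 1) → ℝ} (ha : ∀ i, a i * a i = 1) {φ : Bool → ℝ}
    (h0 : 0 ≤ φ false ∧ φ false ≤ 2 * Real.pi) (h1 : 0 ≤ φ true ∧ φ true ≤ 4 * Real.pi) :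
    IsOrientedVolume (crossPolytope (m + 1)) (cfg m (lc a) φ)
      ((sA a : ℝ) * (Wx m (φ true) - Wf m (φ false))) := by
  rcases le_total (φ true) (2 * Real.pi) with h | h
  · rw [Wx_of_le h]
    apply isOV_lune ha
    intro b
    cases b
    · exact h0
    · exact ⟨h1.1, h⟩
  · rw [Wx_of_ge h]
    have h2 : cfg m (lc a) φ = cfg m (lc a) (fun b => if b then φ true - 2 * Real.pi
        else φ false) := by
      apply cfg_congr (fun _ _ => rfl)
      intro b
      cases b
      · simp
      · simp only [if_true]
        have := wv_two_pi (m := m) (φ true - 2 * Real.pi)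
        rwa [sub_add_cancel] at this
    have h3 := isOV_lune (m := m) (φ := fun b => if b then φ true - 2 * Real.pi
        else φ false) ha (by
      intro b
      cases b
      · exact h0
      · simp only [if_true]
        constructor <;> linarith [h1.2])
    rw [← h2] at h3
    have h4 := h3.shift (sA a)
    convert h4 using 1
    simp only [if_true, Bool.false_eq_true, if_false]
    ring

/-- the signs of the state `τ`, where the vertices `(i, true)` are at `± e_i` -/
def st (τ : Fin (m + 1) → Bool) : Fin (m + 1) → Bool → ℝ := fun i b => if b then rs (τ i) else 1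

lemma st_sq (τ : Fin (m + 1) → Bool) (i : Fin (m + 1)) (b : Bool) :
    st τ i b * st τ i b = 1 := by
  unfold st
  cases b
  · simp
  · simpa using rs_sq _

open Classical in
/-- the increment of the rotation in the state `τ` -/
noncomputable def incr (τ : Fin (m + 1) → Bool) (A : Set (Fin (m + 1) × Bool)) : ℤ :=
  if ∀ i : Fin m, ev A (i.castSucc, true) * rs (τ i.castSucc) = - ev A (i.castSucc, false) then
    sA (fun i => ev A (i, false)) else 0

lemma sq_eq_one_cases {x : ℝ} (h : x * x = 1) : x = 1 ∨ x = -1 := by
  have : (x - 1) * (x + 1) = 0 := by linear_combination h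
  rcases mul_eq_zero.1 this with h1 | h1
  · left; linarith
  · right; linarith

lemma good'_rho (τ : Fin (m + 1) → Bool) :
    Good' (rho m (st τ)) (fun A => (incr τ A : ℝ) * sphereVol (m + 1)) := by
  constructor
  · intro t
    exact ortho_cfg (st_sq τ)
  · intro A
    have hfun : ∀ t : unitInterval, ((rho m (st τ)).map (continuous_antipodes A)) t =
        cfg m (fun i b => ev A (i, b) * st τ i b)
          (fun b => rot t b + sh A (Fin.last m, b)) := by
      intro t
      rw [Path.map_coe, Function.comp_apply]
      exact antipodes_cfg A _ _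
    by_cases h : ∀ i : Fin m, ev A (i.castSucc, true) * rs (τ i.castSucc) =
        - ev A (i.castSucc, false)
    · have hincr : incr τ A = sA (fun i => ev A (i, false)) := by
        unfold incr; rw [if_pos h]
      show Inc _ _ ((incr τ A : ℝ) * sphereVol (m + 1))
      rw [hincr]
      set a : Fin (m + 1) → ℝ := fun i => ev A (i, false) with ha_def
      have ha : ∀ i, a i * a i = 1 := fun i => ev_sq A _
      have hfun' : ∀ t : unitInterval, ((rho m (st τ)).map (continuous_antipodes A)) t =
        cfg m (lc a) (fun b => rot t b + sh A (Fin.last m, b)) := by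
        intro t
        rw [hfun t]
        apply cfg_congr _ (fun _ => rfl)
        intro i b
        cases b
        · simp [st, lc, rs, ha_def]
        · simp only [st, if_true, h i, lc, ha_def]
          simp [rs]
      have hov : ∀ t : unitInterval, IsOrientedVolume (crossPolytope (m + 1))
          (((rho m (st τ)).map (continuous_antipodes A)) t)
          ((sA a : ℝ) * (Wx m (2 * Real.pi * t + sh A (Fin.last m, true)) -
            Wf m (sh A (Fin.last m, false)))) := by
        intro t
        rw [hfun' t]
        have hpi := Real.pi_pos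
        have := isOV_lune' (m := m) (φ := fun b => rot t b + sh A (Fin.last m, b)) ha (by
          simp only [rot, Bool.false_eq_true, if_false, zero_add]
          exact ⟨sh_nonneg _ _, (sh_le _ _).trans (by linarith)⟩) (by
          simp only [rot, if_true]
          have h1 := sh_nonneg A (Fin.last m, true)
          have h2 := sh_le A (Fin.last m, true)
          have h3 := t.2.1
          have h4 := t.2.2
          constructor
          · positivity
          · nlinarith)
        simpa [rot] using this
      have hW : Continuous (fun t : unitInterval => (sA a : ℝ) *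
          (Wx m (2 * Real.pi * t + sh A (Fin.last m, true)) -
            Wf m (sh A (Fin.last m, false)))) := by
        have := continuous_Wx (m := m)
        fun_prop
      have hinc := inc_of_lift _ hW hov
      convert hinc using 1
      have hval : Wx m (2 * Real.pi + sh A (Fin.last m, true)) -
          Wx m (sh A (Fin.last m, true)) = sphereVol (m + 1) := by
        have hpi := Real.pi_pos
        rw [Wx_of_ge (by linarith [sh_nonneg A (Fin.last m, true)]),
          Wx_of_le (by linarith [sh_le A (Fin.last m, true)])]
        rw [show 2 * Real.pi + sh A (Fin.last m, true) - 2 * Real.pi =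
          sh A (Fin.last m, true) by ring]
        ring
      simp only [Set.Icc.coe_one, Set.Icc.coe_zero, mul_one, mul_zero, zero_add]
      rw [← hval]; ring
    · have hincr : incr τ A = 0 := by
        unfold incr; rw [if_neg h]
      show Inc _ _ ((incr τ A : ℝ) * sphereVol (m + 1))
      rw [hincr]
      push Not at h
      obtain ⟨i, hi⟩ := h
      have hov : ∀ t : unitInterval, IsOrientedVolume (crossPolytope (m + 1))
          (((rho m (st τ)).map (continuous_antipodes A)) t) 0 := by
        intro t
        rw [hfun t]
        apply isOV_zero (i := i.castSucc)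
        · apply ortho_cfg
          intro j b
          linear_combination (st τ j b * st τ j b) * ev_sq A (j, b) + st_sq τ j b
        · funext j
          rw [cfg_castSucc_apply, cfg_castSucc_apply]
          have h1 : ev A (i.castSucc, true) * st τ i.castSucc true =
              ev A (i.castSucc, false) * st τ i.castSucc false := by
            simp only [st, if_true, Bool.false_eq_true, if_false, mul_one]
            have h2 : (ev A (i.castSucc, true) * rs (τ i.castSucc)) *
                (ev A (i.castSucc, true) * rs (τ i.castSucc)) = 1 := by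
              linear_combination (rs (τ i.castSucc) * rs (τ i.castSucc)) *
                ev_sq A (i.castSucc, true) + rs_sq (τ i.castSucc)
            rcases sq_eq_one_cases h2 with h3 | h3 <;>
            rcases sq_eq_one_cases (ev_sq A (i.castSucc, false)) with h4 | h4
            · rw [h3, h4]
            · exfalso; apply hi; rw [h3, h4]; norm_num
            · exfalso; apply hi; rw [h3, h4]
            · rw [h3, h4]
          rw [h1]
      have hinc := inc_of_lift _ continuous_const hov
      simpa using hinc

/-! ### Connecting the states -/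

/-- the vertex `(i, true)` is turned by the angle `θ` towards the last coordinate vector -/
noncomputable def tilt (m : ℕ) (τ : Fin (m + 1) → Bool) (i : Fin m) (θ : ℝ)
    (v : Fin (m + 1) × Bool) : Fin (m + 1 + 1) → ℝ :=
  if v = (i.castSucc, true) then
    fun j => if j = i.castSucc.castSucc then Real.cos θ else if j = ib m then Real.sin θ else 0
  else cfg m (st τ) (fun _ => 0) v

lemma continuous_tilt (τ : Fin (m + 1) → Bool) (i : Fin m) : Continuous (tilt m τ i) := by
  rw [continuous_pi_iff]
  intro v
  by_cases h : v = (i.castSucc, true)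
  · have : (fun θ => tilt m τ i θ v) = fun θ => fun j => if j = i.castSucc.castSucc
        then Real.cos θ else if j = ib m then Real.sin θ else 0 := by
      funext θ
      simp only [tilt, if_pos h]
    rw [this, continuous_pi_iff]
    intro j
    split_ifs
    · exact Real.continuous_cos
    · exact Real.continuous_sin
    · exact continuous_const
  · have : (fun θ => tilt m τ i θ v) = fun θ => cfg m (st τ) (fun _ => 0) v := by
      funext θ
      simp only [tilt, if_neg h]
    rw [this]
    exact continuous_const

lemma tilt_dot (i : Fin m) (θ : ℝ) (x : Fin (m + 1 + 1) → ℝ) :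
    (fun j => if j = i.castSucc.castSucc then Real.cos θ else if j = ib m then Real.sin θ else 0)
      ⬝ᵥ x = Real.cos θ * x i.castSucc.castSucc + Real.sin θ * x (ib m) := by
  simp only [dotProduct]
  rw [Finset.sum_eq_add i.castSucc.castSucc (ib m) (cast_ne_ib i)]
  · simp [(cast_ne_ib i).symm]
  · intro j _ hj
    simp [hj.1, hj.2]
  · simp
  · simp

lemma cfg_other (τ : Fin (m + 1) → Bool) (i : Fin m) (v : Fin (m + 1) × Bool)
    (hv : v.1 ≠ i.castSucc) : cfg m (st τ) (fun _ => 0) v i.castSucc.castSucc = 0 ∧
      cfg m (st τ) (fun _ => 0) v (ib m) = 0 := by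
  obtain ⟨j, b⟩ := v
  simp only at hv
  revert hv
  refine Fin.lastCases ?_ (fun j => ?_) j
  · intro _
    rw [cfg_last]
    simp only [wv]
    constructor
    · rw [if_neg (cast_ne_ia i), if_neg (cast_ne_ib i)]
    · rw [if_neg ia_ne_ib.symm]
      simp
  · intro h
    rw [cfg_castSucc_apply, cfg_castSucc_apply]
    constructor
    · rw [if_neg]
      intro h'
      exact h (Fin.castSucc_injective _ h').symm
    · rw [if_neg (cast_ne_ib j).symm]

lemma ortho_tilt (τ : Fin (m + 1) → Bool) (i : Fin m) (θ : ℝ) : Ortho (tilt m τ i θ) := by
  have h0 : Ortho (cfg m (st τ) fun _ => 0) := ortho_cfg (st_sq τ)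
  constructor
  · intro v
    by_cases h : v = (i.castSucc, true)
    · have h1 := tilt_dot (m := m) i θ (fun j => if j = i.castSucc.castSucc
        then Real.cos θ else if j = ib m then Real.sin θ else 0)
      simp only [if_true, if_neg (cast_ne_ib i).symm] at h1
      unfold OnSphere
      have h2 : ∑ k, tilt m τ i θ v k ^ 2 = tilt m τ i θ v ⬝ᵥ tilt m τ i θ v := by
        simp only [dotProduct]
        exact Finset.sum_congr rfl fun k _ => sq _
      rw [h2]
      simp only [tilt, if_pos h]
      rw [h1]
      have := Real.cos_sq_add_sin_sq θ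
      linarith [sq (Real.cos θ), sq (Real.sin θ)]
    · unfold OnSphere
      simp only [tilt, if_neg h]
      exact h0.1 v
  · intro u v huv
    by_cases hu : u = (i.castSucc, true)
    · have hv : v ≠ (i.castSucc, true) := by
        intro h; apply huv; rw [hu, h]
      have hv' : v.1 ≠ i.castSucc := by
        intro h; apply huv; rw [hu, h]
      simp only [tilt, if_pos hu, if_neg hv]
      rw [tilt_dot, (cfg_other τ i v hv').1, (cfg_other τ i v hv').2]
      ring
    · by_cases hv : v = (i.castSucc, true)
      · have hu' : u.1 ≠ i.castSucc := by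
          intro h; apply huv; rw [hv, h]
        simp only [tilt, if_neg hu, if_pos hv]
        rw [dotProduct_comm, tilt_dot, (cfg_other τ i u hu').1, (cfg_other τ i u hu').2]
        ring
      · simp only [tilt, if_neg hu, if_neg hv]
        exact h0.2 u v huv

lemma tilt_eq (τ : Fin (m + 1) → Bool) (i : Fin m) (b : Bool) :
    tilt m τ i (if b then Real.pi else 0) =
      cfg m (st (Function.update τ i.castSucc b)) fun _ => 0 := by
  funext v
  by_cases h : v = (i.castSucc, true)
  · rw [h]
    funext j
    rw [cfg_castSucc_apply]
    simp only [tilt, if_true, st, Function.update_self]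
    cases b
    · simp [rs]
    · simp [rs]
  · obtain ⟨k, b'⟩ := v
    simp only [tilt, if_neg h]
    by_cases hk : k = i.castSucc
    · subst hk
      have hb' : b' = false := by
        cases b'
        · rfl
        · exact absurd rfl h
      subst hb'
      funext j
      rw [cfg_castSucc_apply, cfg_castSucc_apply]
      simp [st]
    · revert h
      revert hk
      refine Fin.lastCases ?_ (fun k => ?_) k
      · intro _ _
        rw [cfg_last, cfg_last]
      · intro hk _
        funext j
        rw [cfg_castSucc_apply, cfg_castSucc_apply]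
        simp only [st, Function.update_of_ne hk]

lemma joined_update (τ : Fin (m + 1) → Bool) (i : Fin m) (b : Bool) :
    JoinedIn {P : XX (m + 1) | Ortho P} (cfg m (st τ) fun _ => 0)
      (cfg m (st (Function.update τ i.castSucc b)) fun _ => 0) := by
  have h1 : cfg m (st τ) (fun _ => 0) = tilt m τ i (if τ i.castSucc then Real.pi else 0) := by
    rw [tilt_eq, Function.update_eq_self]
  rw [h1, ← tilt_eq]
  set α : ℝ := if τ i.castSucc then Real.pi else 0
  set β : ℝ := if b then Real.pi else 0
  refine ⟨⟨⟨fun t => tilt m τ i (α + (β - α) * t), ?_⟩, ?_, ?_⟩, ?_⟩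
  · exact (continuous_tilt τ i).comp (by fun_prop)
  · simp
  · simp
  · intro t
    exact ortho_tilt _ _ _

lemma joined_all (τ τ' : Fin (m + 1) → Bool) :
    JoinedIn {P : XX (m + 1) | Ortho P} (cfg m (st τ) fun _ => 0)
      (cfg m (st τ') fun _ => 0) := by
  have key : ∀ S : Finset (Fin m), JoinedIn {P : XX (m + 1) | Ortho P}
      (cfg m (st τ) fun _ => 0)
      (cfg m (st (fun k => if ∃ i ∈ S, i.castSucc = k then τ' k else τ k)) fun _ => 0) := by
    intro S
    induction S using Finset.induction_on with
    | empty =>
        simp only [Finset.notMem_empty, false_and, exists_false, if_false]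
        exact JoinedIn.refl (ortho_cfg (st_sq τ))
    | insert a S ha ih =>
        refine ih.trans ?_
        have h1 := joined_update (fun k => if ∃ i ∈ S, i.castSucc = k then τ' k else τ k) a
          (τ' a.castSucc)
        convert h1 using 5 with k
        by_cases hk : k = a.castSucc
        · subst hk
          rw [Function.update_self, if_pos ⟨a, Finset.mem_insert_self _ _, rfl⟩]
        · rw [Function.update_of_ne hk]
          have h2 : (∃ i ∈ insert a S, i.castSucc = k) ↔ ∃ i ∈ S, i.castSucc = k := by
            constructor
            · rintro ⟨i, hi, hik⟩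
              rcases Finset.mem_insert.1 hi with h | h
              · exact absurd (by rw [← hik, h]) hk
              · exact ⟨i, h, hik⟩
            · rintro ⟨i, hi, hik⟩
              exact ⟨i, Finset.mem_insert_of_mem hi, hik⟩
          simp only [h2]
  have h := key Finset.univ
  have h2 : cfg m (st (fun k => if ∃ i ∈ (Finset.univ : Finset (Fin m)), i.castSucc = k
      then τ' k else τ k)) (fun _ => 0) = cfg m (st τ') fun _ => 0 := by
    apply cfg_congr _ (fun _ => rfl)
    intro i b
    cases b
    · simp [st]
    · simp only [st, if_true]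
      exact congrArg rs (if_pos ⟨i, Finset.mem_univ _, rfl⟩)
  rw [h2] at h
  exact h

/-- the base point: the vertices `(i, b)` with `i < m` are at `± e_i`, and `(m, b)` at the last
two coordinate vectors -/
noncomputable def base (m : ℕ) (t : ℝ) : XX (m + 1) :=
  cfg m (st fun _ => true) (fun b => if b then Real.pi / 2 + t else 0)

lemma continuous_base : Continuous (base m) := by
  unfold base
  apply continuous_cfg
  intro b
  cases b
  · simp only [Bool.false_eq_true, if_false]; exact continuous_const
  · simp only [if_true]; fun_prop

lemma ortho_base (t : ℝ) : Ortho (base m t) := ortho_cfg (st_sq _)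

/-- the path from the base point -/
noncomputable def basePath (m : ℕ) :
    Path (base m 0) (cfg m (st fun _ => true) fun _ => 0) where
  toFun t := base m (-(Real.pi / 2) * t)
  continuous_toFun := by
    have h : Continuous fun t : unitInterval => -(Real.pi / 2) * (t : ℝ) := by fun_prop
    exact (continuous_base (m := m)).comp h
  source' := by
    have h : -(Real.pi / 2) * ((0 : unitInterval) : ℝ) = 0 := by simp
    rw [h]
  target' := by
    unfold base
    apply cfg_congr (fun _ _ => rfl)
    intro b
    cases b
    · rfl
    · simp only [if_true, Set.Icc.coe_one]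
      congr 1
      ring

lemma joined_base (τ : Fin (m + 1) → Bool) :
    JoinedIn {P : XX (m + 1) | Ortho P} (base m 0) (cfg m (st τ) fun _ => 0) :=
  JoinedIn.trans ⟨basePath m, fun _ => ortho_base _⟩ (joined_all (fun _ => true) τ)

lemma antipodes_apply {V : Type} {n : ℕ} (A : Set V) (P : V → Fin (n + 1) → ℝ) (v : V) :
    antipodes A P v = ev A v • P v := by
  unfold antipodes ev
  by_cases h : v ∈ A
  · rw [if_pos h, if_pos h, neg_one_smul]
  · rw [if_neg h, if_neg h, one_smul]

lemma flexible_base (A : Set (Fin (m + 1) × Bool)) :
    Flexible (crossPolytope (m + 1)) (antipodes A (base m 0)) := by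
  refine ⟨fun t => antipodes A (base m t), ?_, ?_, ?_, ?_⟩
  · exact (continuous_antipodes A).comp (continuous_base.comp (by fun_prop))
  · simp
  · intro t
    exact ((ortho_base _).antipodes A).mem_Conf ((ortho_base _).antipodes A)
  · rintro ⟨B, _, hB0, hB⟩
    simp only at hB
    have h1 := hB 1 (Fin.last m, false)
    have h2 := hB 1 (Fin.last m, true)
    have hort : (B 1).transpose * B 1 = 1 := by
      have := (Matrix.mem_orthogonalGroup_iff' (Fin (m + 1 + 1)) ℝ).1 (hB0 1)
      simpa using this
    have h3 : antipodes A (base m ((1 : unitInterval) : ℝ)) (Fin.last m, false) ⬝ᵥ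
        antipodes A (base m ((1 : unitInterval) : ℝ)) (Fin.last m, true) =
        antipodes A (base m 0) (Fin.last m, false) ⬝ᵥ
          antipodes A (base m 0) (Fin.last m, true) := by
      rw [h1, h2, Matrix.dotProduct_mulVec, Matrix.vecMul_mulVec, hort]
      simp
    have h4 : ∀ t : ℝ, antipodes A (base m t) (Fin.last m, false) ⬝ᵥ
        antipodes A (base m t) (Fin.last m, true) =
        ev A (Fin.last m, false) * ev A (Fin.last m, true) * Real.cos (Real.pi / 2 + t) := by
      intro t
      have h5 : base m t (Fin.last m, false) ⬝ᵥ base m t (Fin.last m, true) =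
          Real.cos (Real.pi / 2 + t) := by
        unfold base
        rw [cfg_last, cfg_last, dot_wv]
        simp only [Bool.false_eq_true, if_false, if_true, zero_sub, Real.cos_neg]
      rw [antipodes_apply, antipodes_apply, smul_dotProduct, dotProduct_smul, h5, smul_eq_mul,
        smul_eq_mul, mul_assoc]
    rw [h4, h4] at h3
    have hne : ev A (Fin.last m, false) * ev A (Fin.last m, true) ≠ 0 := by
      intro h
      have e1 := ev_sq A (Fin.last m, false)
      have e2 := ev_sq A (Fin.last m, true)
      rcases mul_eq_zero.1 h with h' | h'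
      · rw [h'] at e1; norm_num at e1
      · rw [h'] at e2; norm_num at e2
    have h6 := mul_left_cancel₀ hne h3
    rw [add_zero, Real.cos_pi_div_two, Set.Icc.coe_one, add_comm, Real.cos_add_pi_div_two] at h6
    have h7 : 0 < Real.sin 1 := Real.sin_pos_of_pos_of_lt_pi one_pos (by linarith [Real.pi_gt_three])
    linarith

/-- the closed curve -/
lemma exists_loop (m : ℕ) : ∃ γ : Path (base m 0) (base m 0), (∀ t, Ortho (γ t)) ∧
    ∀ A, ∃ k : ℤ, (k = 1 ∨ k = -1) ∧
      Inc (crossPolytope (m + 1)) (γ.map (continuous_antipodes A)) (k * sphereVol (m + 1)) := by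
  classical
  obtain ⟨γ, hγ1, hγ2⟩ := good'_prod (ortho_base (m := m) 0)
    (Finset.univ.filter fun τ : Fin (m + 1) → Bool => τ (Fin.last m) = false)
    (fun τ => cfg m (st τ) fun _ => 0) (fun τ => rho m (st τ))
    (fun τ A => (incr τ A : ℝ) * sphereVol (m + 1)) joined_base good'_rho
  refine ⟨γ, hγ1, fun A => ?_⟩
  -- the only state that contributes
  set τ₀ : Fin (m + 1) → Bool := Fin.snoc (α := fun _ => Bool)
    (fun i : Fin m => decide (ev A (i.castSucc, true) = ev A (i.castSucc, false))) false with hτ₀
  have hτl : τ₀ (Fin.last m) = false := by rw [hτ₀, Fin.snoc_last]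
  have hτc : ∀ i : Fin m, τ₀ i.castSucc =
      decide (ev A (i.castSucc, true) = ev A (i.castSucc, false)) :=
    fun i => by rw [hτ₀, Fin.snoc_castSucc]
  have hiff : ∀ (b : Bool) (i : Fin m), ev A (i.castSucc, true) * rs b =
      - ev A (i.castSucc, false) ↔
      b = decide (ev A (i.castSucc, true) = ev A (i.castSucc, false)) := by
    intro b i
    rcases sq_eq_one_cases (ev_sq A (i.castSucc, true)) with h1 | h1 <;>
    rcases sq_eq_one_cases (ev_sq A (i.castSucc, false)) with h2 | h2 <;>
    rw [h1, h2] <;> cases b <;> simp [rs] <;> norm_num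
  have hmatch : ∀ i : Fin m, ev A (i.castSucc, true) * rs (τ₀ i.castSucc) =
      - ev A (i.castSucc, false) := fun i => (hiff _ i).2 (hτc i)
  refine ⟨sA (fun i => ev A (i, false)), ?_, ?_⟩
  · have := sA_sq (m := m) (a := fun i => ev A (i, false)) (fun i => ev_sq A _)
    exact mul_self_eq_one_iff.1 this
  · have h1 : Inc (crossPolytope (m + 1)) (γ.map (continuous_antipodes A))
        (∑ τ ∈ Finset.univ.filter (fun τ : Fin (m + 1) → Bool => τ (Fin.last m) = false),
          (incr τ A : ℝ) * sphereVol (m + 1)) := hγ2 A
    have h2 : ∑ τ ∈ Finset.univ.filter (fun τ : Fin (m + 1) → Bool => τ (Fin.last m) = false),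
        (incr τ A : ℝ) * sphereVol (m + 1) =
        (sA (fun i => ev A (i, false)) : ℝ) * sphereVol (m + 1) := by
      rw [Finset.sum_eq_single τ₀]
      · unfold incr
        rw [if_pos hmatch]
      · intro τ hτ hne
        rw [Finset.mem_filter] at hτ
        unfold incr
        rw [if_neg]
        · simp
        · intro h
          apply hne
          funext i
          refine Fin.lastCases ?_ (fun i => ?_) i
          · rw [hτ.2, hτl]
          · rw [hτc]
            exact (hiff _ i).1 (h i)
      · intro h
        exact (h (by rw [Finset.mem_filter]; exact ⟨Finset.mem_univ _, hτl⟩)).elim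
    rw [h2] at h1
    exact h1

end loop

end Pool.Agent.helper69.FlexPoly
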