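import Pool.Agent.helper69.FlexPoly.Fam
import Pool.Agent.helper69.FlexPoly.Loop

set_option autoImplicit false

open MeasureTheory Filter Topology

namespace Pool.Agent.helper69.FlexPoly

section curve

variable {n : ℕ}

/-- `cos φ_i`, where `tan (φ_i / 2) = lam_i * tan θ` -/
noncomputable def cc (lam : Fin n → ℝ) (θ : ℝ) (i : Fin n) : ℝ :=
  (Real.cos θ ^ 2 - lam i ^ 2 * Real.sin θ ^ 2) / (Real.cos θ ^ 2 + lam i ^ 2 * Real.sin θ ^ 2)

/-- `sin φ_i`, where `tan (φ_i / 2) = lam_i * tan θ` -/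
noncomputable def ss (lam : Fin n → ℝ) (θ : ℝ) (i : Fin n) : ℝ :=
  2 * lam i * Real.sin θ * Real.cos θ / (Real.cos θ ^ 2 + lam i ^ 2 * Real.sin θ ^ 2)

/-- the coefficients `x_ij` -/
noncomputable def xx (N : Matrix (Fin n) (Fin n) ℝ) (lam : Fin n → ℝ) (i j : Fin n) : ℝ :=
  (gr N i j * (lam i ^ 2 + lam j ^ 2) - 2 * lam i * lam j) / (lam i ^ 2 - lam j ^ 2)

/-- the moving cross-polytope -/
noncomputable def curve (N : Matrix (Fin n) (Fin n) ℝ) (lam : Fin n → ℝ) (θ : ℝ) :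
    Fin n × Bool → Fin (n + 1) → ℝ :=
  crs (vA N) (vB N (xx N lam) (cc lam θ) (ss lam θ))

/-- admissible parameters -/
structure Adm (N : Matrix (Fin n) (Fin n) ℝ) (lam : Fin n → ℝ) : Prop where
  det_ne : N.det ≠ 0
  unit : ∀ i, ∑ l, N i l ^ 2 = 1
  pos : ∀ i, 0 < lam i
  inj : Function.Injective lam

variable {N : Matrix (Fin n) (Fin n) ℝ} {lam : Fin n → ℝ}

lemma Adm.gr_self (h : Adm N lam) (i : Fin n) : gr N i i = 1 := by
  unfold gr
  rw [← h.unit i]
  exact Finset.sum_congr rfl fun l _ => (sq _).symm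

lemma Adm.D_pos (h : Adm N lam) (θ : ℝ) (i : Fin n) :
    0 < Real.cos θ ^ 2 + lam i ^ 2 * Real.sin θ ^ 2 := by
  have h1 := Real.sin_sq_add_cos_sq θ
  have h2 := pow_pos (h.pos i) 2
  rcases (sq_nonneg (Real.cos θ)).lt_or_eq with h3 | h3
  · have : 0 ≤ lam i ^ 2 * Real.sin θ ^ 2 := mul_nonneg h2.le (sq_nonneg _)
    linarith
  · have h4 : Real.sin θ ^ 2 = 1 := by linarith
    rw [← h3, h4]
    linarith

lemma xx_anti (i j : Fin n) : xx N lam i j = - xx N lam j i := by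
  unfold xx
  rw [gr_comm i j, ← neg_div_neg_eq, neg_div]
  congr 2 <;> ring

lemma rel_alg (p q a b g : ℝ) (hi : q ^ 2 + a ^ 2 * p ^ 2 ≠ 0) (hj : q ^ 2 + b ^ 2 * p ^ 2 ≠ 0)
    (hab : a ^ 2 - b ^ 2 ≠ 0) :
    2 * a * p * q / (q ^ 2 + a ^ 2 * p ^ 2) * (2 * b * p * q / (q ^ 2 + b ^ 2 * p ^ 2)) =
    g * (1 - (q ^ 2 - a ^ 2 * p ^ 2) / (q ^ 2 + a ^ 2 * p ^ 2) *
      ((q ^ 2 - b ^ 2 * p ^ 2) / (q ^ 2 + b ^ 2 * p ^ 2))) +
    (g * (a ^ 2 + b ^ 2) - 2 * a * b) / (a ^ 2 - b ^ 2) *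
      ((q ^ 2 - a ^ 2 * p ^ 2) / (q ^ 2 + a ^ 2 * p ^ 2) -
        (q ^ 2 - b ^ 2 * p ^ 2) / (q ^ 2 + b ^ 2 * p ^ 2)) := by
  set D := q ^ 2 + a ^ 2 * p ^ 2 with hD
  set E := q ^ 2 + b ^ 2 * p ^ 2 with hE
  set G := a ^ 2 - b ^ 2 with hG
  have h1 : 1 - (q ^ 2 - a ^ 2 * p ^ 2) / D * ((q ^ 2 - b ^ 2 * p ^ 2) / E) =
      2 * p ^ 2 * q ^ 2 * (a ^ 2 + b ^ 2) / (D * E) := by
    rw [div_mul_div_comm, eq_div_iff (mul_ne_zero hi hj), sub_mul,
      div_mul_cancel₀ _ (mul_ne_zero hi hj), hD, hE]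
    ring
  have h2 : (q ^ 2 - a ^ 2 * p ^ 2) / D - (q ^ 2 - b ^ 2 * p ^ 2) / E =
      -(2 * p ^ 2 * q ^ 2 * G) / (D * E) := by
    rw [div_sub_div _ _ hi hj]
    congr 1
    rw [hD, hE, hG]
    ring
  rw [h1, h2, div_mul_div_comm, ← mul_div_assoc, div_mul_div_comm]
  have h3 : (g * (a ^ 2 + b ^ 2) - 2 * a * b) * -(2 * p ^ 2 * q ^ 2 * G) / (G * (D * E)) =
      -((g * (a ^ 2 + b ^ 2) - 2 * a * b) * (2 * p ^ 2 * q ^ 2)) / (D * E) := by
    rw [show (g * (a ^ 2 + b ^ 2) - 2 * a * b) * -(2 * p ^ 2 * q ^ 2 * G) =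
      G * (-((g * (a ^ 2 + b ^ 2) - 2 * a * b) * (2 * p ^ 2 * q ^ 2))) by ring,
      mul_div_mul_left _ _ hab]
  rw [h3, ← add_div]
  congr 1
  ring

lemma Adm.rel (h : Adm N lam) (θ : ℝ) (i j : Fin n) : ss lam θ i * ss lam θ j =
    gr N i j * (1 - cc lam θ i * cc lam θ j) + xx N lam i j * (cc lam θ i - cc lam θ j) := by
  have hi := (h.D_pos θ i).ne'
  have hj := (h.D_pos θ j).ne'
  by_cases hij : i = j
  · subst hij
    rw [h.gr_self, sub_self, mul_zero, add_zero, one_mul]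
    unfold ss cc
    field_simp
    ring
  · have h1 : lam i ^ 2 - lam j ^ 2 ≠ 0 := by
      intro h2
      apply hij
      apply h.inj
      have h3 : (lam i - lam j) * (lam i + lam j) = 0 := by linear_combination h2
      rcases mul_eq_zero.1 h3 with h4 | h4
      · linarith
      · linarith [h.pos i, h.pos j]
    exact rel_alg _ _ _ _ _ hi hj h1

lemma Adm.key (h : Adm N lam) (θ : ℝ) (w : Fin n → ℝ)
    (h1 : ∀ k, w k * ∑ i, w i * (vB N (xx N lam) (cc lam θ) (ss lam θ) i ⬝ᵥ ext (N k) 0) = 0)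
    (h2 : ∑ i, w i * vB N (xx N lam) (cc lam θ) (ss lam θ) i (Fin.last n) = 0) : w = 0 :=
  key_fam h.det_ne xx_anti (h.rel θ) w h1 h2

lemma vA_last (j : Fin n) : vA N j (Fin.last n) = 0 := ext_last _ _

lemma Adm.vB_ne (h : Adm N lam) (θ : ℝ) (i : Fin n) :
    vB N (xx N lam) (cc lam θ) (ss lam θ) i ≠ 0 := by
  have := crs_ne_zero (A := vA N) (ν := fun k => ext (N k) 0) (vA_dot h.det_ne) vA_last
    (h.key θ) i true
  simpa using this

lemma vA_ne (hN : N.det ≠ 0) (i : Fin n) : vA N i ≠ 0 := by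
  intro h
  have h1 := vA_dot hN i i
  rw [h] at h1
  simp at h1

lemma Adm.isPolyhedron (h : Adm N lam) (θ : ℝ) :
    IsPolyhedron (crossPolytope n) (curve N lam θ) :=
  crs_isPolyhedron (ν := fun k => ext (N k) 0) (vA_dot h.det_ne) vA_last (h.key θ)

lemma Adm.continuous_cc (h : Adm N lam) (i : Fin n) : Continuous fun θ => cc lam θ i := by
  unfold cc
  apply Continuous.div
  · fun_prop
  · fun_prop
  · intro θ; exact (h.D_pos θ i).ne'

lemma Adm.continuous_ss (h : Adm N lam) (i : Fin n) : Continuous fun θ => ss lam θ i := by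
  unfold ss
  apply Continuous.div
  · fun_prop
  · fun_prop
  · intro θ; exact (h.D_pos θ i).ne'

lemma continuous_ext {X : Type*} [TopologicalSpace X] {f : X → Fin n → ℝ} {g : X → ℝ}
    (hf : Continuous f) (hg : Continuous g) : Continuous fun x => ext (f x) (g x) := by
  rw [continuous_pi_iff]
  intro i
  refine Fin.lastCases ?_ (fun i => ?_) i
  · simp only [ext, Fin.snoc_last]
    exact hg
  · simp only [ext, Fin.snoc_castSucc]
    exact (continuous_apply i).comp hf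

lemma Adm.continuous_curve (h : Adm N lam) : Continuous (curve N lam) := by
  rw [continuous_pi_iff]
  rintro ⟨i, b⟩
  cases b
  · have h0 : (fun θ => curve N lam θ (i, false)) = fun _ => nz (vA N i) := rfl
    rw [h0]
    exact continuous_const
  · have h1 : Continuous fun θ => vB N (xx N lam) (cc lam θ) (ss lam θ) i := by
      unfold vB
      apply continuous_ext
      · rw [continuous_pi_iff]
        intro l
        exact continuous_const.add ((h.continuous_cc i).mul continuous_const)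
      · exact h.continuous_ss i
    exact continuous_nz (X := ℝ) h1 fun θ => h.vB_ne θ i

/-! ### Dot products -/

lemma vB_vB {x : Fin n → Fin n → ℝ} {c s : Fin n → ℝ} (hN : N.det ≠ 0)
    (hx : ∀ i j, x i j = - x j i)
    (hrel : ∀ i j, s i * s j = gr N i j * (1 - c i * c j) + x i j * (c i - c j)) (i j : Fin n) :
    vB N x c s i ⬝ᵥ vB N x c s j =
      ∑ l, (∑ k, x i k * du N k l) * (∑ k, x j k * du N k l) + gr N i j := by
  have h1 : ∀ i j : Fin n, ∑ l, (∑ k, x i k * du N k l) * N j l = x i j := by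
    intro i j
    have h2 := vB_dot (x := x) (c := fun _ => 0) (s := fun _ => 0) hN i j
    unfold vB at h2
    rw [ext_dot] at h2
    simpa using h2
  unfold vB
  rw [ext_dot]
  have h3 : ∀ l, (∑ k, x i k * du N k l + c i * N i l) * (∑ k, x j k * du N k l + c j * N j l) =
      (∑ k, x i k * du N k l) * (∑ k, x j k * du N k l) +
      c j * ((∑ k, x i k * du N k l) * N j l) + c i * ((∑ k, x j k * du N k l) * N i l) +
      c i * c j * (N i l * N j l) := by
    intro l; ring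
  rw [Finset.sum_congr rfl fun l _ => h3 l, Finset.sum_add_distrib, Finset.sum_add_distrib,
    Finset.sum_add_distrib, ← Finset.mul_sum, ← Finset.mul_sum, ← Finset.mul_sum, h1, h1, hrel]
  have h4 : ∑ l, N i l * N j l = gr N i j := rfl
  rw [h4, hx j i]
  ring

lemma vA_vB {x : Fin n → Fin n → ℝ} {c s : Fin n → ℝ} (hN : N.det ≠ 0) (i j : Fin n) :
    vA N i ⬝ᵥ vB N x c s j = ∑ l, du N i l * (∑ k, x j k * du N k l) +
      c j * (if i = j then 1 else 0) := by
  unfold vA vB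
  rw [ext_dot, ← du_dot hN i j, Finset.mul_sum, zero_mul, add_zero, ← Finset.sum_add_distrib]
  refine Finset.sum_congr rfl fun l _ => ?_
  ring

/-- the raw vectors -/
noncomputable def raw (N : Matrix (Fin n) (Fin n) ℝ) (lam : Fin n → ℝ) (θ : ℝ)
    (v : Fin n × Bool) : Fin (n + 1) → ℝ :=
  if v.2 then vB N (xx N lam) (cc lam θ) (ss lam θ) v.1 else vA N v.1

lemma curve_eq (θ : ℝ) (v : Fin n × Bool) : curve N lam θ v = nz (raw N lam θ v) := rfl

lemma Adm.raw_dot (h : Adm N lam) (θ θ' : ℝ) {v w : Fin n × Bool} (hvw : v.1 ≠ w.1 ∨ v = w) :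
    raw N lam θ v ⬝ᵥ raw N lam θ w = raw N lam θ' v ⬝ᵥ raw N lam θ' w := by
  obtain ⟨i, b⟩ := v
  obtain ⟨j, b'⟩ := w
  unfold raw
  cases b <;> cases b'
  · rfl
  · have hij : i ≠ j := by
      rcases hvw with h1 | h1
      · exact h1
      · simp at h1
    simp only [Bool.false_eq_true, if_false, if_true]
    rw [vA_vB h.det_ne, vA_vB h.det_ne, if_neg hij, mul_zero, mul_zero]
  · have hij : i ≠ j := by
      rcases hvw with h1 | h1
      · exact h1
      · simp at h1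
    simp only [Bool.false_eq_true, if_false, if_true]
    rw [dotProduct_comm, vA_vB h.det_ne, if_neg hij.symm, dotProduct_comm, vA_vB h.det_ne,
      if_neg hij.symm, mul_zero, mul_zero]
  · simp only [if_true]
    rw [vB_vB h.det_ne xx_anti (h.rel θ), vB_vB h.det_ne xx_anti (h.rel θ')]

lemma Adm.curve_dot (h : Adm N lam) (θ θ' : ℝ) {v w : Fin n × Bool} (hvw : v.1 ≠ w.1 ∨ v = w) :
    curve N lam θ v ⬝ᵥ curve N lam θ w = curve N lam θ' v ⬝ᵥ curve N lam θ' w := by
  simp only [curve_eq]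
  rw [nz_dot, nz_dot, h.raw_dot θ θ' hvw, h.raw_dot θ θ' (v := v) (w := v) (Or.inr rfl),
    h.raw_dot θ θ' (v := w) (w := w) (Or.inr rfl)]

lemma antipodes_dot {V : Type} (A : Set V) (P : V → Fin (n + 1) → ℝ) (v w : V) :
    antipodes A P v ⬝ᵥ antipodes A P w = ev A v * (ev A w * (P v ⬝ᵥ P w)) := by
  rw [antipodes_apply, antipodes_apply, smul_dotProduct, dotProduct_smul, smul_eq_mul,
    smul_eq_mul]

lemma Adm.mem_Conf (h : Adm N lam) (θ θ' : ℝ) (A : Set (Fin n × Bool)) :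
    antipodes A (curve N lam θ) ∈ Conf (crossPolytope n) (antipodes A (curve N lam θ')) := by
  refine ⟨(h.isPolyhedron θ).antipodes A, ?_⟩
  intro F hF i j
  obtain ⟨s, rfl⟩ := mem_facets hF
  rw [antipodes_dot, antipodes_dot, h.curve_dot θ θ']
  by_cases hij : i = j
  · right; rw [hij]
  · left; exact hij

/-! ### Symmetry -/

lemma ss_symm (θ : ℝ) (i : Fin n) : ss lam (Real.pi - θ) i = - ss lam θ i := by
  unfold ss
  rw [Real.sin_pi_sub, Real.cos_pi_sub, neg_sq]
  ring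

lemma cc_symm (θ : ℝ) (i : Fin n) : cc lam (Real.pi - θ) i = cc lam θ i := by
  unfold cc
  rw [Real.sin_pi_sub, Real.cos_pi_sub, neg_sq]

lemma raw_symm (θ : ℝ) (v : Fin n × Bool) :
    raw N lam (Real.pi - θ) v = (refl n).mulVec (raw N lam θ v) := by
  obtain ⟨i, b⟩ := v
  cases b
  · simp only [raw, Bool.false_eq_true, if_false]
    unfold vA
    rw [refl_ext, neg_zero]
  · simp only [raw, if_true]
    unfold vB
    rw [refl_ext, ss_symm, cc_symm]

lemma curve_symm (θ : ℝ) : curve N lam (Real.pi - θ) = mv (refl n) (curve N lam θ) := by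
  funext v
  unfold mv
  rw [curve_eq, curve_eq, nz_mv refl_orth, raw_symm]

lemma mv_antipodes {V : Type} (M : Matrix (Fin (n + 1)) (Fin (n + 1)) ℝ) (A : Set V)
    (P : V → Fin (n + 1) → ℝ) : mv M (antipodes A P) = antipodes A (mv M P) := by
  funext v
  unfold mv antipodes
  split_ifs
  · rw [Matrix.mulVec_neg]
  · rfl

lemma curve_zero : curve N lam 0 = crs (vA N) (vF N (xx N lam) 1 0) := by
  have h : vB N (xx N lam) (cc lam 0) (ss lam 0) = vF N (xx N lam) 1 0 := by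
    funext i
    unfold vB vF
    have h1 : cc lam 0 i = 1 := by simp [cc]
    have h2 : ss lam 0 i = 0 := by simp [ss]
    rw [h1, h2]
    simp
  unfold curve
  rw [h]

lemma curve_pi : curve N lam Real.pi = curve N lam 0 := by
  have h1 : cc lam Real.pi = cc lam 0 := by
    funext i; simp [cc]
  have h2 : ss lam Real.pi = ss lam 0 := by
    funext i; simp [ss]
  unfold curve
  rw [h1, h2]

lemma Adm.cc_half (h : Adm N lam) (i : Fin n) : cc lam (Real.pi / 2) i = -1 := by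
  have h1 := (h.pos i).ne'
  simp only [cc, Real.cos_pi_div_two, Real.sin_pi_div_two]
  field_simp
  norm_num

lemma Adm.ss_half (i : Fin n) : ss lam (Real.pi / 2) i = 0 := by
  simp [ss]

lemma Adm.curve_half (h : Adm N lam) :
    curve N lam (Real.pi / 2) = crs (vA N) (vF N (xx N lam) (-1) 0) := by
  have h0 : vB N (xx N lam) (cc lam (Real.pi / 2)) (ss lam (Real.pi / 2)) =
      vF N (xx N lam) (-1) 0 := by
    funext i
    unfold vB vF
    rw [h.cc_half, Adm.ss_half]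
    simp
  unfold curve
  rw [h0]

end curve

end Pool.Agent.helper69.FlexPoly
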