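import Mathlib

set_option autoImplicit false

open MeasureTheory

namespace Pool.Agent.helper69.FlexPoly

/-! ### Definitions

Points of `S^n` are unit vectors `x : Fin (n + 1) → ℝ` of `ℝ^(n+1)`. -/

/-- A finite oriented `(n-1)`-dimensional pseudomanifold without boundary, on the vertex set `V`.
It is given by its facets (the `(n-1)`-dimensional simplices), each listed once as an ordered
`n`-tuple of distinct vertices, and by a sign `or F = ±1` for every facet `F`: the positive
orientation of the simplex is `or F` times the one given by the order of the tuple. All simplices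
are faces of facets. -/
structure OrientedPseudomanifold (V : Type) (n : ℕ) where
  /-- the facets -/
  facets : Finset (Fin n → V)
  /-- the orientation sign -/
  or : (Fin n → V) → ℤ
  or_eq : ∀ F ∈ facets, or F = 1 ∨ or F = -1
  nonempty : facets.Nonempty
  /-- the vertices of a facet are distinct -/
  inj : ∀ F ∈ facets, Function.Injective F
  /-- every vertex lies in a facet -/
  cover : ∀ v : V, ∃ F ∈ facets, v ∈ Set.range F
  /-- different facets have different vertex sets -/
  distinct : ∀ F ∈ facets, ∀ G ∈ facets, Set.range F = Set.range G → F = G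
  /-- no boundary, pseudomanifold: every codimension one face (the face of `F` opposite to its
  `i`-th vertex) lies in exactly one further facet `G` -/
  two : ∀ F ∈ facets, ∀ i : Fin n, ∃! G, G ∈ facets ∧ G ≠ F ∧ ∀ k, k ≠ i → F k ∈ Set.range G
  /-- two facets with a common codimension one face induce opposite orientations on it: if
  `G ∘ τ` differs from `F` in the `i`-th vertex only, then `G ∘ τ` has orientation sign `- or F` -/
  oriented : ∀ F ∈ facets, ∀ G ∈ facets, F ≠ G → ∀ (i : Fin n) (τ : Equiv.Perm (Fin n)),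
    (∀ k, k ≠ i → G (τ k) = F k) → or G * (Equiv.Perm.sign τ : ℤ) = - or F
  /-- strong connectedness -/
  connected : ∀ F ∈ facets, ∀ G ∈ facets,
    Relation.ReflTransGen (fun A B => B ∈ facets ∧ ∃ i, ∀ k, k ≠ i → A k ∈ Set.range B) F G

/-- `x ∈ S^n` -/
def OnSphere {n : ℕ} (x : Fin (n + 1) → ℝ) : Prop := ∑ k, x k ^ 2 = 1

/-- A polyhedron of type `K` in `S^n`, given by the images `P v ∈ S^n` of the vertices: the vertex
vectors of every facet (hence of every simplex) are linearly independent; the simplex is sent to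
the intersection of `S^n` with the cone they span. -/
def IsPolyhedron {V : Type} {n : ℕ} (K : OrientedPseudomanifold V n)
    (P : V → Fin (n + 1) → ℝ) : Prop :=
  (∀ v, OnSphere (P v)) ∧ ∀ F ∈ K.facets, LinearIndependent ℝ (fun i => P (F i))

/-- The image `P(K)` in `S^n`. -/
def image {V : Type} {n : ℕ} (K : OrientedPseudomanifold V n)
    (P : V → Fin (n + 1) → ℝ) : Set (Fin (n + 1) → ℝ) :=
  {x | OnSphere x ∧ ∃ F ∈ K.facets, ∃ c : Fin n → ℝ, (∀ i, 0 ≤ c i) ∧ x = ∑ i, c i • P (F i)}

/-- The configuration space of `P₀`: all polyhedra of type `K` with the same edge lengths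
(spherical distances `arccos ⟨P v, P w⟩` of adjacent vertices) as `P₀`, as a subset of the product
of copies of `S^n ⊆ ℝ^(n+1)` indexed by the vertices. -/
def Conf {V : Type} {n : ℕ} (K : OrientedPseudomanifold V n)
    (P₀ : V → Fin (n + 1) → ℝ) : Set (V → Fin (n + 1) → ℝ) :=
  {P | IsPolyhedron K P ∧ ∀ F ∈ K.facets, ∀ i j,
    Real.arccos (P (F i) ⬝ᵥ P (F j)) = Real.arccos (P₀ (F i) ⬝ᵥ P₀ (F j))}

/-- `P₀` is flexible: some continuous path in its configuration space starting at `P₀` is not
induced by a continuous family of isometries of `S^n` (orthogonal matrices). -/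
def Flexible {V : Type} {n : ℕ} (K : OrientedPseudomanifold V n)
    (P₀ : V → Fin (n + 1) → ℝ) : Prop :=
  ∃ γ : unitInterval → V → Fin (n + 1) → ℝ,
    Continuous γ ∧ γ 0 = P₀ ∧ (∀ t, γ t ∈ Conf K P₀) ∧
    ¬ ∃ A : unitInterval → Matrix (Fin (n + 1)) (Fin (n + 1)) ℝ,
      Continuous A ∧ (∀ t, A t ∈ Matrix.orthogonalGroup (Fin (n + 1)) ℝ) ∧
        ∀ t v, γ t v = (A t).mulVec (P₀ v)

/-- The open great circle arc from `y` to `x`, which is the radial projection to `S^n` of the
open segment from `y` to `x`, meets the relative interior of the simplex `P(F)`. -/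
def Crosses {V : Type} {n : ℕ} (P : V → Fin (n + 1) → ℝ) (y x : Fin (n + 1) → ℝ)
    (F : Fin n → V) : Prop :=
  ∃ t ∈ Set.Ioo (0 : ℝ) 1, ∃ c : Fin n → ℝ, (∀ i, 0 < c i) ∧
    (1 - t) • y + t • x = ∑ i, c i • P (F i)

open Classical in
/-- The contribution of the facet `F` to the algebraic intersection number with `P(K)` of the great
circle arc from `y` to `x`: if the open arc meets the relative interior of the simplex `P(F)`, it is
the orientation sign of `F` times the sign of `det (P F_0, …, P F_{n-1}, x)`, which tells on which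
side of the hyperplane of the simplex the end point `x` lies; otherwise it is zero. -/
noncomputable def crossing {V : Type} {n : ℕ} (K : OrientedPseudomanifold V n)
    (P : V → Fin (n + 1) → ℝ) (y x : Fin (n + 1) → ℝ) (F : Fin n → V) : ℤ :=
  if Crosses P y x F
  then K.or F * (SignType.sign (Matrix.det (Matrix.of (Fin.snoc (fun k => P (F k)) x :
    Fin (n + 1) → Fin (n + 1) → ℝ))) : ℤ)
  else 0

/-- `ind_y(x)`: the algebraic intersection number with `P(K)` of the great circle arc from `y` to
`x`, which is a generic path for almost every `x`. -/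
noncomputable def ind {V : Type} {n : ℕ} (K : OrientedPseudomanifold V n)
    (P : V → Fin (n + 1) → ℝ) (y x : Fin (n + 1) → ℝ) : ℤ :=
  ∑ F ∈ K.facets, crossing K P y x F

/-- The standard surface measure of the unit sphere of the Euclidean space `ℝ^d`, as a measure
on `ℝ^d`. -/
noncomputable def surf (d : ℕ) : Measure (Fin d → ℝ) :=
  Measure.map (fun x => x.1.ofLp) (volume : Measure (EuclideanSpace ℝ (Fin d))).toSphere

/-- `V_y(P) = ∫_{S^n} ind_y(x) dx`. -/
noncomputable def volFrom {V : Type} {n : ℕ} (K : OrientedPseudomanifold V n)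
    (P : V → Fin (n + 1) → ℝ) (y : Fin (n + 1) → ℝ) : ℝ :=
  ∫ x, (ind K P y x : ℝ) ∂(surf (n + 1))

/-- `vol(S^n)`. -/
noncomputable def sphereVol (n : ℕ) : ℝ := (surf (n + 1)).real Set.univ

/-- The real number `v` represents the oriented volume `V(P) ∈ ℝ / vol(S^n) ℤ`: there are points
`y ∈ S^n` outside `P(K)`, and `V_y(P) ≡ v` modulo `vol(S^n)` for all of them. -/
def IsOrientedVolume {V : Type} {n : ℕ} (K : OrientedPseudomanifold V n)
    (P : V → Fin (n + 1) → ℝ) (v : ℝ) : Prop :=
  (∃ y, OnSphere y ∧ y ∉ image K P) ∧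
    ∀ y, OnSphere y → y ∉ image K P → ∃ k : ℤ, volFrom K P y = v + k * sphereVol n

/-- The increment of the oriented volume along the curve `γ` of polyhedra of type `K` is
`k * vol(S^n)`: the curve `t ↦ V(γ t)` in `ℝ / vol(S^n) ℤ` has a continuous lift `W` to `ℝ` with
`W 1 - W 0 = k * vol(S^n)`. -/
def IncrementAlong {V : Type} {n : ℕ} (K : OrientedPseudomanifold V n)
    (γ : unitInterval → V → Fin (n + 1) → ℝ) (k : ℤ) : Prop :=
  ∃ W : unitInterval → ℝ, Continuous W ∧ (∀ t, IsOrientedVolume K (γ t) (W t)) ∧
    W 1 - W 0 = k * sphereVol n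

/-- The oriented volume has a single-valued real-valued branch on the configuration space. -/
def HasRealBranch {V : Type} {n : ℕ} (K : OrientedPseudomanifold V n)
    (P₀ : V → Fin (n + 1) → ℝ) : Prop :=
  ∃ f : (V → Fin (n + 1) → ℝ) → ℝ,
    ContinuousOn f (Conf K P₀) ∧ ∀ P ∈ Conf K P₀, IsOrientedVolume K P (f P)

open Classical in
/-- `P` with the vertices in `A` replaced by their antipodes. -/
noncomputable def antipodes {V : Type} {n : ℕ} (A : Set V) (P : V → Fin (n + 1) → ℝ) :
    V → Fin (n + 1) → ℝ :=
  fun v => if v ∈ A then - P v else P v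

end Pool.Agent.helper69.FlexPoly
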