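import Pool.Agent.helper69.FlexPoly.Jump

set_option autoImplicit false

open MeasureTheory Filter Topology

namespace Pool.Agent.helper69.FlexPoly

section exact

variable {n : ℕ} {N : Matrix (Fin n) (Fin n) ℝ} {lam : Fin n → ℝ}

/-- the sign of `cc` at the wall of `i` -/
noncomputable def es (lam : Fin n → ℝ) (i j : Fin n) : ℝ := if lam j < lam i then 1 else -1

lemma es_cases (i j : Fin n) : es lam i j = 1 ∨ es lam i j = -1 := by
  unfold es; split_ifs <;> simp

lemma Adm.es_cc (h : Adm N lam) (A : Set (Fin n × Bool)) {i j : Fin n} (hij : j ≠ i) :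
    0 < cc lam (zw lam A i) j * es lam i j := by
  have hD := h.D_pos (zw lam A i) j
  have hs := sin_zw_pos (lam := lam) (A := A) i
  have hi := h.pos i
  have hj := h.pos j
  have h1 : cc lam (zw lam A i) j = (lam i - lam j) * ((lam i + lam j) *
      Real.sin (zw lam A i) ^ 2 /
      (Real.cos (zw lam A i) ^ 2 + lam j ^ 2 * Real.sin (zw lam A i) ^ 2)) := by
    unfold cc
    rw [← mul_div_assoc]
    congr 1
    have h2 := cos_sin_zw (lam := lam) (A := A) i
    have h3 : Real.cos (zw lam A i) ^ 2 = lam i ^ 2 * Real.sin (zw lam A i) ^ 2 := by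
      rw [h2]
      linear_combination (lam i ^ 2 * Real.sin (zw lam A i) ^ 2) * ev_sq A (i, true)
    rw [h3]; ring
  have h4 : 0 < (lam i + lam j) * Real.sin (zw lam A i) ^ 2 /
      (Real.cos (zw lam A i) ^ 2 + lam j ^ 2 * Real.sin (zw lam A i) ^ 2) := by positivity
  have hne : lam j ≠ lam i := fun h5 => hij (h.inj h5)
  rw [h1]
  unfold es
  split_ifs with h5
  · rw [mul_one]
    exact mul_pos (by linarith) h4
  · have h6 : lam i < lam j := lt_of_le_of_ne (not_lt.1 h5) hne.symm
    have : 0 < (lam j - lam i) * ((lam i + lam j) * Real.sin (zw lam A i) ^ 2 /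
      (Real.cos (zw lam A i) ^ 2 + lam j ^ 2 * Real.sin (zw lam A i) ^ 2)) :=
      mul_pos (by linarith) h4
    linarith

/-- behaviour near the wall of `i` -/
lemma Adm.near (h : Adm N lam) (A : Set (Fin n × Bool)) (i : Fin n) :
    ∀ᶠ θ in 𝓝 (zw lam A i), (0 < θ ∧ θ < Real.pi) ∧
      ev A (i, true) * (Real.cos θ - ev A (i, true) * lam i * Real.sin θ) < 0 ∧
      ∀ j, j ≠ i → 0 < cc lam θ j * es lam i j := by
  have hz := zw_mem (lam := lam) (A := A) i
  have e1 : ∀ᶠ θ in 𝓝 (zw lam A i), 0 < θ := lt_mem_nhds hz.1
  have e2 : ∀ᶠ θ in 𝓝 (zw lam A i), θ < Real.pi := gt_mem_nhds hz.2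
  have e3 : ∀ᶠ θ in 𝓝 (zw lam A i),
      ev A (i, true) * (Real.cos θ - ev A (i, true) * lam i * Real.sin θ) < 0 := by
    have hc : Continuous fun θ =>
        ev A (i, true) * (Real.cos θ - ev A (i, true) * lam i * Real.sin θ) := by fun_prop
    apply hc.continuousAt.eventually (gt_mem_nhds _)
    have h2 := cos_sin_zw (lam := lam) (A := A) i
    have hs := sin_zw_pos (lam := lam) (A := A) i
    have hi := h.pos i
    have h3 : ev A (i, true) * (Real.cos (zw lam A i) -
        ev A (i, true) * lam i * Real.sin (zw lam A i)) =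
        - (2 * lam i * Real.sin (zw lam A i)) := by
      rw [h2]
      linear_combination (-2 * lam i * Real.sin (zw lam A i)) * ev_sq A (i, true)
    show ev A (i, true) * (Real.cos (zw lam A i) -
        ev A (i, true) * lam i * Real.sin (zw lam A i)) < 0
    rw [h3]
    have : 0 < 2 * lam i * Real.sin (zw lam A i) := by positivity
    linarith
  have e4 : ∀ᶠ θ in 𝓝 (zw lam A i), ∀ j, j ≠ i → 0 < cc lam θ j * es lam i j := by
    rw [Filter.eventually_all]
    intro j
    by_cases hj : j = i
    · exact Filter.Eventually.of_forall fun θ h => absurd hj h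
    · have hc : Continuous fun θ => cc lam θ j * es lam i j :=
        (h.continuous_cc j).mul continuous_const
      filter_upwards [hc.continuousAt.eventually (lt_mem_nhds (h.es_cc A hj))] with θ hθ _
      exact hθ
  filter_upwards [e1, e2, e3, e4] with θ h1 h2 h3 h4
  exact ⟨⟨h1, h2⟩, h3, h4⟩

/-- the other vertices match at the wall of `i` -/
def Mt (lam : Fin n → ℝ) (A : Set (Fin n × Bool)) (i : Fin n) : Prop :=
  ∀ j, j ≠ i → es lam i j * ev A (j, true) = - ev A (j, false)

open Classical in
/-- the jump at the wall of `i` -/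
noncomputable def Jw (N : Matrix (Fin n) (Fin n) ℝ) (lam : Fin n → ℝ)
    (A : Set (Fin n × Bool)) (i : Fin n) : ℝ :=
  if Mt lam A i then ev A (i, false) * ((tau N A : ℝ) * sphereVol n) else 0

lemma Adm.jump_val (h : Adm N lam) (A : Set (Fin n × Bool)) (i : Fin n) {u v : ℝ}
    (hu : 0 < u ∧ u < Real.pi) (hv : 0 < v ∧ v < Real.pi)
    (hu1 : ev A (i, true) * (Real.cos u - ev A (i, true) * lam i * Real.sin u) < 0)
    (hv1 : ev A (i, true) * (Real.cos v - ev A (i, true) * lam i * Real.sin v) < 0)
    (hu2 : ∀ j, j ≠ i → 0 < cc lam u j * es lam i j)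
    (hv2 : ∀ j, j ≠ i → 0 < cc lam v j * es lam i j)
    (huz : u < zw lam A i) (hzv : zw lam A i < v) :
    (volFrom (crossPolytope n) (antipodes A (spl N lam u)) (-eL n) -
      volFrom (crossPolytope n) (antipodes A (spl N lam u)) (eL n)) -
    (volFrom (crossPolytope n) (antipodes A (spl N lam v)) (-eL n) -
      volFrom (crossPolytope n) (antipodes A (spl N lam v)) (eL n)) = Jw N lam A i := by
  classical
  have hz := zw_mem (lam := lam) (A := A) i
  have hs := sin_zw_pos (lam := lam) (A := A) i
  -- the signs of `cc i`
  have key : ∀ θ, cc lam θ i * ev A (i, true) = (Real.sin (zw lam A i - θ) *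
      (ev A (i, true) * (Real.cos θ - ev A (i, true) * lam i * Real.sin θ))) /
      (Real.sin (zw lam A i) * (Real.cos θ ^ 2 + lam i ^ 2 * Real.sin θ ^ 2)) := by
    intro θ
    rw [← fac1, h.cc_fac (A := A)]
    have hD := (h.D_pos θ i).ne'
    field_simp
  have hcu : cc lam u i * ev A (i, true) < 0 := by
    rw [key]
    apply div_neg_of_neg_of_pos
    · apply mul_neg_of_pos_of_neg _ hu1
      exact Real.sin_pos_of_pos_of_lt_pi (by linarith) (by linarith [hz.2, hu.1])
    · exact mul_pos hs (h.D_pos u i)
  have hcv : 0 < cc lam v i * ev A (i, true) := by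
    rw [key]
    apply div_pos
    · apply mul_pos_of_neg_of_neg _ hv1
      rw [← neg_sub, Real.sin_neg]
      have := Real.sin_pos_of_pos_of_lt_pi (x := v - zw lam A i) (by linarith)
        (by linarith [hz.1, hv.2])
      linarith
    · exact mul_pos hs (h.D_pos v i)
  -- the two values
  have hev := sq_eq_one_cases (ev_sq A (i, true))
  have h1 := D_val (N := N) (c := cc lam u) (s := ss lam u) (A := A) h.det_ne
    (e := fun j => if j = i then - ev A (i, true) else es lam i j)
    (by
      intro j
      by_cases hj : j = i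
      · simp only [hj, if_true]
        rcases hev with h2 | h2
        · right; rw [h2]
        · left; rw [h2]; norm_num
      · simp only [if_neg hj]; exact es_cases i j)
    (by
      intro j
      by_cases hj : j = i
      · subst hj
        simp only [if_true]; linarith
      · simp only [if_neg hj]; exact hu2 j hj)
  have h2 := D_val (N := N) (c := cc lam v) (s := ss lam v) (A := A) h.det_ne
    (e := fun j => if j = i then ev A (i, true) else es lam i j)
    (by
      intro j
      by_cases hj : j = i
      · simp only [hj, if_true]; exact hev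
      · simp only [if_neg hj]; exact es_cases i j)
    (by
      intro j
      by_cases hj : j = i
      · subst hj
        simp only [if_true]; exact hcv
      · simp only [if_neg hj]; exact hv2 j hj)
  have c1 : (∀ j, (if j = i then - ev A (i, true) else es lam i j) * ev A (j, true) =
      - ev A (j, false)) ↔ ev A (i, false) = 1 ∧ Mt lam A i := by
    constructor
    · intro h3
      constructor
      · have := h3 i
        rw [if_pos rfl] at this
        linarith [ev_sq A (i, true)]
      · intro j hj
        have := h3 j
        rwa [if_neg hj] at this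
    · rintro ⟨h3, h4⟩ j
      by_cases hj : j = i
      · rw [hj, if_pos rfl, h3]
        linear_combination (-1 : ℝ) * ev_sq A (i, true)
      · rw [if_neg hj]; exact h4 j hj
  have c2 : (∀ j, (if j = i then ev A (i, true) else es lam i j) * ev A (j, true) =
      - ev A (j, false)) ↔ ev A (i, false) = -1 ∧ Mt lam A i := by
    constructor
    · intro h3
      constructor
      · have := h3 i
        rw [if_pos rfl] at this
        linarith [ev_sq A (i, true)]
      · intro j hj
        have := h3 j
        rwa [if_neg hj] at this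
    · rintro ⟨h3, h4⟩ j
      by_cases hj : j = i
      · rw [hj, if_pos rfl, h3]
        linarith [ev_sq A (i, true)]
      · rw [if_neg hj]; exact h4 j hj
  simp only [c1] at h1
  simp only [c2] at h2
  have hsu : antipodes A (spl N lam u) = antipodes A (crs (vA N) (vD N (cc lam u) (ss lam u))) :=
    rfl
  have hsv : antipodes A (spl N lam v) = antipodes A (crs (vA N) (vD N (cc lam v) (ss lam v))) :=
    rfl
  rw [hsu, hsv, h1, h2]
  unfold Jw
  have hα := sq_eq_one_cases (ev_sq A (i, false))
  by_cases hM : Mt lam A i
  · rcases hα with h3 | h3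
    · rw [if_pos ⟨h3, hM⟩, if_neg, if_pos hM, h3]
      · ring
      · rintro ⟨h4, _⟩
        rw [h3] at h4; norm_num at h4
    · rw [if_neg, if_pos ⟨h3, hM⟩, if_pos hM, h3]
      · ring
      · rintro ⟨h4, _⟩
        rw [h3] at h4; norm_num at h4
  · rw [if_neg (fun h => hM h.2), if_neg (fun h => hM h.2), if_neg hM, sub_zero]

/-- The increment along the split curve. -/
lemma Adm.split_increment (h : Adm N lam) (A : Set (Fin n × Bool)) {W₁ : unitInterval → ℝ}
    (hW₁ : Continuous W₁)
    (hov : ∀ t : unitInterval, IsOrientedVolume (crossPolytope n)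
      (antipodes A (spl N lam (Real.pi * t))) (W₁ t)) :
    W₁ 1 - W₁ 0 = ∑ i, Jw N lam A i := by
  classical
  have hpi := Real.pi_pos
  set W : ℝ → ℝ := fun θ => W₁ (Set.projIcc 0 1 zero_le_one (θ / Real.pi)) with hW
  have hWc : Continuous W := hW₁.comp (continuous_projIcc.comp (by fun_prop))
  have hWov : ∀ θ, 0 ≤ θ → θ ≤ Real.pi →
      IsOrientedVolume (crossPolytope n) (antipodes A (spl N lam θ)) (W θ) := by
    intro θ h0 h1
    have h2 : θ / Real.pi ∈ Set.Icc (0 : ℝ) 1 := ⟨by positivity, by rw [div_le_one hpi]; exact h1⟩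
    have h3 := hov ⟨θ / Real.pi, h2⟩
    have h4 : Real.pi * (θ / Real.pi) = θ := by field_simp
    simp only [h4] at h3
    simp only [hW, Set.projIcc_of_mem _ h2]
    exact h3
  have hW1 : W Real.pi = W₁ 1 := by
    simp only [hW]
    rw [div_self hpi.ne', Set.projIcc_right]
    rfl
  have hW0 : W 0 = W₁ 0 := by
    simp only [hW]
    rw [zero_div, Set.projIcc_left]
    rfl
  set F : ℝ → ℝ := fun θ => W θ -
    volFrom (crossPolytope n) (antipodes A (spl N lam θ)) (-eL n) with hF
  have hm : (-1 : ℝ) • eL n = - eL n := by rw [neg_one_smul]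
  have hp : (1 : ℝ) • eL n = eL n := one_smul _ _
  have hj := jump (Finset.univ : Finset (Fin n)) (zw lam A) (Jw N lam A) F
    (fun i _ j _ hij => h.zw_inj hij) _ 0 Real.pi rfl hpi.le
    (fun i _ => (zw_mem i).1.ne') (fun i _ => (zw_mem i).2.ne)
    (by
      intro u v h0 huv h1 hno
      have h2 := h.seg (A := A) huv hWc (fun θ h3 h4 => hWov θ (by linarith) (by linarith))
        (κ := -1) (by norm_num) (by
          intro θ h3 h4 i hc
          by_contra hcon
          push Not at hcon
          have h5 := h.wall_eq (A := A) (i := i) (θ := θ) (by linarith) (by linarith) hc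
            (by linarith)
          rcases hno i (Finset.mem_univ i) with h6 | h6 <;> linarith)
      rw [hm] at h2
      simp only [hF]
      linarith)
    (by
      intro i _ _ _
      obtain ⟨l, r, hlr, hIoo⟩ := mem_nhds_iff_exists_Ioo_subset.1 (h.near A i)
      refine ⟨min (zw lam A i - l) (r - zw lam A i),
        lt_min (by linarith [hlr.1]) (by linarith [hlr.2]), ?_⟩
      intro u v hu1 hu2 hv1 hv2
      have h3 : l < u := by
        have := min_le_left (zw lam A i - l) (r - zw lam A i)
        linarith
      have h4 : v < r := by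
        have := min_le_right (zw lam A i - l) (r - zw lam A i)
        linarith
      have hall : ∀ θ, u ≤ θ → θ ≤ v → (0 < θ ∧ θ < Real.pi) ∧
          ev A (i, true) * (Real.cos θ - ev A (i, true) * lam i * Real.sin θ) < 0 ∧
          ∀ j, j ≠ i → 0 < cc lam θ j * es lam i j :=
        fun θ h5 h6 => hIoo ⟨by linarith, by linarith⟩
      have hu := hall u le_rfl (by linarith)
      have hv := hall v (by linarith) le_rfl
      have h5 := h.jump_val A i hu.1 hv.1 hu.2.1 hv.2.1 hu.2.2 hv.2.2 hu2 hv1
      have h6 := h.seg (A := A) (a := u) (b := v) (by linarith) hWc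
        (fun θ h7 h8 => hWov θ (by linarith [hu.1.1]) (by linarith [hv.1.2]))
        (κ := 1) (by norm_num) (by
          intro θ h7 h8 j hc
          have h9 := hall θ h7 h8
          by_cases hji : j = i
          · subst hji
            -- `cc i` vanishes only at the wall
            have h10 : θ = zw lam A j := by
              have hz := zw_mem (lam := lam) (A := A) j
              rw [h.cc_fac (A := A), div_eq_zero_iff] at hc
              have h11 := hc.resolve_right (h.D_pos θ j).ne'
              have h12 : Real.cos θ + ev A (j, true) * lam j * Real.sin θ = 0 := by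
                rcases mul_eq_zero.1 h11 with h13 | h13
                · exact h13
                · have := h9.2.1
                  rw [h13, mul_zero] at this
                  exact absurd this (lt_irrefl _)
              have h14 := fac1 (lam := lam) (A := A) j θ
              rw [h12, zero_mul] at h14
              have h15 := (Real.sin_eq_zero_iff_of_lt_of_lt (x := zw lam A j - θ)
                (by linarith [hz.1, h9.1.2]) (by linarith [hz.2, h9.1.1])).1 h14.symm
              linarith
            rw [h10, one_mul]
            exact (h.ss_zw j).le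
          · exfalso
            have := h9.2.2 j hji
            rw [hc, zero_mul] at this
            exact lt_irrefl _ this)
      rw [hp] at h6
      simp only [hF]
      linarith)
  have hfil : (Finset.univ.filter fun i : Fin n => 0 < zw lam A i ∧ zw lam A i < Real.pi) =
      Finset.univ := by
    apply Finset.filter_true_of_mem
    intro i _
    exact zw_mem i
  rw [hfil] at hj
  rw [← hj]
  have hper : spl N lam Real.pi = spl N lam 0 := by
    unfold spl
    rw [cc_pi, ss_pi]
  simp only [hF]
  rw [hper, hW1, hW0]
  ring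

/-- The matching condition in terms of the set `A`. -/
lemma Mt_iff (h : Adm N lam) (A : Set (Fin n × Bool)) (i : Fin n) : Mt lam A i ↔
    ∀ j, (lam j < lam i → ((j, true) ∈ A ↔ (j, false) ∉ A)) ∧
      (lam i < lam j → ((j, true) ∈ A ↔ (j, false) ∈ A)) := by
  unfold Mt es
  constructor
  · intro h1 j
    constructor
    · intro h2
      have hj : j ≠ i := by rintro rfl; exact lt_irrefl _ h2
      have h3 := h1 j hj
      rw [if_pos h2, one_mul] at h3
      exact (ev_eq_neg_iff A _ _).1 h3
    · intro h2
      have hj : j ≠ i := by rintro rfl; exact lt_irrefl _ h2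
      have h3 := h1 j hj
      rw [if_neg (not_lt.2 h2.le)] at h3
      exact (ev_eq_iff A _ _).1 (by linarith)
  · intro h1 j hj
    obtain ⟨h2, h3⟩ := h1 j
    split_ifs with h4
    · rw [one_mul]
      exact (ev_eq_neg_iff A _ _).2 (h2 h4)
    · have h5 : lam i < lam j := lt_of_le_of_ne (not_lt.1 h4) (fun h6 => hj (h.inj h6).symm)
      have := (ev_eq_iff A _ _).2 (h3 h5)
      linarith

open Classical in
/-- the number that determines the increment -/
noncomputable def cnt (lam : Fin n → ℝ) (A : Set (Fin n × Bool)) : ℤ :=
  ∑ i, if ∀ j, (lam j < lam i → ((j, true) ∈ A ↔ (j, false) ∉ A)) ∧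
      (lam i < lam j → ((j, true) ∈ A ↔ (j, false) ∈ A))
    then (if (i, false) ∈ A then -1 else 1) else 0

/-- The increment along the closed curve. -/
theorem Adm.increment_exact (h : Adm N lam) (A : Set (Fin n × Bool)) :
    IncrementAlong (crossPolytope n) (fun t => antipodes A (loop N lam t))
      (tau N A * cnt lam A) := by
  classical
  obtain ⟨W₁, hW₁, hov⟩ := exists_lift (crossPolytope n)
    (fun t : unitInterval => antipodes A (spl N lam (Real.pi * t)))
    ((continuous_antipodes A).comp (h.continuous_spl.comp (by fun_prop)))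
    (fun t => (h.spl_isPolyhedron _).antipodes A)
  obtain ⟨W₀, hW₀, hov₀, h1⟩ := h.inc_split A hW₁ hov
  refine ⟨W₀, hW₀, hov₀, ?_⟩
  rw [h1, h.split_increment A hW₁ hov]
  unfold cnt
  push_cast
  rw [Finset.mul_sum, Finset.sum_mul]
  refine Finset.sum_congr rfl fun i _ => ?_
  unfold Jw
  have hM := Mt_iff h A i
  by_cases h2 : Mt lam A i
  · rw [if_pos h2, if_pos (hM.1 h2)]
    unfold ev
    split_ifs <;> ring
  · rw [if_neg h2, if_neg (fun h3 => h2 (hM.2 h3))]
    ring

end exact

end Pool.Agent.helper69.FlexPoly
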