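import Pool.Agent.helper69.FlexPoly.Simp

set_option autoImplicit false

open MeasureTheory Filter Topology

namespace Pool.Agent.helper69.FlexPoly

/-! ### The vectors of the family -/

section fam

variable {n : ℕ}

/-- Gram matrix of the rows of `N` -/
noncomputable def gr (N : Matrix (Fin n) (Fin n) ℝ) (i j : Fin n) : ℝ := ∑ l, N i l * N j l

/-- the vector `(x, t)` -/
def ext (x : Fin n → ℝ) (t : ℝ) : Fin (n + 1) → ℝ := Fin.snoc x t

lemma ext_dot (x y : Fin n → ℝ) (s t : ℝ) : ext x s ⬝ᵥ ext y t = ∑ l, x l * y l + s * t := by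
  unfold ext
  rw [dotProduct, Fin.sum_univ_castSucc]
  simp

lemma ext_last (x : Fin n → ℝ) (t : ℝ) : ext x t (Fin.last n) = t := by simp [ext]

lemma refl_ext (x : Fin n → ℝ) (t : ℝ) : (refl n).mulVec (ext x t) = ext x (-t) := by
  rw [refl_mulVec]
  funext i
  refine Fin.lastCases ?_ (fun i => ?_) i
  · simp [ext]
  · simp [ext]

/-- the dual basis of the rows of `N`: the columns of the inverse matrix -/
noncomputable def du (N : Matrix (Fin n) (Fin n) ℝ) (i : Fin n) : Fin n → ℝ := fun l => N⁻¹ l i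

/-- the vectors `A i` -/
noncomputable def vA (N : Matrix (Fin n) (Fin n) ℝ) (i : Fin n) : Fin (n + 1) → ℝ :=
  ext (du N i) 0

/-- the vectors `B i` -/
noncomputable def vB (N : Matrix (Fin n) (Fin n) ℝ) (x : Fin n → Fin n → ℝ) (c s : Fin n → ℝ)
    (i : Fin n) : Fin (n + 1) → ℝ :=
  ext (fun l => ∑ k, x i k * du N k l + c i * N i l) (s i)

variable {N : Matrix (Fin n) (Fin n) ℝ} {x : Fin n → Fin n → ℝ} {c s : Fin n → ℝ}

lemma du_dot (hN : N.det ≠ 0) (j k : Fin n) : ∑ l, du N j l * N k l = if j = k then 1 else 0 := by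
  have h : N * N⁻¹ = 1 := Matrix.mul_nonsing_inv N (isUnit_iff_ne_zero.2 hN)
  have h1 := congrFun (congrFun h k) j
  rw [Matrix.mul_apply, Matrix.one_apply] at h1
  unfold du
  rw [Finset.sum_congr rfl fun l _ => mul_comm (N⁻¹ l j) (N k l), h1]
  simp [eq_comm]

lemma gr_comm (i j : Fin n) : gr N i j = gr N j i := by
  unfold gr
  exact Finset.sum_congr rfl fun l _ => mul_comm _ _

lemma vA_dot (hN : N.det ≠ 0) (j k : Fin n) :
    vA N j ⬝ᵥ ext (N k) 0 = if j = k then 1 else 0 := by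
  unfold vA
  rw [ext_dot, du_dot hN]; simp

lemma vB_dot (hN : N.det ≠ 0) (i k : Fin n) :
    vB N x c s i ⬝ᵥ ext (N k) 0 = x i k + c i * gr N i k := by
  unfold vB
  rw [ext_dot]
  simp only [add_mul, Finset.sum_add_distrib, Finset.sum_mul, mul_zero, add_zero, mul_assoc]
  rw [Finset.sum_comm]
  simp only [← Finset.mul_sum, du_dot hN]
  simp [gr]

/-- The quadratic form of the Gram matrix -/
lemma gr_quad (w : Fin n → ℝ) : ∑ i, ∑ k, w i * w k * gr N i k = ∑ l, (∑ i, w i * N i l) ^ 2 := by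
  have h : ∀ l, (∑ i, w i * N i l) ^ 2 = ∑ i, ∑ k, w i * w k * (N i l * N k l) := by
    intro l
    rw [sq, Finset.sum_mul_sum]
    refine Finset.sum_congr rfl fun i _ => Finset.sum_congr rfl fun k _ => by ring
  simp only [h, gr, Finset.mul_sum]
  rw [Finset.sum_congr rfl fun i _ => Finset.sum_comm]
  exact Finset.sum_comm

lemma gr_nonneg (w : Fin n → ℝ) : 0 ≤ ∑ i, ∑ k, w i * w k * gr N i k := by
  rw [gr_quad]
  exact Finset.sum_nonneg fun l _ => sq_nonneg _

lemma gr_zero (hN : N.det ≠ 0) {w : Fin n → ℝ} (h : ∑ i, ∑ k, w i * w k * gr N i k ≤ 0) :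
    w = 0 := by
  rw [gr_quad] at h
  have h1 : ∑ l, (∑ i, w i * N i l) ^ 2 = 0 :=
    le_antisymm h (Finset.sum_nonneg fun l _ => sq_nonneg _)
  rw [Finset.sum_eq_zero_iff_of_nonneg fun l _ => sq_nonneg _] at h1
  have h2 : Matrix.vecMul w N = 0 := by
    funext l
    have h3 := h1 l (Finset.mem_univ l)
    rw [sq_eq_zero_iff] at h3
    exact h3
  have hu : IsUnit N.det := isUnit_iff_ne_zero.2 hN
  have h4 := congrArg (fun z => Matrix.vecMul z N⁻¹) h2
  simp only [Matrix.vecMul_vecMul, Matrix.mul_nonsing_inv N hu, Matrix.vecMul_one,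
    Matrix.zero_vecMul] at h4
  exact h4

lemma anti_quad (hx : ∀ i j, x i j = - x j i) (w : Fin n → ℝ) :
    ∑ i, ∑ k, w i * w k * x i k = 0 := by
  have h1 : ∑ i, ∑ k, w i * w k * x i k = - ∑ i, ∑ k, w i * w k * x i k := by
    conv_lhs => rw [Finset.sum_comm]
    rw [← Finset.sum_neg_distrib]
    refine Finset.sum_congr rfl fun i _ => ?_
    rw [← Finset.sum_neg_distrib]
    refine Finset.sum_congr rfl fun k _ => ?_
    rw [hx k i]; ring
  linarith

/-- The facets of the moving cross-polytope do not degenerate. -/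
lemma key_fam (hN : N.det ≠ 0) (hx : ∀ i j, x i j = - x j i)
    (hrel : ∀ i j, s i * s j = gr N i j * (1 - c i * c j) + x i j * (c i - c j))
    (w : Fin n → ℝ) (h1 : ∀ k, w k * ∑ i, w i * (vB N x c s i ⬝ᵥ ext (N k) 0) = 0)
    (h2 : ∑ i, w i * vB N x c s i (Fin.last n) = 0) : w = 0 := by
  simp only [vB_dot hN] at h1
  simp only [vB, ext_last] at h2
  set Qw := ∑ i, ∑ j, w i * w j * gr N i j with hQw
  set Qc := ∑ i, ∑ j, (w i * c i) * (w j * c j) * gr N i j with hQc
  set Z := ∑ i, ∑ j, w i * w j * x i j * c j with hZ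
  have e1 : ∑ i, ∑ j, w i * w j * x i j * c i = -Z := by
    rw [Finset.sum_comm, hZ, ← Finset.sum_neg_distrib]
    refine Finset.sum_congr rfl fun i _ => ?_
    rw [← Finset.sum_neg_distrib]
    refine Finset.sum_congr rfl fun j _ => ?_
    rw [hx j i]; ring
  have e2 : Qw - Qc - 2 * Z = 0 := by
    have e3 : (∑ i, w i * s i) * (∑ j, w j * s j) = Qw - Qc + ∑ i, ∑ j, w i * w j * x i j * c i -
        Z := by
      rw [Finset.sum_mul_sum, hQw, hQc, hZ, ← Finset.sum_sub_distrib, ← Finset.sum_add_distrib,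
        ← Finset.sum_sub_distrib]
      refine Finset.sum_congr rfl fun i _ => ?_
      rw [← Finset.sum_sub_distrib, ← Finset.sum_add_distrib, ← Finset.sum_sub_distrib]
      refine Finset.sum_congr rfl fun j _ => ?_
      linear_combination (w i * w j) * hrel i j
    rw [h2, e1, zero_mul] at e3
    linarith
  have e4 : Z + Qc = 0 := by
    have e5 : ∑ k, c k * (w k * ∑ i, w i * (x i k + c i * gr N i k)) = Z + Qc := by
      rw [hZ, hQc, Finset.sum_comm, Finset.sum_comm (f := fun i j =>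
        (w i * c i) * (w j * c j) * gr N i j), ← Finset.sum_add_distrib]
      refine Finset.sum_congr rfl fun k _ => ?_
      rw [← Finset.sum_add_distrib, Finset.mul_sum, Finset.mul_sum]
      refine Finset.sum_congr rfl fun i _ => ?_
      ring
    rw [← e5]
    exact Finset.sum_eq_zero fun k _ => by rw [h1 k, mul_zero]
  have e6 : 0 ≤ Qc := gr_nonneg (fun i => w i * c i)
  apply gr_zero hN
  rw [← hQw]
  linarith

/-! ### The flat homotopy -/

/-- the vectors of the flat homotopy -/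
noncomputable def vF (N : Matrix (Fin n) (Fin n) ℝ) (x : Fin n → Fin n → ℝ) (ε σ : ℝ)
    (i : Fin n) : Fin (n + 1) → ℝ :=
  ext (fun l => (1 - σ) * (∑ k, x i k * du N k l + ε * N i l) + σ * ε * du N i l) 0

lemma vF_dot (hN : N.det ≠ 0) (ε σ : ℝ) (i k : Fin n) :
    vF N x ε σ i ⬝ᵥ ext (N k) 0 = (1 - σ) * (x i k + ε * gr N i k) +
      σ * ε * (if i = k then 1 else 0) := by
  have h1 := vB_dot (x := x) (c := fun _ => ε) (s := fun _ => 0) hN i k
  have h2 := vA_dot hN i k
  unfold vB at h1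
  unfold vA at h2
  rw [ext_dot] at h1 h2
  unfold vF
  rw [ext_dot, ← h2, ← h1]
  simp only [mul_zero, add_zero, Finset.mul_sum]
  rw [← Finset.sum_add_distrib]
  refine Finset.sum_congr rfl fun l _ => ?_
  ring

lemma key_flat (hN : N.det ≠ 0) (hx : ∀ i j, x i j = - x j i) {ε σ : ℝ} (hε : ε * ε = 1)
    (h0 : 0 ≤ σ) (h1 : σ ≤ 1) (w : Fin n → ℝ)
    (hw : ∀ k, w k * ∑ i, w i * (vF N x ε σ i ⬝ᵥ ext (N k) 0) = 0) : w = 0 := by
  simp only [vF_dot hN] at hw
  have e1 : ∑ k, (w k * ∑ i, w i * ((1 - σ) * (x i k + ε * gr N i k) +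
      σ * ε * (if i = k then 1 else 0))) =
      (1 - σ) * (∑ i, ∑ k, w i * w k * x i k + ε * ∑ i, ∑ k, w i * w k * gr N i k) +
        σ * ε * ∑ k, w k ^ 2 := by
    have e2 : ∀ k, (w k * ∑ i, w i * ((1 - σ) * (x i k + ε * gr N i k) +
      σ * ε * (if i = k then 1 else 0))) = ∑ i, ((1 - σ) * (w i * w k * x i k) +
        (1 - σ) * ε * (w i * w k * gr N i k)) + σ * ε * w k ^ 2 := by
      intro k
      have e3 : ∀ i, w i * ((1 - σ) * (x i k + ε * gr N i k) +
          σ * ε * (if i = k then 1 else 0)) =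
          w i * ((1 - σ) * (x i k + ε * gr N i k)) +
            (if i = k then σ * ε * w i else 0) := by
        intro i
        split_ifs <;> ring
      rw [Finset.sum_congr rfl fun i _ => e3 i, Finset.sum_add_distrib, Finset.sum_ite_eq',
        if_pos (Finset.mem_univ k), mul_add, Finset.mul_sum]
      congr 1
      · refine Finset.sum_congr rfl fun i _ => ?_
        ring
      · ring
    rw [Finset.sum_congr rfl fun k _ => e2 k, Finset.sum_add_distrib, Finset.sum_comm]
    simp only [Finset.sum_add_distrib, ← Finset.mul_sum]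
    ring
  rw [Finset.sum_eq_zero fun k _ => hw k, anti_quad hx, zero_add] at e1
  have e4 : (1 - σ) * (∑ i, ∑ k, w i * w k * gr N i k) + σ * ∑ k, w k ^ 2 = 0 := by
    linear_combination (-ε) * e1 - ((1 - σ) * (∑ i, ∑ k, w i * w k * gr N i k) +
      σ * ∑ k, w k ^ 2) * hε
  have e5 := gr_nonneg (N := N) w
  have e6 : 0 ≤ ∑ k, w k ^ 2 := Finset.sum_nonneg fun k _ => sq_nonneg _
  rcases h0.lt_or_eq with h2 | h2
  · have e7 : ∑ k, w k ^ 2 = 0 := by
      have : 0 ≤ (1 - σ) * (∑ i, ∑ k, w i * w k * gr N i k) := mul_nonneg (by linarith) e5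
      have e8 : σ * ∑ k, w k ^ 2 = 0 := le_antisymm (by linarith) (mul_nonneg h0 e6)
      rcases mul_eq_zero.1 e8 with h3 | h3
      · exact absurd h3 h2.ne'
      · exact h3
    rw [Finset.sum_eq_zero_iff_of_nonneg fun k _ => sq_nonneg _] at e7
    funext k
    have := e7 k (Finset.mem_univ k)
    rwa [sq_eq_zero_iff] at this
  · apply gr_zero hN
    rw [← h2] at e4
    linarith

end fam

end Pool.Agent.helper69.FlexPoly
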