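import Pool.Agent.helper69.FlexPoly.Orth

set_option autoImplicit false

open MeasureTheory Filter Topology

namespace Pool.Agent.helper69.FlexPoly

section flat

variable {V : Type} {n : ℕ} {K : OrientedPseudomanifold V n}

/-- a continuous function with values in the multiples of `vol(S^n)` is constant -/
lemma const_of_mul {f : unitInterval → ℝ} (hf : Continuous f)
    (h : ∀ t, ∃ j : ℤ, f t = j * sphereVol n) (s t : unitInterval) : f s = f t := by
  choose j hj using h
  have hpos := (sphereVol_pos n).ne'
  have hcj : Continuous (fun t => ((j t : ℤ) : ℝ)) := by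
    have : (fun t => ((j t : ℤ) : ℝ)) = fun t => f t / sphereVol n := by
      funext t
      rw [hj t]
      field_simp
    rw [this]
    exact hf.div_const _
  have hcj' : Continuous j := Int.isClosedEmbedding_coe_real.isEmbedding.continuous_iff.2 hcj
  have hconst : j s = j t := PreconnectedSpace.constant inferInstance hcj'
  rw [hj s, hj t, hconst]

/-- the midpoint of the unit interval -/
noncomputable def mid : unitInterval := ⟨1 / 2, by norm_num, by norm_num⟩

lemma symm_mid : unitInterval.symm mid = mid := by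
  apply Subtype.ext
  simp only [mid, unitInterval.coe_symm_eq]
  norm_num

/-- the lift of the oriented volume along a curve symmetric with respect to the reflection -/
lemma sym_lift {γ : unitInterval → V → Fin (n + 1) → ℝ}
    (hsym : ∀ t, γ (unitInterval.symm t) = mv (refl n) (γ t)) {W : unitInterval → ℝ}
    (hW : Continuous W) (hov : ∀ t, IsOrientedVolume K (γ t) (W t)) :
    W 1 - W 0 = 2 * (W mid - W 0) := by
  have h1 : ∀ t, ∃ j : ℤ, W (unitInterval.symm t) + W t = j * sphereVol n := by
    intro t
    have h2 := (hov t).refl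
    rw [← hsym t] at h2
    obtain ⟨k, hk⟩ := h2.diff (hov (unitInterval.symm t))
    exact ⟨k, by rw [hk]; ring⟩
  have hc : Continuous fun t => W (unitInterval.symm t) + W t := by fun_prop
  have h2 := const_of_mul hc h1 0 mid
  simp only [symm_mid, unitInterval.symm_zero] at h2
  linarith

/-- a polyhedron in the hyperplane `x_n = 0` has oriented volume `0` or `vol(S^n) / 2` -/
lemma flat_two {P : V → Fin (n + 1) → ℝ} (hP : mv (refl n) P = P) {v : ℝ}
    (h : IsOrientedVolume K P v) : ∃ k : ℤ, 2 * v = k * sphereVol n := by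
  have h1 := h.refl
  rw [hP] at h1
  obtain ⟨k, hk⟩ := h1.diff h
  exact ⟨k, by linarith⟩

/-- the oriented volume is constant along curves of flat polyhedra -/
lemma flat_path {δ : unitInterval → V → Fin (n + 1) → ℝ} (hδ : Continuous δ)
    (hpoly : ∀ t, IsPolyhedron K (δ t)) (hflat : ∀ t, mv (refl n) (δ t) = δ t) {v : ℝ}
    (h : IsOrientedVolume K (δ 0) v) : IsOrientedVolume K (δ 1) v := by
  obtain ⟨W, hW, hov⟩ := exists_lift K δ hδ hpoly
  have h1 : ∀ t, ∃ j : ℤ, 2 * W t = j * sphereVol n := fun t => flat_two (hflat t) (hov t)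
  have hc : Continuous fun t => 2 * W t := by fun_prop
  have h2 := const_of_mul hc h1 0 1
  obtain ⟨k, hk⟩ := (hov 0).diff h
  have h3 := (hov 1).shift k
  have h4 : W 1 + k * sphereVol n = v := by
    have h5 : 2 * W 0 = 2 * W 1 := h2
    linarith
  rwa [h4] at h3

/-- a symmetric closed curve through flat polyhedra of different oriented volumes -/
lemma sym_odd {γ : unitInterval → V → Fin (n + 1) → ℝ}
    (hsym : ∀ t, γ (unitInterval.symm t) = mv (refl n) (γ t)) {W : unitInterval → ℝ}
    (hW : Continuous W) (hov : ∀ t, IsOrientedVolume K (γ t) (W t)) {a b : ℝ}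
    (h0 : IsOrientedVolume K (γ 0) a) (h1 : IsOrientedVolume K (γ mid) b) {e : ℤ}
    (hab : 2 * (b - a) = e * sphereVol n) :
    ∃ k : ℤ, W 1 - W 0 = (2 * k + e : ℤ) * sphereVol n := by
  obtain ⟨k, hk⟩ := h0.diff (hov 0)
  obtain ⟨l, hl⟩ := h1.diff (hov mid)
  refine ⟨l - k, ?_⟩
  rw [sym_lift hsym hW hov, hk, hl]
  push_cast
  linear_combination hab

end flat

/-! ### Flat cross-polytopes -/

section flatcross

variable {n : ℕ}

lemma ind_cross (P : Fin n × Bool → Fin (n + 1) → ℝ) (y x : Fin (n + 1) → ℝ) :
    ind (crossPolytope n) P y x = ∑ s : Fin n → Bool, (∏ k, sg (s k)) *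
      chi (Fin.snoc (fun k => P (k, s k)) (-y)) x := by
  rw [ind_eq_chi]
  simp only [crossPolytope, Finset.sum_map, Function.Embedding.coeFn_mk, facet]

/-- If two opposite vertices coincide then the index function vanishes. -/
lemma ind_zero {P : Fin n × Bool → Fin (n + 1) → ℝ} {i : Fin n}
    (h : P (i, true) = P (i, false)) (y x : Fin (n + 1) → ℝ) :
    ind (crossPolytope n) P y x = 0 := by
  rw [ind_cross]
  apply Finset.sum_involution (fun (s : Fin n → Bool) _ => Function.update s i (!s i))
  · intro s _
    have h2 : (fun k => P (k, (Function.update s i (!s i)) k)) = fun k => P (k, s k) := by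
      funext k
      by_cases hk : k = i
      · rw [hk, Function.update_self]
        cases s i
        · exact h
        · exact h.symm
      · rw [Function.update_of_ne hk]
    rw [h2]
    have h3 : (∏ k, sg ((Function.update s i (!s i)) k)) = - ∏ k, sg (s k) := by
      apply prod_sg_update s _ i
      · intro k hk
        rw [Function.update_of_ne hk]
      · rw [Function.update_self]
        cases s i <;> simp
    rw [h3]; ring
  · intro s _ _ h2
    have := congrFun h2 i
    rw [Function.update_self] at this
    revert this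
    cases s i <;> simp
  · intro s _; exact Finset.mem_univ _
  · intro s _
    rw [Function.update_self, Bool.not_not, Function.update_idem, Function.update_eq_self]

lemma volFrom_zero {P : Fin n × Bool → Fin (n + 1) → ℝ} {i : Fin n}
    (h : P (i, true) = P (i, false)) (y : Fin (n + 1) → ℝ) :
    volFrom (crossPolytope n) P y = 0 := by
  unfold volFrom
  simp only [ind_zero h]
  simp

/-- If two opposite vertices coincide then the oriented volume vanishes. -/
lemma isOV_zero' {P : Fin n × Bool → Fin (n + 1) → ℝ} (hP : IsPolyhedron (crossPolytope n) P)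
    {i : Fin n} (h : P (i, true) = P (i, false)) : IsOrientedVolume (crossPolytope n) P 0 := by
  obtain ⟨y, hsp, hy⟩ := exists_notMem_image hP
  apply isOrientedVolume_of_one hP hsp hy
  refine ⟨0, ?_⟩
  rw [volFrom_zero h]
  simp

/-- the last coordinate vector -/
def eL (n : ℕ) : Fin (n + 1) → ℝ := Fin.snoc (fun _ => 0) 1

lemma eL_cast (i : Fin n) : eL n i.castSucc = 0 := by simp [eL]

lemma eL_last : eL n (Fin.last n) = 1 := by simp [eL]

lemma half_sphere : ∫ x, (if 0 < x (Fin.last n) then (1 : ℝ) else 0) ∂(surf (n + 1)) =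
    sphereVol n / 2 := by
  have h1 := integral_surf (refl_orth (n := n))
    (fun x => if 0 < x (Fin.last n) then (1 : ℝ) else 0)
  have hmeas : ∀ ε : ℝ, Measurable fun x : Fin (n + 1) → ℝ =>
      if 0 < ε * x (Fin.last n) then (1 : ℝ) else 0 := by
    intro ε
    apply Measurable.ite _ measurable_const measurable_const
    have h3 : Measurable fun x : Fin (n + 1) → ℝ => ε * x (Fin.last n) := by
      have h4 : Continuous fun x : Fin (n + 1) → ℝ => ε * x (Fin.last n) := by fun_prop
      exact h4.measurable
    exact measurableSet_lt measurable_const h3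
  have hint : ∀ ε : ℝ, Integrable (fun x : Fin (n + 1) → ℝ =>
      if 0 < ε * x (Fin.last n) then (1 : ℝ) else 0) (surf (n + 1)) := by
    intro ε
    apply Integrable.of_bound (hmeas ε).aestronglyMeasurable 1
    refine ae_of_all _ fun x => ?_
    split_ifs <;> simp
  have h2 : ∫ x, (if 0 < (1 : ℝ) * x (Fin.last n) then (1 : ℝ) else 0) ∂(surf (n + 1)) +
      ∫ x, (if 0 < (-1 : ℝ) * x (Fin.last n) then (1 : ℝ) else 0) ∂(surf (n + 1)) =
      sphereVol n := by
    rw [← integral_add (hint 1) (hint (-1))]
    have hf : (LinearMap.proj (Fin.last n) : (Fin (n + 1) → ℝ) →ₗ[ℝ] ℝ) ≠ 0 := by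
      intro h
      have := congrArg (fun f : (Fin (n + 1) → ℝ) →ₗ[ℝ] ℝ => f (eL n)) h
      simp [eL_last] at this
    have : (fun x : Fin (n + 1) → ℝ => (if 0 < (1 : ℝ) * x (Fin.last n) then (1 : ℝ) else 0) +
        (if 0 < (-1 : ℝ) * x (Fin.last n) then (1 : ℝ) else 0)) =ᵐ[surf (n + 1)]
        fun _ => 1 := by
      filter_upwards [ae_functional _ hf] with x hx
      rw [LinearMap.proj_apply] at hx
      rcases lt_or_gt_of_ne hx with h | h
      · rw [if_neg (by linarith), if_pos (by linarith)]; norm_num
      · rw [if_pos (by linarith), if_neg (by linarith)]; norm_num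
    rw [integral_congr_ae this, integral_const, smul_eq_mul, mul_one, sphereVol]
  simp only [refl_mulVec, Fin.snoc_last] at h1
  simp only [one_mul, neg_one_mul] at h2
  linarith

lemma eL_onSphere : OnSphere (-eL n) := by
  unfold OnSphere
  rw [Fin.sum_univ_castSucc]
  simp [eL_cast, eL_last]

lemma eL_notMem_image {a : Fin n → Fin (n + 1) → ℝ} (hflat : ∀ i, a i (Fin.last n) = 0)
    {P : Fin n × Bool → Fin (n + 1) → ℝ} (hP : ∀ i b, P (i, b) = rs b • a i) :
    -eL n ∉ image (crossPolytope n) P := by
  rintro ⟨_, F, hF, c, _, h⟩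
  have h1 := congrFun h (Fin.last n)
  rw [Pi.neg_apply, eL_last, Finset.sum_apply] at h1
  have h2 : ∑ i, (c i • P (F i)) (Fin.last n) = 0 := by
    apply Finset.sum_eq_zero
    intro i _
    have : P (F i) = rs (F i).2 • a (F i).1 := hP _ _
    rw [this]
    simp [hflat]
  rw [h2] at h1
  norm_num at h1

/-- The flat cross-polytope with vertices `± a_i` -/
lemma volFrom_half {a : Fin n → Fin (n + 1) → ℝ}
    (hflat : ∀ i, a i (Fin.last n) = 0)
    (hdt : dt (Fin.snoc a (eL n) : Fin (n + 1) → Fin (n + 1) → ℝ) ≠ 0)
    {P : Fin n × Bool → Fin (n + 1) → ℝ} (hP : ∀ i b, P (i, b) = rs b • a i) :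
    volFrom (crossPolytope n) P (-eL n) = ((SignType.sign (dt (Fin.snoc a (eL n) :
      Fin (n + 1) → Fin (n + 1) → ℝ)) : ℤ) : ℝ) * (sphereVol n / 2) := by
  classical
  set v₀ : Fin (n + 1) → Fin (n + 1) → ℝ := Fin.snoc a (eL n) with hv₀
  have hsn : ∀ s : Fin n → Bool, (Fin.snoc (fun k => P (k, s k)) (-(-eL n)) :
      Fin (n + 1) → Fin (n + 1) → ℝ) =
      fun i => (Fin.snoc (fun k => rs (s k)) 1 : Fin (n + 1) → ℝ) i • v₀ i := by
    intro s
    funext i
    refine Fin.lastCases ?_ (fun i => ?_) i
    · simp [hv₀, Fin.snoc_last (α := fun _ => Fin (n + 1) → ℝ)]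
    · simp [hv₀, Fin.snoc_castSucc (α := fun _ => Fin (n + 1) → ℝ), hP]
  have hprod : ∀ s : Fin n → Bool, (SignType.sign (∏ k, rs (s k)) : ℤ) = ∏ k, sg (s k) := by
    intro s
    have : ∀ S : Finset (Fin n), (SignType.sign (∏ k ∈ S, rs (s k)) : ℤ) =
        ∏ k ∈ S, sg (s k) := by
      intro S
      induction S using Finset.induction_on with
      | empty => simp
      | insert a S ha ih =>
          rw [Finset.prod_insert ha, Finset.prod_insert ha, sign_mul, SignType.coe_mul, ih,
            sign_rs]
    exact this Finset.univ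
  have hprod2 : ∀ s : Fin n → Bool, (∏ k, rs (s k)) ≠ 0 := by
    intro s
    rw [Finset.prod_ne_zero_iff]
    intro k _ h
    have := rs_sq (s k)
    rw [h] at this
    norm_num at this
  have hchi : ∀ (s : Fin n → Bool) (x : Fin (n + 1) → ℝ),
      chi (Fin.snoc (fun k => P (k, s k)) (-(-eL n))) x = (∏ k, sg (s k)) *
        (SignType.sign (dt v₀) : ℤ) * (if (∀ k : Fin n, 0 < rs (s k) * coord v₀ x k.castSucc) ∧
          0 < coord v₀ x (Fin.last n) then 1 else 0) := by
    intro s x
    rw [hsn s]
    have hd : dt (fun i => (Fin.snoc (fun k => rs (s k)) 1 : Fin (n + 1) → ℝ) i • v₀ i) =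
        (∏ k, rs (s k)) * dt v₀ := by
      unfold dt
      have := (Matrix.detRowAlternating (n := Fin (n + 1)) (R := ℝ)).map_smul_univ
        (Fin.snoc (fun k => rs (s k)) 1 : Fin (n + 1) → ℝ) v₀
      rw [this, Fin.prod_univ_castSucc]
      simp
    have hd0 : dt (fun i => (Fin.snoc (fun k => rs (s k)) 1 : Fin (n + 1) → ℝ) i • v₀ i) ≠ 0 := by
      rw [hd]; exact mul_ne_zero (hprod2 s) hdt
    rw [chi_eq hd0, hd, sign_mul, SignType.coe_mul, hprod]
    congr 1
    have hco : coord (fun i => (Fin.snoc (fun k => rs (s k)) 1 : Fin (n + 1) → ℝ) i • v₀ i) x =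
        fun i => (Fin.snoc (fun k => rs (s k)) 1 : Fin (n + 1) → ℝ) i * coord v₀ x i := by
      apply coord_eq hd0
      have h3 := sum_coord hdt x
      refine h3.trans ?_
      apply Finset.sum_congr rfl
      intro i _
      rw [smul_smul]
      refine Fin.lastCases ?_ (fun i => ?_) i
      · simp
      · simp only [Fin.snoc_castSucc]
        congr 1
        linear_combination (-coord v₀ x i.castSucc) * rs_sq (s i)
    rw [hco]
    have : (∀ i, 0 < (Fin.snoc (fun k => rs (s k)) 1 : Fin (n + 1) → ℝ) i * coord v₀ x i) ↔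
        (∀ k : Fin n, 0 < rs (s k) * coord v₀ x k.castSucc) ∧
          0 < coord v₀ x (Fin.last n) := by
      constructor
      · intro h
        refine ⟨fun k => ?_, ?_⟩
        · simpa using h k.castSucc
        · simpa using h (Fin.last n)
      · rintro ⟨h1, h2⟩ i
        refine Fin.lastCases ?_ (fun i => ?_) i
        · simpa using h2
        · simpa using h1 i
    simp only [this]
  have hlast : ∀ x, coord v₀ x (Fin.last n) = x (Fin.last n) := by
    intro x
    have h3 := congrFun (sum_coord hdt x) (Fin.last n)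
    rw [Finset.sum_apply, Fin.sum_univ_castSucc] at h3
    have h4 : ∑ i : Fin n, (coord v₀ x i.castSucc • v₀ i.castSucc) (Fin.last n) = 0 := by
      apply Finset.sum_eq_zero
      intro i _
      simp [hv₀, Fin.snoc_castSucc (α := fun _ => Fin (n + 1) → ℝ), hflat]
    rw [h4, zero_add] at h3
    have h5 : v₀ (Fin.last n) = eL n := by
      simp [hv₀, Fin.snoc_last (α := fun _ => Fin (n + 1) → ℝ)]
    rw [h5, Pi.smul_apply, eL_last, smul_eq_mul, mul_one] at h3
    exact h3.symm
  have hind : (fun x => (ind (crossPolytope n) P (-eL n) x : ℝ)) =ᵐ[surf (n + 1)]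
      fun x => ((SignType.sign (dt v₀) : ℤ) : ℝ) * (if 0 < x (Fin.last n) then (1 : ℝ) else 0) := by
    filter_upwards [ae_generic hdt 0] with x hx
    have hx1 := hx.1
    rw [ind_cross]
    set s₀ : Fin n → Bool := fun k => decide (coord v₀ x k.castSucc < 0) with hs₀
    have hmatch : ∀ s : Fin n → Bool, (∀ k : Fin n, 0 < rs (s k) * coord v₀ x k.castSucc) ↔
        s = s₀ := by
      intro s
      constructor
      · intro h
        funext k
        have h1 := h k
        rw [hs₀]
        simp only
        rcases lt_or_gt_of_ne (hx1 k.castSucc) with h2 | h2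
        · rw [decide_eq_true h2]
          by_contra h3
          rw [Bool.not_eq_true] at h3
          rw [h3] at h1
          simp only [rs, Bool.false_eq_true, if_false, one_mul] at h1
          linarith
        · rw [decide_eq_false (not_lt.2 h2.le)]
          by_contra h3
          rw [Bool.not_eq_false] at h3
          rw [h3] at h1
          simp only [rs, if_true] at h1
          linarith
      · rintro rfl k
        rw [hs₀]
        simp only
        rcases lt_or_gt_of_ne (hx1 k.castSucc) with h2 | h2
        · rw [decide_eq_true h2]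
          simp only [rs, if_true]
          linarith
        · rw [decide_eq_false (not_lt.2 h2.le)]
          simp only [rs, Bool.false_eq_true, if_false]
          linarith
    rw [Finset.sum_eq_single s₀]
    · rw [hchi, hlast]
      have h1 : (∀ k : Fin n, 0 < rs (s₀ k) * coord v₀ x k.castSucc) := (hmatch s₀).2 rfl
      have h2 : (∏ k, sg (s₀ k)) * (∏ k, sg (s₀ k)) = 1 := by
        rw [← Finset.prod_mul_distrib]
        exact Finset.prod_eq_one fun k _ => sg_sq _
      by_cases h3 : 0 < x (Fin.last n)
      · rw [if_pos ⟨h1, h3⟩, if_pos h3, mul_one, mul_one]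
        rw [← mul_assoc, h2, one_mul]
      · rw [if_neg (fun h => h3 h.2), if_neg h3]
        simp
    · intro s _ hs
      rw [hchi, if_neg]
      · simp
      · rintro ⟨h1, _⟩
        exact hs ((hmatch s).1 h1)
    · intro h
      exact absurd (Finset.mem_univ _) h
  unfold volFrom
  rw [integral_congr_ae hind, integral_const_mul, half_sphere]

lemma isOV_half {a : Fin n → Fin (n + 1) → ℝ}
    (hflat : ∀ i, a i (Fin.last n) = 0)
    (hdt : dt (Fin.snoc a (eL n) : Fin (n + 1) → Fin (n + 1) → ℝ) ≠ 0)
    {P : Fin n × Bool → Fin (n + 1) → ℝ} (hP : ∀ i b, P (i, b) = rs b • a i)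
    (hpoly : IsPolyhedron (crossPolytope n) P) :
    IsOrientedVolume (crossPolytope n) P (sphereVol n / 2) := by
  apply isOrientedVolume_of_one hpoly eL_onSphere (eL_notMem_image hflat hP)
  rw [volFrom_half hflat hdt hP]
  rcases lt_or_gt_of_ne hdt with h | h
  · refine ⟨-1, ?_⟩
    rw [sign_neg h]; simp; ring
  · refine ⟨0, ?_⟩
    rw [sign_pos h]; simp

end flatcross

end Pool.Agent.helper69.FlexPoly
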