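import Pool.Agent.helper69.FlexPoly.Block
import Pool.Agent.helper69.FlexPoly.Comb
import Pool.Agent.helper69.FlexPoly.Add

set_option autoImplicit false

open MeasureTheory Filter Topology

namespace Pool.Agent.helper69.FlexPoly

section glue

variable {V : Type} {R : OrientedPseudomanifold V 3}

/-- the sets of vertices of the cross-polytope on `F` -/
def subA (F : FT R) (A : Set (SV R)) : Set (Fin 3 × Bool) :=
  {v | (if v.2 then Sum.inr (F, v.1) else Sum.inl (F.1 v.1)) ∈ A}

lemma pc_antipodes (F : FT R) (A : Set (SV R)) (P : SV R → Fin 4 → ℝ) :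
    pc F (antipodes A P) = antipodes (subA F A) (pc F P) := by
  funext v
  rfl

lemma rst_antipodes (A : Set (SV R)) (P : SV R → Fin 4 → ℝ) :
    rst (antipodes A P) = antipodes {v | Sum.inl v ∈ A} (rst P) := by
  funext v
  rfl

/-- the data of the construction -/
structure Data (R : OrientedPseudomanifold V 3) (P : V → Fin 4 → ℝ)
    (Q : FT R → Fin 3 → ℝ → Fin 3 × Bool → Fin 4 → ℝ)
    (k : FT R → Fin 3 → Set (Fin 3 × Bool) → ℤ) : Prop where
  poly : IsPolyhedron R P
  block : ∀ F : FT R, Block (fun i => P (F.1 i)) (Q F) (k F)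

/-- the new polyhedron with given states of the octahedra -/
def cf (P : V → Fin 4 → ℝ) (Q : FT R → Fin 3 → ℝ → Fin 3 × Bool → Fin 4 → ℝ)
    (x : FT R → Fin 3 × ℝ) : SV R → Fin 4 → ℝ :=
  Sum.elim P fun q => Q q.1 (x q.1).1 (x q.1).2 (q.2, true)

variable {P : V → Fin 4 → ℝ} {Q : FT R → Fin 3 → ℝ → Fin 3 × Bool → Fin 4 → ℝ}
  {k : FT R → Fin 3 → Set (Fin 3 × Bool) → ℤ}

lemma rst_cf (x : FT R → Fin 3 × ℝ) : rst (cf P Q x) = P := rfl

lemma Data.pc_cf (h : Data R P Q k) (x : FT R → Fin 3 × ℝ) (F : FT R) :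
    pc F (cf P Q x) = Q F (x F).1 (x F).2 := by
  funext ⟨i, b⟩
  cases b
  · exact ((h.block F).base _ _ i).symm
  · rfl

lemma Data.cf_onSphere (h : Data R P Q k) (x : FT R → Fin 3 × ℝ) (v : SV R) :
    OnSphere (cf P Q x v) := by
  rcases v with v | ⟨F, i⟩
  · exact h.poly.1 v
  · exact ((h.block F).poly _ _).1 (i, true)

lemma Data.isPolyhedron (h : Data R P Q k) (x : FT R → Fin 3 × ℝ) :
    IsPolyhedron (sharp R (by norm_num)) (cf P Q x) := by
  apply sharp_isPolyhedron (h.cf_onSphere x)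
  intro F
  rw [h.pc_cf]
  exact (h.block F).poly _ _

lemma Data.mem_Conf (h : Data R P Q k) (x y : FT R → Fin 3 × ℝ) (A : Set (SV R)) :
    antipodes A (cf P Q x) ∈ Conf (sharp R (by norm_num)) (antipodes A (cf P Q y)) := by
  refine ⟨(h.isPolyhedron x).antipodes A, ?_⟩
  intro G hG i j
  obtain ⟨F, s, _, rfl⟩ := mem_shFacets.1 hG
  rw [antipodes_dot, antipodes_dot]
  have h1 : ∀ z : FT R → Fin 3 × ℝ, cf P Q z (tup F s i) ⬝ᵥ cf P Q z (tup F s j) =
      Q F (z F).1 (z F).2 (i, s i) ⬝ᵥ Q F (z F).1 (z F).2 (j, s j) := by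
    intro z
    rw [← h.pc_cf z F]
    rfl
  rw [h1, h1, (h.block F).dot (x F).1 (y F).1 (x F).2 (y F).2 (i, s i) (j, s j)]
  by_cases hij : i = j
  · right; rw [hij]
  · left; exact hij

lemma cf_congr {x y : FT R → Fin 3 × ℝ}
    (hxy : ∀ F, Q F (x F).1 (x F).2 = Q F (y F).1 (y F).2) : cf P Q x = cf P Q y := by
  funext v
  rcases v with v | ⟨F, i⟩
  · rfl
  · exact congrFun (hxy F) (i, true)

lemma continuous_cf {X : Type*} [TopologicalSpace X] {x : X → FT R → Fin 3 × ℝ}
    (hx : ∀ F, Continuous fun t => Q F (x t F).1 (x t F).2) :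
    Continuous fun t => cf P Q (x t) := by
  rw [continuous_pi_iff]
  rintro (v | ⟨F, i⟩)
  · exact continuous_const
  · exact (continuous_apply (i, true)).comp (hx F)

open Classical in
/-- the state `xs`, where the octahedron on `F` is put in the state `q` -/
noncomputable def up (xs : FT R → Fin 3 × ℝ) (F : FT R) (q : Fin 3 × ℝ) : FT R → Fin 3 × ℝ :=
  Function.update xs F q

lemma up_self (xs : FT R → Fin 3 × ℝ) (F : FT R) (q : Fin 3 × ℝ) : up xs F q F = q := by
  classical
  unfold up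
  exact Function.update_self _ _ _

lemma up_ne (xs : FT R → Fin 3 × ℝ) {F G : FT R} (h : G ≠ F) (q : Fin 3 × ℝ) :
    up xs F q G = xs G := by
  classical
  unfold up
  exact Function.update_of_ne h _ _

lemma continuous_up (h : Data R P Q k) {X : Type*} [TopologicalSpace X]
    (xs : FT R → Fin 3 × ℝ) (F : FT R) (e : Fin 3) {f : X → ℝ} (hf : Continuous f) :
    Continuous fun t => cf P Q (up xs F (e, f t)) := by
  apply continuous_cf
  intro G
  by_cases hG : G = F
  · subst hG
    simp only [up_self]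
    exact ((h.block G).cont e).comp hf
  · simp only [up_ne xs hG]
    exact continuous_const

/-- the closed curve in which one octahedron moves along one of its circles -/
noncomputable def ro (h : Data R P Q k) (xs : FT R → Fin 3 × ℝ) (F : FT R) (e : Fin 3) :
    Path (cf P Q (up xs F (0, 0))) (cf P Q (up xs F (0, 0))) where
  toFun t := cf P Q (up xs F (e, Real.pi * t))
  continuous_toFun := continuous_up h xs F e (by fun_prop)
  source' := by
    apply cf_congr
    intro G
    by_cases hG : G = F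
    · subst hG
      simp only [up_self, Set.Icc.coe_zero, mul_zero]
      exact (h.block G).zero e
    · simp only [up_ne xs hG]
  target' := by
    apply cf_congr
    intro G
    by_cases hG : G = F
    · subst hG
      simp only [up_self, Set.Icc.coe_one, mul_one]
      rw [(h.block G).pi, (h.block G).zero e]
    · simp only [up_ne xs hG]

lemma ro_apply (h : Data R P Q k) (xs : FT R → Fin 3 × ℝ) (F : FT R) (e : Fin 3)
    (t : unitInterval) : ro h xs F e t = cf P Q (up xs F (e, Real.pi * t)) := rfl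

/-- the states in which all octahedra but one are in the state `xs` -/
def Cs (P : V → Fin 4 → ℝ) (Q : FT R → Fin 3 → ℝ → Fin 3 × Bool → Fin 4 → ℝ)
    (xs : FT R → Fin 3 × ℝ) : Set (SV R → Fin 4 → ℝ) :=
  {P' | ∃ F q, P' = cf P Q (up xs F q)}

lemma goodP_ro (h : Data R P Q k) (xs : FT R → Fin 3 × ℝ) (F : FT R) (e : Fin 3) :
    GoodP (sharp R (by norm_num)) (Cs P Q xs) (ro h xs F e)
      (fun A => ((- (R.or F.1 * k F e (subA F A)) : ℤ) : ℝ) * sphereVol 3) := by
  classical
  refine ⟨fun t => ⟨F, _, rfl⟩, ?_⟩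
  intro A
  obtain ⟨W, hW, hov, hinc⟩ := (h.block F).inc e (subA F A)
  -- the volumes of the other octahedra
  have hex : ∀ G : FT R, ∃ v, IsOrientedVolume (crossPolytope 3)
      (antipodes (subA G A) (Q G (xs G).1 (xs G).2)) v := by
    intro G
    exact exists_isOV (((h.block G).poly _ _).antipodes _)
  choose u hu using hex
  obtain ⟨w, hw⟩ := exists_isOV (h.poly.antipodes {v | Sum.inl v ∈ A})
  set U : unitInterval → ℝ := fun t =>
    w - ∑ G : FT R, (R.or G.1 : ℝ) * (if G = F then W t else u G) with hU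
  have hUc : Continuous U := by
    apply continuous_const.sub
    apply continuous_finsetSum
    intro G _
    apply continuous_const.mul
    by_cases hG : G = F
    · simp only [if_pos hG]; exact hW
    · simp only [if_neg hG]; exact continuous_const
  have hpc : ∀ (t : unitInterval) (G : FT R), pc G (cf P Q (up xs F (e, Real.pi * t))) =
      if G = F then Q G e (Real.pi * t) else Q G (xs G).1 (xs G).2 := by
    intro t G
    rw [h.pc_cf]
    by_cases hG : G = F
    · subst hG
      simp only [up_self, if_true]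
    · simp only [up_ne xs hG, if_neg hG]
  have hUov : ∀ t : unitInterval, IsOrientedVolume (sharp R (by norm_num))
      ((ro h xs F e).map (continuous_antipodes A) t) (U t) := by
    intro t
    rw [Path.map_coe, Function.comp_apply, ro_apply]
    have hpoly := (h.isPolyhedron (up xs F (e, Real.pi * t))).antipodes A
    apply isOV_sharp _ _ hpoly
    · rw [rst_antipodes, rst_cf]
      exact hw
    · intro G
      rw [pc_antipodes, hpc]
      by_cases hG : G = F
      · subst hG
        simp only [if_true]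
        exact hov t
      · simp only [if_neg hG]
        exact hu G
    · rw [rst_antipodes, rst_cf]
      exact h.poly.antipodes _
    · intro G
      rw [pc_antipodes, h.pc_cf]
      exact ((h.block G).poly _ _).antipodes _
  have h1 := inc_of_lift _ hUc hUov
  convert h1 using 1
  have h2 : U 1 - U 0 = - (R.or F.1 : ℝ) * (W 1 - W 0) := by
    simp only [hU]
    have h3 : ∀ t : unitInterval, ∑ G : FT R, (R.or G.1 : ℝ) * (if G = F then W t else u G) =
        (R.or F.1 : ℝ) * (W t - u F) + ∑ G : FT R, (R.or G.1 : ℝ) * u G := by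
      intro t
      have h4 : ∀ G : FT R, (R.or G.1 : ℝ) * (if G = F then W t else u G) =
          (if G = F then (R.or F.1 : ℝ) * (W t - u F) else 0) + (R.or G.1 : ℝ) * u G := by
        intro G
        by_cases hG : G = F
        · subst hG
          rw [if_pos rfl, if_pos rfl]; ring
        · rw [if_neg hG, if_neg hG, zero_add]
      rw [Finset.sum_congr rfl fun G _ => h4 G, Finset.sum_add_distrib]
      simp
    rw [h3, h3]
    ring
  rw [h2, hinc]
  push_cast
  ring

/-- the state with the parameters `θ` -/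
def xt (θ : FT R → ℝ) : FT R → Fin 3 × ℝ := fun F => (0, θ F)

lemma up_xt (θ : FT R → ℝ) (F : FT R) : up (xt θ) F (0, θ F) = xt θ := by
  funext G
  by_cases hG : G = F
  · subst hG; rw [up_self]; rfl
  · rw [up_ne _ hG]

lemma Data.joined (h : Data R P Q k) (θ : FT R → ℝ) (F : FT R) :
    JoinedIn (Cs P Q (xt θ)) (cf P Q (xt θ)) (cf P Q (up (xt θ) F (0, 0))) := by
  refine ⟨⟨⟨fun t : unitInterval => cf P Q (up (xt θ) F (0, (1 - (t : ℝ)) * θ F)), ?_⟩, ?_, ?_⟩,
    ?_⟩
  · exact continuous_up h _ F 0 (by fun_prop)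
  · simp [up_xt]
  · simp
  · intro t
    exact ⟨F, _, rfl⟩

lemma Data.flexible (h : Data R P Q k) {θ : FT R → ℝ} (hθ : ∀ F, θ F ∈ Set.Ioo 0 (Real.pi / 2))
    (A : Set (SV R)) : Flexible (sharp R (by norm_num)) (antipodes A (cf P Q (xt θ))) := by
  obtain ⟨F₀, hF₀⟩ := R.nonempty
  set F : FT R := ⟨F₀, hF₀⟩
  refine ⟨fun t => antipodes A (cf P Q (up (xt θ) F (0, (1 - (t : ℝ)) * θ F))), ?_, ?_, ?_, ?_⟩
  · exact (continuous_antipodes A).comp (continuous_up h _ F 0 (by fun_prop))
  · simp [up_xt]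
  · intro t
    exact h.mem_Conf _ _ A
  · rintro ⟨B, _, hB0, hB⟩
    have h1 := hB 1 (Sum.inl (F.1 0))
    have h2 := hB 1 (Sum.inr (F, 0))
    have hort : (B 1).transpose * B 1 = 1 := by
      have := (Matrix.mem_orthogonalGroup_iff' (Fin 4) ℝ).1 (hB0 1)
      simpa using this
    simp only [Set.Icc.coe_one, sub_self, zero_mul] at h1 h2
    have h3 : antipodes A (cf P Q (up (xt θ) F (0, 0))) (Sum.inl (F.1 0)) ⬝ᵥ
        antipodes A (cf P Q (up (xt θ) F (0, 0))) (Sum.inr (F, 0)) =
        antipodes A (cf P Q (xt θ)) (Sum.inl (F.1 0)) ⬝ᵥ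
        antipodes A (cf P Q (xt θ)) (Sum.inr (F, 0)) := by
      rw [h1, h2, mulVec_dot hort]
    rw [antipodes_dot, antipodes_dot] at h3
    have h4 := mul_left_cancel₀ (ev_ne A (Sum.inr (F, 0)))
      (mul_left_cancel₀ (ev_ne A (Sum.inl (F.1 0))) h3)
    have h5 : ∀ x : FT R → Fin 3 × ℝ, cf P Q x (Sum.inl (F.1 0)) ⬝ᵥ cf P Q x (Sum.inr (F, 0)) =
        Q F (x F).1 (x F).2 (0, false) ⬝ᵥ Q F (x F).1 (x F).2 (0, true) := by
      intro x
      rw [← h.pc_cf x F]
      rfl
    rw [h5, h5, up_self] at h4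
    have h6 := (h.block F).anti 0 0 (a := 0) (b := θ F)
      ⟨le_rfl, by have := Real.pi_pos; linarith⟩ ⟨(hθ F).1.le, (hθ F).2.le⟩ (hθ F).1
    simp only at h6
    exact absurd h4 h6.ne'

/-! ### A state with different vertices -/

/-- `y` is equal or opposite to `z` -/
def Par (y z : Fin 4 → ℝ) : Prop := y = z ∨ y = - z

lemma Par.symm {y z : Fin 4 → ℝ} (h : Par y z) : Par z y := by
  rcases h with h | h
  · exact Or.inl h.symm
  · exact Or.inr (by rw [h, neg_neg])

/-- the assumptions on the surface -/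
structure Core (R : OrientedPseudomanifold V 3) (P : V → Fin 4 → ℝ) : Prop where
  poly : IsPolyhedron R P
  neg : ∀ F ∈ R.facets, ∀ i j, i ≠ j → P (F i) ⬝ᵥ P (F j) < 0
  col : ∀ a : Set V, ∃ F ∈ R.facets, ∀ i j, F i ∈ a ↔ F j ∈ a
  par : ∀ v w, v ≠ w → ¬ Par (P v) (P w)
  ind : ∀ x y z, x ≠ y → x ≠ z → y ≠ z → g3 (P x) (P y) (P z) ≠ 0
  circ : ∀ F ∈ R.facets, ∀ (i : Fin 3) (v : V), v ∉ Set.range F →
    ∃ k, k ≠ i ∧ (P v ⬝ᵥ P (F k)) ^ 2 ≠ (P (F i) ⬝ᵥ P (F k)) ^ 2

/-- `y` lies on the circle on which the `i`-th moving vertex of the octahedron on `F` moves, up to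
signs -/
def Circ (P : V → Fin 4 → ℝ) (F : FT R) (i : Fin 3) (y : Fin 4 → ℝ) : Prop :=
  ∀ k, k ≠ i → (y ⬝ᵥ P (F.1 k)) ^ 2 = (P (F.1 i) ⬝ᵥ P (F.1 k)) ^ 2

lemma Circ.par {F : FT R} {i : Fin 3} {y z : Fin 4 → ℝ} (h : Circ P F i y) (hyz : Par y z) :
    Circ P F i z := by
  intro k hk
  rw [← h k hk]
  rcases hyz with h1 | h1
  · rw [h1]
  · rw [h1, neg_dotProduct, neg_sq]

lemma Data.circ_self (h : Data R P Q k) (F : FT R) (e : Fin 3) (θ : ℝ) (i : Fin 3) :
    Circ P F i (Q F e θ (i, true)) :=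
  fun k hk => (h.block F).sq e θ i k hk.symm

lemma exists_two : ∀ j : Fin 3, ∃ m n : Fin 3, j ≠ m ∧ j ≠ n ∧ m ≠ n := by
  decide

lemma Data.finite_circ (h : Data R P Q k) (hc : Core R P) {F G : FT R} (hFG : F ≠ G)
    (i j : Fin 3) : {θ ∈ Set.Ioo 0 (Real.pi / 2) | Circ P F i (Q G 0 θ (j, true))}.Finite := by
  by_cases hk : ∃ k, k ≠ i ∧ ∀ m, m ≠ j → F.1 k ≠ G.1 m
  · obtain ⟨k, hki, hkm⟩ := hk
    obtain ⟨m, n, hjm, hjn, hmn⟩ := exists_two j
    have h1 : g3 (P (G.1 m)) (P (G.1 n)) (P (F.1 k)) ≠ 0 :=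
      hc.ind _ _ _ (fun h2 => hmn (R.inj _ G.2 h2)) (hkm m hjm.symm).symm (hkm n hjn.symm).symm
    have h2 := (h.block G).fin j m n hjm hjn hmn (P (F.1 k)) h1
    apply ((h2 (P (F.1 i) ⬝ᵥ P (F.1 k))).union (h2 (-(P (F.1 i) ⬝ᵥ P (F.1 k))))).subset
    rintro θ ⟨h3, h4⟩
    rcases sq_eq_sq_iff_eq_or_eq_neg.1 (h4 k hki) with h5 | h5
    · exact Or.inl ⟨h3, h5⟩
    · exact Or.inr ⟨h3, h5⟩
  · -- the two facets have a common edge
    push Not at hk
    have hmem : ∀ k, k ≠ i → F.1 k ∈ Set.range G.1 := by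
      intro k hki
      obtain ⟨m, _, hm⟩ := hk k hki
      exact ⟨m, hm.symm⟩
    have hj : G.1 j ∉ Set.range F.1 := by
      rintro ⟨l, hl⟩
      apply hFG
      apply Subtype.ext
      apply R.distinct _ F.2 _ G.2
      have hli : l = i := by
        by_contra hli
        obtain ⟨m, hmj, hm⟩ := hk l hli
        rw [hl] at hm
        exact hmj (R.inj _ G.2 hm).symm
      subst hli
      have hsub : Set.range F.1 ⊆ Set.range G.1 := by
        rintro _ ⟨k, rfl⟩
        by_cases hkl : k = l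
        · rw [hkl, hl]; exact ⟨j, rfl⟩
        · exact hmem k hkl
      -- equal cardinalities
      have h1 : ∀ k, ∃ m, G.1 m = F.1 k := fun k => hsub ⟨k, rfl⟩
      choose f hf using h1
      have hfi : Function.Injective f := by
        intro a b hab
        apply R.inj _ F.2
        rw [← hf a, ← hf b, hab]
      have hfs := Finite.surjective_of_injective hfi
      apply Set.Subset.antisymm hsub
      rintro _ ⟨m, rfl⟩
      obtain ⟨k, hk'⟩ := hfs m
      exact ⟨k, by rw [← hf k, hk']⟩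
    obtain ⟨k, hki, hne⟩ := hc.circ F.1 F.2 i (G.1 j) hj
    convert Set.finite_empty (α := ℝ)
    ext θ
    simp only [Set.mem_ofPred_eq, Set.mem_empty_iff_false, iff_false, not_and]
    intro _ h1
    apply hne
    obtain ⟨m, hmj, hm⟩ := hk k hki
    rw [← h1 k hki, hm]
    exact ((h.block G).sq 0 θ j m hmj.symm).symm

lemma Data.exists_theta (h : Data R P Q k) (hc : Core R P) : ∃ θ : FT R → ℝ,
    (∀ F, θ F ∈ Set.Ioo 0 (Real.pi / 2)) ∧
    ∀ F G : FT R, F ≠ G → ∀ i j, ¬ Circ P F i (Q G 0 (θ G) (j, true)) := by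
  have key : ∀ G : FT R, ∃ t ∈ Set.Ioo 0 (Real.pi / 2), ∀ F : FT R, F ≠ G → ∀ i j,
      ¬ Circ P F i (Q G 0 t (j, true)) := by
    intro G
    have hbad : (⋃ F : {F : FT R // F ≠ G}, ⋃ i : Fin 3, ⋃ j : Fin 3,
        {t ∈ Set.Ioo 0 (Real.pi / 2) | Circ P F.1 i (Q G 0 t (j, true))}).Finite :=
      Set.finite_iUnion fun F => Set.finite_iUnion fun i => Set.finite_iUnion fun j =>
        h.finite_circ hc F.2 i j
    have hpi := Real.pi_pos
    obtain ⟨t, ht, ht'⟩ := ((Set.Ioo_infinite (by linarith : (0 : ℝ) < Real.pi / 2)).sdiff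
      hbad).nonempty
    simp only [Set.mem_iUnion, not_exists] at ht'
    exact ⟨t, ht, fun F hF i j h1 => ht' ⟨F, hF⟩ i j ⟨ht, h1⟩⟩
  choose θ h1 h2 using key
  exact ⟨θ, h1, fun F G hFG => h2 G F hFG⟩

/-- In the states considered no two vertices are equal or opposite. -/
lemma Data.not_par (h : Data R P Q k) (hc : Core R P) {θ : FT R → ℝ}
    (hθ : ∀ F G : FT R, F ≠ G → ∀ i j, ¬ Circ P F i (Q G 0 (θ G) (j, true)))
    {P' : SV R → Fin 4 → ℝ} (hP' : P' ∈ Cs P Q (xt θ)) (v w : SV R) (hvw : v ≠ w) :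
    ¬ Par (P' v) (P' w) := by
  obtain ⟨F, q, rfl⟩ := hP'
  set x := up (xt θ) F q with hx
  have hblock : ∀ (G : FT R) (a b : Fin 3 × Bool), a ≠ b →
      ¬ Par (Q G (x G).1 (x G).2 a) (Q G (x G).1 (x G).2 b) := by
    intro G a b hab
    have h1 := (h.block G).par (x G).1 (x G).2 a b hab
    rintro (h2 | h2)
    · have := (h1 1 1 (by rw [h2])).1
      norm_num at this
    · have := (h1 1 (-1) (by rw [h2]; simp)).1
      norm_num at this
  have hmix : ∀ (v : V) (G : FT R) (j : Fin 3), ¬ Par (P v) (Q G (x G).1 (x G).2 (j, true)) := by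
    intro v G j
    by_cases hv : v ∈ Set.range G.1
    · obtain ⟨i, rfl⟩ := hv
      rw [← (h.block G).base (x G).1 (x G).2 i]
      exact hblock G _ _ (by simp)
    · intro h1
      obtain ⟨k, hk, hne⟩ := hc.circ G.1 G.2 j v hv
      exact hne ((h.circ_self G (x G).1 (x G).2 j).par h1.symm k hk)
  have hmv : ∀ (G H : FT R), G ≠ H → G ≠ F → ∀ i j,
      ¬ Par (Q G (x G).1 (x G).2 (i, true)) (Q H (x H).1 (x H).2 (j, true)) := by
    intro G H hGH hGF i j h1
    have h2 := (h.circ_self H (x H).1 (x H).2 j).par h1.symm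
    have h3 : x G = (0, θ G) := up_ne _ hGF _
    rw [h3] at h2
    exact hθ H G hGH.symm j i h2
  rcases v with v | ⟨G, i⟩ <;> rcases w with w | ⟨H, j⟩
  · exact hc.par v w (fun h4 => hvw (by rw [h4]))
  · exact hmix v H j
  · intro h1
    exact hmix w G i h1.symm
  · by_cases hGH : G = H
    · subst hGH
      apply hblock G
      intro h4
      apply hvw
      simp only [Prod.mk.injEq, and_true] at h4
      rw [h4]
    · by_cases hGF : G = F
      · have hHF : H ≠ F := fun h5 => hGH (hGF.trans h5.symm)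
        intro h1
        exact hmv H G (Ne.symm hGH) hHF j i h1.symm
      · exact hmv G H hGH hGF i j

/-! ### The result for a given surface -/

/-- A polyhedral surface in `S^3` in general position with all edges longer than `π / 2`, such that
every 2-colouring of the vertices has a monochromatic facet, yields a flexible polyhedron with
non-zero increments, also after the vertices of an arbitrary set are replaced by their
antipodes. -/
theorem glue (hc : Core R P) :
    ∃ (P₀ : SV R → Fin 4 → ℝ) (γ : unitInterval → SV R → Fin 4 → ℝ),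
      Continuous γ ∧ γ 0 = P₀ ∧ γ 1 = P₀ ∧ (∀ t, γ t ∈ Conf (sharp R (by norm_num)) P₀) ∧
      (∀ t v w, v ≠ w → γ t v ≠ γ t w ∧ γ t v ≠ - γ t w) ∧
      ∀ A : Set (SV R), Flexible (sharp R (by norm_num)) (antipodes A P₀) ∧
        (∃ k : ℤ, k ≠ 0 ∧
          IncrementAlong (sharp R (by norm_num)) (fun t => antipodes A (γ t)) k) ∧
        ¬ HasRealBranch (sharp R (by norm_num)) (antipodes A P₀) := by
  classical
  have hex : ∀ F : FT R, ∃ Q k, Block (fun i => P (F.1 i)) Q k := by
    intro F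
    apply exists_block
    · intro i; exact hc.poly.1 _
    · exact hc.poly.2 F.1 F.2
    · intro i j hij; exact hc.neg F.1 F.2 i j hij
  choose Q k hQ using hex
  have h : Data R P Q k := ⟨hc.poly, hQ⟩
  obtain ⟨θ, h1, h2⟩ := h.exists_theta hc
  set P₀ := cf P Q (xt θ) with hP₀
  have hC : ∀ P' ∈ Cs P Q (xt θ), IsPolyhedron (sharp R (by norm_num)) P' := by
    rintro P' ⟨F, q, rfl⟩
    exact h.isPolyhedron _
  have hP₀C : P₀ ∈ Cs P Q (xt θ) := by
    obtain ⟨F₀, hF₀⟩ := R.nonempty
    exact ⟨⟨F₀, hF₀⟩, _, by rw [up_xt]⟩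
  obtain ⟨γ, m, hγ, hm⟩ := exists_single (K := sharp R (by norm_num)) hC
    (P := P₀) hP₀C (Finset.univ : Finset (FT R × Fin 3))
    (fun q => cf P Q (up (xt θ) q.1 (0, 0)))
    (fun q => ro h (xt θ) q.1 q.2) (fun q A => - (R.or q.1.1 * k q.1 q.2 (subA q.1 A)))
    (fun q => h.joined θ q.1) (fun q => goodP_ro h (xt θ) q.1 q.2)
  have hconf : ∀ (A : Set (SV R)) t, antipodes A (γ t) ∈
      Conf (sharp R (by norm_num)) (antipodes A P₀) := by
    intro A t
    obtain ⟨F, q, hx⟩ := hγ.1 t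
    rw [hx]
    exact h.mem_Conf _ _ A
  refine ⟨P₀, γ, γ.continuous, γ.source, γ.target, ?_, ?_, ?_⟩
  · intro t
    have := hconf ∅ t
    have he : ∀ P' : SV R → Fin 4 → ℝ, antipodes ∅ P' = P' := by
      intro P'
      funext v
      simp [antipodes]
    rwa [he, he] at this
  · intro t v w hvw
    have h4 := h.not_par hc h2 (hγ.1 t) v w hvw
    unfold Par at h4
    push Not at h4
    exact h4
  · intro A
    have hmA : m A ≠ 0 := by
      apply hm A
      obtain ⟨F, hF, hFA⟩ := hc.col {v | Sum.inl v ∈ A}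
      obtain ⟨e, he⟩ := (h.block ⟨F, hF⟩).ne (subA ⟨F, hF⟩ A) (by
        intro i j
        exact hFA i j)
      refine ⟨(⟨F, hF⟩, e), Finset.mem_univ _, ?_⟩
      have h4 : R.or F ≠ 0 := by
        rcases R.or_eq F hF with h5 | h5 <;> rw [h5] <;> norm_num
      exact neg_ne_zero.2 (mul_ne_zero h4 he)
    have hincA : IncrementAlong (sharp R (by norm_num)) (fun t => antipodes A (γ t)) (m A) :=
      (hγ.2 A).incrementAlong
    refine ⟨h.flexible h1 A, ⟨m A, hmA, hincA⟩, ?_⟩
    refine not_hasRealBranch (sharp R (by norm_num)) _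
      (γ := fun t => antipodes A (γ t)) ?_ ?_ (hconf A) hmA hincA
    · exact (continuous_antipodes A).comp γ.continuous
    · simp only [γ.source, γ.target]

end glue

end Pool.Agent.helper69.FlexPoly
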