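import Pool.Agent.helper69.FlexPoly.State

set_option autoImplicit false

open MeasureTheory Filter Topology

namespace Pool.Agent.helper69.FlexPoly

section homot

variable {V : Type} {n : ℕ} {K : OrientedPseudomanifold V n}

/-- The increment of the oriented volume along closed curves of polyhedra is a homotopy
invariant. -/
lemma hom_inc {H : unitInterval × unitInterval → V → Fin (n + 1) → ℝ} (hH : Continuous H)
    (hpoly : ∀ z, IsPolyhedron K (H z)) (hloop : ∀ u, H (u, 0) = H (u, 1))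
    {W₀ : unitInterval → ℝ} (hW₀ : Continuous W₀)
    (hov : ∀ t, IsOrientedVolume K (H (0, t)) (W₀ t)) :
    ∃ W₁ : unitInterval → ℝ, Continuous W₁ ∧ (∀ t, IsOrientedVolume K (H (1, t)) (W₁ t)) ∧
      W₁ 1 - W₁ 0 = W₀ 1 - W₀ 0 := by
  have hc : Continuous (fun z => vbar K (H z)) := by
    rw [← continuousOn_univ]
    exact (continuousOn_vbar K).comp hH.continuousOn (fun z _ => hpoly z)
  have hz : ∀ t, (⟨fun z => vbar K (H z), hc⟩ : C(unitInterval × unitInterval, _)) (0, t) =
      ((⟨W₀, hW₀⟩ : C(unitInterval, ℝ)) t : AddCircle (sphereVol n)) := by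
    intro t
    exact (isOrientedVolume_iff (hpoly _) _).1 (hov t)
  set L := (AddCircle.isCoveringMap_coe (sphereVol n)).liftHomotopy
    ⟨fun z => vbar K (H z), hc⟩ ⟨W₀, hW₀⟩ hz with hL
  have h1 : ∀ z, ((L z : ℝ) : AddCircle (sphereVol n)) = vbar K (H z) := by
    intro z
    exact congrFun ((AddCircle.isCoveringMap_coe (sphereVol n)).liftHomotopy_lifts
      ⟨fun z => vbar K (H z), hc⟩ ⟨W₀, hW₀⟩ hz) z
  have h2 : ∀ t, L (0, t) = W₀ t := by
    intro t
    exact (AddCircle.isCoveringMap_coe (sphereVol n)).liftHomotopy_zero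
      ⟨fun z => vbar K (H z), hc⟩ ⟨W₀, hW₀⟩ hz t
  have h3 : ∀ u : unitInterval, ∃ j : ℤ, L (u, 1) - L (u, 0) = j * sphereVol n := by
    intro u
    have h4 : ((L (u, 1) : ℝ) : AddCircle (sphereVol n)) = ((L (u, 0) : ℝ) :
        AddCircle (sphereVol n)) := by
      rw [h1, h1, hloop u]
    obtain ⟨k, hk⟩ := coe_eq_coe.1 h4
    exact ⟨k, by rw [hk]; ring⟩
  have hc3 : Continuous fun u : unitInterval => L (u, 1) - L (u, 0) := by fun_prop
  have h5 := const_of_mul hc3 h3 1 0
  refine ⟨fun t => L (1, t), by fun_prop, fun t => ?_, ?_⟩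
  · rw [isOrientedVolume_iff (hpoly _)]
    exact (h1 (1, t)).symm
  · simp only
    rw [h5, h2, h2]

end homot

end Pool.Agent.helper69.FlexPoly
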