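import Pool.Agent.helper69.FlexPoly.Lune

set_option autoImplicit false

open MeasureTheory Filter Topology

namespace Pool.Agent.helper69.FlexPoly

section inc

variable {V : Type} {n : ℕ} {K : OrientedPseudomanifold V n}

lemma IsOrientedVolume.shift {P : V → Fin (n + 1) → ℝ} {v : ℝ} (h : IsOrientedVolume K P v)
    (k : ℤ) : IsOrientedVolume K P (v + k * sphereVol n) := by
  refine ⟨h.1, fun y hs hy => ?_⟩
  obtain ⟨l, hl⟩ := h.2 y hs hy
  refine ⟨l - k, ?_⟩
  rw [hl]; push_cast; ring

lemma IsOrientedVolume.diff {P : V → Fin (n + 1) → ℝ} {v v' : ℝ} (h : IsOrientedVolume K P v)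
    (h' : IsOrientedVolume K P v') : ∃ k : ℤ, v' = v + k * sphereVol n := by
  obtain ⟨⟨y, hs, hy⟩, h1⟩ := h
  obtain ⟨k, hk⟩ := h1 y hs hy
  obtain ⟨l, hl⟩ := h'.2 y hs hy
  refine ⟨k - l, ?_⟩
  push_cast
  linarith

lemma exists_isOV {P : V → Fin (n + 1) → ℝ} (hP : IsPolyhedron K P) :
    ∃ v, IsOrientedVolume K P v := by
  obtain ⟨y, hs, hy⟩ := exists_notMem_image hP
  exact ⟨volFrom K P y, isOrientedVolume_of_one hP hs hy ⟨0, by simp⟩⟩

/-- the increment of the oriented volume along the path `γ` is `r` -/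
def Inc (K : OrientedPseudomanifold V n) {P Q : V → Fin (n + 1) → ℝ} (γ : Path P Q) (r : ℝ) :
    Prop :=
  ∃ (a : ℝ) (w : Path a (a + r)), ∀ t, IsOrientedVolume K (γ t) (w t)

lemma inc_of_lift {P Q : V → Fin (n + 1) → ℝ} (γ : Path P Q) {W : unitInterval → ℝ}
    (hW : Continuous W) (h : ∀ t, IsOrientedVolume K (γ t) (W t)) : Inc K γ (W 1 - W 0) :=
  ⟨W 0, ⟨⟨W, hW⟩, rfl, by simp⟩, h⟩

lemma inc_exists {P Q : V → Fin (n + 1) → ℝ} (γ : Path P Q) (h : ∀ t, IsPolyhedron K (γ t)) :
    ∃ r, Inc K γ r := by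
  obtain ⟨W, hW, h1⟩ := exists_lift K γ γ.continuous h
  exact ⟨_, inc_of_lift γ hW h1⟩

lemma inc_refl {P : V → Fin (n + 1) → ℝ} (hP : IsPolyhedron K P) : Inc K (Path.refl P) 0 := by
  obtain ⟨v, hv⟩ := exists_isOV hP
  have := inc_of_lift (K := K) (Path.refl P) (W := fun _ => v) continuous_const (fun t => hv)
  simpa using this

lemma inc_symm {P Q : V → Fin (n + 1) → ℝ} {γ : Path P Q} {r : ℝ} (h : Inc K γ r) :
    Inc K γ.symm (-r) := by
  obtain ⟨a, w, hw⟩ := h
  refine ⟨a + r, w.symm.cast rfl (by ring), fun t => ?_⟩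
  rw [Path.cast_coe, Path.symm_apply, Path.symm_apply]
  exact hw _

lemma inc_trans {P Q R : V → Fin (n + 1) → ℝ} {γ : Path P Q} {γ' : Path Q R} {r r' : ℝ}
    (h : Inc K γ r) (h' : Inc K γ' r') : Inc K (γ.trans γ') (r + r') := by
  obtain ⟨a, w, hw⟩ := h
  obtain ⟨b, w', hw'⟩ := h'
  have h1 := hw 1
  have h2 := hw' 0
  rw [γ.target, w.target] at h1
  rw [γ'.source, w'.source] at h2
  obtain ⟨k, hk⟩ := h1.diff h2
  let w₂ : Path (a + r) (a + (r + r')) :=
    (w'.map (f := fun v => v + (-k : ℤ) * sphereVol n) (by fun_prop)).cast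
      (by rw [hk]; push_cast; ring) (by rw [hk]; push_cast; ring)
  refine ⟨a, w.trans w₂, fun t => ?_⟩
  rw [Path.trans_apply, Path.trans_apply]
  split_ifs with ht
  · exact hw _
  · change IsOrientedVolume K (γ' _) (w' _ + (-k : ℤ) * sphereVol n)
    exact (hw' _).shift (-k)

lemma Inc.incrementAlong {P Q : V → Fin (n + 1) → ℝ} {γ : Path P Q} {k : ℤ}
    (h : Inc K γ (k * sphereVol n)) : IncrementAlong K γ k := by
  obtain ⟨a, w, hw⟩ := h
  refine ⟨w, w.continuous, hw, ?_⟩
  rw [w.source, w.target]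
  ring

/-! ### Antipodes -/

lemma continuous_antipodes (A : Set V) :
    Continuous (antipodes A : (V → Fin (n + 1) → ℝ) → V → Fin (n + 1) → ℝ) := by
  classical
  rw [continuous_pi_iff]
  intro v
  unfold antipodes
  split_ifs
  · exact (continuous_apply v).neg
  · exact continuous_apply v

/-- The existence of a closed curve with non-zero increment excludes a real-valued branch. -/
lemma not_hasRealBranch (K : OrientedPseudomanifold V n) (P₀ : V → Fin (n + 1) → ℝ)
    {γ : unitInterval → V → Fin (n + 1) → ℝ} (hcγ : Continuous γ) (hγ : γ 0 = γ 1)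
    (hconf : ∀ t, γ t ∈ Conf K P₀) {k : ℤ} (hk : k ≠ 0) (h : IncrementAlong K γ k) :
    ¬ HasRealBranch K P₀ := by
  rintro ⟨f, hf, hfv⟩
  obtain ⟨W, hcW, hW, hinc⟩ := h
  have hpos := (sphereVol_pos n).ne'
  -- the difference is an integer multiple of the volume of the sphere
  have hdiff : ∀ t, ∃ j : ℤ, f (γ t) - W t = j * sphereVol n := by
    intro t
    obtain ⟨j, hj⟩ := (hW t).diff (hfv _ (hconf t))
    exact ⟨j, by rw [hj]; ring⟩
  choose j hj using hdiff
  have hcf : Continuous (fun t => f (γ t)) := by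
    rw [← continuousOn_univ]
    exact hf.comp hcγ.continuousOn (fun t _ => hconf t)
  have hcj : Continuous (fun t => ((j t : ℤ) : ℝ)) := by
    have : (fun t => ((j t : ℤ) : ℝ)) = fun t => (f (γ t) - W t) / sphereVol n := by
      funext t
      rw [hj t]
      field_simp
    rw [this]
    exact (hcf.sub hcW).div_const _
  have hcj' : Continuous j := Int.isClosedEmbedding_coe_real.isEmbedding.continuous_iff.2 hcj
  have hconst : j 0 = j 1 := PreconnectedSpace.constant inferInstance hcj'
  have h0 := hj 0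
  have h1 := hj 1
  rw [hγ, hconst] at h0
  have h2 : W 1 - W 0 = 0 := by linarith
  rw [hinc] at h2
  rcases mul_eq_zero.1 h2 with h3 | h3
  · exact hk (by exact_mod_cast h3)
  · exact hpos h3

end inc

/-! ### Products of loops -/

section loops

variable {n : ℕ}

/-- the cross-polytope with vertices on the axes -/
abbrev XX (n : ℕ) := Fin n × Bool → Fin (n + 1) → ℝ

lemma Ortho.antipodes {P : XX n} (h : Ortho P) (A : Set (Fin n × Bool)) :
    Ortho (antipodes A P) := by
  classical
  constructor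
  · intro v
    unfold FlexPoly.antipodes OnSphere
    have := h.1 v
    unfold OnSphere at this
    split_ifs
    · simpa using this
    · exact this
  · intro u v huv
    have := h.2 u v huv
    unfold FlexPoly.antipodes
    split_ifs <;> simp [this]

/-- `γ` is a path of cross-polytopes with all edges of length `π / 2`, and for every `A` the
increment of the oriented volume, after replacing the vertices in `A` by their antipodes, is
`r A`. -/
def Good' {P Q : XX n} (γ : Path P Q) (r : Set (Fin n × Bool) → ℝ) : Prop :=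
  (∀ t, Ortho (γ t)) ∧ ∀ A, Inc (crossPolytope n) (γ.map (continuous_antipodes A)) (r A)

lemma Good'.trans {P Q R : XX n} {γ : Path P Q} {γ' : Path Q R}
    {r r' : Set (Fin n × Bool) → ℝ} (h : Good' γ r) (h' : Good' γ' r') :
    Good' (γ.trans γ') (fun A => r A + r' A) := by
  constructor
  · intro t
    rw [Path.trans_apply]
    split_ifs
    · exact h.1 _
    · exact h'.1 _
  · intro A
    rw [Path.map_trans]
    exact inc_trans (h.2 A) (h'.2 A)

lemma Good'.symm {P Q : XX n} {γ : Path P Q}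
    {r : Set (Fin n × Bool) → ℝ} (h : Good' γ r) : Good' γ.symm (fun A => - r A) := by
  constructor
  · intro t
    rw [Path.symm_apply]
    exact h.1 _
  · intro A
    rw [← Path.map_symm]
    exact inc_symm (h.2 A)

lemma good'_refl {P : XX n} (h : Ortho P) : Good' (Path.refl P) (fun _ => 0) := by
  constructor
  · intro t; exact h
  · intro A
    have : (Path.refl P).map (continuous_antipodes A) = Path.refl (antipodes A P) := by
      ext t; rfl
    rw [this]
    exact inc_refl (h.antipodes A).isPolyhedron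

lemma exists_good' {P Q : XX n} (h : JoinedIn {P | Ortho P} P Q) :
    ∃ (γ : Path P Q) (r : Set (Fin n × Bool) → ℝ), Good' γ r := by
  obtain ⟨γ, hγ⟩ := h
  have h1 : ∀ A, ∃ r, Inc (crossPolytope n) (γ.map (continuous_antipodes A)) r := by
    intro A
    apply inc_exists
    intro t
    exact ((hγ t).antipodes A).isPolyhedron
  choose r hr using h1
  exact ⟨γ, r, hγ, hr⟩

lemma good'_conj {P Q : XX n} (h : JoinedIn {P | Ortho P} P Q) {ρ : Path Q Q}
    {r : Set (Fin n × Bool) → ℝ} (hρ : Good' ρ r) : ∃ γ : Path P P, Good' γ r := by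
  obtain ⟨p, s, hp⟩ := exists_good' h
  refine ⟨p.trans (ρ.trans p.symm), ?_⟩
  have := hp.trans (hρ.trans hp.symm)
  convert this using 2
  ring

lemma good'_prod {ι : Type*} {P : XX n} (hP : Ortho P) (T : Finset ι) (Q : ι → XX n)
    (ρ : ∀ i, Path (Q i) (Q i)) (r : ι → Set (Fin n × Bool) → ℝ)
    (hj : ∀ i, JoinedIn {P | Ortho P} P (Q i)) (hρ : ∀ i, Good' (ρ i) (r i)) :
    ∃ γ : Path P P, Good' γ (fun A => ∑ i ∈ T, r i A) := by
  classical
  induction T using Finset.induction_on with
  | empty =>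
      refine ⟨Path.refl P, ?_⟩
      simpa using good'_refl hP
  | insert a T ha ih =>
      obtain ⟨γ, hγ⟩ := ih
      obtain ⟨γ', hγ'⟩ := good'_conj (hj a) (hρ a)
      refine ⟨γ'.trans γ, ?_⟩
      have := hγ'.trans hγ
      convert this using 2
      rw [Finset.sum_insert ha]

end loops

end Pool.Agent.helper69.FlexPoly
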