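import Pool.Agent.helper69.FlexPoly.Walls

set_option autoImplicit false

open MeasureTheory Filter Topology

namespace Pool.Agent.helper69.FlexPoly

/-- The total change of a step function with finitely many jumps. -/
lemma jump {ι : Type} [DecidableEq ι] (T : Finset ι) (z J : ι → ℝ) (F : ℝ → ℝ)
    (hinj : ∀ i ∈ T, ∀ j ∈ T, z i = z j → i = j) :
    ∀ (m : ℕ) (a b : ℝ), (T.filter fun i => a < z i ∧ z i < b).card = m → a ≤ b →
      (∀ i ∈ T, z i ≠ a) → (∀ i ∈ T, z i ≠ b) →
      (∀ u v, a ≤ u → u ≤ v → v ≤ b → (∀ i ∈ T, z i < u ∨ v < z i) → F u = F v) →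
      (∀ i ∈ T, a < z i → z i < b → ∃ δ > 0, ∀ u v, z i - δ < u → u < z i → z i < v →
        v < z i + δ → F v - F u = J i) →
      F b - F a = ∑ i ∈ T.filter (fun i => a < z i ∧ z i < b), J i := by
  intro m
  induction m using Nat.strong_induction_on with
  | _ m ih =>
    intro a b hm hab ha hb hreg hj
    by_cases hne : (T.filter fun i => a < z i ∧ z i < b).Nonempty
    · obtain ⟨i, hi⟩ := hne
      rw [Finset.mem_filter] at hi
      obtain ⟨hiT, hi1, hi2⟩ := hi
      obtain ⟨δ, hδ, hJ⟩ := hj i hiT hi1 hi2
      -- distance to the other jumps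
      obtain ⟨ε, hε, hsep⟩ : ∃ ε > 0, ∀ j ∈ T, j ≠ i → ε < |z j - z i| := by
        have : ∀ S : Finset ι, S ⊆ T → ∃ ε > 0, ∀ j ∈ S, j ≠ i → ε < |z j - z i| := by
          intro S
          induction S using Finset.induction_on with
          | empty => intro _; exact ⟨1, one_pos, by simp⟩
          | insert k S hk ihS =>
              intro hS
              obtain ⟨ε, hε, h1⟩ := ihS (fun x hx => hS (Finset.mem_insert_of_mem hx))
              by_cases hki : k = i
              · refine ⟨ε, hε, fun j hj hji => ?_⟩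
                rcases Finset.mem_insert.1 hj with h2 | h2
                · exact absurd (h2.trans hki) hji
                · exact h1 j h2 hji
              · have h3 : 0 < |z k - z i| := by
                  rw [abs_pos, sub_ne_zero]
                  intro h4
                  exact hki (hinj k (hS (Finset.mem_insert_self _ _)) i hiT h4)
                refine ⟨min ε (|z k - z i| / 2), lt_min hε (by linarith), fun j hj hji => ?_⟩
                rcases Finset.mem_insert.1 hj with h2 | h2
                · rw [h2]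
                  exact (min_le_right _ _).trans_lt (by linarith)
                · exact (min_le_left _ _).trans_lt (h1 j h2 hji)
        exact this T (fun x hx => hx)
      set r : ℝ := min (min (δ / 2) ε) (min ((z i - a) / 2) ((b - z i) / 2)) with hr
      have hr0 : 0 < r := by
        rw [hr]
        exact lt_min (lt_min (by linarith) hε) (lt_min (by linarith) (by linarith))
      have hr1 : r ≤ δ / 2 := (min_le_left _ _).trans (min_le_left _ _)
      have hr2 : r ≤ ε := (min_le_left _ _).trans (min_le_right _ _)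
      have hr3 : r ≤ (z i - a) / 2 := (min_le_right _ _).trans (min_le_left _ _)
      have hr4 : r ≤ (b - z i) / 2 := (min_le_right _ _).trans (min_le_right _ _)
      set u := z i - r with hu
      set v := z i + r with hv
      have hsep' : ∀ j ∈ T, j ≠ i → z j < u ∨ v < z j := by
        intro j hjT hji
        have h1 := hsep j hjT hji
        rcases le_or_gt (z j) (z i) with h2 | h2
        · left
          rw [abs_of_nonpos (by linarith)] at h1
          linarith
        · right
          rw [abs_of_pos (by linarith)] at h1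
          linarith
      have e1 : F v - F u = J i := hJ u v (by linarith) (by linarith) (by linarith) (by linarith)
      have hcard1 : (T.filter fun j => a < z j ∧ z j < u).card < m := by
        rw [← hm]
        apply Finset.card_lt_card
        rw [Finset.ssubset_iff_of_subset]
        · refine ⟨i, ?_, ?_⟩
          · rw [Finset.mem_filter]; exact ⟨hiT, hi1, hi2⟩
          · rw [Finset.mem_filter]
            rintro ⟨_, _, h⟩
            linarith
        · intro j hj
          rw [Finset.mem_filter] at hj ⊢
          exact ⟨hj.1, hj.2.1, by linarith [hj.2.2]⟩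
      have hcard2 : (T.filter fun j => v < z j ∧ z j < b).card < m := by
        rw [← hm]
        apply Finset.card_lt_card
        rw [Finset.ssubset_iff_of_subset]
        · refine ⟨i, ?_, ?_⟩
          · rw [Finset.mem_filter]; exact ⟨hiT, hi1, hi2⟩
          · rw [Finset.mem_filter]
            rintro ⟨_, h, _⟩
            linarith
        · intro j hj
          rw [Finset.mem_filter] at hj ⊢
          exact ⟨hj.1, by linarith [hj.2.1], hj.2.2⟩
      have e2 := ih _ hcard1 a u rfl (by linarith) ha (fun j hjT h => by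
          by_cases hji : j = i
          · rw [hji] at h; linarith
          · rcases hsep' j hjT hji with h1 | h1 <;> linarith)
        (fun p q h1 h2 h3 h4 => hreg p q h1 h2 (by linarith) h4)
        (fun j hjT h1 h2 => hj j hjT h1 (by linarith))
      have e3 := ih _ hcard2 v b rfl (by linarith) (fun j hjT h => by
          by_cases hji : j = i
          · rw [hji] at h; linarith
          · rcases hsep' j hjT hji with h1 | h1 <;> linarith) hb
        (fun p q h1 h2 h3 h4 => hreg p q (by linarith) h2 h3 h4)
        (fun j hjT h1 h2 => hj j hjT (by linarith) h2)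
      have hsplit : T.filter (fun j => a < z j ∧ z j < b) =
          insert i (T.filter (fun j => a < z j ∧ z j < u) ∪
            T.filter (fun j => v < z j ∧ z j < b)) := by
        ext j
        simp only [Finset.mem_insert, Finset.mem_union, Finset.mem_filter]
        constructor
        · rintro ⟨h1, h2, h3⟩
          by_cases hji : j = i
          · exact Or.inl hji
          · rcases hsep' j h1 hji with h4 | h4
            · exact Or.inr (Or.inl ⟨h1, h2, h4⟩)
            · exact Or.inr (Or.inr ⟨h1, h4, h3⟩)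
        · rintro (h1 | ⟨h1, h2, h3⟩ | ⟨h1, h2, h3⟩)
          · rw [h1]; exact ⟨hiT, hi1, hi2⟩
          · exact ⟨h1, h2, by linarith⟩
          · exact ⟨h1, by linarith, h3⟩
      rw [hsplit, Finset.sum_insert, Finset.sum_union]
      · rw [← e2, ← e3]
        linarith
      · rw [Finset.disjoint_filter]
        intro j _ h1 h2
        linarith [h1.2, h2.1]
      · rw [Finset.mem_union, Finset.mem_filter, Finset.mem_filter]
        rintro (⟨_, _, h⟩ | ⟨_, h, _⟩) <;> linarith
    · rw [Finset.not_nonempty_iff_eq_empty] at hne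
      rw [hne, Finset.sum_empty]
      have h1 : F a = F b := by
        apply hreg a b le_rfl hab le_rfl
        intro i hi
        by_contra hcon
        push Not at hcon
        have h2 : i ∈ T.filter fun i => a < z i ∧ z i < b := by
          rw [Finset.mem_filter]
          exact ⟨hi, lt_of_le_of_ne hcon.1 (ha i hi).symm, lt_of_le_of_ne hcon.2 (hb i hi)⟩
        rw [hne] at h2
        simp at h2
      rw [h1, sub_self]

section walls

variable {n : ℕ} {N : Matrix (Fin n) (Fin n) ℝ} {lam : Fin n → ℝ} {A : Set (Fin n × Bool)}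

lemma Adm.continuous_spl (h : Adm N lam) : Continuous (spl N lam) := by
  apply continuous_PD h.det_ne h.continuous_cc h.continuous_ss
  intro θ i
  by_cases hc : cc lam θ i = 0
  · exact Or.inr (h.ss_ne θ i hc)
  · exact Or.inl hc

lemma Adm.cs_ne (h : Adm N lam) (θ : ℝ) (i : Fin n) : cc lam θ i ≠ 0 ∨ ss lam θ i ≠ 0 := by
  by_cases hc : cc lam θ i = 0
  · exact Or.inr (h.ss_ne θ i hc)
  · exact Or.inl hc

/-- On a segment without the pole `κ e` the lift is `V_{κ e}` up to a constant. -/
lemma Adm.seg (h : Adm N lam) {a b : ℝ} (hab : a ≤ b) {W : ℝ → ℝ} (hW : Continuous W)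
    (hov : ∀ θ, a ≤ θ → θ ≤ b →
      IsOrientedVolume (crossPolytope n) (antipodes A (spl N lam θ)) (W θ))
    {κ : ℝ} (hκ : κ * κ = 1)
    (hno : ∀ θ, a ≤ θ → θ ≤ b → ∀ i, cc lam θ i = 0 → κ * (ev A (i, true) * ss lam θ i) ≤ 0) :
    W b - W a = volFrom (crossPolytope n) (antipodes A (spl N lam b)) (κ • eL n) -
      volFrom (crossPolytope n) (antipodes A (spl N lam a)) (κ • eL n) := by
  set g : unitInterval → ℝ := fun r => a + (b - a) * r with hg
  have hg1 : ∀ r, a ≤ g r := by
    intro r
    have := mul_nonneg (by linarith : 0 ≤ b - a) r.2.1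
    simp only [hg]; linarith
  have hg2 : ∀ r, g r ≤ b := by
    intro r
    have := mul_le_mul_of_nonneg_left r.2.2 (by linarith : 0 ≤ b - a)
    simp only [hg]; linarith
  have hgc : Continuous g := by simp only [hg]; fun_prop
  have hnot : ∀ r, κ • eL n ∉ image (crossPolytope n) (antipodes A (spl N lam (g r))) := by
    intro r
    exact notMem_PD h.det_ne (h.cs_ne (g r)) hκ (hno (g r) (hg1 r) (hg2 r))
  have hf : Continuous fun r => W (g r) -
      volFrom (crossPolytope n) (antipodes A (spl N lam (g r))) (κ • eL n) := by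
    rw [continuous_iff_continuousAt]
    intro r
    apply ContinuousAt.sub
    · exact (hW.comp hgc).continuousAt
    · exact continuousAt_vol_comp (f := fun r => antipodes A (spl N lam (g r)))
        ((continuous_antipodes A).comp (h.continuous_spl.comp hgc))
        ((h.spl_isPolyhedron _).antipodes A) (smul_eL_onSphere hκ) (hnot r)
  have hint : ∀ r, ∃ j : ℤ, W (g r) -
      volFrom (crossPolytope n) (antipodes A (spl N lam (g r))) (κ • eL n) =
      j * sphereVol n := by
    intro r
    obtain ⟨k, hk⟩ := (hov (g r) (hg1 r) (hg2 r)).2 _ (smul_eL_onSphere hκ) (hnot r)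
    exact ⟨-k, by rw [hk]; push_cast; ring⟩
  have hconst := const_of_mul hf hint 0 1
  have h0 : g 0 = a := by simp [hg]
  have h1 : g 1 = b := by simp [hg]
  rw [h0, h1] at hconst
  linarith

/-- the wall of the index `i` at which the pole `-e` is hit -/
noncomputable def zw (lam : Fin n → ℝ) (A : Set (Fin n × Bool)) (i : Fin n) : ℝ :=
  Real.arccos (- (ev A (i, true) * lam i) / √(1 + lam i ^ 2))

lemma zw_aux (i : Fin n) : -1 ≤ - (ev A (i, true) * lam i) / √(1 + lam i ^ 2) ∧
    - (ev A (i, true) * lam i) / √(1 + lam i ^ 2) ≤ 1 ∧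
    (- (ev A (i, true) * lam i) / √(1 + lam i ^ 2)) ^ 2 = lam i ^ 2 / (1 + lam i ^ 2) := by
  have h1 : 0 < 1 + lam i ^ 2 := by positivity
  have h2 : (- (ev A (i, true) * lam i) / √(1 + lam i ^ 2)) ^ 2 =
      lam i ^ 2 / (1 + lam i ^ 2) := by
    rw [div_pow, Real.sq_sqrt h1.le]
    congr 1
    linear_combination (lam i ^ 2) * ev_sq A (i, true)
  have h3 : (- (ev A (i, true) * lam i) / √(1 + lam i ^ 2)) ^ 2 ≤ 1 := by
    rw [h2, div_le_one h1]; linarith
  rw [sq_le_one_iff_abs_le_one, abs_le] at h3
  exact ⟨h3.1, h3.2, h2⟩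

lemma cos_zw (i : Fin n) : Real.cos (zw lam A i) =
    - (ev A (i, true) * lam i) / √(1 + lam i ^ 2) :=
  Real.cos_arccos (zw_aux i).1 (zw_aux i).2.1

lemma sin_zw (i : Fin n) : Real.sin (zw lam A i) = 1 / √(1 + lam i ^ 2) := by
  unfold zw
  rw [Real.sin_arccos, (zw_aux i).2.2]
  have h1 : 0 < 1 + lam i ^ 2 := by positivity
  rw [show 1 - lam i ^ 2 / (1 + lam i ^ 2) = 1 / (1 + lam i ^ 2) by field_simp; ring]
  rw [Real.sqrt_div zero_le_one, Real.sqrt_one]

lemma sin_zw_pos (i : Fin n) : 0 < Real.sin (zw lam A i) := by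
  rw [sin_zw]
  have h1 : 0 < 1 + lam i ^ 2 := by positivity
  exact div_pos one_pos (Real.sqrt_pos.2 h1)

lemma cos_sin_zw (i : Fin n) : Real.cos (zw lam A i) =
    - (ev A (i, true) * lam i) * Real.sin (zw lam A i) := by
  rw [cos_zw, sin_zw]; ring

lemma zw_mem (i : Fin n) : 0 < zw lam A i ∧ zw lam A i < Real.pi := by
  have h1 := sin_zw_pos (lam := lam) (A := A) i
  have h2 : 0 ≤ zw lam A i := Real.arccos_nonneg _
  have h3 : zw lam A i ≤ Real.pi := Real.arccos_le_pi _
  constructor
  · rcases h2.lt_or_eq with h | h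
    · exact h
    · rw [← h] at h1; simp at h1
  · rcases h3.lt_or_eq with h | h
    · exact h
    · rw [h] at h1; simp at h1

/-- the first factor -/
lemma fac1 (i : Fin n) (θ : ℝ) : (Real.cos θ + ev A (i, true) * lam i * Real.sin θ) *
    Real.sin (zw lam A i) = Real.sin (zw lam A i - θ) := by
  rw [Real.sin_sub]
  have := cos_sin_zw (lam := lam) (A := A) i
  rw [this]; ring

lemma Adm.cc_fac (h : Adm N lam) (i : Fin n) (θ : ℝ) : cc lam θ i =
    (Real.cos θ + ev A (i, true) * lam i * Real.sin θ) *
      (Real.cos θ - ev A (i, true) * lam i * Real.sin θ) /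
      (Real.cos θ ^ 2 + lam i ^ 2 * Real.sin θ ^ 2) := by
  unfold cc
  congr 1
  linear_combination (lam i ^ 2 * Real.sin θ ^ 2) * ev_sq A (i, true)

/-- a zero of `cc` with the pole `-e` is the wall -/
lemma Adm.wall_eq (h : Adm N lam) {i : Fin n} {θ : ℝ} (h0 : 0 ≤ θ) (h1 : θ ≤ Real.pi)
    (hc : cc lam θ i = 0) (hs : ev A (i, true) * ss lam θ i < 0) : θ = zw lam A i := by
  rw [h.cc_fac (A := A), div_eq_zero_iff] at hc
  have h2 := hc.resolve_right (h.D_pos θ i).ne'
  have hsin : 0 ≤ Real.sin θ := Real.sin_nonneg_of_nonneg_of_le_pi h0 h1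
  have hD := h.D_pos θ i
  have hlam := h.pos i
  -- sign of the cosine
  have h3 : ev A (i, true) * (Real.sin θ * Real.cos θ) < 0 := by
    unfold ss at hs
    have h4 : ev A (i, true) * (2 * lam i * Real.sin θ * Real.cos θ /
        (Real.cos θ ^ 2 + lam i ^ 2 * Real.sin θ ^ 2)) =
        (2 * lam i / (Real.cos θ ^ 2 + lam i ^ 2 * Real.sin θ ^ 2)) *
          (ev A (i, true) * (Real.sin θ * Real.cos θ)) := by ring
    rw [h4] at hs
    by_contra hcon
    push Not at hcon
    have : 0 ≤ (2 * lam i / (Real.cos θ ^ 2 + lam i ^ 2 * Real.sin θ ^ 2)) *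
        (ev A (i, true) * (Real.sin θ * Real.cos θ)) := by positivity
    linarith
  have h5 : Real.cos θ + ev A (i, true) * lam i * Real.sin θ = 0 := by
    rcases mul_eq_zero.1 h2 with h6 | h6
    · exact h6
    · exfalso
      have h7 : ev A (i, true) * (Real.sin θ * Real.cos θ) = lam i * Real.sin θ ^ 2 := by
        linear_combination (ev A (i, true) * Real.sin θ) * h6 +
          (lam i * Real.sin θ ^ 2) * ev_sq A (i, true)
      rw [h7] at h3
      have : 0 ≤ lam i * Real.sin θ ^ 2 := by positivity
      linarith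
  have h6 := fac1 (lam := lam) (A := A) i θ
  rw [h5, zero_mul] at h6
  have hz := zw_mem (lam := lam) (A := A) i
  have h7 : zw lam A i - θ = 0 := by
    have h8 := Real.sin_eq_zero_iff_of_lt_of_lt (x := zw lam A i - θ)
    have hθ0 : θ ≠ 0 := by
      intro h9
      rw [h9] at h3
      simp at h3
    have hθ1 : θ ≠ Real.pi := by
      intro h9
      rw [h9] at h3
      simp at h3
    have h10 : 0 < θ := lt_of_le_of_ne h0 hθ0.symm
    have h11 : θ < Real.pi := lt_of_le_of_ne h1 hθ1
    exact (h8 (by linarith [hz.1]) (by linarith [hz.2])).1 h6.symm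
  linarith

lemma Adm.cc_zw (h : Adm N lam) (i : Fin n) : cc lam (zw lam A i) i = 0 := by
  rw [h.cc_fac (A := A)]
  have h1 := fac1 (lam := lam) (A := A) i (zw lam A i)
  rw [sub_self, Real.sin_zero] at h1
  have h2 := (mul_eq_zero.1 h1).resolve_right (sin_zw_pos i).ne'
  rw [h2, zero_mul, zero_div]

lemma Adm.ss_zw (h : Adm N lam) (i : Fin n) : ev A (i, true) * ss lam (zw lam A i) i < 0 := by
  unfold ss
  have hD := h.D_pos (zw lam A i) i
  have hlam := h.pos i
  have hs := sin_zw_pos (lam := lam) (A := A) i
  have h1 : ev A (i, true) * (2 * lam i * Real.sin (zw lam A i) * Real.cos (zw lam A i) /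
      (Real.cos (zw lam A i) ^ 2 + lam i ^ 2 * Real.sin (zw lam A i) ^ 2)) =
      - (2 * lam i ^ 2 * Real.sin (zw lam A i) ^ 2 /
      (Real.cos (zw lam A i) ^ 2 + lam i ^ 2 * Real.sin (zw lam A i) ^ 2)) := by
    rw [← mul_div_assoc, ← neg_div]
    congr 1
    have h2 := cos_sin_zw (lam := lam) (A := A) i
    linear_combination (ev A (i, true) * 2 * lam i * Real.sin (zw lam A i)) * h2 -
      (2 * lam i ^ 2 * Real.sin (zw lam A i) ^ 2) * ev_sq A (i, true)
  rw [h1]
  have : 0 < 2 * lam i ^ 2 * Real.sin (zw lam A i) ^ 2 /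
      (Real.cos (zw lam A i) ^ 2 + lam i ^ 2 * Real.sin (zw lam A i) ^ 2) := by positivity
  linarith

lemma Adm.zw_inj (h : Adm N lam) {i j : Fin n} (hij : zw lam A i = zw lam A j) : i = j := by
  apply h.cc_zero_unique (zw lam A i) i j (h.cc_zw i)
  rw [hij]
  exact h.cc_zw j

end walls

end Pool.Agent.helper69.FlexPoly
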