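import Pool.Agent.helper69.FlexPoly.Cont

set_option autoImplicit false

open MeasureTheory

namespace Pool.Agent.helper69.FlexPoly

/-! ### The cross-polytope -/

/-- The facet of the cross-polytope with signs `s`. -/
def facet {n : ℕ} (s : Fin n → Bool) : Fin n → Fin n × Bool := fun i => (i, s i)

/-- the sign of a Boolean. -/
def sg (b : Bool) : ℤ := if b then -1 else 1

lemma facet_injective {n : ℕ} : Function.Injective (facet (n := n)) := by
  intro s s' h
  funext i
  have := congrFun h i
  simpa [facet] using this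

lemma mem_range_facet {n : ℕ} (s : Fin n → Bool) (k : Fin n) (b : Bool) :
    (k, b) ∈ Set.range (facet s) ↔ s k = b := by
  constructor
  · rintro ⟨i, hi⟩
    simp only [facet, Prod.mk.injEq] at hi
    obtain ⟨rfl, rfl⟩ := hi
    rfl
  · intro h; exact ⟨k, by simp [facet, h]⟩

lemma prod_sg_update {n : ℕ} (s s' : Fin n → Bool) (i : Fin n) (h : ∀ k, k ≠ i → s' k = s k)
    (hi : s' i ≠ s i) : ∏ k, sg (s' k) = - ∏ k, sg (s k) := by
  rw [← Finset.mul_prod_erase _ _ (Finset.mem_univ i), ← Finset.mul_prod_erase _ _ (Finset.mem_univ i)]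
  have h1 : ∏ k ∈ Finset.univ.erase i, sg (s' k) = ∏ k ∈ Finset.univ.erase i, sg (s k) :=
    Finset.prod_congr rfl fun k hk => by rw [h k (Finset.ne_of_mem_erase hk)]
  rw [h1]
  have h2 : sg (s' i) = - sg (s i) := by
    revert hi; generalize s' i = a; generalize s i = b
    revert a b; decide
  rw [h2]; ring

/-- The boundary complex of the `n`-dimensional cross-polytope, as an oriented pseudomanifold. -/
def crossPolytope (n : ℕ) : OrientedPseudomanifold (Fin n × Bool) n where
  facets := Finset.univ.map ⟨facet, facet_injective⟩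
  or := fun F => ∏ i, sg (F i).2
  or_eq := by
    intro F _
    have h : ∀ (S : Finset (Fin n)), (∏ i ∈ S, sg (F i).2 = 1) ∨ (∏ i ∈ S, sg (F i).2 = -1) := by
      intro S
      induction S using Finset.induction_on with
      | empty => left; simp
      | insert a S ha ih =>
          rw [Finset.prod_insert ha]
          rcases ih with h | h <;> rw [h] <;> generalize (F a).2 = b <;> revert b <;> decide
    exact h Finset.univ
  nonempty := by
    rw [Finset.map_nonempty]; exact Finset.univ_nonempty
  inj := by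
    intro F hF
    simp only [Finset.mem_map, Finset.mem_univ, true_and, Function.Embedding.coeFn_mk] at hF
    obtain ⟨s, rfl⟩ := hF
    intro i j h
    simp only [facet, Prod.mk.injEq] at h
    exact h.1
  cover := by
    intro v
    refine ⟨facet (fun _ => v.2), by simp, v.1, rfl⟩
  distinct := by
    intro F hF G hG h
    simp only [Finset.mem_map, Finset.mem_univ, true_and, Function.Embedding.coeFn_mk] at hF hG
    obtain ⟨s, rfl⟩ := hF
    obtain ⟨s', rfl⟩ := hG
    congr 1
    funext k
    have : (k, s k) ∈ Set.range (facet s') := by rw [← h]; exact ⟨k, rfl⟩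
    rw [mem_range_facet] at this
    exact this.symm
  two := by
    intro F hF i
    simp only [Finset.mem_map, Finset.mem_univ, true_and, Function.Embedding.coeFn_mk] at hF
    obtain ⟨s, rfl⟩ := hF
    refine ⟨facet (Function.update s i (!s i)), ⟨by simp, ?_, ?_⟩, ?_⟩
    · intro h
      have := congrFun (facet_injective h) i
      simp at this
    · intro k hk
      change (k, s k) ∈ _
      rw [mem_range_facet, Function.update_of_ne hk]
    · rintro G ⟨hG, hne, hk⟩
      simp only [Finset.mem_map, Finset.mem_univ, true_and, Function.Embedding.coeFn_mk] at hG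
      obtain ⟨s', rfl⟩ := hG
      congr 1
      have h1 : ∀ k, k ≠ i → s' k = s k := fun k hki => by
        have := hk k hki
        change (k, s k) ∈ _ at this
        rwa [mem_range_facet] at this
      funext k
      by_cases hki : k = i
      · subst hki
        rw [Function.update_self]
        have : s' k ≠ s k := by
          intro h
          apply hne
          congr 1
          funext l
          by_cases hl : l = k
          · rw [hl, h]
          · exact h1 l hl
        revert this; generalize s' k = a; generalize s k = b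
        revert a b; decide
      · rw [Function.update_of_ne hki, h1 k hki]
  oriented := by
    intro F hF G hG hne i τ hτ
    simp only [Finset.mem_map, Finset.mem_univ, true_and, Function.Embedding.coeFn_mk] at hF hG
    obtain ⟨s, rfl⟩ := hF
    obtain ⟨s', rfl⟩ := hG
    have h1 : ∀ k, k ≠ i → τ k = k ∧ s' k = s k := by
      intro k hk
      have := hτ k hk
      simp only [facet, Prod.mk.injEq] at this
      refine ⟨this.1, ?_⟩
      rw [← this.2, this.1]
    have hτ1 : τ = 1 := by
      ext k
      by_cases hk : k = i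
      · subst hk
        have : τ k = k := by
          by_contra hne'
          have h2 := (h1 (τ k) hne').1
          exact hne' (τ.injective h2)
        rw [this]; rfl
      · rw [(h1 k hk).1]; rfl
    rw [hτ1, Equiv.Perm.sign_one, Units.val_one, mul_one]
    apply prod_sg_update s s' i (fun k hk => (h1 k hk).2)
    intro h
    apply hne
    congr 1
    funext k
    by_cases hk : k = i
    · rw [hk, h]
    · exact ((h1 k hk).2).symm
  connected := by
    intro F hF G hG
    simp only [Finset.mem_map, Finset.mem_univ, true_and, Function.Embedding.coeFn_mk] at hF hG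
    obtain ⟨s, rfl⟩ := hF
    obtain ⟨s', rfl⟩ := hG
    -- change the coordinates one at a time
    have key : ∀ S : Finset (Fin n), Relation.ReflTransGen
        (fun A B => B ∈ Finset.univ.map ⟨facet, facet_injective⟩ ∧
          ∃ i, ∀ k, k ≠ i → A k ∈ Set.range B)
        (facet s) (facet (fun k => if k ∈ S then s' k else s k)) := by
      intro S
      induction S using Finset.induction_on with
      | empty => simp only [Finset.notMem_empty, if_false]; exact Relation.ReflTransGen.refl
      | insert a S ha ih =>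
          refine ih.tail ⟨by simp, a, ?_⟩
          intro k hk
          change (k, (if k ∈ S then s' k else s k)) ∈ _
          rw [mem_range_facet]
          have : (k ∈ insert a S) ↔ k ∈ S := by simp [hk]
          simp only [this]
    have := key Finset.univ
    simpa using this


/-! ### Cross-polytopes with vertices on the coordinate axes -/

section lune

variable {m : ℕ}

/-- the last but one coordinate -/
abbrev ia (m : ℕ) : Fin (m + 2) := (Fin.last m).castSucc
/-- the last coordinate -/
abbrev ib (m : ℕ) : Fin (m + 2) := Fin.last (m + 1)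

lemma ia_ne_ib : ia m ≠ ib m := by simp [ia, ib, Fin.ext_iff]

/-- the point at angle `φ` in the plane of the last two coordinates. -/
noncomputable def wv (m : ℕ) (φ : ℝ) : Fin (m + 1 + 1) → ℝ :=
  fun j => if j = ia m then Real.cos φ else if j = ib m then Real.sin φ else 0

/-- sign of a Boolean as a real number -/
def rs (b : Bool) : ℝ := if b then -1 else 1

/-- The vertices `(i, b)`, `i < m`, are put to `c i b • e_i`, the vertices `(m, b)` to the points at
angle `φ b` in the plane of the last two coordinates. -/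
noncomputable def cfg (m : ℕ) (c : Fin (m + 1) → Bool → ℝ) (φ : Bool → ℝ)
    (v : Fin (m + 1) × Bool) : Fin (m + 1 + 1) → ℝ :=
  if v.1 = Fin.last m then wv m (φ v.2)
  else fun j => if j = v.1.castSucc then c v.1 v.2 else 0

variable {c : Fin (m + 1) → Bool → ℝ} {φ : Bool → ℝ}

lemma cfg_last (b : Bool) : cfg m c φ (Fin.last m, b) = wv m (φ b) := by simp [cfg]

lemma cfg_castSucc_apply (i : Fin m) (b : Bool) (j : Fin (m + 1 + 1)) :
    cfg m c φ (i.castSucc, b) j = if j = i.castSucc.castSucc then c i.castSucc b else 0 := by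
  have h : i.castSucc ≠ Fin.last m := (Fin.castSucc_lt_last i).ne
  simp only [cfg, if_neg h]

lemma rs_sq (b : Bool) : rs b * rs b = 1 := by cases b <;> simp [rs]

lemma cast_ne_ia (i : Fin m) : i.castSucc.castSucc ≠ ia m := by
  simp only [ia, ne_eq, Fin.ext_iff, Fin.val_castSucc, Fin.val_last]; omega

lemma cast_ne_ib (i : Fin m) : i.castSucc.castSucc ≠ ib m := by
  simp only [ib, ne_eq, Fin.ext_iff, Fin.val_castSucc, Fin.val_last]; omega

lemma dot_wv (φ ψ : ℝ) : wv m φ ⬝ᵥ wv m ψ = Real.cos (φ - ψ) := by
  simp only [dotProduct, wv]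
  rw [Finset.sum_eq_add (ia m) (ib m) ia_ne_ib]
  · simp only [if_true, if_neg ia_ne_ib.symm]
    rw [Real.cos_sub]
  · intro c _ hc
    simp [hc.1, hc.2]
  · simp
  · simp

/-- All vertices are unit vectors, and adjacent vertices of the cross-polytope are orthogonal. -/
def Ortho {n : ℕ} (P : Fin n × Bool → Fin (n + 1) → ℝ) : Prop :=
  (∀ v, OnSphere (P v)) ∧ ∀ u v : Fin n × Bool, u.1 ≠ v.1 → P u ⬝ᵥ P v = 0

lemma ortho_cfg (hc : ∀ i b, c i b * c i b = 1) : Ortho (cfg m c φ) := by
  constructor
  · rintro ⟨i, b⟩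
    unfold OnSphere
    refine Fin.lastCases ?_ (fun i => ?_) i
    · have := dot_wv (m := m) (φ b) (φ b)
      rw [sub_self, Real.cos_zero] at this
      rw [cfg_last, ← this]
      exact Finset.sum_congr rfl fun k _ => sq _
    · rw [Finset.sum_eq_single i.castSucc.castSucc]
      · rw [cfg_castSucc_apply, if_pos rfl, sq, hc]
      · intro k _ hk
        rw [cfg_castSucc_apply, if_neg hk]; simp
      · simp
  · rintro ⟨i, b⟩ ⟨j, b'⟩ hij
    simp only at hij
    revert hij
    refine Fin.lastCases ?_ (fun i => ?_) i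
    · refine Fin.lastCases ?_ (fun j => ?_) j
      · intro h; exact absurd rfl h
      · intro _
        rw [cfg_last]
        simp only [dotProduct, cfg_castSucc_apply, wv]
        apply Finset.sum_eq_zero
        intro k _
        by_cases h1 : k = j.castSucc.castSucc
        · rw [h1]; simp [cast_ne_ia, cast_ne_ib]
        · simp [h1]
    · refine Fin.lastCases ?_ (fun j => ?_) j
      · intro _
        rw [cfg_last]
        simp only [dotProduct, cfg_castSucc_apply, wv]
        apply Finset.sum_eq_zero
        intro k _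
        by_cases h1 : k = i.castSucc.castSucc
        · rw [h1]; simp [cast_ne_ia, cast_ne_ib]
        · simp [h1]
      · intro h
        simp only [dotProduct, cfg_castSucc_apply]
        apply Finset.sum_eq_zero
        intro k _
        by_cases h1 : k = i.castSucc.castSucc
        · have h2 : k ≠ j.castSucc.castSucc := by
            rw [h1]; intro h3; exact h (Fin.castSucc_injective _ h3)
          simp [h2]
        · simp [h1]

lemma mem_facets {n : ℕ} {F : Fin n → Fin n × Bool} (h : F ∈ (crossPolytope n).facets) :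
    ∃ s, F = facet s := by
  simp only [crossPolytope, Finset.mem_map, Finset.mem_univ, true_and,
    Function.Embedding.coeFn_mk] at h
  obtain ⟨s, rfl⟩ := h
  exact ⟨s, rfl⟩

lemma OnSphere.dot_self {n : ℕ} {x : Fin (n + 1) → ℝ} (h : OnSphere x) : x ⬝ᵥ x = 1 := by
  unfold OnSphere at h
  rw [← h]
  simp only [dotProduct]
  exact Finset.sum_congr rfl fun k _ => (sq _).symm

lemma Ortho.dot_facet {n : ℕ} {P : Fin n × Bool → Fin (n + 1) → ℝ} (h : Ortho P)
    (s : Fin n → Bool) (i j : Fin n) :
    P (facet s i) ⬝ᵥ P (facet s j) = if i = j then 1 else 0 := by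
  by_cases hij : i = j
  · rw [if_pos hij, hij]
    exact (h.1 _).dot_self
  · rw [if_neg hij]
    exact h.2 _ _ hij

lemma Ortho.isPolyhedron {n : ℕ} {P : Fin n × Bool → Fin (n + 1) → ℝ} (h : Ortho P) :
    IsPolyhedron (crossPolytope n) P := by
  refine ⟨h.1, ?_⟩
  intro F hF
  obtain ⟨s, rfl⟩ := mem_facets hF
  rw [Fintype.linearIndependent_iff]
  intro g hg i
  have h1 := congrArg (fun v => v ⬝ᵥ P (facet s i)) hg
  simp only [zero_dotProduct, sum_dotProduct, smul_dotProduct, smul_eq_mul, h.dot_facet] at h1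
  simpa using h1

lemma Ortho.mem_Conf {n : ℕ} {P P₀ : Fin n × Bool → Fin (n + 1) → ℝ} (h : Ortho P)
    (h₀ : Ortho P₀) : P ∈ Conf (crossPolytope n) P₀ := by
  refine ⟨h.isPolyhedron, ?_⟩
  intro F hF i j
  obtain ⟨s, rfl⟩ := mem_facets hF
  rw [h.dot_facet, h₀.dot_facet]

/-! ### The determinant -/

/-- auxiliary matrix -/
noncomputable def Rm (m : ℕ) (ε : Fin m → ℝ) (w x : Fin (m + 2) → ℝ) :
    Matrix (Fin (m + 2)) (Fin (m + 2)) ℝ :=
  Matrix.of (fun i j => if h : i.val < m then (if j.val = i.val then ε ⟨i, h⟩ else 0)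
    else if i.val = m then w j else x j)

lemma det_Rm (m : ℕ) (ε : Fin m → ℝ) (w x : Fin (m + 2) → ℝ) :
    (Rm m ε w x).det = (∏ i, ε i) * (w (ia m) * x (ib m) - w (ib m) * x (ia m)) := by
  induction m with
  | zero =>
      rw [Matrix.det_fin_two]
      simp [Rm, ia, ib]
  | succ m ih =>
      rw [Matrix.det_succ_row_zero, Finset.sum_eq_single 0]
      · have h1 : (Rm (m + 1) ε w x).submatrix Fin.succ (Fin.succAbove 0) =
            Rm m (fun i => ε i.succ) (fun j => w j.succ) (fun j => x j.succ) := by
          ext i j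
          simp only [Rm, Matrix.submatrix_apply, Matrix.of_apply, Fin.succAbove_zero, Fin.val_succ,
            Nat.add_lt_add_iff_right, Nat.add_right_cancel_iff]
          rfl
        rw [h1, ih, Fin.prod_univ_succ]
        have h2 : (ia m).succ = ia (m + 1) := by ext; simp [ia]
        have h3 : (ib m).succ = ib (m + 1) := by ext; simp [ib]
        simp only [h2, h3]
        have h4 : Rm (m + 1) ε w x 0 0 = ε 0 := by
          simp [Rm]
        rw [h4]
        simp
        ring
      · intro j _ hj
        have : Rm (m + 1) ε w x 0 j = 0 := by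
          simp only [Rm, Matrix.of_apply]
          rw [dif_pos (by simp), if_neg]
          intro h
          exact hj (Fin.ext h)
        rw [this]; simp
      · simp

/-! ### Plane trigonometry -/

lemma sin_pos_cases {d : ℝ} (_h1 : -(2 * Real.pi) < d) (h2 : d < 2 * Real.pi) (h : 0 < Real.sin d) :
    (0 < d ∧ d < Real.pi) ∨ d < -Real.pi := by
  by_contra hcon
  push Not at hcon
  obtain ⟨h3, h4⟩ := hcon
  rcases le_or_gt d 0 with h5 | h5
  · have := Real.sin_nonpos_of_nonpos_of_neg_pi_le h5 h4
    linarith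
  · have h6 := h3 h5
    have : Real.sin (d - 2 * Real.pi) ≤ 0 :=
      Real.sin_nonpos_of_nonpos_of_neg_pi_le (by linarith) (by linarith)
    rw [Real.sin_sub_two_pi] at this
    linarith

lemma sin_neg_cases {d : ℝ} (h1 : -(2 * Real.pi) < d) (h2 : d < 2 * Real.pi) (h : Real.sin d < 0) :
    (-Real.pi < d ∧ d < 0) ∨ Real.pi < d := by
  have h' : 0 < Real.sin (-d) := by rw [Real.sin_neg]; linarith
  rcases sin_pos_cases (d := -d) (by linarith) (by linarith) h' with h3 | h3
  · left; constructor <;> linarith [h3.1, h3.2]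
  · right; linarith

lemma sin_pos_of {d : ℝ} (h2 : -(2 * Real.pi) < d) (h : (0 < d ∧ d < Real.pi) ∨ d < -Real.pi) :
    0 < Real.sin d := by
  rcases h with ⟨h3, h4⟩ | h3
  · exact Real.sin_pos_of_pos_of_lt_pi h3 h4
  · rw [← Real.sin_add_two_pi]
    exact Real.sin_pos_of_pos_of_lt_pi (by linarith) (by linarith)

lemma sin_neg_of {d : ℝ} (h2 : d < 2 * Real.pi) (h : (-Real.pi < d ∧ d < 0) ∨ Real.pi < d) :
    Real.sin d < 0 := by
  have := sin_pos_of (d := -d) (by linarith) (by
    rcases h with ⟨h3, h4⟩ | h3
    · left; constructor <;> linarith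
    · right; linarith)
  rw [Real.sin_neg] at this
  linarith

open Classical in
/-- signed crossing of the ray at angle `φ` by a segment from angle `β` to angle `α`. -/
noncomputable def cr (φ β α : ℝ) : ℤ :=
  if 0 < Real.sin (α - φ) ∧ 0 < Real.sin (φ - β) ∧ 0 < Real.sin (α - β) then 1
  else if Real.sin (α - φ) < 0 ∧ Real.sin (φ - β) < 0 ∧ Real.sin (α - β) < 0 then -1 else 0

open Classical in
lemma cr_sub {α β δ : ℝ} (hα0 : 0 < α) (hα : α < 2 * Real.pi) (hβ0 : 0 < β)
    (hβ : β < 2 * Real.pi) (hδ0 : 0 ≤ δ) (hδ : δ ≤ 2 * Real.pi) (hβδ : β ≠ δ)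
    (h1 : Real.sin α ≠ 0) (h2 : Real.sin (α - δ) ≠ 0) (h3 : Real.sin (α - β) ≠ 0) :
    cr 0 β α - cr δ β α = (if α < δ then 1 else 0) - (if β < δ then 1 else 0) := by
  have hpi := Real.pi_pos
  have hαδ : α ≠ δ := by rintro rfl; simp at h2
  -- positivity characterisations
  have P0 : (0 < Real.sin (α - 0) ∧ 0 < Real.sin (0 - β) ∧ 0 < Real.sin (α - β)) ↔
      Real.pi < β - α := by
    constructor
    · rintro ⟨a1, a2, a3⟩
      rcases sin_pos_cases (by linarith) (by linarith) a1 with b1 | b1 <;>
      rcases sin_pos_cases (by linarith) (by linarith) a2 with b2 | b2 <;>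
      rcases sin_pos_cases (by linarith) (by linarith) a3 with b3 | b3 <;> linarith [b1, b2, b3]
    · intro h
      refine ⟨sin_pos_of (by linarith) ?_, sin_pos_of (by linarith) ?_,
        sin_pos_of (by linarith) ?_⟩
      · left; constructor <;> linarith
      · right; linarith
      · right; linarith
  have N0 : (Real.sin (α - 0) < 0 ∧ Real.sin (0 - β) < 0 ∧ Real.sin (α - β) < 0) ↔
      Real.pi < α - β := by
    constructor
    · rintro ⟨a1, a2, a3⟩
      rcases sin_neg_cases (by linarith) (by linarith) a1 with b1 | b1 <;>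
      rcases sin_neg_cases (by linarith) (by linarith) a2 with b2 | b2 <;>
      rcases sin_neg_cases (by linarith) (by linarith) a3 with b3 | b3 <;> linarith [b1, b2, b3]
    · intro h
      refine ⟨sin_neg_of (by linarith) ?_, sin_neg_of (by linarith) ?_,
        sin_neg_of (by linarith) ?_⟩
      · right; linarith
      · left; constructor <;> linarith
      · right; linarith
  have Pδ : (0 < Real.sin (α - δ) ∧ 0 < Real.sin (δ - β) ∧ 0 < Real.sin (α - β)) ↔
      (β < δ ∧ δ < α ∧ α - β < Real.pi) ∨ (Real.pi < β - α ∧ (β < δ ∨ δ < α)) := by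
    constructor
    · rintro ⟨a1, a2, a3⟩
      rcases sin_pos_cases (by linarith) (by linarith) a1 with b1 | b1 <;>
      rcases sin_pos_cases (by linarith) (by linarith) a2 with b2 | b2 <;>
      rcases sin_pos_cases (by linarith) (by linarith) a3 with b3 | b3
      · left; refine ⟨by linarith, by linarith, by linarith⟩
      · exfalso; linarith
      · exfalso; linarith
      · right; exact ⟨by linarith, Or.inr (by linarith)⟩
      · exfalso; linarith
      · right; exact ⟨by linarith, Or.inl (by linarith)⟩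
      · exfalso; linarith
      · exfalso; linarith
    · rintro (⟨a1, a2, a3⟩ | ⟨a1, a2 | a2⟩)
      · refine ⟨sin_pos_of (by linarith) ?_, sin_pos_of (by linarith) ?_,
          sin_pos_of (by linarith) ?_⟩
        · left; constructor <;> linarith
        · left; constructor <;> linarith
        · left; constructor <;> linarith
      · refine ⟨sin_pos_of (by linarith) ?_, sin_pos_of (by linarith) ?_,
          sin_pos_of (by linarith) ?_⟩
        · right; linarith
        · left; constructor <;> linarith
        · right; linarith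
      · refine ⟨sin_pos_of (by linarith) ?_, sin_pos_of (by linarith) ?_,
          sin_pos_of (by linarith) ?_⟩
        · left; constructor <;> linarith
        · right; linarith
        · right; linarith
  have Nδ : (Real.sin (α - δ) < 0 ∧ Real.sin (δ - β) < 0 ∧ Real.sin (α - β) < 0) ↔
      (α < δ ∧ δ < β ∧ β - α < Real.pi) ∨ (Real.pi < α - β ∧ (α < δ ∨ δ < β)) := by
    constructor
    · rintro ⟨a1, a2, a3⟩
      rcases sin_neg_cases (by linarith) (by linarith) a1 with b1 | b1 <;>
      rcases sin_neg_cases (by linarith) (by linarith) a2 with b2 | b2 <;>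
      rcases sin_neg_cases (by linarith) (by linarith) a3 with b3 | b3
      · left; refine ⟨by linarith, by linarith, by linarith⟩
      · exfalso; linarith
      · exfalso; linarith
      · right; exact ⟨by linarith, Or.inl (by linarith)⟩
      · exfalso; linarith
      · right; exact ⟨by linarith, Or.inr (by linarith)⟩
      · exfalso; linarith
      · exfalso; linarith
    · rintro (⟨a1, a2, a3⟩ | ⟨a1, a2 | a2⟩)
      · refine ⟨sin_neg_of (by linarith) ?_, sin_neg_of (by linarith) ?_,
          sin_neg_of (by linarith) ?_⟩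
        · left; constructor <;> linarith
        · left; constructor <;> linarith
        · left; constructor <;> linarith
      · refine ⟨sin_neg_of (by linarith) ?_, sin_neg_of (by linarith) ?_,
          sin_neg_of (by linarith) ?_⟩
        · left; constructor <;> linarith
        · right; linarith
        · right; linarith
      · refine ⟨sin_neg_of (by linarith) ?_, sin_neg_of (by linarith) ?_,
          sin_neg_of (by linarith) ?_⟩
        · right; linarith
        · left; constructor <;> linarith
        · right; linarith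
  unfold cr
  simp only [P0, N0, Pδ, Nδ]
  -- `|α - β| ≠ π`
  have h4 : α - β ≠ Real.pi := by intro h; rw [h] at h3; simp at h3
  have h5 : β - α ≠ Real.pi := by
    intro h; apply h3; rw [show α - β = -(β - α) by ring, h]; simp
  rcases lt_or_gt_of_ne hαδ with g1 | g1 <;> rcases lt_or_gt_of_ne hβδ with g2 | g2 <;>
  rcases lt_or_gt_of_ne h4 with g3 | g3 <;> rcases lt_or_gt_of_ne h5 with g4 | g4 <;>
  simp only [g1, g2, g3, g4, if_true, not_lt.2 g1.le, not_lt.2 g2.le, not_lt.2 g3.le,
    not_lt.2 g4.le, if_false, and_false, false_and, or_false, false_or, and_true, true_and,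
    or_true, true_or] <;> first | (exfalso; linarith) | norm_num


/-! ### The index of a lune -/

/-- `cos φ x_b - sin φ x_a` -/
noncomputable def om (m : ℕ) (φ : ℝ) (x : Fin (m + 1 + 1) → ℝ) : ℝ :=
  Real.cos φ * x (ib m) - Real.sin φ * x (ia m)

/-- the vector lies on the ray (times the other coordinates) at angle `φ` -/
def onRay (m : ℕ) (φ : ℝ) (z : Fin (m + 1 + 1) → ℝ) : Prop :=
  ∃ l : ℝ, 0 < l ∧ z (ia m) = l * Real.cos φ ∧ z (ib m) = l * Real.sin φ

/-- the coefficients of a lune: the hinge vertices form antipodal pairs `± a i • e_i`. -/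
def lc (a : Fin (m + 1) → ℝ) : Fin (m + 1) → Bool → ℝ := fun i b => a i * rs b

variable {a : Fin (m + 1) → ℝ}

lemma lc_sq (ha : ∀ i, a i * a i = 1) (i : Fin (m + 1)) (b : Bool) : lc a i b * lc a i b = 1 := by
  unfold lc
  linear_combination (rs b * rs b) * ha i + rs_sq b

lemma sum_facet_apply (s : Fin (m + 1) → Bool) (d : Fin (m + 1) → ℝ)
    (j : Fin (m + 1 + 1)) :
    (∑ i, d i • cfg m c φ (facet s i) : Fin (m + 1 + 1) → ℝ) j =
      (∑ i : Fin m, if j = i.castSucc.castSucc then
        d i.castSucc * c i.castSucc (s i.castSucc) else 0) +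
        d (Fin.last m) * wv m (φ (s (Fin.last m))) j := by
  rw [Fin.sum_univ_castSucc]
  simp only [Pi.add_apply, Pi.smul_apply, Finset.sum_apply, smul_eq_mul]
  congr 1
  · apply Finset.sum_congr rfl
    intro i _
    simp only [facet, cfg_castSucc_apply]
    split_ifs <;> simp
  · simp only [facet, cfg_last]

lemma sum_facet_apply_cast (s : Fin (m + 1) → Bool) (d : Fin (m + 1) → ℝ) (k : Fin m) :
    (∑ i, d i • cfg m c φ (facet s i) : Fin (m + 1 + 1) → ℝ)
      k.castSucc.castSucc = d k.castSucc * c k.castSucc (s k.castSucc) := by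
  rw [sum_facet_apply, Finset.sum_eq_single k]
  · simp [wv, cast_ne_ia, cast_ne_ib]
  · intro i _ hi
    rw [if_neg]
    intro h
    exact hi (Fin.castSucc_injective _ (Fin.castSucc_injective _ h)).symm
  · simp

lemma sum_facet_apply_ia (s : Fin (m + 1) → Bool) (d : Fin (m + 1) → ℝ) :
    (∑ i, d i • cfg m c φ (facet s i) : Fin (m + 1 + 1) → ℝ) (ia m) =
      d (Fin.last m) * Real.cos (φ (s (Fin.last m))) := by
  rw [sum_facet_apply, Finset.sum_eq_zero]
  · simp [wv]
  · intro i _
    rw [if_neg (cast_ne_ia i).symm]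

lemma sum_facet_apply_ib (s : Fin (m + 1) → Bool) (d : Fin (m + 1) → ℝ) :
    (∑ i, d i • cfg m c φ (facet s i) : Fin (m + 1 + 1) → ℝ) (ib m) =
      d (Fin.last m) * Real.sin (φ (s (Fin.last m))) := by
  rw [sum_facet_apply, Finset.sum_eq_zero]
  · simp [wv, ia_ne_ib.symm]
  · intro i _
    rw [if_neg (cast_ne_ib i).symm]

/-- case distinction for the coordinates -/
lemma coord_cases (j : Fin (m + 1 + 1)) :
    (∃ k : Fin m, j = k.castSucc.castSucc) ∨ j = ia m ∨ j = ib m := by
  refine Fin.lastCases (Or.inr (Or.inr rfl)) (fun j => ?_) j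
  refine Fin.lastCases (Or.inr (Or.inl rfl)) (fun k => ?_) j
  exact Or.inl ⟨k, rfl⟩

lemma cone_iff (hc : ∀ i b, c i b * c i b = 1) (s : Fin (m + 1) → Bool)
    (z : Fin (m + 1 + 1) → ℝ) :
    (∃ d : Fin (m + 1) → ℝ, (∀ i, 0 < d i) ∧ z = ∑ i, d i • cfg m c φ (facet s i)) ↔
      (∀ i : Fin m, 0 < c i.castSucc (s i.castSucc) * z i.castSucc.castSucc) ∧
        onRay m (φ (s (Fin.last m))) z := by
  constructor
  · rintro ⟨d, hd, rfl⟩
    refine ⟨fun i => ?_, d (Fin.last m), hd _, ?_, ?_⟩
    · rw [sum_facet_apply_cast, mul_comm, mul_assoc, hc, mul_one]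
      exact hd _
    · rw [sum_facet_apply_ia]
    · rw [sum_facet_apply_ib]
  · rintro ⟨h1, l, hl, ha, hb⟩
    refine ⟨Fin.snoc (α := fun _ => ℝ) (fun i : Fin m => c i.castSucc (s i.castSucc) *
      z i.castSucc.castSucc) l, ?_, ?_⟩
    · intro i
      refine Fin.lastCases ?_ (fun i => ?_) i
      · rw [Fin.snoc_last]; exact hl
      · rw [Fin.snoc_castSucc]; exact h1 i
    · ext j
      rcases coord_cases j with ⟨k, rfl⟩ | rfl | rfl
      · rw [sum_facet_apply_cast, Fin.snoc_castSucc, mul_comm, ← mul_assoc, hc, one_mul]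
      · rw [sum_facet_apply_ia, Fin.snoc_last, ha]
      · rw [sum_facet_apply_ib, Fin.snoc_last, hb]

lemma det_cfg (s : Fin (m + 1) → Bool) (x : Fin (m + 1 + 1) → ℝ) :
    Matrix.det (Matrix.of (Fin.snoc (fun k => cfg m c φ (facet s k)) x :
      Fin (m + 1 + 1) → Fin (m + 1 + 1) → ℝ)) =
      (∏ i : Fin m, c i.castSucc (s i.castSucc)) * om m (φ (s (Fin.last m))) x := by
  have h : (Matrix.of (Fin.snoc (fun k => cfg m c φ (facet s k)) x :
      Fin (m + 1 + 1) → Fin (m + 1 + 1) → ℝ)) =
      Rm m (fun i => c i.castSucc (s i.castSucc)) (fun j => wv m (φ (s (Fin.last m))) j)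
        (fun j => x j) := by
    ext i j
    simp only [Rm, Matrix.of_apply]
    refine Fin.lastCases ?_ (fun i => ?_) i
    · rw [Fin.snoc_last, dif_neg (by simp), if_neg (by simp)]
    · rw [Fin.snoc_castSucc]
      refine Fin.lastCases ?_ (fun i => ?_) i
      · rw [dif_neg (by simp), if_pos (by simp)]
        simp only [facet, cfg_last]
      · rw [dif_pos (by simp)]
        simp only [facet, cfg_castSucc_apply, Fin.ext_iff, Fin.val_castSucc]
  rw [h, det_Rm]
  simp only [wv, if_true, if_neg ia_ne_ib.symm, om]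

lemma sign_rs (b : Bool) : (SignType.sign (rs b) : ℤ) = sg b := by
  cases b <;> simp [rs, sg]

lemma sg_sq (b : Bool) : sg b * sg b = 1 := by cases b <;> simp [sg]

/-- the sign of the lune -/
noncomputable def sA (a : Fin (m + 1) → ℝ) : ℤ := ∏ i : Fin m, (SignType.sign (a i.castSucc) : ℤ)

lemma sA_sq (ha : ∀ i, a i * a i = 1) : sA a * sA a = 1 := by
  unfold sA
  rw [← Finset.prod_mul_distrib]
  apply Finset.prod_eq_one
  intro i _
  have h : a i.castSucc ≠ 0 := by
    intro h
    have := ha i.castSucc
    rw [h] at this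
    norm_num at this
  rcases lt_or_gt_of_ne h with h1 | h1
  · rw [sign_neg h1]; rfl
  · rw [sign_pos h1]; rfl

open Classical in
lemma crossing_lune (ha : ∀ i, a i * a i = 1) (y x : Fin (m + 1 + 1) → ℝ)
    (s : Fin (m + 1) → Bool) :
    crossing (crossPolytope (m + 1)) (cfg m (lc a) φ) y x (facet s) =
      if ∃ t ∈ Set.Ioo (0 : ℝ) 1, (∀ i : Fin m, 0 < a i.castSucc * rs (s i.castSucc) *
          ((1 - t) * y i.castSucc.castSucc + t * x i.castSucc.castSucc)) ∧
          onRay m (φ (s (Fin.last m))) ((1 - t) • y + t • x)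
      then sA a * (sg (s (Fin.last m)) * (SignType.sign (om m (φ (s (Fin.last m))) x) : ℤ))
      else 0 := by
  unfold crossing
  have hor : (crossPolytope (m + 1)).or (facet s) = ∏ i, sg (s i) := rfl
  rw [hor, det_cfg, sign_mul]
  have h1 : (SignType.sign (∏ i : Fin m, lc a i.castSucc (s i.castSucc)) : ℤ) =
      sA a * ∏ i : Fin m, sg (s i.castSucc) := by
    have h2 : ∀ S : Finset (Fin m), (SignType.sign (∏ i ∈ S, lc a i.castSucc (s i.castSucc)) : ℤ) =
        (∏ i ∈ S, (SignType.sign (a i.castSucc) : ℤ)) * ∏ i ∈ S, sg (s i.castSucc) := by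
      intro S
      induction S using Finset.induction_on with
      | empty => simp
      | insert b S hb ih =>
          rw [Finset.prod_insert hb, Finset.prod_insert hb, Finset.prod_insert hb, sign_mul,
            SignType.coe_mul, ih, lc, sign_mul, SignType.coe_mul, sign_rs]
          ring
    exact h2 Finset.univ
  rw [SignType.coe_mul, h1, Fin.prod_univ_castSucc]
  have h3 : (∏ i : Fin m, sg (s i.castSucc)) * (∏ i : Fin m, sg (s i.castSucc)) = 1 := by
    rw [← Finset.prod_mul_distrib]
    exact Finset.prod_eq_one fun i _ => sg_sq _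
  have h4 : ∀ A B C D : ℤ, A * A = 1 → (A * B) * ((D * A) * C) = D * (B * C) := by
    intro A B C D h; linear_combination (B * C * D) * h
  rw [h4 _ _ _ _ h3]
  have hiff : Crosses (cfg m (lc a) φ) y x (facet s) ↔
      (∃ t ∈ Set.Ioo (0 : ℝ) 1, (∀ i : Fin m, 0 < a i.castSucc * rs (s i.castSucc) *
          ((1 - t) * y i.castSucc.castSucc + t * x i.castSucc.castSucc)) ∧
          onRay m (φ (s (Fin.last m))) ((1 - t) • y + t • x)) := by
    refine exists_congr fun t => and_congr_right fun _ => ?_
    rw [cone_iff (lc_sq ha)]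
    simp only [Pi.add_apply, Pi.smul_apply, smul_eq_mul, lc]
  by_cases hc : (∃ t ∈ Set.Ioo (0 : ℝ) 1, (∀ i : Fin m, 0 < a i.castSucc * rs (s i.castSucc) *
          ((1 - t) * y i.castSucc.castSucc + t * x i.castSucc.castSucc)) ∧
          onRay m (φ (s (Fin.last m))) ((1 - t) • y + t • x))
  · rw [if_pos hc, if_pos (hiff.2 hc)]
  · rw [if_neg hc, if_neg (fun h => hc (hiff.1 h))]

lemma om_onRay {φ : ℝ} {z : Fin (m + 1 + 1) → ℝ} (h : onRay m φ z) :
    om m φ z = 0 := by
  obtain ⟨l, _, ha, hb⟩ := h
  unfold om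
  rw [ha, hb]; ring

lemma om_comb (φ t : ℝ) (y x : Fin (m + 1 + 1) → ℝ) :
    om m φ ((1 - t) • y + t • x) = (1 - t) * om m φ y + t * om m φ x := by
  unfold om
  simp only [Pi.add_apply, Pi.smul_apply, smul_eq_mul]
  ring

/-- the arc from `y` to `x` hits the half plane at angle `φ` -/
def hit (m : ℕ) (φ : ℝ) (y x : Fin (m + 1 + 1) → ℝ) : Prop :=
  ∃ t ∈ Set.Ioo (0 : ℝ) 1, onRay m φ ((1 - t) • y + t • x)

open Classical in
lemma sum_fiber (ha : ∀ i, a i * a i = 1) (y x : Fin (m + 1 + 1) → ℝ)
    (b : Bool) (h1 : om m (φ b) x ≠ 0)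
    (h2 : om m (φ b) y ≠ 0 → ∀ i : Fin m, om m (φ b) y * x i.castSucc.castSucc -
      y i.castSucc.castSucc * om m (φ b) x ≠ 0) :
    ∑ s : Fin (m + 1) → Bool with s (Fin.last m) = b,
      crossing (crossPolytope (m + 1)) (cfg m (lc a) φ) y x (facet s) =
      if hit m (φ b) y x then sA a * (sg b * (SignType.sign (om m (φ b) x) : ℤ)) else 0 := by
  -- the parameter is unique
  have huniq : ∀ t t' : ℝ, onRay m (φ b) ((1 - t) • y + t • x) →
      onRay m (φ b) ((1 - t') • y + t' • x) → t = t' := by
    intro t t' h h'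
    have e := om_onRay h
    have e' := om_onRay h'
    rw [om_comb] at e e'
    by_contra hne
    have h5 : (t - t') * (om m (φ b) x - om m (φ b) y) = 0 := by linear_combination e - e'
    rcases mul_eq_zero.1 h5 with h6 | h6
    · exact hne (sub_eq_zero.1 h6)
    · rw [sub_eq_zero] at h6
      rw [← h6] at e
      apply h1
      linarith
  have ha0 : ∀ i, a i ≠ 0 := by
    intro i h
    have := ha i
    rw [h] at this
    norm_num at this
  by_cases hh : hit m (φ b) y x
  · rw [if_pos hh]
    obtain ⟨t, ht, hray⟩ := hh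
    -- the coordinates do not vanish
    have hom := om_onRay hray
    rw [om_comb] at hom
    have hy : om m (φ b) y ≠ 0 := by
      intro h0
      rw [h0, mul_zero, zero_add] at hom
      rcases mul_eq_zero.1 hom with h | h
      · exact ht.1.ne' h
      · exact h1 h
    have hz : ∀ i : Fin m, a i.castSucc *
        ((1 - t) * y i.castSucc.castSucc + t * x i.castSucc.castSucc) ≠ 0 := by
      intro i h0
      replace h0 := (mul_eq_zero.1 h0).resolve_left (ha0 _)
      apply h2 hy i
      have h7 : t * (om m (φ b) y * x i.castSucc.castSucc -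
        y i.castSucc.castSucc * om m (φ b) x) = 0 := by
        linear_combination (om m (φ b) y) * h0 - (y i.castSucc.castSucc) * hom
      rcases mul_eq_zero.1 h7 with h | h
      · exact absurd h ht.1.ne'
      · exact h
    set s₀ : Fin (m + 1) → Bool := Fin.snoc (α := fun _ => Bool)
      (fun i : Fin m => decide (a i.castSucc * ((1 - t) * y i.castSucc.castSucc +
        t * x i.castSucc.castSucc) < 0)) b with hs₀
    have hs₀l : s₀ (Fin.last m) = b := by rw [hs₀, Fin.snoc_last]
    have hs₀c : ∀ i : Fin m, s₀ i.castSucc = decide (a i.castSucc *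
        ((1 - t) * y i.castSucc.castSucc + t * x i.castSucc.castSucc) < 0) :=
      fun i => by rw [hs₀, Fin.snoc_castSucc]
    rw [Finset.sum_eq_single s₀]
    · rw [crossing_lune ha, if_pos, hs₀l]
      refine ⟨t, ht, fun i => ?_, ?_⟩
      · rw [hs₀c]
        rcases lt_or_gt_of_ne (hz i) with h | h
        · simp only [h, decide_true, rs, if_true]; linarith
        · simp only [not_lt.2 h.le, decide_false, rs, Bool.false_eq_true, if_false]; linarith
      · rw [hs₀l]; exact hray
    · intro s hs hne
      rw [Finset.mem_filter] at hs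
      rw [crossing_lune ha, if_neg]
      rintro ⟨t', ht', h5, h6⟩
      rw [hs.2] at h6
      have := huniq _ _ h6 hray
      subst this
      apply hne
      funext i
      refine Fin.lastCases ?_ (fun i => ?_) i
      · rw [hs.2, hs₀l]
      · rw [hs₀c]
        have h7 := h5 i
        revert h7
        cases s i.castSucc with
        | false =>
            intro h7
            simp only [rs, Bool.false_eq_true, if_false, mul_one] at h7
            simp [not_lt.2 h7.le]
        | true =>
            intro h7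
            simp only [rs, if_true] at h7
            have : a i.castSucc * ((1 - t') * y i.castSucc.castSucc +
                t' * x i.castSucc.castSucc) < 0 := by
              linarith
            simp [this]
    · intro h
      exact (h (by rw [Finset.mem_filter]; exact ⟨Finset.mem_univ _, hs₀l⟩)).elim
  · rw [if_neg hh]
    apply Finset.sum_eq_zero
    intro s hs
    rw [Finset.mem_filter] at hs
    rw [crossing_lune ha, if_neg]
    rintro ⟨t', ht', _, h6⟩
    rw [hs.2] at h6
    exact hh ⟨t', ht', h6⟩

open Classical in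
lemma ind_lune (ha : ∀ i, a i * a i = 1) (y x : Fin (m + 1 + 1) → ℝ)
    (h1 : ∀ b, om m (φ b) x ≠ 0)
    (h2 : ∀ b, om m (φ b) y ≠ 0 → ∀ i : Fin m,
      om m (φ b) y * x i.castSucc.castSucc -
      y i.castSucc.castSucc * om m (φ b) x ≠ 0) :
    ind (crossPolytope (m + 1)) (cfg m (lc a) φ) y x = sA a *
      ((if hit m (φ false) y x then (SignType.sign (om m (φ false) x) : ℤ) else 0) -
      (if hit m (φ true) y x then (SignType.sign (om m (φ true) x) : ℤ) else 0)) := by
  unfold ind
  have : ∑ F ∈ (crossPolytope (m + 1)).facets,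
      crossing (crossPolytope (m + 1)) (cfg m (lc a) φ) y x F =
      ∑ s : Fin (m + 1) → Bool,
        crossing (crossPolytope (m + 1)) (cfg m (lc a) φ) y x (facet s) := by
    simp only [crossPolytope, Finset.sum_map, Function.Embedding.coeFn_mk]
  rw [this, ← Finset.sum_fiberwise (s := Finset.univ) (g := fun s : Fin (m + 1) → Bool =>
    s (Fin.last m)), Fintype.sum_bool]
  rw [sum_fiber ha y x true (h1 true) (h2 true), sum_fiber ha y x false (h1 false) (h2 false)]
  simp only [if_true, Bool.false_eq_true, if_false, sg]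
  split_ifs <;> ring

/-! ### Polar coordinates in the last two variables -/

/-- the angle in `(0, 2π]` of the last two coordinates -/
noncomputable def theta (m : ℕ) (x : Fin (m + 1 + 1) → ℝ) : ℝ :=
  Complex.arg (-(⟨x (ia m), x (ib m)⟩ : ℂ)) + Real.pi

lemma theta_pos (x : Fin (m + 1 + 1) → ℝ) : 0 < theta m x := by
  have := Complex.neg_pi_lt_arg (-(⟨x (ia m), x (ib m)⟩ : ℂ))
  unfold theta; linarith

lemma theta_le (x : Fin (m + 1 + 1) → ℝ) : theta m x ≤ 2 * Real.pi := by
  have := Complex.arg_le_pi (-(⟨x (ia m), x (ib m)⟩ : ℂ))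
  unfold theta; linarith

/-- the radius -/
noncomputable def rad (m : ℕ) (x : Fin (m + 1 + 1) → ℝ) : ℝ :=
  ‖(⟨x (ia m), x (ib m)⟩ : ℂ)‖

lemma rad_nonneg (x : Fin (m + 1 + 1) → ℝ) : 0 ≤ rad m x := norm_nonneg _

lemma ia_eq (x : Fin (m + 1 + 1) → ℝ) :
    x (ia m) = rad m x * Real.cos (theta m x) := by
  have h := Complex.norm_mul_cos_arg (-(⟨x (ia m), x (ib m)⟩ : ℂ))
  rw [norm_neg] at h
  unfold theta rad
  rw [Real.cos_add_pi, mul_neg, h]
  simp

lemma ib_eq (x : Fin (m + 1 + 1) → ℝ) :
    x (ib m) = rad m x * Real.sin (theta m x) := by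
  have h := Complex.norm_mul_sin_arg (-(⟨x (ia m), x (ib m)⟩ : ℂ))
  rw [norm_neg] at h
  unfold theta rad
  rw [Real.sin_add_pi, mul_neg, h]
  simp

lemma om_eq (φ : ℝ) (x : Fin (m + 1 + 1) → ℝ) :
    om m φ x = rad m x * Real.sin (theta m x - φ) := by
  unfold om
  rw [ib_eq x, ia_eq x, Real.sin_sub]
  ring

lemma hit_iff (φ : ℝ) (y x : Fin (m + 1 + 1) → ℝ) (hx : 0 < rad m x)
    (hy : 0 < rad m y) (hs : Real.sin (theta m x - theta m y) ≠ 0) :
    hit m φ y x ↔
      (0 < Real.sin (theta m x - φ) ∧ 0 < Real.sin (φ - theta m y) ∧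
        0 < Real.sin (theta m x - theta m y)) ∨
      (Real.sin (theta m x - φ) < 0 ∧ Real.sin (φ - theta m y) < 0 ∧
        Real.sin (theta m x - theta m y) < 0) := by
  set α := theta m x with hα
  set β := theta m y with hβ
  set r := rad m x with hr
  set ρ := rad m y with hρ
  have hxa := ia_eq x
  have hxb := ib_eq x
  have hya := ia_eq y
  have hyb := ib_eq y
  rw [← hα, ← hr] at hxa hxb
  rw [← hβ, ← hρ] at hya hyb
  constructor
  · rintro ⟨t, ⟨ht0, ht1⟩, l, hl, ha, hb⟩
    simp only [Pi.add_apply, Pi.smul_apply, smul_eq_mul] at ha hb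
    rw [hxa, hya] at ha
    rw [hxb, hyb] at hb
    have e1 : (t * r) * Real.sin (α - β) = l * Real.sin (φ - β) := by
      rw [Real.sin_sub, Real.sin_sub]
      linear_combination (Real.cos β) * hb - (Real.sin β) * ha
    have e2 : ((1 - t) * ρ) * Real.sin (α - β) = l * Real.sin (α - φ) := by
      rw [Real.sin_sub, Real.sin_sub]
      linear_combination (Real.sin α) * ha - (Real.cos α) * hb
    have p1 : 0 < t * r := mul_pos ht0 hx
    have p2 : 0 < (1 - t) * ρ := mul_pos (by linarith) hy
    rcases lt_or_gt_of_ne hs with h | h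
    · right
      refine ⟨?_, ?_, h⟩
      · have : l * Real.sin (α - φ) < 0 := by rw [← e2]; exact mul_neg_of_pos_of_neg p2 h
        by_contra hc
        push Not at hc
        linarith [mul_nonneg hl.le hc]
      · have : l * Real.sin (φ - β) < 0 := by rw [← e1]; exact mul_neg_of_pos_of_neg p1 h
        by_contra hc
        push Not at hc
        linarith [mul_nonneg hl.le hc]
    · left
      refine ⟨?_, ?_, h⟩
      · have : 0 < l * Real.sin (α - φ) := by rw [← e2]; exact mul_pos p2 h
        exact pos_of_mul_pos_right this hl.le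
      · have : 0 < l * Real.sin (φ - β) := by rw [← e1]; exact mul_pos p1 h
        exact pos_of_mul_pos_right this hl.le
  · intro h
    have hp : 0 < Real.sin (φ - β) / (r * Real.sin (α - β)) := by
      rcases h with ⟨_, h2, h3⟩ | ⟨_, h2, h3⟩
      · exact div_pos h2 (mul_pos hx h3)
      · exact div_pos_of_neg_of_neg h2 (mul_neg_of_pos_of_neg hx h3)
    have hq : 0 < Real.sin (α - φ) / (ρ * Real.sin (α - β)) := by
      rcases h with ⟨h1, _, h3⟩ | ⟨h1, _, h3⟩
      · exact div_pos h1 (mul_pos hy h3)
      · exact div_pos_of_neg_of_neg h1 (mul_neg_of_pos_of_neg hy h3)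
    set p := Real.sin (φ - β) / (r * Real.sin (α - β)) with hpdef
    set q := Real.sin (α - φ) / (ρ * Real.sin (α - β)) with hqdef
    have hpq : 0 < p + q := add_pos hp hq
    have ep : p * r * Real.sin (α - β) = Real.sin (φ - β) := by
      rw [hpdef]; field_simp
    have eq' : q * ρ * Real.sin (α - β) = Real.sin (α - φ) := by
      rw [hqdef]; field_simp
    -- the two coordinate identities
    have i1 : q * ρ * Real.cos β + p * r * Real.cos α = Real.cos φ := by
      apply mul_right_cancel₀ hs
      have : Real.sin (α - φ) * Real.cos β + Real.sin (φ - β) * Real.cos α =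
          Real.cos φ * Real.sin (α - β) := by
        rw [Real.sin_sub, Real.sin_sub, Real.sin_sub]; ring
      rw [← this, ← ep, ← eq']; ring
    have i2 : q * ρ * Real.sin β + p * r * Real.sin α = Real.sin φ := by
      apply mul_right_cancel₀ hs
      have : Real.sin (α - φ) * Real.sin β + Real.sin (φ - β) * Real.sin α =
          Real.sin φ * Real.sin (α - β) := by
        rw [Real.sin_sub, Real.sin_sub, Real.sin_sub]; ring
      rw [← this, ← ep, ← eq']; ring
    refine ⟨p / (p + q), ⟨div_pos hp hpq, (div_lt_one hpq).2 (by linarith)⟩, 1 / (p + q),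
      one_div_pos.2 hpq, ?_, ?_⟩
    · simp only [Pi.add_apply, Pi.smul_apply, smul_eq_mul]
      rw [hxa, hya, ← i1]
      field_simp
      ring
    · simp only [Pi.add_apply, Pi.smul_apply, smul_eq_mul]
      rw [hxb, hyb, ← i2]
      field_simp
      ring

open Classical in
lemma hit_sign (φ : ℝ) (y x : Fin (m + 1 + 1) → ℝ) (hx : 0 < rad m x)
    (hy : 0 < rad m y) (hs : Real.sin (theta m x - theta m y) ≠ 0) :
    (if hit m φ y x then (SignType.sign (om m φ x) : ℤ) else 0) =
      cr φ (theta m y) (theta m x) := by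
  unfold cr
  rw [om_eq]
  by_cases h : hit m φ y x
  · rw [if_pos h]
    rw [hit_iff φ y x hx hy hs] at h
    rcases h with h | h
    · rw [if_pos h, sign_pos (mul_pos hx h.1)]; rfl
    · have h' : ¬ (0 < Real.sin (theta m x - φ) ∧ 0 < Real.sin (φ - theta m y) ∧
          0 < Real.sin (theta m x - theta m y)) := fun h' => by linarith [h.1, h'.1]
      rw [if_neg h', if_pos h, sign_neg (mul_neg_of_pos_of_neg hx h.1)]; rfl
  · rw [if_neg h]
    rw [hit_iff φ y x hx hy hs] at h
    push Not at h
    rw [if_neg (fun h' => absurd h'.2.2 (not_lt.2 (h.1 h'.1 h'.2.1))),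
      if_neg (fun h' => absurd h'.2.2 (not_lt.2 (h.2 h'.1 h'.2.1)))]

lemma om_zero (x : Fin (m + 1 + 1) → ℝ) : om m 0 x = x (ib m) := by
  simp [om]

open Classical in
/-- the index of the point with respect to the rotating polyhedron -/
noncomputable def lev (m : ℕ) (δ : ℝ) (x : Fin (m + 1 + 1) → ℝ) : ℤ :=
  if theta m x < δ then 1 else 0

lemma image_subset {y : Fin (m + 1 + 1) → ℝ}
    (h : y ∈ image (crossPolytope (m + 1)) (cfg m c φ)) :
    ∃ b, om m (φ b) y = 0 := by
  obtain ⟨_, F, hF, d, _, hy⟩ := h
  obtain ⟨s, rfl⟩ := mem_facets hF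
  refine ⟨s (Fin.last m), ?_⟩
  unfold om
  rw [hy, sum_facet_apply_ia, sum_facet_apply_ib]
  ring

/-- the index formula for generic `x` and `y` -/
lemma ind_eq_lev (ha : ∀ i, a i * a i = 1) (hφ : ∀ b, 0 ≤ φ b ∧ φ b ≤ 2 * Real.pi)
    (y x : Fin (m + 1 + 1) → ℝ) (hy0 : om m 0 y ≠ 0) (hy : ∀ b, om m (φ b) y ≠ 0)
    (hx0 : om m 0 x ≠ 0) (hx : ∀ b, om m (φ b) x ≠ 0)
    (h2 : ∀ b, ∀ i : Fin m,
      om m (φ b) y * x i.castSucc.castSucc -
      y i.castSucc.castSucc * om m (φ b) x ≠ 0)
    (h3 : y (ia m) * x (ib m) - y (ib m) * x (ia m) ≠ 0) :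
    ind (crossPolytope (m + 1)) (cfg m (lc a) φ) y x = sA a *
      ((lev m (φ true) x - lev m (φ true) y) - (lev m (φ false) x - lev m (φ false) y)) := by
  classical
  have hrad : ∀ z : Fin (m + 1 + 1) → ℝ, om m 0 z ≠ 0 → 0 < rad m z := by
    intro z hz
    refine lt_of_le_of_ne (rad_nonneg _) fun h => hz ?_
    rw [om_eq, ← h, zero_mul]
  have hlt : ∀ z : Fin (m + 1 + 1) → ℝ, om m 0 z ≠ 0 → theta m z < 2 * Real.pi := by
    intro z hz
    refine lt_of_le_of_ne (theta_le z) fun h => hz ?_
    rw [om_eq, h, sub_zero, Real.sin_two_pi, mul_zero]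
  have hne : ∀ (ψ : ℝ) (z : Fin (m + 1 + 1) → ℝ), om m ψ z ≠ 0 →
      Real.sin (theta m z - ψ) ≠ 0 := by
    intro ψ z hz h
    apply hz
    rw [om_eq, h, mul_zero]
  have hs : Real.sin (theta m x - theta m y) ≠ 0 := by
    intro h
    apply h3
    rw [ia_eq y, ib_eq y, ia_eq x, ib_eq x]
    rw [Real.sin_sub] at h
    linear_combination (rad m x * rad m y) * h
  have key : ∀ b, cr 0 (theta m y) (theta m x) - cr (φ b) (theta m y) (theta m x) =
      lev m (φ b) x - lev m (φ b) y := by
    intro b
    have h4 : theta m y ≠ φ b := by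
      intro h
      apply hne _ y (hy b)
      rw [h, sub_self, Real.sin_zero]
    have h5 := hne 0 x hx0
    rw [sub_zero] at h5
    rw [cr_sub (theta_pos _) (hlt x hx0) (theta_pos _) (hlt y hy0) (hφ b).1 (hφ b).2 h4
      h5 (hne _ x (hx b)) hs]
    unfold lev
    congr
  rw [ind_lune ha y x hx (fun b _ => h2 b), hit_sign (φ false) y x (hrad x hx0) (hrad y hy0) hs,
    hit_sign (φ true) y x (hrad x hx0) (hrad y hy0) hs, ← key true, ← key false]
  ring

/-! ### Integration -/

lemma ae_two {n : ℕ} {i j : Fin (n + 1)} (hij : i ≠ j) (p q : ℝ) (h : p ≠ 0 ∨ q ≠ 0) :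
    ∀ᵐ x ∂(surf (n + 1)), p * x i + q * x j ≠ 0 := by
  have hf : p • LinearMap.proj (R := ℝ) (φ := fun _ : Fin (n + 1) => ℝ) i +
      q • LinearMap.proj (R := ℝ) (φ := fun _ : Fin (n + 1) => ℝ) j ≠ 0 := by
    intro h0
    rcases h with h | h
    · apply h
      have := congrArg (fun g : (Fin (n + 1) → ℝ) →ₗ[ℝ] ℝ => g (Pi.single i 1)) h0
      simpa [hij.symm] using this
    · apply h
      have := congrArg (fun g : (Fin (n + 1) → ℝ) →ₗ[ℝ] ℝ => g (Pi.single j 1)) h0
      simpa [hij] using this
  filter_upwards [ae_functional _ hf] with x hx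
  simpa using hx

lemma cos_or_sin (φ : ℝ) : -Real.sin φ ≠ 0 ∨ Real.cos φ ≠ 0 := by
  by_contra h
  push Not at h
  have := Real.sin_sq_add_cos_sq φ
  rw [h.2, neg_eq_zero.1 h.1] at this
  norm_num at this

lemma ae_om (φ : ℝ) : ∀ᵐ x ∂(surf (m + 1 + 1)), om m φ x ≠ 0 := by
  filter_upwards [ae_two (n := m + 1) ia_ne_ib (-Real.sin φ) (Real.cos φ) (cos_or_sin φ)] with x hx
  intro h
  apply hx
  unfold om at h
  linarith

lemma ae_three (φ e d : ℝ) (hd : d ≠ 0) (i : Fin m) :
    ∀ᵐ x ∂(surf (m + 1 + 1)), d * x i.castSucc.castSucc - e * om m φ x ≠ 0 := by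
  have hf : d • LinearMap.proj (R := ℝ) (φ := fun _ : Fin (m + 1 + 1) => ℝ) i.castSucc.castSucc -
      e • (Real.cos φ • LinearMap.proj (R := ℝ) (φ := fun _ : Fin (m + 1 + 1) => ℝ) (ib m) -
        Real.sin φ • LinearMap.proj (R := ℝ) (φ := fun _ : Fin (m + 1 + 1) => ℝ) (ia m)) ≠ 0 := by
    intro h0
    apply hd
    have := congrArg (fun g : (Fin (m + 1 + 1) → ℝ) →ₗ[ℝ] ℝ =>
      g (Pi.single i.castSucc.castSucc 1)) h0
    simpa [(cast_ne_ia i).symm, (cast_ne_ib i).symm] using this
  filter_upwards [ae_functional _ hf] with x hx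
  unfold om
  simpa using hx

lemma measurable_theta : Measurable
    (fun x : (Fin (m + 1 + 1) → ℝ) => theta m x) := by
  have h1 : Continuous (fun x : (Fin (m + 1 + 1) → ℝ) =>
      -(⟨x (ia m), x (ib m)⟩ : ℂ)) := by
    have : (fun x : (Fin (m + 1 + 1) → ℝ) =>
      -(⟨x (ia m), x (ib m)⟩ : ℂ)) =
      fun x => -((x (ia m) : ℂ) + (x (ib m) : ℂ) * Complex.I) := by
      funext x
      congr 1
      apply Complex.ext <;> simp
    rw [this]
    have c1 : ∀ j, Continuous (fun x : (Fin (m + 1 + 1) → ℝ) =>
      x j) := fun j => by fun_prop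
    have c2 := c1 (ia m)
    have c3 := c1 (ib m)
    fun_prop
  exact (Complex.measurable_arg.comp h1.measurable).add_const _

lemma measurable_lev (δ : ℝ) : Measurable
    (fun x : (Fin (m + 1 + 1) → ℝ) => (lev m δ x : ℝ)) := by
  classical
  have : (fun x : (Fin (m + 1 + 1) → ℝ) =>
      (lev m δ x : ℝ)) = fun x => if theta m x < δ then 1 else 0 := by
    funext x
    unfold lev
    split_ifs <;> simp
  rw [this]
  exact Measurable.ite (measurableSet_lt measurable_theta measurable_const) measurable_const
    measurable_const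

lemma norm_lev_le (δ : ℝ) (x : Fin (m + 1 + 1) → ℝ) :
    ‖(lev m δ x : ℝ)‖ ≤ 1 := by
  unfold lev
  split_ifs <;> simp

lemma integrable_lev (δ : ℝ) : Integrable
    (fun x : (Fin (m + 1 + 1) → ℝ) => (lev m δ x : ℝ))
    (surf (m + 1 + 1)) :=
  Integrable.of_bound (measurable_lev δ).aestronglyMeasurable 1
    (ae_of_all _ fun x => norm_lev_le δ x)

/-- the volume function of the rotating polyhedron -/
noncomputable def Wf (m : ℕ) (δ : ℝ) : ℝ := ∫ x, (lev m δ x : ℝ) ∂(surf (m + 1 + 1))

lemma ae_theta_ne (δ : ℝ) : ∀ᵐ x ∂(surf (m + 1 + 1)), theta m x ≠ δ := by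
  filter_upwards [ae_om (m := m) δ] with x hx
  intro h
  apply hx
  rw [om_eq, h]
  simp

lemma continuous_Wf : Continuous (Wf m) := by
  rw [continuous_iff_continuousAt]
  intro δ
  unfold Wf
  apply continuousAt_of_dominated (bound := fun _ => (1 : ℝ))
  · exact Filter.Eventually.of_forall fun δ' => (measurable_lev δ').aestronglyMeasurable
  · exact Filter.Eventually.of_forall fun δ' => ae_of_all _ fun x => norm_lev_le δ' x
  · exact integrable_const _
  · filter_upwards [ae_theta_ne (m := m) δ] with x hx
    rcases lt_or_gt_of_ne hx with h | h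
    · have : (fun δ' => (lev m δ' x : ℝ)) =ᶠ[nhds δ] fun _ => 1 := by
        filter_upwards [lt_mem_nhds h] with δ' h'
        simp [lev, h']
      exact continuousAt_const.congr this.symm
    · have : (fun δ' => (lev m δ' x : ℝ)) =ᶠ[nhds δ] fun _ => 0 := by
        filter_upwards [gt_mem_nhds h] with δ' h'
        simp [lev, not_lt.2 h'.le]
      exact continuousAt_const.congr this.symm

lemma Wf_zero : Wf m 0 = 0 := by
  unfold Wf
  have : ∀ x : (Fin (m + 1 + 1) → ℝ),
      (lev m 0 x : ℝ) = 0 := by
    intro x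
    simp [lev, not_lt.2 (theta_pos x).le]
  simp only [this]
  simp

lemma Wf_two_pi : Wf m (2 * Real.pi) = sphereVol (m + 1) := by
  unfold Wf
  have : (fun x : (Fin (m + 1 + 1) → ℝ) =>
      (lev m (2 * Real.pi) x : ℝ)) =ᵐ[surf (m + 1 + 1)] fun _ => 1 := by
    filter_upwards [ae_theta_ne (m := m) (2 * Real.pi)] with x hx
    simp [lev, lt_of_le_of_ne (theta_le x) hx]
  rw [integral_congr_ae this, integral_const, smul_eq_mul, mul_one, sphereVol]

/-- the oriented volume of a lune -/
lemma isOV_lune (ha : ∀ i, a i * a i = 1) (hφ : ∀ b, 0 ≤ φ b ∧ φ b ≤ 2 * Real.pi) :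
    IsOrientedVolume (crossPolytope (m + 1)) (cfg m (lc a) φ)
      ((sA a : ℝ) * (Wf m (φ true) - Wf m (φ false))) := by
  have e1 : ∀ᵐ x ∂(surf (m + 1 + 1)), ∀ b, om m (φ b) x ≠ 0 := by
    rw [ae_all_iff]
    intro b
    exact ae_om _
  obtain ⟨y, hsp, hy0, hy⟩ := ((ae_onSphere (n := m + 1)).and ((ae_om (m := m) 0).and e1)).exists
  have hyim : y ∉ image (crossPolytope (m + 1)) (cfg m (lc a) φ) := by
    intro h
    obtain ⟨b, hb⟩ := image_subset h
    exact hy b hb
  apply isOrientedVolume_of_one (ortho_cfg (lc_sq ha)).isPolyhedron hsp hyim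
  have e2 : ∀ᵐ x ∂(surf (m + 1 + 1)), ∀ b, ∀ i : Fin m,
      om m (φ b) y * x i.castSucc.castSucc -
      y i.castSucc.castSucc * om m (φ b) x ≠ 0 := by
    rw [ae_all_iff]
    intro b
    rw [ae_all_iff]
    intro i
    exact ae_three (φ b) (y i.castSucc.castSucc) _ (hy b) i
  have e3 : ∀ᵐ x ∂(surf (m + 1 + 1)), y (ia m) * x (ib m) - y (ib m) * x (ia m) ≠ 0 := by
    have hne : -y (ib m) ≠ 0 ∨ y (ia m) ≠ 0 := by
      left
      intro h
      apply hy0
      rw [om_zero]
      exact neg_eq_zero.1 h
    filter_upwards [ae_two (n := m + 1) ia_ne_ib _ _ hne] with x hx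
    intro h
    apply hx
    linarith
  refine ⟨-(sA a * (lev m (φ true) y - lev m (φ false) y)), ?_⟩
  unfold volFrom
  have h : (fun x => (ind (crossPolytope (m + 1)) (cfg m (lc a) φ) y x : ℝ)) =ᵐ[surf (m + 1 + 1)]
      fun x => (sA a : ℝ) * (((lev m (φ true) x : ℝ) - (lev m (φ false) x : ℝ)) -
        ((lev m (φ true) y : ℝ) - (lev m (φ false) y : ℝ))) := by
    filter_upwards [ae_om (m := m) 0, e1, e2, e3] with x h0 h1 h2 h3
    rw [ind_eq_lev ha hφ y x hy0 hy h0 h1 h2 h3]
    push_cast; ring
  have hI : Integrable (fun x => (lev m (φ true) x : ℝ) - (lev m (φ false) x : ℝ))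
      (surf (m + 1 + 1)) := (integrable_lev _).sub (integrable_lev _)
  rw [integral_congr_ae h, integral_const_mul, integral_sub hI (integrable_const _),
    integral_sub (integrable_lev _) (integrable_lev _), integral_const, smul_eq_mul]
  unfold Wf sphereVol
  push_cast
  ring

/-! ### Degenerate configurations -/

/-- If two opposite vertices coincide then the oriented volume vanishes. -/
lemma isOV_zero {n : ℕ} {P : Fin n × Bool → Fin (n + 1) → ℝ} (hP : Ortho P) {i : Fin n}
    (h : P (i, true) = P (i, false)) : IsOrientedVolume (crossPolytope n) P 0 := by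
  obtain ⟨y, hsp, hy⟩ := exists_notMem_image hP.isPolyhedron
  apply isOrientedVolume_of_one hP.isPolyhedron hsp hy
  refine ⟨0, ?_⟩
  have h0 : ∀ x, ind (crossPolytope n) P y x = 0 := by
    intro x
    unfold ind
    have h1 : ∑ F ∈ (crossPolytope n).facets, crossing (crossPolytope n) P y x F =
        ∑ s : Fin n → Bool, crossing (crossPolytope n) P y x (facet s) := by
      simp only [crossPolytope, Finset.sum_map, Function.Embedding.coeFn_mk]
    rw [h1]
    apply Finset.sum_involution (fun (s : Fin n → Bool) _ => Function.update s i (!s i))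
    · intro s _
      have h2 : (fun k => P (facet (Function.update s i (!s i)) k)) = fun k => P (facet s k) := by
        funext k
        simp only [facet]
        by_cases hk : k = i
        · rw [hk, Function.update_self]
          cases s i
          · exact h
          · exact h.symm
        · rw [Function.update_of_ne hk]
      rw [crossing_eq_chi, crossing_eq_chi, h2]
      have h3 : (crossPolytope n).or (facet (Function.update s i (!s i))) =
          - (crossPolytope n).or (facet s) := by
        change ∏ k, sg ((Function.update s i (!s i)) k) = - ∏ k, sg (s k)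
        apply prod_sg_update s _ i
        · intro k hk
          rw [Function.update_of_ne hk]
        · rw [Function.update_self]
          cases s i <;> simp
      rw [h3]; ring
    · intro s _ _ h2
      have := congrFun h2 i
      rw [Function.update_self] at this
      revert this
      cases s i <;> simp
    · intro s _; exact Finset.mem_univ _
    · intro s _
      rw [Function.update_self, Bool.not_not, Function.update_idem, Function.update_eq_self]
  unfold volFrom
  simp only [h0]
  simp

end lune

end Pool.Agent.helper69.FlexPoly
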