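import Pool.Agent.helper69.FlexPoly.Ridge

set_option autoImplicit false

open MeasureTheory

namespace Pool.Agent.helper69.FlexPoly

section meas

open scoped Pointwise in
lemma null_of_linear {d : ℕ} (f : EuclideanSpace ℝ (Fin d) →ₗ[ℝ] ℝ) (hf : f ≠ 0) :
    ∀ᵐ x ∂(volume : Measure (EuclideanSpace ℝ (Fin d))).toSphere, f x.1 ≠ 0 := by
  have hmeas : MeasurableSet {x : Metric.sphere (0 : EuclideanSpace ℝ (Fin d)) 1 |
      f x.1 = 0} := by
    have hc : Continuous (fun x : Metric.sphere (0 : EuclideanSpace ℝ (Fin d)) 1 =>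
        f x.1) := (LinearMap.continuous_of_finiteDimensional f).comp continuous_subtype_val
    exact (isClosed_eq hc continuous_const).measurableSet
  rw [ae_iff]
  simp only [not_not]
  rw [Measure.toSphere_apply' _ hmeas]
  have h : (volume : Measure (EuclideanSpace ℝ (Fin d)))
      (Set.Ioo (0 : ℝ) 1 • (Subtype.val '' {x : Metric.sphere (0 : EuclideanSpace ℝ
        (Fin d)) 1 | f x.1 = 0})) = 0 := by
    apply measure_mono_null (t := (LinearMap.ker f : Set (EuclideanSpace ℝ (Fin d))))
    · rintro z ⟨t, _, w, ⟨x, hx, rfl⟩, rfl⟩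
      simp only [Set.mem_ofPred_eq] at hx
      simp [hx]
    · apply Measure.addHaar_submodule
      intro h
      exact hf (LinearMap.ker_eq_top.1 h)
  rw [h, mul_zero]

lemma measurable_coe {d : ℕ} : Measurable
    (fun x : Metric.sphere (0 : EuclideanSpace ℝ (Fin d)) 1 => x.1.ofLp) := by
  have : Continuous (fun x : Metric.sphere (0 : EuclideanSpace ℝ (Fin d)) 1 => x.1.ofLp) := by
    fun_prop
  exact this.measurable

instance isFiniteMeasure_surf (d : ℕ) : IsFiniteMeasure (surf d) := by
  unfold surf; infer_instance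

lemma surf_univ (d : ℕ) : surf d Set.univ =
    (volume : Measure (EuclideanSpace ℝ (Fin d))).toSphere Set.univ := by
  unfold surf
  rw [Measure.map_apply measurable_coe MeasurableSet.univ, Set.preimage_univ]

lemma surf_ne_zero (n : ℕ) : surf (n + 1) ≠ 0 := by
  intro h
  have h1 := surf_univ (n + 1)
  rw [h] at h1
  exact Measure.toSphere_ne_zero _ (Measure.measure_univ_eq_zero.1 h1.symm)

instance neBot_ae_surf (n : ℕ) : (ae (surf (n + 1))).NeBot := by
  rw [ae_neBot]
  exact surf_ne_zero n

lemma sphereVol_pos (n : ℕ) : 0 < sphereVol n := by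
  unfold sphereVol
  rw [measureReal_def]
  apply ENNReal.toReal_pos
  · intro h
    exact surf_ne_zero n (Measure.measure_univ_eq_zero.1 h)
  · exact measure_ne_top _ _

/-- a non-zero linear functional vanishes almost nowhere on the sphere -/
lemma ae_functional {d : ℕ} (f : (Fin d → ℝ) →ₗ[ℝ] ℝ) (hf : f ≠ 0) :
    ∀ᵐ x ∂(surf d), f x ≠ 0 := by
  let g : EuclideanSpace ℝ (Fin d) →ₗ[ℝ] ℝ :=
    f.comp (WithLp.linearEquiv 2 ℝ (Fin d → ℝ)).toLinearMap
  have hg : g ≠ 0 := by
    intro h
    apply hf
    ext i
    have := congrArg (fun g : EuclideanSpace ℝ (Fin d) →ₗ[ℝ] ℝ =>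
      g (WithLp.toLp 2 (Pi.single i 1))) h
    simpa [g] using this
  unfold surf
  rw [ae_map_iff measurable_coe.aemeasurable]
  · exact null_of_linear g hg
  · have h1 : Continuous f := LinearMap.continuous_of_finiteDimensional f
    exact (isOpen_ne_fun h1 continuous_const).measurableSet

lemma ae_onSphere {n : ℕ} : ∀ᵐ x ∂(surf (n + 1)), OnSphere x := by
  unfold surf
  rw [ae_map_iff measurable_coe.aemeasurable]
  · refine ae_of_all _ fun x => ?_
    have h := mem_sphere_zero_iff_norm.1 x.2
    unfold OnSphere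
    have h2 := EuclideanSpace.norm_sq_eq x.1
    rw [h, one_pow] at h2
    refine Eq.trans ?_ h2.symm
    exact Finset.sum_congr rfl fun k _ => by simp
  · unfold OnSphere
    have h1 : Continuous (fun x : Fin (n + 1) → ℝ => ∑ j, x j ^ 2) := by fun_prop
    exact (isClosed_eq h1 continuous_const).measurableSet

/-! ### Generic points -/

variable {N : ℕ}

/-- the functional `x ↦ dt (update v i x)` -/
noncomputable def dtL (v : Fin N → Fin N → ℝ) (i : Fin N) : (Fin N → ℝ) →ₗ[ℝ] ℝ :=
  (Matrix.detRowAlternating (n := Fin N) (R := ℝ)).toMultilinearMap.toLinearMap v i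

lemma dtL_apply (v : Fin N → Fin N → ℝ) (i : Fin N) (x : Fin N → ℝ) :
    dtL v i x = dt (Function.update v i x) := rfl

/-- the coordinate functional -/
noncomputable def coordL (v : Fin N → Fin N → ℝ) (i : Fin N) : (Fin N → ℝ) →ₗ[ℝ] ℝ :=
  (dt v)⁻¹ • dtL v i

lemma coordL_apply (v : Fin N → Fin N → ℝ) (i : Fin N) (x : Fin N → ℝ) :
    coordL v i x = coord v x i := by
  unfold coordL coord
  rw [LinearMap.smul_apply, dtL_apply, smul_eq_mul, div_eq_inv_mul]

lemma coord_self {v : Fin N → Fin N → ℝ} (hv : dt v ≠ 0) (i k : Fin N) :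
    coord v (v k) i = if i = k then 1 else 0 := by
  have h : v k = ∑ i, (fun i => if i = k then (1 : ℝ) else 0) i • v i := by
    simp
  have := congrFun (coord_eq hv h) i
  exact this

lemma ae_generic {n : ℕ} {v : Fin (n + 1) → Fin (n + 1) → ℝ} (hv : dt v ≠ 0)
    (w : Fin (n + 1) → ℝ) :
    ∀ᵐ x ∂(surf (n + 1)), (∀ i, coord v x i ≠ 0) ∧
      ∀ i k, k ≠ i → coord v w i ≠ 0 →
        coord v x k - coord v w k * (coord v x i / coord v w i) ≠ 0 := by
  have e1 : ∀ i, ∀ᵐ x ∂(surf (n + 1)), coord v x i ≠ 0 := by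
    intro i
    have hf : coordL v i ≠ 0 := by
      intro h
      have := congrArg (fun f : (Fin (n + 1) → ℝ) →ₗ[ℝ] ℝ => f (v i)) h
      simp only [coordL_apply, coord_self hv, if_true, LinearMap.zero_apply] at this
      exact one_ne_zero this
    filter_upwards [ae_functional _ hf] with x hx
    rwa [coordL_apply] at hx
  have e2 : ∀ i k, ∀ᵐ x ∂(surf (n + 1)), k ≠ i → coord v w i ≠ 0 →
        coord v x k - coord v w k * (coord v x i / coord v w i) ≠ 0 := by
    intro i k
    by_cases hk : k = i
    · exact ae_of_all _ fun x h => absurd hk h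
    · have hf : coordL v k - (coord v w k / coord v w i) • coordL v i ≠ 0 := by
        intro h
        have := congrArg (fun f : (Fin (n + 1) → ℝ) →ₗ[ℝ] ℝ => f (v k)) h
        simp only [LinearMap.sub_apply, LinearMap.smul_apply, coordL_apply, coord_self hv, if_true,
          if_neg (Ne.symm hk), LinearMap.zero_apply, smul_zero, sub_zero] at this
        exact one_ne_zero this
      filter_upwards [ae_functional _ hf] with x hx _ _
      simp only [LinearMap.sub_apply, LinearMap.smul_apply, coordL_apply, smul_eq_mul] at hx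
      intro h
      apply hx
      rw [← h]; ring
  filter_upwards [ae_all_iff.2 e1, ae_all_iff.2 fun i => ae_all_iff.2 (e2 i)] with x h1 h2
  exact ⟨h1, h2⟩

lemma measurable_chi (v : Fin N → Fin N → ℝ) : Measurable (fun x => (chi v x : ℝ)) := by
  classical
  by_cases hv : dt v = 0
  · simp only [chi_of_dt_eq_zero hv, Int.cast_zero]
    exact measurable_const
  · have h : (fun x => (chi v x : ℝ)) = fun x => if ∀ i, 0 < coord v x i then
        ((SignType.sign (dt v) : ℤ) : ℝ) else 0 := by
      funext x
      rw [chi_eq hv]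
      split_ifs <;> simp
    rw [h]
    have h2 : MeasurableSet {x : Fin N → ℝ | ∀ i, 0 < coord v x i} := by
      rw [Set.setOf_forall]
      refine MeasurableSet.iInter fun i => ?_
      have h3 : Measurable (fun x => coord v x i) := by
        have : (fun x => coord v x i) = coordL v i := by funext x; rw [coordL_apply]
        rw [this]
        exact (LinearMap.continuous_of_finiteDimensional _).measurable
      exact measurableSet_lt measurable_const h3
    exact Measurable.ite h2 measurable_const measurable_const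

lemma norm_sign_le (a : ℝ) : ‖((SignType.sign a : ℤ) : ℝ)‖ ≤ 1 := by
  rcases lt_trichotomy a 0 with h | h | h
  · rw [sign_neg h]; simp
  · rw [h]; simp
  · rw [sign_pos h]; simp

lemma norm_chi_le (v : Fin N → Fin N → ℝ) (x : Fin N → ℝ) : ‖(chi v x : ℝ)‖ ≤ 1 := by
  unfold chi
  split_ifs
  · exact norm_sign_le _
  · simp

end meas

end Pool.Agent.helper69.FlexPoly
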