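import Pool.Agent.helper69.FlexPoly.Inc

set_option autoImplicit false

open MeasureTheory Filter Topology

namespace Pool.Agent.helper69.FlexPoly

section orth

lemma mulVec_dot {d : ℕ} {M : Matrix (Fin d) (Fin d) ℝ} (hM : M.transpose * M = 1)
    (x y : Fin d → ℝ) : M.mulVec x ⬝ᵥ M.mulVec y = x ⬝ᵥ y := by
  rw [Matrix.dotProduct_mulVec, Matrix.vecMul_mulVec, hM]
  simp

/-- an orthogonal matrix as a linear isometry of the Euclidean space -/
noncomputable def isoOf {d : ℕ} {M : Matrix (Fin d) (Fin d) ℝ} (hM : M.transpose * M = 1) :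
    EuclideanSpace ℝ (Fin d) →ₗᵢ[ℝ] EuclideanSpace ℝ (Fin d) where
  toFun x := WithLp.toLp 2 (M.mulVec x.ofLp)
  map_add' x y := by
    ext i
    simp [Matrix.mulVec_add]
  map_smul' c x := by
    ext i
    simp [Matrix.mulVec_smul]
  norm_map' x := by
    have h1 := EuclideanSpace.norm_sq_eq (WithLp.toLp 2 (M.mulVec x.ofLp))
    have h2 := EuclideanSpace.norm_sq_eq x
    have h3 := mulVec_dot hM x.ofLp x.ofLp
    have h4 : ‖WithLp.toLp 2 (M.mulVec x.ofLp)‖ ^ 2 = ‖x‖ ^ 2 := by
      rw [h1, h2]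
      simp only [dotProduct] at h3
      simp only [Real.norm_eq_abs, sq_abs]
      simp only [sq]
      exact h3
    have h5 := norm_nonneg (WithLp.toLp 2 (M.mulVec x.ofLp))
    have h6 := norm_nonneg x
    exact (pow_left_inj₀ h5 h6 two_ne_zero).1 h4

/-- an orthogonal matrix as a linear isometry equivalence of the Euclidean space -/
noncomputable def equivOf {d : ℕ} {M : Matrix (Fin d) (Fin d) ℝ} (hM : M.transpose * M = 1) :
    EuclideanSpace ℝ (Fin d) ≃ₗᵢ[ℝ] EuclideanSpace ℝ (Fin d) :=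
  (isoOf hM).toLinearIsometryEquiv rfl

lemma equivOf_apply {d : ℕ} {M : Matrix (Fin d) (Fin d) ℝ} (hM : M.transpose * M = 1)
    (x : EuclideanSpace ℝ (Fin d)) : equivOf hM x = WithLp.toLp 2 (M.mulVec x.ofLp) := rfl

open scoped Pointwise in
/-- a linear isometry preserves the measure of the sphere -/
lemma map_toSphere {d : ℕ} (g : EuclideanSpace ℝ (Fin d) ≃ₗᵢ[ℝ] EuclideanSpace ℝ (Fin d))
    (gS : Metric.sphere (0 : EuclideanSpace ℝ (Fin d)) 1 →
      Metric.sphere (0 : EuclideanSpace ℝ (Fin d)) 1)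
    (hgS : ∀ x, (gS x).1 = g x.1) :
    Measure.map gS (volume : Measure (EuclideanSpace ℝ (Fin d))).toSphere =
      (volume : Measure (EuclideanSpace ℝ (Fin d))).toSphere := by
  have hc : Continuous gS := by
    rw [continuous_induced_rng]
    have : (Subtype.val ∘ gS) = fun x => g x.1 := by
      funext x; exact hgS x
    rw [this]
    exact g.continuous.comp continuous_subtype_val
  ext S hS
  rw [Measure.map_apply hc.measurable hS, Measure.toSphere_apply' _ (hc.measurable hS),
    Measure.toSphere_apply' _ hS]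
  congr 1
  have h1 : Set.Ioo (0 : ℝ) 1 • (Subtype.val '' (gS ⁻¹' S)) =
      g ⁻¹' (Set.Ioo (0 : ℝ) 1 • (Subtype.val '' S)) := by
    ext z
    constructor
    · rintro ⟨t, ht, w, ⟨x, hx, rfl⟩, rfl⟩
      refine ⟨t, ht, (gS x).1, ⟨gS x, hx, rfl⟩, ?_⟩
      simp only [smul_eq_mul]
      rw [hgS]
      exact (g.map_smul t x.1).symm
    · rintro ⟨t, ht, w, ⟨x, hx, rfl⟩, hz⟩
      have hn : ‖g.symm x.1‖ = 1 := by
        rw [LinearIsometryEquiv.norm_map]
        exact mem_sphere_zero_iff_norm.1 x.2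
      refine ⟨t, ht, g.symm x.1, ⟨⟨g.symm x.1, mem_sphere_zero_iff_norm.2 hn⟩, ?_, rfl⟩, ?_⟩
      · have : gS ⟨g.symm x.1, mem_sphere_zero_iff_norm.2 hn⟩ = x := by
          apply Subtype.ext
          rw [hgS]
          exact g.apply_symm_apply _
        rw [Set.mem_preimage, this]
        exact hx
      · apply g.injective
        rw [← hz]
        change g (t • g.symm x.1) = t • x.1
        rw [g.map_smul, g.apply_symm_apply]
  rw [h1]
  exact g.measurePreserving.measure_preimage_equiv (f := g.toHomeomorph.toMeasurableEquiv) _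

lemma map_surf {d : ℕ} {M : Matrix (Fin d) (Fin d) ℝ} (hM : M.transpose * M = 1) :
    Measure.map (fun x => M.mulVec x) (surf d) = surf d := by
  have hmeas : Measurable (fun x : Fin d → ℝ => M.mulVec x) := by
    have : Continuous (fun x : Fin d → ℝ => M.mulVec x) := by fun_prop
    exact this.measurable
  have hn : ∀ x : Metric.sphere (0 : EuclideanSpace ℝ (Fin d)) 1, ‖equivOf hM x.1‖ = 1 := by
    intro x
    rw [LinearIsometryEquiv.norm_map]
    exact mem_sphere_zero_iff_norm.1 x.2
  set gS : Metric.sphere (0 : EuclideanSpace ℝ (Fin d)) 1 →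
      Metric.sphere (0 : EuclideanSpace ℝ (Fin d)) 1 :=
    fun x => ⟨equivOf hM x.1, mem_sphere_zero_iff_norm.2 (hn x)⟩ with hgS
  have h1 := map_toSphere (equivOf hM) gS (fun x => rfl)
  have hc : Continuous gS := by
    rw [continuous_induced_rng]
    exact (equivOf hM).continuous.comp continuous_subtype_val
  unfold surf
  rw [Measure.map_map hmeas measurable_coe]
  conv_rhs => rw [← h1]
  rw [Measure.map_map measurable_coe hc.measurable]
  rfl

lemma integral_surf {d : ℕ} {M : Matrix (Fin d) (Fin d) ℝ} (hM : M.transpose * M = 1)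
    (f : (Fin d → ℝ) → ℝ) : ∫ x, f (M.mulVec x) ∂(surf d) = ∫ x, f x ∂(surf d) := by
  conv_rhs => rw [← map_surf hM]
  have hM' : M * M.transpose = 1 := mul_eq_one_comm.1 hM
  let e : (Fin d → ℝ) ≃ₜ (Fin d → ℝ) :=
    { toFun := fun x => M.mulVec x
      invFun := fun x => M.transpose.mulVec x
      left_inv := fun x => by simp only [Matrix.mulVec_mulVec, hM, Matrix.one_mulVec]
      right_inv := fun x => by simp only [Matrix.mulVec_mulVec, hM', Matrix.one_mulVec]
      continuous_toFun := by fun_prop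
      continuous_invFun := by fun_prop }
  exact (e.measurableEmbedding.integral_map (μ := surf d) f).symm

variable {V : Type} {n : ℕ} {K : OrientedPseudomanifold V n}

/-- the image of a map under an orthogonal matrix -/
def mv (M : Matrix (Fin (n + 1)) (Fin (n + 1)) ℝ) (P : V → Fin (n + 1) → ℝ) :
    V → Fin (n + 1) → ℝ := fun v => M.mulVec (P v)

lemma mv_onSphere {M : Matrix (Fin (n + 1)) (Fin (n + 1)) ℝ} (hM : M.transpose * M = 1)
    {x : Fin (n + 1) → ℝ} (hx : OnSphere x) : OnSphere (M.mulVec x) := by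
  have h := mulVec_dot hM x x
  unfold OnSphere at *
  simp only [dotProduct, ← sq] at h
  rw [h, hx]

lemma mv_image {M : Matrix (Fin (n + 1)) (Fin (n + 1)) ℝ} (hM : M.transpose * M = 1)
    (P : V → Fin (n + 1) → ℝ) {x : Fin (n + 1) → ℝ} (hx : M.mulVec x ∈ image K (mv M P)) :
    x ∈ image K P := by
  have hM' : M * M.transpose = 1 := mul_eq_one_comm.1 hM
  obtain ⟨h1, F, hF, c, hc, h2⟩ := hx
  have h3 : x = ∑ i, c i • P (F i) := by
    have h4 := congrArg (fun z => M.transpose.mulVec z) h2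
    simp only [Matrix.mulVec_mulVec, hM, Matrix.one_mulVec, Matrix.mulVec_sum,
      Matrix.mulVec_smul, mv] at h4
    exact h4
  refine ⟨?_, F, hF, c, hc, h3⟩
  unfold OnSphere at *
  have h := mulVec_dot hM x x
  simp only [dotProduct, ← sq] at h
  rw [← h, h1]

lemma mv_crosses {M : Matrix (Fin (n + 1)) (Fin (n + 1)) ℝ} (hM : M.transpose * M = 1)
    (P : V → Fin (n + 1) → ℝ) (y x : Fin (n + 1) → ℝ) (F : Fin n → V) :
    Crosses (mv M P) (M.mulVec y) (M.mulVec x) F ↔ Crosses P y x F := by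
  unfold Crosses
  constructor
  · rintro ⟨t, ht, c, hc, h⟩
    refine ⟨t, ht, c, hc, ?_⟩
    have h4 := congrArg (fun z => M.transpose.mulVec z) h
    simp only [Matrix.mulVec_mulVec, hM, Matrix.one_mulVec, Matrix.mulVec_sum,
      Matrix.mulVec_smul, mv, Matrix.mulVec_add] at h4
    exact h4
  · rintro ⟨t, ht, c, hc, h⟩
    refine ⟨t, ht, c, hc, ?_⟩
    have h4 := congrArg (fun z => M.mulVec z) h
    simp only [Matrix.mulVec_sum, Matrix.mulVec_smul, Matrix.mulVec_add] at h4
    exact h4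

lemma det_sq {M : Matrix (Fin (n + 1)) (Fin (n + 1)) ℝ} (hM : M.transpose * M = 1) :
    M.det = 1 ∨ M.det = -1 := by
  have h := congrArg Matrix.det hM
  rw [Matrix.det_mul, Matrix.det_transpose, Matrix.det_one] at h
  exact mul_self_eq_one_iff.1 h

lemma mv_det {M : Matrix (Fin (n + 1)) (Fin (n + 1)) ℝ}
    (P : V → Fin (n + 1) → ℝ) (x : Fin (n + 1) → ℝ) (F : Fin n → V) :
    Matrix.det (Matrix.of (Fin.snoc (fun k => mv M P (F k)) (M.mulVec x) :
      Fin (n + 1) → Fin (n + 1) → ℝ)) =
    M.det * Matrix.det (Matrix.of (Fin.snoc (fun k => P (F k)) x :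
      Fin (n + 1) → Fin (n + 1) → ℝ)) := by
  have h : Matrix.of (Fin.snoc (fun k => mv M P (F k)) (M.mulVec x) :
      Fin (n + 1) → Fin (n + 1) → ℝ) =
      Matrix.of (Fin.snoc (fun k => P (F k)) x : Fin (n + 1) → Fin (n + 1) → ℝ) *
        M.transpose := by
    ext i j
    rw [Matrix.mul_apply]
    refine Fin.lastCases ?_ (fun i => ?_) i
    · simp only [Matrix.of_apply, Fin.snoc_last (α := fun _ => Fin (n + 1) → ℝ), Matrix.mulVec,
        dotProduct, Matrix.transpose_apply]
      exact Finset.sum_congr rfl fun k _ => mul_comm _ _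
    · simp only [Matrix.of_apply, Fin.snoc_castSucc (α := fun _ => Fin (n + 1) → ℝ), mv,
        Matrix.mulVec, dotProduct, Matrix.transpose_apply]
      exact Finset.sum_congr rfl fun k _ => mul_comm _ _
  rw [h, Matrix.det_mul, Matrix.det_transpose, mul_comm]

lemma mv_ind {M : Matrix (Fin (n + 1)) (Fin (n + 1)) ℝ} (hM : M.transpose * M = 1)
    (P : V → Fin (n + 1) → ℝ) (y x : Fin (n + 1) → ℝ) :
    (ind K (mv M P) (M.mulVec y) (M.mulVec x) : ℝ) = M.det * (ind K P y x : ℝ) := by
  unfold ind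
  push_cast
  rw [Finset.mul_sum]
  apply Finset.sum_congr rfl
  intro F _
  unfold crossing
  by_cases h : Crosses P y x F
  · rw [if_pos h, if_pos ((mv_crosses hM P y x F).2 h), mv_det, sign_mul]
    rcases det_sq hM with h1 | h1
    · rw [h1]; simp
    · rw [h1]; simp
  · rw [if_neg h, if_neg (fun h' => h ((mv_crosses hM P y x F).1 h'))]
    simp

lemma mv_volFrom {M : Matrix (Fin (n + 1)) (Fin (n + 1)) ℝ} (hM : M.transpose * M = 1)
    (P : V → Fin (n + 1) → ℝ) (y : Fin (n + 1) → ℝ) :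
    volFrom K (mv M P) (M.mulVec y) = M.det * volFrom K P y := by
  unfold volFrom
  rw [← integral_surf hM (fun x => (ind K (mv M P) (M.mulVec y) x : ℝ))]
  simp only [mv_ind hM]
  rw [integral_const_mul]

/-- the oriented volume of the image under an orthogonal matrix -/
lemma IsOrientedVolume.mv {M : Matrix (Fin (n + 1)) (Fin (n + 1)) ℝ} (hM : M.transpose * M = 1)
    {P : V → Fin (n + 1) → ℝ} {v : ℝ} (h : IsOrientedVolume K P v) :
    IsOrientedVolume K (mv M P) (M.det * v) := by
  have hM' : M * M.transpose = 1 := mul_eq_one_comm.1 hM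
  obtain ⟨⟨y, hy, hy'⟩, h2⟩ := h
  refine ⟨⟨M.mulVec y, mv_onSphere hM hy, fun h => hy' (mv_image hM P h)⟩, ?_⟩
  intro z hz hz'
  have hz1 : z = M.mulVec (M.transpose.mulVec z) := by
    rw [Matrix.mulVec_mulVec, hM', Matrix.one_mulVec]
  have hM2 : M.transpose.transpose * M.transpose = 1 := by
    rw [Matrix.transpose_transpose]; exact hM'
  obtain ⟨k, hk⟩ := h2 (M.transpose.mulVec z) (mv_onSphere hM2 hz) (by
    intro h3
    apply hz'
    rw [hz1]
    obtain ⟨h4, F, hF, c, hc, h5⟩ := h3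
    refine ⟨by rw [← hz1]; exact hz, F, hF, c, hc, ?_⟩
    rw [h5]
    simp only [Matrix.mulVec_sum, Matrix.mulVec_smul]
    rfl)
  have h6 := mv_volFrom (K := K) hM P (M.transpose.mulVec z)
  rw [← hz1, hk] at h6
  rcases det_sq hM with h1 | h1
  · refine ⟨k, ?_⟩
    rw [h6, h1]; ring
  · refine ⟨-k, ?_⟩
    rw [h6, h1]; push_cast; ring

/-! ### The reflection in the last coordinate -/

/-- the reflection in the last coordinate -/
noncomputable def refl (n : ℕ) : Matrix (Fin (n + 1)) (Fin (n + 1)) ℝ :=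
  Matrix.diagonal (Fin.snoc (fun _ => 1) (-1) : Fin (n + 1) → ℝ)

lemma refl_orth : (refl n).transpose * refl n = 1 := by
  unfold refl
  rw [Matrix.diagonal_transpose, Matrix.diagonal_mul_diagonal, ← Matrix.diagonal_one]
  congr 1
  funext i
  refine Fin.lastCases ?_ (fun i => ?_) i
  · simp
  · simp

lemma refl_det : (refl n).det = -1 := by
  unfold refl
  rw [Matrix.det_diagonal, Fin.prod_univ_castSucc]
  simp

lemma refl_mulVec (x : Fin (n + 1) → ℝ) : (refl n).mulVec x =
    Fin.snoc (fun i : Fin n => x i.castSucc) (- x (Fin.last n)) := by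
  funext i
  unfold refl
  rw [Matrix.mulVec_diagonal]
  refine Fin.lastCases ?_ (fun i => ?_) i
  · simp
  · simp

lemma IsOrientedVolume.refl {P : V → Fin (n + 1) → ℝ} {v : ℝ} (h : IsOrientedVolume K P v) :
    IsOrientedVolume K (FlexPoly.mv (FlexPoly.refl n) P) (-v) := by
  have := h.mv refl_orth
  rw [refl_det] at this
  simpa using this

end orth

end Pool.Agent.helper69.FlexPoly
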