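import Pool.Agent.helper69.FlexPoly.Circle

set_option autoImplicit false

open MeasureTheory Filter Topology

namespace Pool.Agent.helper69.FlexPoly

section place

variable {n : ℕ}

/-! ### An orthogonal matrix that maps the vectors into the hyperplane -/

lemma exists_normal (q : Fin n → Fin (n + 1) → ℝ) :
    ∃ ν : Fin (n + 1) → ℝ, ν ⬝ᵥ ν = 1 ∧ ∀ i, q i ⬝ᵥ ν = 0 := by
  set Q : Matrix (Fin (n + 1)) (Fin (n + 1)) ℝ :=
    Matrix.of (Fin.snoc q 0 : Fin (n + 1) → Fin (n + 1) → ℝ) with hQ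
  have hdet : Q.det = 0 := by
    apply Matrix.det_eq_zero_of_row_eq_zero (Fin.last n)
    intro j
    rw [hQ, Matrix.of_apply, Fin.snoc_last (α := fun _ => Fin (n + 1) → ℝ)]
    rfl
  obtain ⟨v, hv, hQv⟩ := Matrix.exists_mulVec_eq_zero_iff.2 hdet
  have h1 := dot_self_pos hv
  refine ⟨nz v, ?_, ?_⟩
  · have := nz_onSphere hv
    exact this.dot_self
  · intro i
    have h2 := congrFun hQv i.castSucc
    have h3 : q i ⬝ᵥ v = 0 := by
      rw [Matrix.mulVec, hQ] at h2
      have h4 : (Matrix.of (Fin.snoc q 0 : Fin (n + 1) → Fin (n + 1) → ℝ)) i.castSucc = q i := by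
        funext j
        rw [Matrix.of_apply, Fin.snoc_castSucc (α := fun _ => Fin (n + 1) → ℝ)]
      rw [h4] at h2
      exact h2
    unfold nz
    rw [dotProduct_smul, h3, smul_zero]

/-- the reflection in the hyperplane orthogonal to `w` -/
noncomputable def hh (w : Fin (n + 1) → ℝ) : Matrix (Fin (n + 1)) (Fin (n + 1)) ℝ :=
  1 - (2 / (w ⬝ᵥ w)) • Matrix.vecMulVec w w

lemma hh_mulVec (w x : Fin (n + 1) → ℝ) :
    (hh w).mulVec x = x - (2 / (w ⬝ᵥ w) * (w ⬝ᵥ x)) • w := by
  unfold hh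
  rw [Matrix.sub_mulVec, Matrix.one_mulVec, Matrix.smul_mulVec, Matrix.vecMulVec_mulVec,
    ← smul_smul]
  congr 2
  funext i
  simp [mul_comm]

lemma hh_transpose (w : Fin (n + 1) → ℝ) : (hh w).transpose = hh w := by
  unfold hh
  rw [Matrix.transpose_sub, Matrix.transpose_one, Matrix.transpose_smul,
    Matrix.transpose_vecMulVec]

lemma hh_orth {w : Fin (n + 1) → ℝ} (hw : w ≠ 0) : (hh w).transpose * hh w = 1 := by
  rw [hh_transpose]
  apply Matrix.toLin'.injective
  ext1 i
  apply LinearMap.ext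
  intro x
  have h0 := (dot_self_pos hw).ne'
  simp only [Matrix.toLin'_mul, LinearMap.comp_apply, Matrix.toLin'_apply, Matrix.toLin'_one,
    LinearMap.id_apply]
  rw [hh_mulVec, hh_mulVec, dotProduct_sub, dotProduct_smul, smul_eq_mul]
  have h1 : 2 / (w ⬝ᵥ w) * (w ⬝ᵥ (LinearMap.single ℝ (fun _ => ℝ) i) x -
      2 / (w ⬝ᵥ w) * (w ⬝ᵥ (LinearMap.single ℝ (fun _ => ℝ) i) x) * (w ⬝ᵥ w)) =
      - (2 / (w ⬝ᵥ w) * (w ⬝ᵥ (LinearMap.single ℝ (fun _ => ℝ) i) x)) := by
    field_simp
    ring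
  rw [h1, neg_smul, sub_neg_eq_add, sub_add_cancel]

lemma exists_orth (q : Fin n → Fin (n + 1) → ℝ) :
    ∃ M : Matrix (Fin (n + 1)) (Fin (n + 1)) ℝ, M.transpose * M = 1 ∧
      ∀ i, M.mulVec (q i) (Fin.last n) = 0 := by
  obtain ⟨ν, hν, hq⟩ := exists_normal q
  have key : ∃ M : Matrix (Fin (n + 1)) (Fin (n + 1)) ℝ, M.transpose * M = 1 ∧
      M.mulVec ν = eL n := by
    by_cases h : ν = eL n
    · exact ⟨1, by simp, by rw [Matrix.one_mulVec, h]⟩
    · have hw : ν - eL n ≠ 0 := sub_ne_zero.2 h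
      refine ⟨hh (ν - eL n), hh_orth hw, ?_⟩
      have he : eL n ⬝ᵥ eL n = 1 := by
        rw [eL_ext, ext_dot]; simp
      have h1 : (ν - eL n) ⬝ᵥ (ν - eL n) = 2 * ((ν - eL n) ⬝ᵥ ν) := by
        simp only [sub_dotProduct, dotProduct_sub, hν, he]
        rw [dotProduct_comm ν (eL n)]
        ring
      have h0 := (dot_self_pos hw).ne'
      rw [hh_mulVec]
      have h2 : 2 / ((ν - eL n) ⬝ᵥ (ν - eL n)) * ((ν - eL n) ⬝ᵥ ν) = 1 := by
        rw [div_mul_eq_mul_div, ← h1, div_self h0]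
      rw [h2, one_smul, sub_sub_cancel]
  obtain ⟨M, hM, hMν⟩ := key
  refine ⟨M, hM, fun i => ?_⟩
  have h1 := mulVec_dot hM (q i) ν
  rw [hMν, hq i] at h1
  have h2 : M.mulVec (q i) ⬝ᵥ eL n = M.mulVec (q i) (Fin.last n) := by
    rw [eL_ext, dotProduct, Fin.sum_univ_castSucc]
    simp [ext]
  rw [← h2, h1]

/-! ### Normals with a given dual basis -/

lemma exists_N (u : Matrix (Fin n) (Fin n) ℝ) (hu : u.det ≠ 0) :
    ∃ N : Matrix (Fin n) (Fin n) ℝ, N.det ≠ 0 ∧ (∀ i, ∑ l, N i l ^ 2 = 1) ∧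
      ∃ r : Fin n → ℝ, (∀ i, 0 < r i) ∧ ∀ i l, du N i l = r i * u i l := by
  have huu : IsUnit u.det := isUnit_iff_ne_zero.2 hu
  -- the columns of the inverse
  set w : Fin n → Fin n → ℝ := fun i l => u⁻¹ l i with hw
  have hwne : ∀ i, 0 < ∑ l, w i l ^ 2 := by
    intro i
    have h0 : 0 ≤ ∑ l, w i l ^ 2 := Finset.sum_nonneg fun l _ => sq_nonneg _
    rcases h0.lt_or_eq with h | h
    · exact h
    · exfalso
      have h1 : ∀ l, w i l = 0 := by
        intro l
        have h2 := (Finset.sum_eq_zero_iff_of_nonneg fun l _ => sq_nonneg (w i l)).1 h.symm l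
          (Finset.mem_univ l)
        exact pow_eq_zero_iff two_ne_zero |>.1 h2
      have h3 := congrFun (congrFun (Matrix.mul_nonsing_inv u huu) i) i
      rw [Matrix.mul_apply, Matrix.one_apply_eq] at h3
      have h4 : ∑ l, u i l * u⁻¹ l i = 0 :=
        Finset.sum_eq_zero fun l _ => by
          have h5 : u⁻¹ l i = 0 := h1 l
          rw [h5, mul_zero]
      rw [h4] at h3
      exact zero_ne_one h3
  set r : Fin n → ℝ := fun i => √(∑ l, w i l ^ 2) with hr
  have hrpos : ∀ i, 0 < r i := fun i => Real.sqrt_pos.2 (hwne i)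
  set N : Matrix (Fin n) (Fin n) ℝ := Matrix.of fun i l => (r i)⁻¹ * w i l with hN
  set D : Matrix (Fin n) (Fin n) ℝ := Matrix.of fun l i => r i * u i l with hD
  have hND : N * D = 1 := by
    ext i j
    rw [Matrix.mul_apply, hN, hD]
    simp only [Matrix.of_apply]
    have h1 : ∀ l, (r i)⁻¹ * w i l * (r j * u j l) = ((r i)⁻¹ * r j) * (u j l * u⁻¹ l i) := by
      intro l
      simp only [hw]
      ring
    rw [Finset.sum_congr rfl fun l _ => h1 l, ← Finset.mul_sum]
    have h2 := congrFun (congrFun (Matrix.mul_nonsing_inv u huu) j) i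
    rw [Matrix.mul_apply] at h2
    rw [h2]
    by_cases hij : i = j
    · subst hij
      rw [Matrix.one_apply_eq, mul_one, inv_mul_cancel₀ (hrpos i).ne']
    · rw [Matrix.one_apply_ne (Ne.symm hij), mul_zero, Matrix.one_apply_ne hij]
  have hdet : N.det ≠ 0 := by
    intro h
    have h1 := congrArg Matrix.det hND
    rw [Matrix.det_mul, h, zero_mul, Matrix.det_one] at h1
    exact zero_ne_one h1
  have hinv : N⁻¹ = D := Matrix.inv_eq_right_inv hND
  refine ⟨N, hdet, ?_, r, hrpos, ?_⟩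
  · intro i
    have h1 : ∀ l, N i l ^ 2 = (r i)⁻¹ ^ 2 * w i l ^ 2 := by
      intro l
      rw [hN, Matrix.of_apply, mul_pow]
    rw [Finset.sum_congr rfl fun l _ => h1 l, ← Finset.mul_sum]
    have h2 : r i ^ 2 = ∑ l, w i l ^ 2 := Real.sq_sqrt (hwne i).le
    rw [← h2, ← mul_pow, inv_mul_cancel₀ (hrpos i).ne', one_pow]
  · intro i l
    unfold du
    rw [hinv, hD, Matrix.of_apply]

/-! ### The Gram matrix of the normals -/

lemma gr_du {N : Matrix (Fin n) (Fin n) ℝ} (hN : N.det ≠ 0) (i j : Fin n) :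
    ∑ k, gr N i k * (∑ l, du N k l * du N j l) = if i = j then 1 else 0 := by
  have h1 : ∀ i k, gr N i k = (N * N.transpose) i k := fun i k => by
    rw [Matrix.mul_apply]; rfl
  have h2 : ∀ k j, ∑ l, du N k l * du N j l = (N⁻¹.transpose * N⁻¹) k j := fun k j => by
    rw [Matrix.mul_apply]; rfl
  simp only [h1, h2]
  rw [← Matrix.mul_apply]
  have hu : IsUnit N.det := isUnit_iff_ne_zero.2 hN
  have h3 : N * N.transpose * (N⁻¹.transpose * N⁻¹) = 1 := by
    rw [Matrix.mul_assoc, ← Matrix.mul_assoc N.transpose, ← Matrix.transpose_mul,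
      Matrix.nonsing_inv_mul N hu, Matrix.transpose_one, Matrix.one_mul,
      Matrix.mul_nonsing_inv N hu]
  rw [h3, Matrix.one_apply]

lemma lt_one_of {a : ℝ} (h : 0 < 1 - a ^ 2) : -1 < a ∧ a < 1 :=
  abs_lt.1 ((sq_lt_one_iff_abs_lt_one a).1 (by linarith))

lemma sgn_pos {a b c : ℝ} (ha : 0 < 1 - a ^ 2) (hb : 0 < 1 - b ^ 2) (h1 : a * b - c < 0)
    (h2 : b * c - a < 0) (h3 : c * a - b < 0) : 0 < c := by
  by_contra hc0
  push Not at hc0
  rcases lt_trichotomy a 0 with ha0 | ha0 | ha0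
  · have hb0 : 0 < b := by
      by_contra h4
      push Not at h4
      have := mul_nonneg_of_nonpos_of_nonpos ha0.le h4
      linarith
    have e1 : 0 < b * (c - a * b) := mul_pos hb0 (by linarith)
    have e2 : 0 < (-a) * (1 - b ^ 2) := mul_pos (by linarith) hb
    have e3 : b * c - a = b * (c - a * b) + (-a) * (1 - b ^ 2) := by ring
    linarith
  · rw [ha0, zero_mul] at h1
    linarith
  · have hb0 : b < 0 := by
      by_contra h4
      push Not at h4
      have := mul_nonneg ha0.le h4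
      linarith
    have e1 : 0 < a * (c - a * b) := mul_pos ha0 (by linarith)
    have e2 : 0 < (-b) * (1 - a ^ 2) := mul_pos (by linarith) ha
    have e3 : c * a - b = a * (c - a * b) + (-b) * (1 - a ^ 2) := by ring
    linarith

lemma obt_of {N : Matrix (Fin 3) (Fin 3) ℝ} (hN : N.det ≠ 0) (hunit : ∀ i, ∑ l, N i l ^ 2 = 1)
    (hneg : ∀ i j, i ≠ j → ∑ l, du N i l * du N j l < 0) :
    Obt (gr N 1 2) (gr N 2 0) (gr N 0 1) := by
  have hg : ∀ i, gr N i i = 1 := by
    intro i
    unfold gr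
    rw [← hunit i]
    exact Finset.sum_congr rfl fun l _ => (sq _).symm
  set a := gr N 1 2 with ha
  set b := gr N 2 0 with hb
  set c := gr N 0 1 with hc
  have h10 : gr N 1 0 = c := gr_comm 1 0
  have h21 : gr N 2 1 = a := gr_comm 2 1
  have h02 : gr N 0 2 = b := gr_comm 0 2
  set D : Fin 3 → Fin 3 → ℝ := fun i j => ∑ l, du N i l * du N j l with hD
  have hDs : ∀ i j, D i j = D j i := fun i j =>
    Finset.sum_congr rfl fun l _ => mul_comm _ _
  have hE : ∀ i j, gr N i 0 * D 0 j + gr N i 1 * D 1 j + gr N i 2 * D 2 j =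
      if i = j then 1 else 0 := by
    intro i j
    have := gr_du hN i j
    rw [Fin.sum_univ_three] at this
    exact this
  have hDpos : ∀ i, 0 < D i i := by
    intro i
    have h0 : 0 ≤ ∑ l, du N i l ^ 2 := Finset.sum_nonneg fun l _ => sq_nonneg _
    have h1 : D i i = ∑ l, du N i l ^ 2 := Finset.sum_congr rfl fun l _ => (sq _).symm
    rw [h1]
    rcases h0.lt_or_eq with h | h
    · exact h
    · exfalso
      have h2 : ∀ l, du N i l = 0 := by
        intro l
        have h3 := (Finset.sum_eq_zero_iff_of_nonneg fun l _ => sq_nonneg (du N i l)).1 h.symm l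
          (Finset.mem_univ l)
        exact pow_eq_zero_iff two_ne_zero |>.1 h3
      have h3 := du_dot hN i i
      rw [if_pos rfl] at h3
      have h4 : ∑ l, du N i l * N i l = 0 :=
        Finset.sum_eq_zero fun l _ => by rw [h2 l, zero_mul]
      rw [h4] at h3
      exact zero_ne_one h3
  have n01 : D 0 1 < 0 := hneg 0 1 (by decide)
  have n12 : D 1 2 < 0 := hneg 1 2 (by decide)
  have n02 : D 0 2 < 0 := hneg 0 2 (by decide)
  have p0 := hDpos 0
  have p1 := hDpos 1
  have p2 := hDpos 2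
  -- the determinant
  have hdd : 0 < dd a b c := by
    have h1 : (N * N.transpose).det = dd a b c := by
      rw [Matrix.det_fin_three]
      have h2 : ∀ i k, (N * N.transpose) i k = gr N i k := fun i k => by
        rw [Matrix.mul_apply]; rfl
      simp only [h2, hg, h10, h21, h02, ← ha, ← hb, ← hc]
      unfold dd
      ring
    rw [← h1, Matrix.det_mul, Matrix.det_transpose]
    exact mul_self_pos.2 hN
  have e00 := (hE 0 0).trans (if_pos rfl)
  have e01 := (hE 0 1).trans (if_neg (by decide))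
  have e02 := (hE 0 2).trans (if_neg (by decide))
  have e10 := (hE 1 0).trans (if_neg (by decide))
  have e11 := (hE 1 1).trans (if_pos rfl)
  have e12 := (hE 1 2).trans (if_neg (by decide))
  have e20 := (hE 2 0).trans (if_neg (by decide))
  have e21 := (hE 2 1).trans (if_neg (by decide))
  have e22 := (hE 2 2).trans (if_pos rfl)
  simp only [hg, h10, h21, h02, ← ha, ← hb, ← hc] at e00 e01 e02 e10 e11 e12 e20 e21 e22
  rw [hDs 1 0] at e00 e10 e20
  rw [hDs 2 0] at e00 e10 e20
  rw [hDs 2 1] at e01 e11 e21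
  have k01 : dd a b c * D 0 1 = a * b - c := by
    unfold dd
    linear_combination (1 - a ^ 2) * e01 + (a * b - c) * e11 + (c * a - b) * e21
  have k12 : dd a b c * D 1 2 = b * c - a := by
    unfold dd
    linear_combination (a * b - c) * e02 + (1 - b ^ 2) * e12 + (b * c - a) * e22
  have k02 : dd a b c * D 0 2 = c * a - b := by
    unfold dd
    linear_combination (1 - a ^ 2) * e02 + (a * b - c) * e12 + (c * a - b) * e22
  have k00 : dd a b c * D 0 0 = 1 - a ^ 2 := by
    unfold dd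
    linear_combination (1 - a ^ 2) * e00 + (a * b - c) * e10 + (c * a - b) * e20
  have k11 : dd a b c * D 1 1 = 1 - b ^ 2 := by
    unfold dd
    linear_combination (a * b - c) * e01 + (1 - b ^ 2) * e11 + (b * c - a) * e21
  have k22 : dd a b c * D 2 2 = 1 - c ^ 2 := by
    unfold dd
    linear_combination (c * a - b) * e02 + (b * c - a) * e12 + (1 - c ^ 2) * e22
  have l01 := mul_neg_of_pos_of_neg hdd n01
  have l12 := mul_neg_of_pos_of_neg hdd n12
  have l02 := mul_neg_of_pos_of_neg hdd n02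
  have q0 := mul_pos hdd p0
  have q1 := mul_pos hdd p1
  have q2 := mul_pos hdd p2
  rw [k01] at l01
  rw [k12] at l12
  rw [k02] at l02
  rw [k00] at q0
  rw [k11] at q1
  rw [k22] at q2
  -- the sign of the entries
  obtain ⟨a1', a1⟩ := lt_one_of q0
  obtain ⟨b1', b1⟩ := lt_one_of q1
  obtain ⟨c1', c1⟩ := lt_one_of q2
  refine ⟨?_, ?_, ?_, a1, b1, c1, by linarith, by linarith, by linarith, hdd⟩
  · exact sgn_pos q1 q2 (by linarith) (by linarith) (by linarith)
  · exact sgn_pos q2 q0 (by linarith) (by linarith) (by linarith)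
  · exact sgn_pos q0 q1 (by linarith) (by linarith) (by linarith)

end place

end Pool.Agent.helper69.FlexPoly
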