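import Pool.Agent.helper69.FlexPoly.Cone

set_option autoImplicit false

open MeasureTheory

namespace Pool.Agent.helper69.FlexPoly

section ridge

variable {V : Type} {n : ℕ} (K : OrientedPseudomanifold V n)

lemma exists_perm {F G : Fin n → V} (hF : Function.Injective F) (hG : Function.Injective G)
    (i : Fin n) (h : ∀ k, k ≠ i → F k ∈ Set.range G) :
    ∃ τ : Equiv.Perm (Fin n), ∀ k, k ≠ i → G (τ k) = F k := by
  classical
  choose l hl using h
  let p : Fin n → Prop := fun k => k ≠ i
  let q : Fin n → Prop := fun m => ∃ k, k ≠ i ∧ G m = F k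
  let f : {k // p k} → {m // q m} := fun k => ⟨l k.1 k.2, k.1, k.2, hl k.1 k.2⟩
  have hf : Function.Bijective f := by
    constructor
    · rintro ⟨k, hk⟩ ⟨k', hk'⟩ hkk
      have h1 : l k hk = l k' hk' := congrArg (fun m : {m // q m} => m.1) hkk
      have h2 : F k = F k' := by rw [← hl k hk, ← hl k' hk', h1]
      exact Subtype.ext (hF h2)
    · rintro ⟨m, k, hk, hm⟩
      refine ⟨⟨k, hk⟩, Subtype.ext (hG ?_)⟩
      change G (l k hk) = G m
      rw [hl k hk, hm]
  let e : {k // p k} ≃ {m // q m} := Equiv.ofBijective f hf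
  refine ⟨e.extendSubtype, fun k hk => ?_⟩
  rw [Equiv.extendSubtype_apply_of_mem e k hk]
  exact hl k hk

lemma exists_adj {F : Fin n → V} (hF : F ∈ K.facets) (i : Fin n) :
    ∃ G, G ∈ K.facets ∧ G ≠ F ∧ ∃ τ : Equiv.Perm (Fin n), ∀ k, k ≠ i → G (τ k) = F k := by
  obtain ⟨G, ⟨hG, hne, h⟩, _⟩ := K.two F hF i
  exact ⟨G, hG, hne, exists_perm (K.inj F hF) (K.inj G hG) i h⟩

/-- the facet adjacent to `F` along the face opposite to the `i`-th vertex -/
noncomputable def adj {F : Fin n → V} (hF : F ∈ K.facets) (i : Fin n) : Fin n → V :=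
  (exists_adj K hF i).choose

lemma adj_mem {F : Fin n → V} (hF : F ∈ K.facets) (i : Fin n) : adj K hF i ∈ K.facets :=
  (exists_adj K hF i).choose_spec.1

lemma adj_ne {F : Fin n → V} (hF : F ∈ K.facets) (i : Fin n) : adj K hF i ≠ F :=
  (exists_adj K hF i).choose_spec.2.1

/-- the permutation matching the vertices -/
noncomputable def adjPerm {F : Fin n → V} (hF : F ∈ K.facets) (i : Fin n) :
    Equiv.Perm (Fin n) :=
  (exists_adj K hF i).choose_spec.2.2.choose

lemma adj_perm {F : Fin n → V} (hF : F ∈ K.facets) (i k : Fin n) (hk : k ≠ i) :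
    adj K hF i (adjPerm K hF i k) = F k :=
  (exists_adj K hF i).choose_spec.2.2.choose_spec k hk

lemma adj_adj {F : Fin n → V} (hF : F ∈ K.facets) (i : Fin n) :
    adj K (adj_mem K hF i) (adjPerm K hF i i) = F := by
  set G := adj K hF i with hG
  set τ := adjPerm K hF i with hτ
  have hGm := adj_mem K hF i
  rw [← hG] at hGm
  obtain ⟨H, _, huniq⟩ := K.two G hGm (τ i)
  have h1 : F = H := by
    apply huniq
    refine ⟨hF, (adj_ne K hF i).symm, fun k hk => ?_⟩
    have hk' : τ.symm k ≠ i := by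
      intro h
      apply hk
      rw [← h, Equiv.apply_symm_apply]
    refine ⟨τ.symm k, ?_⟩
    have := adj_perm K hF i (τ.symm k) hk'
    rw [← hτ, Equiv.apply_symm_apply] at this
    exact this.symm
  have h2 : adj K (adj_mem K hF i) (τ i) = H := by
    apply huniq
    refine ⟨adj_mem K _ _, adj_ne K _ _, fun k hk => ?_⟩
    exact ⟨_, adj_perm K (adj_mem K hF i) (τ i) k hk⟩
  rw [h2, ← h1]

lemma adjPerm_adjPerm {F : Fin n → V} (hF : F ∈ K.facets) (i : Fin n) :
    adjPerm K (adj_mem K hF i) (adjPerm K hF i i) (adjPerm K hF i i) = i := by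
  set τ := adjPerm K hF i with hτ
  set τ' := adjPerm K (adj_mem K hF i) (τ i) with hτ'
  have h1 : ∀ k, k ≠ τ i → τ' k = τ.symm k := by
    intro k hk
    have hk' : τ.symm k ≠ i := by
      intro h
      apply hk
      rw [← h, Equiv.apply_symm_apply]
    have e1 := adj_perm K (adj_mem K hF i) (τ i) k hk
    rw [adj_adj K hF i] at e1
    have e2 := adj_perm K hF i (τ.symm k) hk'
    rw [← hτ, Equiv.apply_symm_apply] at e2
    apply K.inj F hF
    rw [← hτ'] at e1
    rw [e1, ← e2]
  by_contra hne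
  -- `i` has a preimage under `τ'`, which is not `τ i`
  obtain ⟨k, hk⟩ := τ'.surjective i
  have hk1 : k ≠ τ i := by
    intro h
    rw [h] at hk
    exact hne hk
  have hk2 := h1 k hk1
  rw [hk] at hk2
  apply hk1
  rw [hk2, Equiv.apply_symm_apply]

/-- The contributions of the codimension one faces cancel. -/
lemma ridge_sum_zero (R : (Fin n → V) → Fin n → ℤ)
    (hR : ∀ F ∈ K.facets, ∀ G ∈ K.facets, ∀ (i : Fin n) (τ : Equiv.Perm (Fin n)),
      (∀ k, k ≠ i → G (τ k) = F k) → R F i = (Equiv.Perm.sign τ : ℤ) * R G (τ i)) :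
    ∑ F ∈ K.facets, ∑ i, K.or F * R F i = 0 := by
  rw [← Finset.sum_product']
  have hmem : ∀ a : (Fin n → V) × Fin n, a ∈ K.facets ×ˢ Finset.univ → a.1 ∈ K.facets := by
    intro a ha
    exact (Finset.mem_product.1 ha).1
  refine Finset.sum_involution
    (fun (a : (Fin n → V) × Fin n) ha => (adj K (hmem a ha) a.2, adjPerm K (hmem a ha) a.2 a.2))
    ?_ ?_ ?_ ?_
  · rintro ⟨F, i⟩ ha
    have hF := hmem _ ha
    have h1 := hR F hF _ (adj_mem K hF i) i (adjPerm K hF i) (fun k hk => adj_perm K hF i k hk)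
    have h2 := K.oriented F hF _ (adj_mem K hF i) (adj_ne K hF i).symm i (adjPerm K hF i)
      (fun k hk => adj_perm K hF i k hk)
    have h3 : ((Equiv.Perm.sign (adjPerm K hF i) : ℤ)) * (Equiv.Perm.sign (adjPerm K hF i) : ℤ) = 1 :=
      Int.units_coe_mul_self _
    have h4 : K.or F = - (K.or (adj K hF i) * (Equiv.Perm.sign (adjPerm K hF i) : ℤ)) := by
      rw [h2]; ring
    simp only
    rw [h1, h4]
    linear_combination (- K.or (adj K hF i) * R (adj K hF i) (adjPerm K hF i i)) * h3
  · rintro ⟨F, i⟩ ha _ h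
    exact adj_ne K (hmem _ ha) i (congrArg Prod.fst h)
  · rintro ⟨F, i⟩ ha
    rw [Finset.mem_product]
    exact ⟨adj_mem K (hmem _ ha) i, Finset.mem_univ _⟩
  · rintro ⟨F, i⟩ ha
    exact Prod.ext (adj_adj K (hmem _ ha) i) (adjPerm_adjPerm K (hmem _ ha) i)

/-- the ridge terms of `chi` -/
lemma chi_ridge (P : V → Fin (n + 1) → ℝ) (z w x : Fin (n + 1) → ℝ) {F G : Fin n → V}
    (i : Fin n) (τ : Equiv.Perm (Fin n)) (h : ∀ k, k ≠ i → G (τ k) = F k) :
    chi (Function.update (Fin.snoc (fun k => P (F k)) z) i.castSucc w) x =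
      (Equiv.Perm.sign τ : ℤ) *
        chi (Function.update (Fin.snoc (fun k => P (G k)) z) (τ i).castSucc w) x := by
  classical
  set σ := τ.viaFintypeEmbedding (Fin.castSuccEmb : Fin n ↪ Fin (n + 1)) with hσ
  have hσ1 : ∀ k : Fin n, σ k.castSucc = (τ k).castSucc := by
    intro k
    exact Equiv.Perm.viaFintypeEmbedding_apply_image τ Fin.castSuccEmb k
  have hσ2 : σ (Fin.last n) = Fin.last n := by
    apply Equiv.Perm.viaFintypeEmbedding_apply_notMem_range
    rintro ⟨k, hk⟩
    exact (Fin.castSucc_lt_last k).ne hk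
  have hσ3 : Equiv.Perm.sign σ = Equiv.Perm.sign τ := by
    rw [hσ, Equiv.Perm.viaFintypeEmbedding_sign]
  have h1 : Function.update (Fin.snoc (fun k => P (F k)) z : Fin (n + 1) → Fin (n + 1) → ℝ)
      i.castSucc w = (Function.update (Fin.snoc (fun k => P (G k)) z :
        Fin (n + 1) → Fin (n + 1) → ℝ) (τ i).castSucc w) ∘ σ := by
    funext k
    refine Fin.lastCases ?_ (fun k => ?_) k
    · rw [Function.comp_apply, hσ2, Function.update_of_ne, Function.update_of_ne,
        Fin.snoc_last (α := fun _ => Fin (n + 1) → ℝ),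
        Fin.snoc_last (α := fun _ => Fin (n + 1) → ℝ)]
      · exact (Fin.castSucc_lt_last _).ne'
      · exact (Fin.castSucc_lt_last _).ne'
    · rw [Function.comp_apply, hσ1]
      by_cases hk : k = i
      · rw [hk, Function.update_self, Function.update_self]
      · rw [Function.update_of_ne, Function.update_of_ne,
          Fin.snoc_castSucc (α := fun _ => Fin (n + 1) → ℝ),
          Fin.snoc_castSucc (α := fun _ => Fin (n + 1) → ℝ), h k hk]
        · intro h'
          exact hk (τ.injective (Fin.castSucc_injective _ h'))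
        · intro h'
          exact hk (Fin.castSucc_injective _ h')
  rw [h1, chi_perm, hσ3]

lemma ridge_chi_zero (P : V → Fin (n + 1) → ℝ) (z w x : Fin (n + 1) → ℝ) :
    ∑ F ∈ K.facets, ∑ i : Fin n, K.or F *
      chi (Function.update (Fin.snoc (fun k => P (F k)) z) i.castSucc w) x = 0 := by
  apply ridge_sum_zero K (fun F i =>
    chi (Function.update (Fin.snoc (fun k => P (F k)) z) i.castSucc w) x)
  intro F _ G _ i τ h
  exact chi_ridge P z w x i τ h

end ridge

end Pool.Agent.helper69.FlexPoly
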