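import Pool.Agent.helper69.FlexPoly.Lune

set_option autoImplicit false

open MeasureTheory

namespace Pool.Agent.helper69.FlexPoly

/-! ### Replacing every facet by the other facets of a cross-polytope -/

section sharp

variable {V : Type} {n : ℕ}

/-- the facets as a type -/
abbrev FT (R : OrientedPseudomanifold V n) : Type := {F // F ∈ R.facets}

/-- the vertices of the new complex -/
abbrev SV (R : OrientedPseudomanifold V n) : Type := V ⊕ (FT R × Fin n)

/-- the facets of the cross-polytope built on the facet `F` -/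
def tup {R : OrientedPseudomanifold V n} (F : FT R) (s : Fin n → Bool) : Fin n → SV R :=
  fun i => if s i then Sum.inr (F, i) else Sum.inl (F.1 i)

variable {R : OrientedPseudomanifold V n}

lemma tup_true {F : FT R} {s : Fin n → Bool} {i : Fin n} (h : s i = true) :
    tup F s i = Sum.inr (F, i) := by
  simp [tup, h]

lemma tup_false {F : FT R} {s : Fin n → Bool} {i : Fin n} (h : s i = false) :
    tup F s i = Sum.inl (F.1 i) := by
  simp [tup, h]

lemma tup_eq_inr {F G : FT R} {s : Fin n → Bool} {i j : Fin n} (h : tup F s i = Sum.inr (G, j)) :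
    s i = true ∧ F = G ∧ i = j := by
  cases hs : s i
  · rw [tup_false hs] at h
    exact absurd h (by simp)
  · rw [tup_true hs] at h
    simp only [Sum.inr.injEq, Prod.mk.injEq] at h
    exact ⟨rfl, h.1, h.2⟩

lemma tup_eq_inl {F : FT R} {s : Fin n → Bool} {i : Fin n} {v : V} (h : tup F s i = Sum.inl v) :
    s i = false ∧ F.1 i = v := by
  cases hs : s i
  · rw [tup_false hs] at h
    exact ⟨rfl, by simpa using h⟩
  · rw [tup_true hs] at h
    exact absurd h (by simp)

lemma tup_ext {F : FT R} {s s' : Fin n → Bool} (h : tup F s = tup F s') : s = s' := by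
  funext i
  have h1 := congrFun h i
  cases hs : s i
  · rw [tup_false hs] at h1
    exact (tup_eq_inl h1.symm).1.symm
  · rw [tup_true hs] at h1
    exact (tup_eq_inr h1.symm).1.symm

lemma tup_inj {F G : FT R} {s s' : Fin n → Bool} (h : tup F s = tup G s') (hs : ∃ i, s i = true) :
    F = G ∧ s = s' := by
  obtain ⟨i, hi⟩ := hs
  have h1 := congrFun h i
  rw [tup_true hi] at h1
  obtain ⟨_, rfl, _⟩ := tup_eq_inr h1.symm
  exact ⟨rfl, tup_ext h⟩

lemma mem_range_inr {F G : FT R} {s : Fin n → Bool} {j : Fin n} :
    Sum.inr (G, j) ∈ Set.range (tup F s) ↔ F = G ∧ s j = true := by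
  constructor
  · rintro ⟨i, hi⟩
    obtain ⟨h1, h2, h3⟩ := tup_eq_inr hi
    exact ⟨h2, h3 ▸ h1⟩
  · rintro ⟨rfl, h⟩
    exact ⟨j, tup_true h⟩

lemma mem_range_inl {F : FT R} {s : Fin n → Bool} {v : V} :
    Sum.inl v ∈ Set.range (tup F s) ↔ ∃ i, s i = false ∧ F.1 i = v := by
  constructor
  · rintro ⟨i, hi⟩
    exact ⟨i, tup_eq_inl hi⟩
  · rintro ⟨i, h, rfl⟩
    exact ⟨i, tup_false h⟩

lemma tup_injective (F : FT R) (s : Fin n → Bool) : Function.Injective (tup F s) := by
  intro i j h
  cases hi : s i
  · rw [tup_false hi] at h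
    have h1 := (tup_eq_inl h.symm).2
    exact (R.inj F.1 F.2 h1).symm
  · rw [tup_true hi] at h
    exact (tup_eq_inr h.symm).2.2.symm

open Classical in
/-- the facets of the new complex -/
noncomputable def shFacets (R : OrientedPseudomanifold V n) : Finset (Fin n → SV R) :=
  ((Finset.univ : Finset (FT R × (Fin n → Bool))).filter fun p => ∃ i, p.2 i = true).image
    fun p => tup p.1 p.2

lemma mem_shFacets {G : Fin n → SV R} :
    G ∈ shFacets R ↔ ∃ F s, (∃ i, s i = true) ∧ G = tup F s := by
  classical
  unfold shFacets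
  simp only [Finset.mem_image, Finset.mem_filter, Finset.mem_univ, true_and, Prod.exists]
  constructor
  · rintro ⟨F, s, hs, rfl⟩
    exact ⟨F, s, hs, rfl⟩
  · rintro ⟨F, s, hs, rfl⟩
    exact ⟨F, s, hs, rfl⟩

open Classical in
/-- the orientation of the new complex -/
noncomputable def shOr (R : OrientedPseudomanifold V n) (G : Fin n → SV R) : ℤ :=
  ∑ p : FT R × (Fin n → Bool), if tup p.1 p.2 = G then - (R.or p.1.1 * ∏ i, sg (p.2 i)) else 0

lemma shOr_tup (F : FT R) {s : Fin n → Bool} (hs : ∃ i, s i = true) :
    shOr R (tup F s) = - (R.or F.1 * ∏ i, sg (s i)) := by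
  classical
  unfold shOr
  rw [Finset.sum_eq_single (F, s)]
  · simp
  · rintro ⟨G, s'⟩ _ hne
    rw [if_neg]
    intro h
    obtain ⟨h1, h2⟩ := tup_inj h.symm hs
    exact hne (by rw [h1, h2])
  · intro h
    exact absurd (Finset.mem_univ _) h

lemma prod_sg_sq (s : Fin n → Bool) : (∏ i, sg (s i) = 1) ∨ (∏ i, sg (s i) = -1) := by
  have h : ∀ (S : Finset (Fin n)), (∏ i ∈ S, sg (s i) = 1) ∨ (∏ i ∈ S, sg (s i) = -1) := by
    intro S
    induction S using Finset.induction_on with
    | empty => left; simp
    | insert a S ha ih =>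
        rw [Finset.prod_insert ha]
        rcases ih with h | h <;> rw [h] <;> generalize s a = b <;> revert b <;> decide
  exact h Finset.univ

lemma prod_sg_single (i : Fin n) : ∏ k, sg (decide (k = i)) = -1 := by
  rw [Finset.prod_eq_single i]
  · simp [sg]
  · intro k _ hk
    simp [sg, hk]
  · intro h
    exact absurd (Finset.mem_univ _) h

/-- a facet that contains all vertices `F k`, `k ≠ i`, and one more vertex -/
lemma exists_rest {F G : Fin n → V} (hF : Function.Injective F) (i : Fin n)
    (h : ∀ k, k ≠ i → F k ∈ Set.range G) : ∃ j, (∀ k, k ≠ i → ∃ l, l ≠ j ∧ G l = F k) ∧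
      (∀ l, l ≠ j → ∃ k, k ≠ i ∧ F k = G l) := by
  classical
  choose f hf using h
  -- extend `f` to a permutation
  set f' : {k // k ≠ i} → Fin n := fun k => f k.1 k.2 with hf'
  have hinj : Function.Injective f' := by
    intro k l hkl
    apply Subtype.ext
    apply hF
    rw [← hf k.1 k.2, ← hf l.1 l.2]
    exact congrArg G hkl
  have hcard : (Finset.univ.image f').card = n - 1 := by
    rw [Finset.card_image_of_injective _ hinj, Finset.card_univ, Fintype.card_subtype_compl,
      Fintype.card_fin, Fintype.card_subtype_eq]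
  have hn : 0 < n := i.pos
  have hc : (Finset.univ.image f')ᶜ.card = 1 := by
    rw [Finset.card_compl, Fintype.card_fin, hcard]
    omega
  obtain ⟨j, hj⟩ := Finset.card_eq_one.1 hc
  have hj' : ∀ l, l ≠ j ↔ ∃ k : {k // k ≠ i}, f' k = l := by
    intro l
    have h1 : l ∈ (Finset.univ.image f')ᶜ ↔ l ∈ ({j} : Finset (Fin n)) := by rw [hj]
    rw [Finset.mem_compl, Finset.mem_singleton, Finset.mem_image] at h1
    constructor
    · intro h2
      by_contra h3
      apply h2
      apply h1.1
      rintro ⟨k, _, hk⟩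
      exact h3 ⟨k, hk⟩
    · rintro ⟨k, hk⟩ h2
      exact (h1.2 h2) ⟨k, Finset.mem_univ _, hk⟩
  refine ⟨j, ?_, ?_⟩
  · intro k hk
    exact ⟨f k hk, (hj' _).2 ⟨⟨k, hk⟩, rfl⟩, hf k hk⟩
  · intro l hl
    obtain ⟨⟨k, hk⟩, hkl⟩ := (hj' l).1 hl
    exact ⟨k, hk, by rw [← hkl]; exact (hf k hk).symm⟩

/-- the sign vector that is `true` at `i` only -/
def single (i : Fin n) : Fin n → Bool := fun k => decide (k = i)

lemma single_self (i : Fin n) : single i i = true := by simp [single]

lemma single_ne {i k : Fin n} (h : k ≠ i) : single i k = false := by simp [single, h]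

lemma eq_single {s : Fin n → Bool} {i : Fin n} (hi : s i = true) (h : ∀ k, k ≠ i → s k = false) :
    s = single i := by
  funext k
  by_cases hk : k = i
  · rw [hk, hi, single_self]
  · rw [h k hk, single_ne hk]

lemma sh_two (F : FT R) (s : Fin n → Bool) (hs : ∃ i, s i = true) (i : Fin n) :
    ∃! G, G ∈ shFacets R ∧ G ≠ tup F s ∧ ∀ k, k ≠ i → tup F s k ∈ Set.range G := by
  by_cases h : ∃ k, k ≠ i ∧ s k = true
  · -- the neighbour lies in the same cross-polytope
    obtain ⟨k₀, hk₀, hsk₀⟩ := h
    refine ⟨tup F (Function.update s i (! s i)), ⟨?_, ?_, ?_⟩, ?_⟩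
    · rw [mem_shFacets]
      refine ⟨F, _, ⟨k₀, ?_⟩, rfl⟩
      rw [Function.update_of_ne hk₀, hsk₀]
    · intro h1
      have h2 := congrFun (tup_ext h1) i
      simp at h2
    · intro k hk
      refine ⟨k, ?_⟩
      unfold tup
      rw [Function.update_of_ne hk]
    · rintro G ⟨hG, hne, hGk⟩
      obtain ⟨F', s', hs', rfl⟩ := mem_shFacets.1 hG
      have h1 := hGk k₀ hk₀
      rw [tup_true hsk₀, mem_range_inr] at h1
      obtain ⟨rfl, _⟩ := h1
      have h2 : ∀ k, k ≠ i → s' k = s k := by
        intro k hk
        have h3 := hGk k hk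
        cases hsk : s k
        · rw [tup_false hsk, mem_range_inl] at h3
          obtain ⟨l, hl1, hl2⟩ := h3
          have h4 := R.inj _ F'.2 hl2
          rw [← h4]; exact hl1
        · rw [tup_true hsk, mem_range_inr] at h3
          exact h3.2
      congr 1
      funext k
      by_cases hk : k = i
      · rw [hk, Function.update_self]
        have h3 : s' i ≠ s i := by
          intro h4
          apply hne
          congr 1
          funext l
          by_cases hl : l = i
          · rw [hl, h4]
          · exact h2 l hl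
        revert h3; generalize s' i = a; generalize s i = b
        revert a b; decide
      · rw [Function.update_of_ne hk, h2 k hk]
  · -- the neighbour lies in the cross-polytope of the neighbour of `F`
    push Not at h
    have hsf : ∀ k, k ≠ i → s k = false := fun k hk => by simpa using h k hk
    have hsi : s i = true := by
      obtain ⟨j, hj⟩ := hs
      by_cases hji : j = i
      · rw [← hji]; exact hj
      · rw [hsf j hji] at hj; exact absurd hj (by simp)
    have hss := eq_single hsi hsf
    obtain ⟨G, ⟨hG, hGF, hGk⟩, huniq⟩ := R.two F.1 F.2 i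
    obtain ⟨j, hj1, hj2⟩ := exists_rest (R.inj _ F.2) i hGk
    refine ⟨tup ⟨G, hG⟩ (single j), ⟨?_, ?_, ?_⟩, ?_⟩
    · rw [mem_shFacets]
      exact ⟨⟨G, hG⟩, _, ⟨j, single_self j⟩, rfl⟩
    · intro h1
      have h2 := (tup_inj h1 ⟨j, single_self j⟩).1
      exact hGF (congrArg Subtype.val h2)
    · intro k hk
      rw [tup_false (hsf k hk), mem_range_inl]
      obtain ⟨l, hl1, hl2⟩ := hj1 k hk
      exact ⟨l, single_ne hl1, hl2⟩
    · rintro G' ⟨hG', hne, hGk'⟩
      obtain ⟨F', s', hs', rfl⟩ := mem_shFacets.1 hG'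
      have h1 : ∀ k, k ≠ i → ∃ l, s' l = false ∧ F'.1 l = F.1 k := by
        intro k hk
        have h2 := hGk' k hk
        rw [tup_false (hsf k hk), mem_range_inl] at h2
        exact h2
      obtain ⟨j', hj1', hj2'⟩ := exists_rest (R.inj _ F.2) i (G := F'.1) (fun k hk => by
        obtain ⟨l, _, hl⟩ := h1 k hk
        exact ⟨l, hl⟩)
      have h3 : ∀ l, l ≠ j' → s' l = false := by
        intro l hl
        obtain ⟨k, hk, hkl⟩ := hj2' l hl
        obtain ⟨l', hl1, hl2⟩ := h1 k hk
        have h4 := R.inj _ F'.2 (hl2.trans hkl)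
        rw [← h4]; exact hl1
      have h4 : s' j' = true := by
        obtain ⟨l, hl⟩ := hs'
        by_cases hlj : l = j'
        · rw [← hlj]; exact hl
        · rw [h3 l hlj] at hl; exact absurd hl (by simp)
      have h5 := eq_single h4 h3
      by_cases hFF : F'.1 = F.1
      · exfalso
        apply hne
        have hF' : F' = F := Subtype.ext hFF
        subst hF'
        rw [h5, hss]
        congr 2
        by_contra hji
        obtain ⟨k, hk, hki⟩ := hj2' i (fun h6 => hji h6.symm)
        exact hk (R.inj _ F'.2 hki)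
      · have h6 : F'.1 = G := huniq F'.1 ⟨F'.2, hFF, fun k hk => by
          obtain ⟨l, _, hl⟩ := h1 k hk
          exact ⟨l, hl⟩⟩
        have h7 : F' = ⟨G, hG⟩ := Subtype.ext h6
        subst h7
        rw [h5]
        congr 2
        by_contra hji
        obtain ⟨k, hk, hki⟩ := hj2' j (fun h8 => hji h8.symm)
        obtain ⟨l, hl, hlk⟩ := hj1 k hk
        exact hl (R.inj _ hG (hlk.trans hki))

lemma sh_oriented (F G : FT R) (s s' : Fin n → Bool) (hs : ∃ i, s i = true)
    (hs' : ∃ i, s' i = true) (hne : tup F s ≠ tup G s') (i : Fin n) (τ : Equiv.Perm (Fin n))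
    (hτ : ∀ k, k ≠ i → tup G s' (τ k) = tup F s k) :
    shOr R (tup G s') * (Equiv.Perm.sign τ : ℤ) = - shOr R (tup F s) := by
  rw [shOr_tup F hs, shOr_tup G hs']
  by_cases hFG : F = G
  · subst hFG
    have h1 : ∀ k, k ≠ i → τ k = k ∧ s' k = s k := by
      intro k hk
      have h2 := hτ k hk
      cases hsk : s k
      · rw [tup_false hsk] at h2
        obtain ⟨h3, h4⟩ := tup_eq_inl h2
        have h5 := R.inj _ F.2 h4
        exact ⟨h5, by rw [h5] at h3; exact h3⟩
      · rw [tup_true hsk] at h2
        obtain ⟨h3, _, h5⟩ := tup_eq_inr h2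
        exact ⟨h5, by rw [h5] at h3; exact h3⟩
    have hτ1 : τ = 1 := by
      ext k
      by_cases hk : k = i
      · subst hk
        have : τ k = k := by
          by_contra hne'
          have h2 := (h1 (τ k) hne').1
          exact hne' (τ.injective h2)
        rw [this]; rfl
      · rw [(h1 k hk).1]; rfl
    rw [hτ1, Equiv.Perm.sign_one, Units.val_one, mul_one,
      prod_sg_update s s' i (fun k hk => (h1 k hk).2)]
    · ring
    · intro h
      apply hne
      congr 1
      funext k
      by_cases hk : k = i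
      · rw [hk, h]
      · exact ((h1 k hk).2).symm
  · have h1 : ∀ k, k ≠ i → s k = false := by
      intro k hk
      by_contra h2
      have h3 : s k = true := by simpa using h2
      have h4 := hτ k hk
      rw [tup_true h3] at h4
      exact hFG (tup_eq_inr h4).2.1.symm
    have h2 : s i = true := by
      obtain ⟨j, hj⟩ := hs
      by_cases hji : j = i
      · rw [← hji]; exact hj
      · rw [h1 j hji] at hj; exact absurd hj (by simp)
    have h3 : ∀ k, k ≠ i → s' (τ k) = false ∧ G.1 (τ k) = F.1 k := by
      intro k hk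
      have h4 := hτ k hk
      rw [tup_false (h1 k hk)] at h4
      exact tup_eq_inl h4
    have h4 : s' (τ i) = true := by
      obtain ⟨j, hj⟩ := hs'
      by_cases hji : τ.symm j = i
      · rw [← hji, Equiv.apply_symm_apply]; exact hj
      · have := (h3 _ hji).1
        rw [Equiv.apply_symm_apply, hj] at this
        exact absurd this (by simp)
    have h5 : s = single i := eq_single h2 h1
    have h6 : s' = single (τ i) := by
      apply eq_single h4
      intro k hk
      have h7 : τ.symm k ≠ i := by
        intro h8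
        apply hk
        rw [← h8, Equiv.apply_symm_apply]
      have := (h3 _ h7).1
      rwa [Equiv.apply_symm_apply] at this
    have h7 := R.oriented F.1 F.2 G.1 G.2 (fun h8 => hFG (Subtype.ext h8)) i τ
      (fun k hk => (h3 k hk).2)
    rw [h5, h6]
    unfold single
    rw [prod_sg_single, prod_sg_single]
    linear_combination h7

/-- adjacency of facets -/
def Adj {W : Type} (S : Finset (Fin n → W)) (A B : Fin n → W) : Prop :=
  B ∈ S ∧ ∃ i, ∀ k, k ≠ i → A k ∈ Set.range B

lemma sh_conn_cube (F : FT R) (s : Fin n → Bool) :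
    Relation.ReflTransGen (Adj (shFacets R)) (tup F s) (tup F fun _ => true) := by
  classical
  have key : ∀ S : Finset (Fin n), Relation.ReflTransGen (Adj (shFacets R)) (tup F s)
      (tup F fun i => if i ∈ S then true else s i) := by
    intro S
    induction S using Finset.induction_on with
    | empty =>
        simp only [Finset.notMem_empty, if_false]
        exact Relation.ReflTransGen.refl
    | insert a S ha ih =>
        refine ih.tail ⟨?_, a, ?_⟩
        · rw [mem_shFacets]
          refine ⟨F, _, ⟨a, ?_⟩, rfl⟩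
          simp
        · intro k hk
          refine ⟨k, ?_⟩
          unfold tup
          simp [hk]
  have h := key Finset.univ
  simpa using h

lemma sh_conn_cube' (F : FT R) (s : Fin n → Bool) (hs : ∃ i, s i = true) :
    Relation.ReflTransGen (Adj (shFacets R)) (tup F fun _ => true) (tup F s) := by
  classical
  have key : ∀ S : Finset (Fin n), Relation.ReflTransGen (Adj (shFacets R))
      (tup F fun _ => true) (tup F fun i => if i ∈ S then s i else true) := by
    intro S
    induction S using Finset.induction_on with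
    | empty =>
        simp only [Finset.notMem_empty, if_false]
        exact Relation.ReflTransGen.refl
    | insert a S ha ih =>
        refine ih.tail ⟨?_, a, ?_⟩
        · rw [mem_shFacets]
          obtain ⟨i, hi⟩ := hs
          refine ⟨F, _, ⟨i, ?_⟩, rfl⟩
          simp [hi]
        · intro k hk
          refine ⟨k, ?_⟩
          unfold tup
          simp [hk]
  have h := key Finset.univ
  simpa using h

lemma sh_connected (F G : FT R) (s s' : Fin n → Bool) (hs : ∃ i, s i = true)
    (hs' : ∃ i, s' i = true) :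
    Relation.ReflTransGen (Adj (shFacets R)) (tup F s) (tup G s') := by
  have hmem : ∀ (F : FT R) (s : Fin n → Bool), (∃ i, s i = true) → tup F s ∈ shFacets R :=
    fun F s hs => mem_shFacets.2 ⟨F, s, hs, rfl⟩
  have h1 := R.connected F.1 F.2 G.1 G.2
  have key : ∀ B : Fin n → V, Relation.ReflTransGen (fun A B => B ∈ R.facets ∧
      ∃ i, ∀ k, k ≠ i → A k ∈ Set.range B) F.1 B → ∀ hB : B ∈ R.facets, 
      Relation.ReflTransGen (Adj (shFacets R)) (tup F fun _ => true)
        (tup ⟨B, hB⟩ fun _ => true) := by
    intro B hB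
    induction hB with
    | refl => intro _; exact Relation.ReflTransGen.refl
    | @tail A B hA hAB ih =>
        intro hB
        have hA' : A ∈ R.facets := by
          rcases Relation.ReflTransGen.cases_tail hA with h | ⟨C, _, hC⟩
          · rw [h]; exact F.2
          · exact hC.1
        refine (ih hA').trans ?_
        obtain ⟨_, i, hi⟩ := hAB
        obtain ⟨j, hj1, hj2⟩ := exists_rest (R.inj _ hA') i hi
        refine (sh_conn_cube' ⟨A, hA'⟩ (single i) ⟨i, single_self i⟩).trans
          (Relation.ReflTransGen.head ?_ (sh_conn_cube ⟨B, hB⟩ (single j)))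
        refine ⟨hmem _ _ ⟨j, single_self j⟩, i, ?_⟩
        intro k hk
        rw [tup_false (single_ne hk), mem_range_inl]
        obtain ⟨l, hl1, hl2⟩ := hj1 k hk
        exact ⟨l, single_ne hl1, hl2⟩
  exact (sh_conn_cube F s).trans ((key G.1 h1 G.2).trans (sh_conn_cube' G s' hs'))

/-- The new complex: every facet `F` of `R` is replaced by all other facets of the boundary of a
cross-polytope that has `F` as a facet. -/
noncomputable def sharp (R : OrientedPseudomanifold V n) (hn : 2 ≤ n) :
    OrientedPseudomanifold (SV R) n where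
  facets := shFacets R
  or := shOr R
  or_eq := by
    intro G hG
    obtain ⟨F, s, hs, rfl⟩ := mem_shFacets.1 hG
    rw [shOr_tup F hs]
    rcases R.or_eq F.1 F.2 with h1 | h1 <;> rcases prod_sg_sq s with h2 | h2 <;>
      rw [h1, h2] <;> simp
  nonempty := by
    obtain ⟨F, hF⟩ := R.nonempty
    exact ⟨tup ⟨F, hF⟩ (fun _ => true), mem_shFacets.2 ⟨⟨F, hF⟩, _, ⟨⟨0, by omega⟩, rfl⟩, rfl⟩⟩
  inj := by
    intro G hG
    obtain ⟨F, s, hs, rfl⟩ := mem_shFacets.1 hG
    exact tup_injective F s
  cover := by
    rintro (v | ⟨F, i⟩)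
    · obtain ⟨F, hF, i, rfl⟩ := R.cover v
      obtain ⟨k, hk⟩ : ∃ k : Fin n, k ≠ i := by
        have : Nontrivial (Fin n) := Fin.nontrivial_iff_two_le.2 hn
        exact exists_ne i
      refine ⟨tup ⟨F, hF⟩ (single k), mem_shFacets.2 ⟨⟨F, hF⟩, _, ⟨k, single_self k⟩, rfl⟩, i, ?_⟩
      exact tup_false (single_ne hk.symm)
    · exact ⟨tup F (single i), mem_shFacets.2 ⟨F, _, ⟨i, single_self i⟩, rfl⟩, i,
        tup_true (single_self i)⟩
  distinct := by
    intro A hA B hB h
    obtain ⟨F, s, hs, rfl⟩ := mem_shFacets.1 hA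
    obtain ⟨G, s', hs', rfl⟩ := mem_shFacets.1 hB
    obtain ⟨i, hi⟩ := hs
    have h1 : Sum.inr (F, i) ∈ Set.range (tup G s') := by
      rw [← h]; exact ⟨i, tup_true hi⟩
    rw [mem_range_inr] at h1
    obtain ⟨rfl, _⟩ := h1
    congr 1
    funext k
    have h2 : Sum.inr (G, k) ∈ Set.range (tup G s) ↔ Sum.inr (G, k) ∈ Set.range (tup G s') := by
      rw [h]
    rw [mem_range_inr, mem_range_inr] at h2
    simp only [true_and] at h2
    exact Bool.eq_iff_iff.2 h2
  two := by
    intro A hA i
    obtain ⟨F, s, hs, rfl⟩ := mem_shFacets.1 hA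
    exact sh_two F s hs i
  oriented := by
    intro A hA B hB hne i τ hτ
    obtain ⟨F, s, hs, rfl⟩ := mem_shFacets.1 hA
    obtain ⟨G, s', hs', rfl⟩ := mem_shFacets.1 hB
    exact sh_oriented F G s s' hs hs' hne i τ hτ
  connected := by
    intro A hA B hB
    obtain ⟨F, s, hs, rfl⟩ := mem_shFacets.1 hA
    obtain ⟨G, s', hs', rfl⟩ := mem_shFacets.1 hB
    exact sh_connected F G s s' hs hs'

end sharp

end Pool.Agent.helper69.FlexPoly
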