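import Pool.Agent.helper69.FlexPoly.Flat

set_option autoImplicit false

open MeasureTheory Filter Topology

namespace Pool.Agent.helper69.FlexPoly

/-! ### Normalised vectors -/

section nz

variable {n : ℕ}

/-- the normalised vector -/
noncomputable def nz (v : Fin (n + 1) → ℝ) : Fin (n + 1) → ℝ := (√(v ⬝ᵥ v))⁻¹ • v

lemma dot_self_pos {v : Fin (n + 1) → ℝ} (hv : v ≠ 0) : 0 < v ⬝ᵥ v := by
  have h1 : 0 ≤ v ⬝ᵥ v := by
    simp only [dotProduct]
    exact Finset.sum_nonneg fun i _ => mul_self_nonneg _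
  rcases h1.lt_or_eq with h | h
  · exact h
  · exact absurd (dotProduct_self_eq_zero.1 h.symm) hv

lemma nz_pos {v : Fin (n + 1) → ℝ} (hv : v ≠ 0) : 0 < (√(v ⬝ᵥ v))⁻¹ :=
  inv_pos.2 (Real.sqrt_pos.2 (dot_self_pos hv))

lemma nz_onSphere {v : Fin (n + 1) → ℝ} (hv : v ≠ 0) : OnSphere (nz v) := by
  have h1 := dot_self_pos hv
  have h2 : nz v ⬝ᵥ nz v = 1 := by
    unfold nz
    rw [smul_dotProduct, dotProduct_smul, smul_eq_mul, smul_eq_mul]
    have h3 := Real.mul_self_sqrt h1.le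
    have h4 := (Real.sqrt_pos.2 h1).ne'
    rw [← mul_assoc, ← mul_inv, h3, inv_mul_cancel₀ h1.ne']
  unfold OnSphere
  rw [← h2]
  simp only [dotProduct, sq]

lemma nz_dot (v w : Fin (n + 1) → ℝ) : nz v ⬝ᵥ nz w =
    (√(v ⬝ᵥ v))⁻¹ * ((√(w ⬝ᵥ w))⁻¹ * (v ⬝ᵥ w)) := by
  unfold nz
  rw [smul_dotProduct, dotProduct_smul, smul_eq_mul, smul_eq_mul]

lemma nz_neg (v : Fin (n + 1) → ℝ) : nz (-v) = - nz v := by
  unfold nz
  rw [neg_dotProduct_neg, smul_neg]

lemma nz_mv {M : Matrix (Fin (n + 1)) (Fin (n + 1)) ℝ} (hM : M.transpose * M = 1)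
    (v : Fin (n + 1) → ℝ) : M.mulVec (nz v) = nz (M.mulVec v) := by
  unfold nz
  rw [mulVec_dot hM, Matrix.mulVec_smul]

lemma continuous_nz {X : Type*} [TopologicalSpace X] {f : X → Fin (n + 1) → ℝ}
    (hf : Continuous f) (h : ∀ x, f x ≠ 0) : Continuous fun x => nz (f x) := by
  unfold nz
  have h1 : Continuous fun x => (√(f x ⬝ᵥ f x))⁻¹ := by
    apply Continuous.inv₀
    · apply Real.continuous_sqrt.comp
      simp only [dotProduct]
      fun_prop
    · intro x
      exact (Real.sqrt_pos.2 (dot_self_pos (h x))).ne'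
  exact h1.smul hf

/-- the cross-polytope with the vertices `nz (A i)` and `nz (B i)` -/
noncomputable def crs (A B : Fin n → Fin (n + 1) → ℝ) (v : Fin n × Bool) : Fin (n + 1) → ℝ :=
  nz (if v.2 then B v.1 else A v.1)

lemma linInd_of {A B ν : Fin n → Fin (n + 1) → ℝ}
    (hA : ∀ j k, A j ⬝ᵥ ν k = if j = k then 1 else 0) (hA' : ∀ j, A j (Fin.last n) = 0)
    (hB : ∀ w : Fin n → ℝ, (∀ k, w k * ∑ i, w i * (B i ⬝ᵥ ν k) = 0) →
      ∑ i, w i * B i (Fin.last n) = 0 → w = 0) (s : Fin n → Bool) :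
    LinearIndependent ℝ (fun k => if s k then B k else A k) := by
  rw [Fintype.linearIndependent_iff]
  intro g hg
  set w : Fin n → ℝ := fun k => if s k then g k else 0 with hw
  have h1 : ∀ k, ∑ i, g i * ((if s i then B i else A i) ⬝ᵥ ν k) = 0 := by
    intro k
    have h2 := congrArg (fun z => z ⬝ᵥ ν k) hg
    simp only [sum_dotProduct, smul_dotProduct, smul_eq_mul, zero_dotProduct] at h2
    exact h2
  have h2 : ∀ k, ∑ i, w i * (B i ⬝ᵥ ν k) + (g k - w k) = 0 := by
    intro k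
    rw [← h1 k]
    have h3 : ∀ i, g i * ((if s i then B i else A i) ⬝ᵥ ν k) =
        w i * (B i ⬝ᵥ ν k) + (g i - w i) * (if i = k then 1 else 0) := by
      intro i
      by_cases hi : s i
      · simp [hw, hi]
      · simp [hw, hi, hA]
    rw [Finset.sum_congr rfl fun i _ => h3 i, Finset.sum_add_distrib]
    simp
  have h3 : w = 0 := by
    apply hB
    · intro k
      by_cases hk : s k
      · have h4 := h2 k
        have h5 : w k = g k := by simp [hw, hk]
        rw [h5, sub_self, add_zero] at h4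
        rw [h4, mul_zero]
      · simp [hw, hk]
    · have h4 := congrFun hg (Fin.last n)
      rw [Finset.sum_apply] at h4
      refine Eq.trans ?_ h4
      apply Finset.sum_congr rfl
      intro i _
      by_cases hi : s i
      · simp [hw, hi]
      · simp [hw, hi, hA']
  intro k
  have h4 := h2 k
  rw [h3] at h4
  simpa using h4

lemma crs_ne_zero {A B ν : Fin n → Fin (n + 1) → ℝ}
    (hA : ∀ j k, A j ⬝ᵥ ν k = if j = k then 1 else 0) (hA' : ∀ j, A j (Fin.last n) = 0)
    (hB : ∀ w : Fin n → ℝ, (∀ k, w k * ∑ i, w i * (B i ⬝ᵥ ν k) = 0) →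
      ∑ i, w i * B i (Fin.last n) = 0 → w = 0) (i : Fin n) (b : Bool) :
    (if b then B i else A i) ≠ 0 :=
  (linInd_of hA hA' hB (fun _ => b)).ne_zero i

lemma crs_linInd {A B ν : Fin n → Fin (n + 1) → ℝ}
    (hA : ∀ j k, A j ⬝ᵥ ν k = if j = k then 1 else 0) (hA' : ∀ j, A j (Fin.last n) = 0)
    (hB : ∀ w : Fin n → ℝ, (∀ k, w k * ∑ i, w i * (B i ⬝ᵥ ν k) = 0) →
      ∑ i, w i * B i (Fin.last n) = 0 → w = 0) (s : Fin n → Bool) :
    LinearIndependent ℝ (fun k => crs A B (k, s k)) := by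
  have h := linInd_of hA hA' hB s
  have hne : ∀ k, (√((if s k then B k else A k) ⬝ᵥ (if s k then B k else A k)))⁻¹ ≠ 0 :=
    fun k => (nz_pos (crs_ne_zero hA hA' hB k (s k))).ne'
  exact h.units_smul (fun k => Units.mk0 _ (hne k))

lemma crs_isPolyhedron {A B ν : Fin n → Fin (n + 1) → ℝ}
    (hA : ∀ j k, A j ⬝ᵥ ν k = if j = k then 1 else 0) (hA' : ∀ j, A j (Fin.last n) = 0)
    (hB : ∀ w : Fin n → ℝ, (∀ k, w k * ∑ i, w i * (B i ⬝ᵥ ν k) = 0) →
      ∑ i, w i * B i (Fin.last n) = 0 → w = 0) :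
    IsPolyhedron (crossPolytope n) (crs A B) := by
  constructor
  · rintro ⟨i, b⟩
    exact nz_onSphere (crs_ne_zero hA hA' hB i b)
  · intro F hF
    obtain ⟨s, rfl⟩ := mem_facets hF
    exact crs_linInd hA hA' hB s

/-- Replacing vertices by their antipodes preserves polyhedra. -/
lemma IsPolyhedron.antipodes {V : Type} {K : OrientedPseudomanifold V n}
    {P : V → Fin (n + 1) → ℝ} (h : IsPolyhedron K P) (A : Set V) :
    IsPolyhedron K (antipodes A P) := by
  classical
  constructor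
  · intro v
    have := h.1 v
    unfold OnSphere FlexPoly.antipodes at *
    split_ifs
    · simpa using this
    · exact this
  · intro F hF
    have h1 := h.2 F hF
    have h2 := h1.units_smul (fun i => if F i ∈ A then (-1 : ℝˣ) else 1)
    convert h2 using 1
    funext i
    simp only [FlexPoly.antipodes, Pi.smul_apply']
    split_ifs
    · simp [Units.smul_def]
    · simp

end nz

end Pool.Agent.helper69.FlexPoly
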