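import Pool.Agent.helper69.FlexPoly.Homot

set_option autoImplicit false

open MeasureTheory Filter Topology

namespace Pool.Agent.helper69.FlexPoly

section split

variable {n : ℕ} {N : Matrix (Fin n) (Fin n) ℝ} {x : Fin n → Fin n → ℝ} {c s : Fin n → ℝ}
  {lam : Fin n → ℝ}

/-- the vectors `c_i A_i + s_i e` -/
noncomputable def vD (N : Matrix (Fin n) (Fin n) ℝ) (c s : Fin n → ℝ) (i : Fin n) :
    Fin (n + 1) → ℝ := ext (fun l => c i * du N i l) (s i)

/-- the vectors of the homotopy from `vB` to `vD` -/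
noncomputable def vH (N : Matrix (Fin n) (Fin n) ℝ) (x : Fin n → Fin n → ℝ) (c s : Fin n → ℝ)
    (u : ℝ) (i : Fin n) : Fin (n + 1) → ℝ :=
  ext (fun l => (1 - u) * (∑ k, x i k * du N k l + c i * N i l) + u * (c i * du N i l)) (s i)

lemma vH_zero : vH N x c s 0 = vB N x c s := by
  funext i
  unfold vH vB
  simp

lemma vH_one : vH N x c s 1 = vD N c s := by
  funext i
  unfold vH vD
  simp

lemma vH_dot (hN : N.det ≠ 0) (u : ℝ) (i k : Fin n) :
    vH N x c s u i ⬝ᵥ ext (N k) 0 = (1 - u) * (x i k + c i * gr N i k) +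
      u * (c i * (if i = k then 1 else 0)) := by
  have h1 := vB_dot (x := x) (c := c) (s := s) hN i k
  have h2 := vA_dot hN i k
  unfold vB at h1
  unfold vA at h2
  rw [ext_dot] at h1 h2
  unfold vH
  rw [ext_dot, ← h2, ← h1]
  simp only [mul_zero, add_zero, Finset.mul_sum]
  rw [← Finset.sum_add_distrib]
  refine Finset.sum_congr rfl fun l _ => ?_
  ring

lemma key_H (hN : N.det ≠ 0) (hx : ∀ i j, x i j = - x j i)
    (hrel : ∀ i j, s i * s j = gr N i j * (1 - c i * c j) + x i j * (c i - c j))
    (hc : ∀ i j, c i = 0 → c j = 0 → i = j) (hs : ∀ i, c i = 0 → s i ≠ 0)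
    {u : ℝ} (hu0 : 0 ≤ u) (hu1 : u ≤ 1)
    (w : Fin n → ℝ) (h1 : ∀ k, w k * ∑ i, w i * (vH N x c s u i ⬝ᵥ ext (N k) 0) = 0)
    (h2 : ∑ i, w i * vH N x c s u i (Fin.last n) = 0) : w = 0 := by
  simp only [vH_dot hN] at h1
  simp only [vH, ext_last] at h2
  set Qw := ∑ i, ∑ j, w i * w j * gr N i j with hQw
  set Qc := ∑ i, ∑ j, (w i * c i) * (w j * c j) * gr N i j with hQc
  set Z := ∑ i, ∑ j, w i * w j * x i j * c j with hZ
  have e1 : ∑ i, ∑ j, w i * w j * x i j * c i = -Z := by
    rw [Finset.sum_comm, hZ, ← Finset.sum_neg_distrib]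
    refine Finset.sum_congr rfl fun i _ => ?_
    rw [← Finset.sum_neg_distrib]
    refine Finset.sum_congr rfl fun j _ => ?_
    rw [hx j i]; ring
  have e2 : Qw - Qc - 2 * Z = 0 := by
    have e3 : (∑ i, w i * s i) * (∑ j, w j * s j) = Qw - Qc + ∑ i, ∑ j, w i * w j * x i j * c i -
        Z := by
      rw [Finset.sum_mul_sum, hQw, hQc, hZ, ← Finset.sum_sub_distrib, ← Finset.sum_add_distrib,
        ← Finset.sum_sub_distrib]
      refine Finset.sum_congr rfl fun i _ => ?_
      rw [← Finset.sum_sub_distrib, ← Finset.sum_add_distrib, ← Finset.sum_sub_distrib]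
      refine Finset.sum_congr rfl fun j _ => ?_
      linear_combination (w i * w j) * hrel i j
    rw [h2, e1, zero_mul] at e3
    linarith
  have e4 : (1 - u) * (Z + Qc) + u * ∑ k, (w k * c k) ^ 2 = 0 := by
    have e5 : ∑ k, c k * (w k * ∑ i, w i * ((1 - u) * (x i k + c i * gr N i k) +
        u * (c i * (if i = k then 1 else 0)))) =
        (1 - u) * (Z + Qc) + u * ∑ k, (w k * c k) ^ 2 := by
      have e6 : ∀ k, c k * (w k * ∑ i, w i * ((1 - u) * (x i k + c i * gr N i k) +
          u * (c i * (if i = k then 1 else 0)))) =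
          (1 - u) * (∑ i, w i * w k * x i k * c k + ∑ i, (w i * c i) * (w k * c k) * gr N i k) +
            u * (w k * c k) ^ 2 := by
        intro k
        have e7 : ∀ i, w i * ((1 - u) * (x i k + c i * gr N i k) +
            u * (c i * (if i = k then 1 else 0))) =
            (1 - u) * (w i * x i k) + (1 - u) * (w i * c i * gr N i k) +
              (if i = k then u * (w i * c i) else 0) := by
          intro i
          split_ifs <;> ring
        rw [Finset.sum_congr rfl fun i _ => e7 i, Finset.sum_add_distrib, Finset.sum_ite_eq',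
          if_pos (Finset.mem_univ k), Finset.sum_add_distrib]
        simp only [mul_add, Finset.mul_sum]
        congr 1
        · congr 1
          · refine Finset.sum_congr rfl fun i _ => ?_
            ring
          · refine Finset.sum_congr rfl fun i _ => ?_
            ring
        · ring
      rw [Finset.sum_congr rfl fun k _ => e6 k, Finset.sum_add_distrib, ← Finset.mul_sum,
        ← Finset.mul_sum, Finset.sum_add_distrib, hZ, hQc]
      congr 2
      congr 1
      · exact Finset.sum_comm
      · exact Finset.sum_comm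
    rw [← e5]
    exact Finset.sum_eq_zero fun k _ => by rw [h1 k, mul_zero]
  have e6 : 0 ≤ Qc := gr_nonneg (fun i => w i * c i)
  have e7 : 0 ≤ Qw := gr_nonneg w
  have e8 : 0 ≤ ∑ k, (w k * c k) ^ 2 := Finset.sum_nonneg fun k _ => sq_nonneg _
  have e9 : (1 - u) * (Qw + Qc) + 2 * (u * ∑ k, (w k * c k) ^ 2) = 0 := by
    linear_combination 2 * e4 + (1 - u) * e2
  have e10 : 0 ≤ (1 - u) * (Qw + Qc) := mul_nonneg (by linarith) (by linarith)
  have e11 : 0 ≤ u * ∑ k, (w k * c k) ^ 2 := mul_nonneg hu0 e8
  rcases hu1.lt_or_eq with h3 | h3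
  · apply gr_zero hN
    rw [← hQw]
    have e12 : (1 - u) * (Qw + Qc) = 0 := by linarith
    rcases mul_eq_zero.1 e12 with h4 | h4
    · linarith
    · linarith
  · have e12 : u * ∑ k, (w k * c k) ^ 2 = 0 := by linarith
    rw [h3, one_mul, Finset.sum_eq_zero_iff_of_nonneg fun k _ => sq_nonneg _] at e12
    have e13 : ∀ k, c k ≠ 0 → w k = 0 := by
      intro k hk
      have := e12 k (Finset.mem_univ k)
      rw [sq_eq_zero_iff] at this
      exact (mul_eq_zero.1 this).resolve_right hk
    funext k
    by_cases hk : c k = 0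
    · have h4 : ∑ i, w i * s i = w k * s k := by
        apply Finset.sum_eq_single k
        · intro i _ hi
          have : c i ≠ 0 := fun h => hi (hc i k h hk)
          rw [e13 i this, zero_mul]
        · intro h; exact absurd (Finset.mem_univ k) h
      rw [h4] at h2
      exact (mul_eq_zero.1 h2).resolve_right (hs k hk)
    · exact e13 k hk

lemma Adm.cc_zero_unique (h : Adm N lam) (θ : ℝ) (i j : Fin n) (hi : cc lam θ i = 0)
    (hj : cc lam θ j = 0) : i = j := by
  unfold cc at hi hj
  rw [div_eq_zero_iff] at hi hj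
  have h1 := hi.resolve_right (h.D_pos θ i).ne'
  have h2 := hj.resolve_right (h.D_pos θ j).ne'
  have h3 := Real.sin_sq_add_cos_sq θ
  have h4 : Real.sin θ ^ 2 ≠ 0 := by
    intro h4
    rw [h4] at h1 h3
    linarith
  have h5 : (lam i ^ 2 - lam j ^ 2) * Real.sin θ ^ 2 = 0 := by linarith
  have h6 := (mul_eq_zero.1 h5).resolve_right h4
  apply h.inj
  have h7 : (lam i - lam j) * (lam i + lam j) = 0 := by linear_combination h6
  rcases mul_eq_zero.1 h7 with h8 | h8
  · linarith
  · linarith [h.pos i, h.pos j]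

lemma Adm.ss_ne (h : Adm N lam) (θ : ℝ) (i : Fin n) (hi : cc lam θ i = 0) : ss lam θ i ≠ 0 := by
  intro hs
  have := h.rel θ i i
  rw [hi, hs, h.gr_self] at this
  norm_num at this

lemma Adm.key_H' (h : Adm N lam) (θ : ℝ) {u : ℝ} (hu0 : 0 ≤ u) (hu1 : u ≤ 1) (w : Fin n → ℝ)
    (h1 : ∀ k, w k * ∑ i, w i *
      (vH N (xx N lam) (cc lam θ) (ss lam θ) u i ⬝ᵥ ext (N k) 0) = 0)
    (h2 : ∑ i, w i * vH N (xx N lam) (cc lam θ) (ss lam θ) u i (Fin.last n) = 0) : w = 0 :=
  key_H h.det_ne xx_anti (h.rel θ) (h.cc_zero_unique θ) (h.ss_ne θ) hu0 hu1 w h1 h2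

/-- the homotopy -/
noncomputable def hmt (N : Matrix (Fin n) (Fin n) ℝ) (lam : Fin n → ℝ)
    (z : unitInterval × unitInterval) : Fin n × Bool → Fin (n + 1) → ℝ :=
  crs (vA N) (vH N (xx N lam) (cc lam (Real.pi * z.2)) (ss lam (Real.pi * z.2)) z.1)

/-- the cross-polytopes `c_i A_i + s_i e` -/
noncomputable def spl (N : Matrix (Fin n) (Fin n) ℝ) (lam : Fin n → ℝ) (θ : ℝ) :
    Fin n × Bool → Fin (n + 1) → ℝ :=
  crs (vA N) (vD N (cc lam θ) (ss lam θ))

lemma Adm.hmt_isPolyhedron (h : Adm N lam) (z : unitInterval × unitInterval) :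
    IsPolyhedron (crossPolytope n) (hmt N lam z) :=
  crs_isPolyhedron (ν := fun k => ext (N k) 0) (vA_dot h.det_ne) vA_last
    (h.key_H' _ z.1.2.1 z.1.2.2)

lemma Adm.spl_isPolyhedron (h : Adm N lam) (θ : ℝ) :
    IsPolyhedron (crossPolytope n) (spl N lam θ) := by
  have h1 := h.key_H' θ (u := 1) zero_le_one le_rfl
  rw [vH_one] at h1
  exact crs_isPolyhedron (ν := fun k => ext (N k) 0) (vA_dot h.det_ne) vA_last h1

lemma Adm.continuous_hmt (h : Adm N lam) : Continuous (hmt N lam) := by
  rw [continuous_pi_iff]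
  rintro ⟨i, b⟩
  cases b
  · have h0 : (fun z => hmt N lam z (i, false)) = fun _ => nz (vA N i) := rfl
    rw [h0]
    exact continuous_const
  · have hcc := (h.continuous_cc i).comp
      (show Continuous fun z : unitInterval × unitInterval => Real.pi * (z.2 : ℝ) by fun_prop)
    have hss := (h.continuous_ss i).comp
      (show Continuous fun z : unitInterval × unitInterval => Real.pi * (z.2 : ℝ) by fun_prop)
    have h1 : Continuous fun z : unitInterval × unitInterval =>
        vH N (xx N lam) (cc lam (Real.pi * z.2)) (ss lam (Real.pi * z.2)) z.1 i := by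
      unfold vH
      apply continuous_ext
      · rw [continuous_pi_iff]
        intro l
        have hu : Continuous fun z : unitInterval × unitInterval => (z.1 : ℝ) := by fun_prop
        exact ((continuous_const.sub hu).mul
          (continuous_const.add (hcc.mul continuous_const))).add
          (hu.mul (hcc.mul continuous_const))
      · exact hss
    refine continuous_nz (X := unitInterval × unitInterval) h1 fun z => ?_
    have := crs_ne_zero (A := vA N) (ν := fun k => ext (N k) 0) (vA_dot h.det_ne) vA_last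
      (h.key_H' (Real.pi * z.2) z.1.2.1 z.1.2.2) i true
    simpa using this

lemma hmt_zero (t : unitInterval) : hmt N lam (0, t) = loop N lam t := by
  unfold hmt loop curve
  simp only [Set.Icc.coe_zero, vH_zero]

lemma hmt_one (t : unitInterval) : hmt N lam (1, t) = spl N lam (Real.pi * t) := by
  unfold hmt spl
  simp only [Set.Icc.coe_one, vH_one]

lemma cc_pi : cc lam Real.pi = cc lam 0 := by
  funext i; simp [cc]

lemma ss_pi : ss lam Real.pi = ss lam 0 := by
  funext i; simp [ss]

lemma hmt_loop (u : unitInterval) : hmt N lam (u, 0) = hmt N lam (u, 1) := by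
  unfold hmt
  simp only [Set.Icc.coe_one, Set.Icc.coe_zero, mul_one, mul_zero, cc_pi, ss_pi]

/-- The increment along the closed curve equals the increment along the split curve. -/
lemma Adm.inc_split (h : Adm N lam) (A : Set (Fin n × Bool)) {W₁ : unitInterval → ℝ}
    (hW₁ : Continuous W₁)
    (hov : ∀ t : unitInterval, IsOrientedVolume (crossPolytope n)
      (antipodes A (spl N lam (Real.pi * t))) (W₁ t)) :
    ∃ W₀ : unitInterval → ℝ, Continuous W₀ ∧ (∀ t, IsOrientedVolume (crossPolytope n)
      (antipodes A (loop N lam t)) (W₀ t)) ∧ W₀ 1 - W₀ 0 = W₁ 1 - W₁ 0 := by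
  have h1 := hom_inc (K := crossPolytope n)
    (H := fun z => antipodes A (hmt N lam (unitInterval.symm z.1, z.2)))
    ((continuous_antipodes A).comp (h.continuous_hmt.comp (by fun_prop)))
    (fun z => (h.hmt_isPolyhedron _).antipodes A)
    (fun u => by simp only [hmt_loop]) hW₁
    (fun t => by
      simp only [unitInterval.symm_zero, hmt_one]
      exact hov t)
  simp only [unitInterval.symm_one, hmt_zero] at h1
  exact h1

end split

end Pool.Agent.helper69.FlexPoly
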