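import Pool.Agent.helper69.FlexPoly.Place

set_option autoImplicit false

open MeasureTheory Filter Topology

namespace Pool.Agent.helper69.FlexPoly

/-! ### The edges of the octahedra with three circles -/

section sq

variable {N : Matrix (Fin 3) (Fin 3) ℝ}

/-- the inner products of the dual basis -/
noncomputable def DD (N : Matrix (Fin 3) (Fin 3) ℝ) (i j : Fin 3) : ℝ :=
  ∑ l, du N i l * du N j l

lemma DD_comm (i j : Fin 3) : DD N i j = DD N j i :=
  Finset.sum_congr rfl fun _ _ => mul_comm _ _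

lemma ObtN.DD_val (h : ObtN N) :
    dd (gr N 1 2) (gr N 2 0) (gr N 0 1) * DD N 0 0 = 1 - gr N 1 2 ^ 2 ∧
    dd (gr N 1 2) (gr N 2 0) (gr N 0 1) * DD N 1 1 = 1 - gr N 2 0 ^ 2 ∧
    dd (gr N 1 2) (gr N 2 0) (gr N 0 1) * DD N 2 2 = 1 - gr N 0 1 ^ 2 ∧
    dd (gr N 1 2) (gr N 2 0) (gr N 0 1) * DD N 0 1 = gr N 1 2 * gr N 2 0 - gr N 0 1 ∧
    dd (gr N 1 2) (gr N 2 0) (gr N 0 1) * DD N 1 2 = gr N 2 0 * gr N 0 1 - gr N 1 2 ∧
    dd (gr N 1 2) (gr N 2 0) (gr N 0 1) * DD N 0 2 = gr N 0 1 * gr N 1 2 - gr N 2 0 := by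
  have hg : ∀ i, gr N i i = 1 := (h.adm 0).gr_self
  set a := gr N 1 2 with ha
  set b := gr N 2 0 with hb
  set c := gr N 0 1 with hc
  have h10 : gr N 1 0 = c := gr_comm 1 0
  have h21 : gr N 2 1 = a := gr_comm 2 1
  have h02 : gr N 0 2 = b := gr_comm 0 2
  have hE : ∀ i j, gr N i 0 * DD N 0 j + gr N i 1 * DD N 1 j + gr N i 2 * DD N 2 j =
      if i = j then 1 else 0 := by
    intro i j
    have := gr_du h.det_ne i j
    rw [Fin.sum_univ_three] at this
    exact this
  have e00 := (hE 0 0).trans (if_pos rfl)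
  have e01 := (hE 0 1).trans (if_neg (by decide))
  have e02 := (hE 0 2).trans (if_neg (by decide))
  have e10 := (hE 1 0).trans (if_neg (by decide))
  have e11 := (hE 1 1).trans (if_pos rfl)
  have e12 := (hE 1 2).trans (if_neg (by decide))
  have e20 := (hE 2 0).trans (if_neg (by decide))
  have e21 := (hE 2 1).trans (if_neg (by decide))
  have e22 := (hE 2 2).trans (if_pos rfl)
  simp only [hg, h10, h21, h02, ← ha, ← hb, ← hc] at e00 e01 e02 e10 e11 e12 e20 e21 e22
  rw [DD_comm 1 0] at e00 e10 e20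
  rw [DD_comm 2 0] at e00 e10 e20
  rw [DD_comm 2 1] at e01 e11 e21
  unfold dd
  refine ⟨?_, ?_, ?_, ?_, ?_, ?_⟩
  · linear_combination (1 - a ^ 2) * e00 + (a * b - c) * e10 + (c * a - b) * e20
  · linear_combination (a * b - c) * e01 + (1 - b ^ 2) * e11 + (b * c - a) * e21
  · linear_combination (c * a - b) * e02 + (b * c - a) * e12 + (1 - c ^ 2) * e22
  · linear_combination (1 - a ^ 2) * e01 + (a * b - c) * e11 + (c * a - b) * e21
  · linear_combination (a * b - c) * e02 + (1 - b ^ 2) * e12 + (b * c - a) * e22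
  · linear_combination (1 - a ^ 2) * e02 + (a * b - c) * e12 + (c * a - b) * e22

lemma J1 (a b c : ℝ) : nn c a b * (1 - b ^ 2) + nn b c a * (a - b * c) =
    (c - a * b) * dd a b c := by
  unfold nn dd; ring

lemma J2 {a b c : ℝ} (h : Obt a b c) : SS a b c ^ 2 * dd a b c + nn c a b ^ 2 * (1 - b ^ 2) +
    nn b c a ^ 2 * (1 - c ^ 2) - 2 * nn c a b * nn b c a * (b * c - a) =
    (1 - a ^ 2) * dd a b c ^ 2 := by
  rw [h.SS_sq]
  unfold nn dd pp; ring

/-- the values of the inner products, in terms of the coefficients -/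
lemma vA_vA (N : Matrix (Fin 3) (Fin 3) ℝ) (i k : Fin 3) : vA N i ⬝ᵥ vA N k = DD N i k := by
  unfold vA DD
  rw [ext_dot]
  simp

lemma vB_vA (h : ObtN N) (e : Fin 3) (θ : ℝ) {i k : Fin 3} (hik : i ≠ k) :
    vB N (xx N (lm N e)) (cc (lm N e) θ) (ss (lm N e) θ) i ⬝ᵥ vA N k =
      ∑ m, xx N (lm N e) i m * DD N m k := by
  rw [dotProduct_comm, vA_vB h.det_ne, if_neg hik.symm, mul_zero, add_zero]
  simp only [Finset.mul_sum]
  rw [Finset.sum_comm]
  refine Finset.sum_congr rfl fun m _ => ?_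
  unfold DD
  rw [Finset.mul_sum]
  refine Finset.sum_congr rfl fun l _ => ?_
  ring

lemma vB_self (h : ObtN N) (e : Fin 3) (θ : ℝ) (i : Fin 3) :
    vB N (xx N (lm N e)) (cc (lm N e) θ) (ss (lm N e) θ) i ⬝ᵥ
      vB N (xx N (lm N e)) (cc (lm N e) θ) (ss (lm N e) θ) i =
      ∑ m, ∑ k, xx N (lm N e) i m * xx N (lm N e) i k * DD N m k + 1 := by
  rw [vB_vB h.det_ne xx_anti ((h.adm e).rel θ), (h.adm e).gr_self]
  congr 1
  have h1 : ∀ l, (∑ k, xx N (lm N e) i k * du N k l) * (∑ k, xx N (lm N e) i k * du N k l) =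
      ∑ m, ∑ k, xx N (lm N e) i m * xx N (lm N e) i k * (du N m l * du N k l) := by
    intro l
    rw [Finset.sum_mul_sum]
    refine Finset.sum_congr rfl fun m _ => Finset.sum_congr rfl fun k _ => ?_
    ring
  rw [Finset.sum_congr rfl fun l _ => h1 l, Finset.sum_comm]
  refine Finset.sum_congr rfl fun m _ => ?_
  rw [Finset.sum_comm]
  refine Finset.sum_congr rfl fun k _ => ?_
  unfold DD
  rw [Finset.mul_sum]

/-- the values for one vertex -/
lemma sq_one {S d x z D11 D12 D22 D00 D01 D02 a b c nc nb : ℝ} (hS : S ≠ 0) (hd : d ≠ 0)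
    (h11 : d * D11 = 1 - b ^ 2) (h12 : d * D12 = b * c - a) (h22 : d * D22 = 1 - c ^ 2)
    (h00 : d * D00 = 1 - a ^ 2) (h01 : d * D01 = a * b - c) (h02 : d * D02 = c * a - b)
    (j1 : nc * (1 - b ^ 2) + nb * (a - b * c) = (c - a * b) * d)
    (j1' : nb * (1 - c ^ 2) + nc * (a - b * c) = (b - c * a) * d)
    (j2 : S ^ 2 * d + nc ^ 2 * (1 - b ^ 2) + nb ^ 2 * (1 - c ^ 2) - 2 * nc * nb * (b * c - a) =
      (1 - a ^ 2) * d ^ 2)
    (hx : x = nc / S) (hz : z = nb / S) :
    (x * D11 - z * D12) ^ 2 * D00 =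
      D01 ^ 2 * (x * x * D11 - x * z * D12 - z * x * D12 + z * z * D22 + 1) ∧
    (x * D12 - z * D22) ^ 2 * D00 =
      D02 ^ 2 * (x * x * D11 - x * z * D12 - z * x * D12 + z * z * D22 + 1) := by
  have e11 : D11 = (1 - b ^ 2) / d := by field_simp; linarith
  have e12 : D12 = (b * c - a) / d := by field_simp; linarith
  have e22 : D22 = (1 - c ^ 2) / d := by field_simp; linarith
  have e00 : D00 = (1 - a ^ 2) / d := by field_simp; linarith
  have e01 : D01 = (a * b - c) / d := by field_simp; linarith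
  have e02 : D02 = (c * a - b) / d := by field_simp; linarith
  have k1 : x * D11 - z * D12 = (c - a * b) / S := by
    rw [hx, hz, e11, e12]
    field_simp
    linear_combination j1
  have k2 : x * D12 - z * D22 = - (b - c * a) / S := by
    rw [hx, hz, e22, e12]
    field_simp
    linear_combination -j1'
  have k3 : x * x * D11 - x * z * D12 - z * x * D12 + z * z * D22 + 1 =
      (1 - a ^ 2) * d / S ^ 2 := by
    rw [hx, hz, e22, e12, e11]
    field_simp
    linear_combination j2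
  rw [k1, k2, k3, e00, e01, e02]
  constructor
  · field_simp
    ring
  · field_simp
    ring

lemma ObtN.sq_raw (h : ObtN N) (e : Fin 3) (θ : ℝ) {i k : Fin 3} (hik : i ≠ k) :
    (vB N (xx N (lm N e)) (cc (lm N e) θ) (ss (lm N e) θ) i ⬝ᵥ vA N k) ^ 2 * DD N i i =
      DD N i k ^ 2 * (vB N (xx N (lm N e)) (cc (lm N e) θ) (ss (lm N e) θ) i ⬝ᵥ
        vB N (xx N (lm N e)) (cc (lm N e) θ) (ss (lm N e) θ) i) := by
  rw [vB_vA h e θ hik, vB_self h e θ i]
  obtain ⟨d00, d11, d22, d01, d12, d02⟩ := h.DD_val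
  obtain ⟨x01, x12, x20⟩ := xx_circle h.obt e
  have hO := h.obt
  have hanti : ∀ i j, xx N (lm N e) i j = - xx N (lm N e) j i := xx_anti
  change xx N (lm N e) 0 1 = _ at x01
  change xx N (lm N e) 1 2 = _ at x12
  change xx N (lm N e) 2 0 = _ at x20
  have hx10 := hanti 1 0
  have hx21 := hanti 2 1
  have hx02 := hanti 0 2
  have hx00 : xx N (lm N e) 0 0 = 0 := by have := hanti 0 0; linarith
  have hx11 : xx N (lm N e) 1 1 = 0 := by have := hanti 1 1; linarith
  have hx22 : xx N (lm N e) 2 2 = 0 := by have := hanti 2 2; linarith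
  set a := gr N 1 2 with ha
  set b := gr N 2 0 with hb
  set c := gr N 0 1 with hc
  have hS := hO.SS_pos.ne'
  have hd := hO.hd.ne'
  have D10 := DD_comm (N := N) 1 0
  have D20 := DD_comm (N := N) 2 0
  have D21 := DD_comm (N := N) 2 1
  have J1' : ∀ a b c : ℝ, nn b c a * (1 - c ^ 2) + nn c a b * (a - b * c) =
      (b - c * a) * dd a b c := by
    intro a b c; unfold nn dd; ring
  have s0 := sq_one hS hd d11 d12 d22 d00 d01 d02 (J1 a b c) (J1' a b c) (J2 hO) x01 x20
  have s1 := sq_one (b := c) (c := a) (a := b) hS hd d22 d02 d00 d11 d12 d01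
    (by have := J1 b c a; rw [dd_rot] at this; exact this)
    (by have := J1' b c a; rw [dd_rot] at this; exact this)
    (by have := J2 hO.rot; rw [dd_rot, SS_rot] at this; exact this) x12 x01
  have s2 := sq_one (b := a) (c := b) (a := c) hS hd d00 d01 d11 d22 d02 d12
    (by have := J1 c a b; rw [dd_rot, dd_rot] at this; exact this)
    (by have := J1' c a b; rw [dd_rot, dd_rot] at this; exact this)
    (by have := J2 hO.rot.rot; rw [dd_rot, SS_rot, dd_rot, SS_rot] at this; exact this) x20 x12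
  set y : Fin 3 → Fin 3 → ℝ := xx N (lm N e) with hy
  have key : ∀ (i k p q : Fin 3), ((i = 0 ∧ p = 1 ∧ q = 2) ∨ (i = 1 ∧ p = 2 ∧ q = 0) ∨
      (i = 2 ∧ p = 0 ∧ q = 1)) → (y i p * DD N p k + y i q * DD N q k) ^ 2 * DD N i i =
      DD N i k ^ 2 * (y i p * y i p * DD N p p + y i p * y i q * DD N p q +
        y i q * y i p * DD N q p + y i q * y i q * DD N q q + 1) →
      (∑ m, y i m * DD N m k) ^ 2 * DD N i i =
        DD N i k ^ 2 * (∑ m, ∑ k, y i m * y i k * DD N m k + 1) := by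
    rintro i k p q (⟨rfl, rfl, rfl⟩ | ⟨rfl, rfl, rfl⟩ | ⟨rfl, rfl, rfl⟩) h1
    · simp only [Fin.sum_univ_three, hx00, zero_mul, mul_zero, zero_add, add_zero]
      linear_combination h1
    · simp only [Fin.sum_univ_three, hx11, zero_mul, mul_zero, add_zero]
      linear_combination h1
    · simp only [Fin.sum_univ_three, hx22, zero_mul, mul_zero, add_zero]
      linear_combination h1
  fin_cases i <;> fin_cases k
  · exact absurd rfl hik
  · apply key 0 1 1 2 (by decide)
    rw [hx02, D21]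
    linear_combination s0.1
  · apply key 0 2 1 2 (by decide)
    rw [hx02, D21]
    linear_combination s0.2
  · apply key 1 0 2 0 (by decide)
    rw [hx10, D20, D10]
    linear_combination s1.2
  · exact absurd rfl hik
  · apply key 1 2 2 0 (by decide)
    rw [hx10, D20]
    linear_combination s1.1
  · apply key 2 0 0 1 (by decide)
    rw [hx21, D10, D20]
    linear_combination s2.1
  · apply key 2 1 0 1 (by decide)
    rw [hx21, D10, D21]
    linear_combination s2.2
  · exact absurd rfl hik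

lemma nz_dot_sq {n : ℕ} {v w : Fin (n + 1) → ℝ} (hv : v ≠ 0) (hw : w ≠ 0) :
    (nz v ⬝ᵥ nz w) ^ 2 = (v ⬝ᵥ w) ^ 2 / ((v ⬝ᵥ v) * (w ⬝ᵥ w)) := by
  have h1 := dot_self_pos hv
  have h2 := dot_self_pos hw
  rw [nz_dot, mul_pow, mul_pow, inv_pow, inv_pow, Real.sq_sqrt h1.le, Real.sq_sqrt h2.le]
  field_simp

/-- In the octahedra with three circles, the edges at `B_i` are equal or supplementary to the
corresponding edges at `A_i`. -/
lemma ObtN.sq_dot (h : ObtN N) (e : Fin 3) (θ : ℝ) {i k : Fin 3} (hik : i ≠ k) :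
    (curve N (lm N e) θ (i, true) ⬝ᵥ curve N (lm N e) θ (k, false)) ^ 2 =
      (curve N (lm N e) θ (i, false) ⬝ᵥ curve N (lm N e) θ (k, false)) ^ 2 := by
  have h1 := h.sq_raw e θ hik
  have hB := (h.adm e).vB_ne θ i
  have hAi := vA_ne h.det_ne i
  have hAk := vA_ne h.det_ne k
  show (nz (vB N (xx N (lm N e)) (cc (lm N e) θ) (ss (lm N e) θ) i) ⬝ᵥ nz (vA N k)) ^ 2 =
    (nz (vA N i) ⬝ᵥ nz (vA N k)) ^ 2
  rw [nz_dot_sq hB hAk, nz_dot_sq hAi hAk, vA_vA, vA_vA, vA_vA]
  have p1 := dot_self_pos hB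
  have p2 := dot_self_pos hAi
  have p3 := dot_self_pos hAk
  rw [vA_vA] at p2 p3
  rw [div_eq_div_iff (mul_pos p1 p3).ne' (mul_pos p2 p3).ne']
  linear_combination DD N k k * h1

end sq

end Pool.Agent.helper69.FlexPoly
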