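import Pool.Agent.helper69.FlexPoly.Curve

set_option autoImplicit false

open MeasureTheory Filter Topology

namespace Pool.Agent.helper69.FlexPoly

section state

variable {n : ℕ} {N : Matrix (Fin n) (Fin n) ℝ} {x : Fin n → Fin n → ℝ} {lam : Fin n → ℝ}

lemma mv_flat {V : Type} {P : V → Fin (n + 1) → ℝ} (h : ∀ v, P v (Fin.last n) = 0) :
    mv (refl n) P = P := by
  funext v
  unfold mv
  rw [refl_mulVec]
  funext i
  refine Fin.lastCases ?_ (fun i => ?_) i
  · simp [h]
  · simp

lemma nz_last {v : Fin (n + 1) → ℝ} (h : v (Fin.last n) = 0) : nz v (Fin.last n) = 0 := by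
  unfold nz
  rw [Pi.smul_apply, h, smul_zero]

lemma antipodes_last {V : Type} {P : V → Fin (n + 1) → ℝ} (h : ∀ v, P v (Fin.last n) = 0)
    (A : Set V) (v : V) : antipodes A P v (Fin.last n) = 0 := by
  rw [antipodes_apply, Pi.smul_apply, h, smul_zero]

lemma vF_last (ε σ : ℝ) (i : Fin n) : vF N x ε σ i (Fin.last n) = 0 := ext_last _ _

lemma crsF_last (ε σ : ℝ) (v : Fin n × Bool) :
    crs (vA N) (vF N x ε σ) v (Fin.last n) = 0 := by
  obtain ⟨i, b⟩ := v
  cases b
  · exact nz_last (vA_last i)
  · exact nz_last (vF_last ε σ i)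

lemma crsF_isPolyhedron (hN : N.det ≠ 0) (hx : ∀ i j, x i j = - x j i) {ε σ : ℝ}
    (hε : ε * ε = 1) (h0 : 0 ≤ σ) (h1 : σ ≤ 1) :
    IsPolyhedron (crossPolytope n) (crs (vA N) (vF N x ε σ)) :=
  crs_isPolyhedron (ν := fun k => ext (N k) 0) (vA_dot hN) vA_last
    (fun w hw _ => key_flat hN hx hε h0 h1 w hw)

lemma continuous_crsF (hN : N.det ≠ 0) (hx : ∀ i j, x i j = - x j i) {ε : ℝ}
    (hε : ε * ε = 1) : Continuous fun σ : unitInterval => crs (vA N) (vF N x ε σ) := by
  rw [continuous_pi_iff]
  rintro ⟨i, b⟩
  cases b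
  · have h0 : (fun σ : unitInterval => crs (vA N) (vF N x ε σ) (i, false)) =
        fun _ => nz (vA N i) := rfl
    rw [h0]
    exact continuous_const
  · have h1 : Continuous fun σ : unitInterval => vF N x ε σ i := by
      unfold vF
      apply continuous_ext
      · rw [continuous_pi_iff]
        intro l
        fun_prop
      · exact continuous_const
    refine continuous_nz (X := unitInterval) h1 fun σ => ?_
    have := crs_ne_zero (A := vA N) (ν := fun k => ext (N k) 0) (vA_dot hN) vA_last
      (fun w hw _ => key_flat hN hx hε σ.2.1 σ.2.2 w hw) i true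
    simpa using this

lemma vF_one (ε : ℝ) (i : Fin n) : vF N x ε 1 i = ε • vA N i := by
  funext l
  unfold vF vA
  refine Fin.lastCases ?_ (fun l => ?_) l
  · simp [ext]
  · simp [ext]

lemma eL_notMem {a : Fin n → Fin (n + 1) → ℝ} (ha : ∀ i, a i (Fin.last n) = 0) :
    eL n ∉ Submodule.span ℝ (Set.range a) := by
  intro h
  have h1 : Submodule.span ℝ (Set.range a) ≤
      LinearMap.ker (LinearMap.proj (Fin.last n) : (Fin (n + 1) → ℝ) →ₗ[ℝ] ℝ) := by
    rw [Submodule.span_le]
    rintro _ ⟨i, rfl⟩
    rw [SetLike.mem_coe, LinearMap.mem_ker, LinearMap.proj_apply]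
    exact ha i
  have h2 := h1 h
  rw [LinearMap.mem_ker, LinearMap.proj_apply, eL_last] at h2
  exact one_ne_zero h2

open Classical in
/-- The oriented volume of the flat states. -/
lemma isOV_state (hN : N.det ≠ 0) (hx : ∀ i j, x i j = - x j i) {ε : ℝ} (hε : ε * ε = 1)
    (A : Set (Fin n × Bool)) :
    IsOrientedVolume (crossPolytope n) (antipodes A (crs (vA N) (vF N x ε 0)))
      (if ∀ i, ev A (i, true) * ε = - ev A (i, false) then sphereVol n / 2 else 0) := by
  -- it is enough to consider the other end of the flat homotopy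
  suffices h : IsOrientedVolume (crossPolytope n) (antipodes A (crs (vA N) (vF N x ε 1)))
      (if ∀ i, ev A (i, true) * ε = - ev A (i, false) then sphereVol n / 2 else 0) by
    have h1 := flat_path (K := crossPolytope n)
      (δ := fun σ : unitInterval => antipodes A (crs (vA N) (vF N x ε (unitInterval.symm σ))))
      ((continuous_antipodes A).comp ((continuous_crsF hN hx hε).comp
        unitInterval.continuous_symm))
      (fun σ => (crsF_isPolyhedron hN hx hε (unitInterval.symm σ).2.1
        (unitInterval.symm σ).2.2).antipodes A)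
      (fun σ => mv_flat (antipodes_last (crsF_last _ _) A))
      (v := if ∀ i, ev A (i, true) * ε = - ev A (i, false) then sphereVol n / 2 else 0)
    simp only [unitInterval.symm_zero, unitInterval.symm_one, Set.Icc.coe_one,
      Set.Icc.coe_zero] at h1
    exact h1 h
  have hpoly : IsPolyhedron (crossPolytope n) (antipodes A (crs (vA N) (vF N x ε 1))) :=
    (crsF_isPolyhedron hN hx hε zero_le_one le_rfl).antipodes A
  have hε' : ε = 1 ∨ ε = -1 := mul_self_eq_one_iff.1 hε
  have hB : ∀ i, crs (vA N) (vF N x ε 1) (i, true) = ε • nz (vA N i) := by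
    intro i
    have h1 : crs (vA N) (vF N x ε 1) (i, true) = nz (vF N x ε 1 i) := rfl
    rw [h1, vF_one]
    rcases hε' with h | h
    · rw [h, one_smul, one_smul]
    · rw [h, neg_one_smul, neg_one_smul, nz_neg]
  have hA : ∀ i, crs (vA N) (vF N x ε 1) (i, false) = nz (vA N i) := fun i => rfl
  by_cases h : ∀ i, ev A (i, true) * ε = - ev A (i, false)
  · rw [if_pos h]
    have hflat : ∀ i, (ev A (i, false) • nz (vA N i)) (Fin.last n) = 0 := by
      intro i
      rw [Pi.smul_apply, nz_last (vA_last i), smul_zero]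
    apply isOV_half (a := fun i => ev A (i, false) • nz (vA N i)) hflat _ _ hpoly
    · have h1 : LinearIndependent ℝ (fun i => ev A (i, false) • nz (vA N i)) := by
        have hF : facet (fun _ : Fin n => false) ∈ (crossPolytope n).facets := by
          simp [crossPolytope]
        have h2 := hpoly.2 _ hF
        convert h2 using 1
        funext i
        rw [antipodes_apply]
        rfl
      exact (dt_ne_zero_iff _).2 (h1.finSnoc (eL_notMem hflat))
    · intro i b
      rw [antipodes_apply]
      cases b
      · rw [hA]; simp [rs]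
      · rw [hB, smul_smul, h i]; simp [rs]
  · rw [if_neg h]
    push Not at h
    obtain ⟨i, hi⟩ := h
    apply isOV_zero' hpoly (i := i)
    rw [antipodes_apply, antipodes_apply, hA, hB, smul_smul]
    congr 1
    have h1 := sq_eq_one_cases (ev_sq A (i, true))
    have h2 := sq_eq_one_cases (ev_sq A (i, false))
    rcases h1 with h1 | h1 <;> rcases h2 with h2 | h2 <;> rcases hε' with h3 | h3 <;>
      rw [h1, h2, h3] at hi ⊢ <;>
      first
      | (exfalso; apply hi; norm_num; done)
      | norm_num

/-! ### The closed curve -/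

/-- the closed curve -/
noncomputable def loop (N : Matrix (Fin n) (Fin n) ℝ) (lam : Fin n → ℝ) (t : unitInterval) :
    Fin n × Bool → Fin (n + 1) → ℝ := curve N lam (Real.pi * t)

lemma Adm.continuous_loop (h : Adm N lam) : Continuous (loop N lam) :=
  h.continuous_curve.comp (by fun_prop)

lemma loop_zero : loop N lam 0 = curve N lam 0 := by
  unfold loop; rw [Set.Icc.coe_zero, mul_zero]

lemma loop_one : loop N lam 1 = curve N lam 0 := by
  unfold loop; rw [Set.Icc.coe_one, mul_one, curve_pi]

lemma loop_mid : loop N lam mid = curve N lam (Real.pi / 2) := by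
  unfold loop mid
  congr 1
  ring

lemma loop_symm (t : unitInterval) :
    loop N lam (unitInterval.symm t) = mv (refl n) (loop N lam t) := by
  unfold loop
  rw [← curve_symm, unitInterval.coe_symm_eq]
  congr 1
  ring

/-- The sets of vertices for which the increment is odd: `A` contains, for every `i`, both or none
of the two opposite vertices `(i, false)`, `(i, true)`, or, for every `i`, exactly one of them. -/
def OddSet (A : Set (Fin n × Bool)) : Prop :=
  (∀ i, (i, true) ∈ A ↔ (i, false) ∈ A) ∨ (∀ i, (i, true) ∈ A ↔ (i, false) ∉ A)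

lemma ev_eq_iff {V : Type} (A : Set V) (u v : V) : ev A u = ev A v ↔ (u ∈ A ↔ v ∈ A) := by
  unfold ev
  split_ifs with h1 h2 h2 <;> simp [h1, h2] <;> norm_num

lemma ev_eq_neg_iff {V : Type} (A : Set V) (u v : V) : ev A u = - ev A v ↔ (u ∈ A ↔ v ∉ A) := by
  unfold ev
  split_ifs with h1 h2 h2 <;> simp [h1, h2] <;> norm_num

/-- the increment along the closed curve -/
lemma Adm.increment (h : Adm N lam) (hn : 0 < n) (A : Set (Fin n × Bool)) :
    ∃ k : ℤ, (Odd k ↔ OddSet A) ∧
      IncrementAlong (crossPolytope n) (fun t => antipodes A (loop N lam t)) k := by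
  classical
  obtain ⟨W, hW, hov⟩ := exists_lift (crossPolytope n) (fun t => antipodes A (loop N lam t))
    ((continuous_antipodes A).comp h.continuous_loop) (fun t => (h.isPolyhedron _).antipodes A)
  have h0 : IsOrientedVolume (crossPolytope n) (antipodes A (loop N lam 0))
      (if ∀ i, ev A (i, true) * 1 = - ev A (i, false) then sphereVol n / 2 else 0) := by
    rw [loop_zero, curve_zero]
    exact isOV_state h.det_ne xx_anti (by norm_num) A
  have h1 : IsOrientedVolume (crossPolytope n) (antipodes A (loop N lam mid))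
      (if ∀ i, ev A (i, true) * (-1) = - ev A (i, false) then sphereVol n / 2 else 0) := by
    rw [loop_mid, h.curve_half]
    exact isOV_state h.det_ne xx_anti (by norm_num) A
  have hsym : ∀ t, antipodes A (loop N lam (unitInterval.symm t)) =
      mv (refl n) (antipodes A (loop N lam t)) := by
    intro t
    rw [loop_symm, mv_antipodes]
  have c1 : (∀ i, ev A (i, true) * 1 = - ev A (i, false)) ↔
      ∀ i : Fin n, (i, true) ∈ A ↔ (i, false) ∉ A := by
    refine forall_congr' fun i => ?_
    rw [mul_one, ev_eq_neg_iff]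
  have c2 : (∀ i, ev A (i, true) * (-1) = - ev A (i, false)) ↔
      ∀ i : Fin n, (i, true) ∈ A ↔ (i, false) ∈ A := by
    refine forall_congr' fun i => ?_
    rw [← ev_eq_iff]
    constructor <;> intro h <;> linarith
  simp only [c1] at h0
  simp only [c2] at h1
  by_cases d1 : ∀ i : Fin n, (i, true) ∈ A ↔ (i, false) ∉ A
  · have d2 : ¬ ∀ i : Fin n, (i, true) ∈ A ↔ (i, false) ∈ A := by
      intro d2
      have e1 := d1 ⟨0, hn⟩
      have e2 := d2 ⟨0, hn⟩
      tauto
    rw [if_pos d1] at h0
    rw [if_neg d2] at h1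
    obtain ⟨k, hk⟩ := sym_odd (e := -1) hsym hW hov h0 h1 (by push_cast; ring)
    refine ⟨2 * k + -1, ?_, W, hW, hov, hk⟩
    constructor
    · intro _; exact Or.inr d1
    · intro _; exact ⟨k - 1, by ring⟩
  · rw [if_neg d1] at h0
    by_cases d2 : ∀ i : Fin n, (i, true) ∈ A ↔ (i, false) ∈ A
    · rw [if_pos d2] at h1
      obtain ⟨k, hk⟩ := sym_odd (e := 1) hsym hW hov h0 h1 (by push_cast; ring)
      refine ⟨2 * k + 1, ?_, W, hW, hov, hk⟩
      constructor
      · intro _; exact Or.inl d2
      · intro _; exact ⟨k, by ring⟩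
    · rw [if_neg d2] at h1
      obtain ⟨k, hk⟩ := sym_odd (e := 0) hsym hW hov h0 h1 (by push_cast; ring)
      refine ⟨2 * k + 0, ?_, W, hW, hov, hk⟩
      constructor
      · intro h2
        rw [add_zero] at h2
        exact absurd h2 (by rw [Int.not_odd_iff_even]; exact even_two_mul k)
      · rintro (h2 | h2)
        · exact absurd h2 d2
        · exact absurd h2 d1

end state

end Pool.Agent.helper69.FlexPoly
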