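import Pool.Agent.helper69.FlexPoly.Nondeg

set_option autoImplicit false

open MeasureTheory Filter Topology

namespace Pool.Agent.helper69.FlexPoly

/-! ### Three circles in one configuration space -/

section three

/-- the determinant of the Gram matrix -/
def dd (a b c : ℝ) : ℝ := 1 + 2 * a * b * c - a ^ 2 - b ^ 2 - c ^ 2

/-- the product of the three minors -/
def pp (a b c : ℝ) : ℝ := (a - b * c) * (b - c * a) * (c - a * b)

/-- the numerator of `x` -/
def nn (a b c : ℝ) : ℝ := a * (1 - a ^ 2 + b ^ 2 + c ^ 2) - 2 * b * c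

/-- the square root -/
noncomputable def SS (a b c : ℝ) : ℝ := √(4 * pp a b c + dd a b c ^ 2)

/-- the assumptions on the Gram matrix -/
structure Obt (a b c : ℝ) : Prop where
  a0 : 0 < a
  b0 : 0 < b
  c0 : 0 < c
  a1 : a < 1
  b1 : b < 1
  c1 : c < 1
  ha : 0 < a - b * c
  hb : 0 < b - c * a
  hc : 0 < c - a * b
  hd : 0 < dd a b c

lemma dd_rot (a b c : ℝ) : dd b c a = dd a b c := by unfold dd; ring

lemma pp_rot (a b c : ℝ) : pp b c a = pp a b c := by unfold pp; ring

lemma SS_rot (a b c : ℝ) : SS b c a = SS a b c := by unfold SS; rw [pp_rot, dd_rot]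

variable {a b c : ℝ}

lemma Obt.rot (h : Obt a b c) : Obt b c a := by
  refine ⟨h.b0, h.c0, h.a0, h.b1, h.c1, h.a1, ?_, ?_, ?_, ?_⟩
  · have := h.hb; linarith
  · have := h.hc; linarith
  · have := h.ha; linarith
  · rw [dd_rot]; exact h.hd

lemma Obt.pp_pos (h : Obt a b c) : 0 < pp a b c := mul_pos (mul_pos h.ha h.hb) h.hc

lemma Obt.SS_sq (h : Obt a b c) : SS a b c ^ 2 = 4 * pp a b c + dd a b c ^ 2 := by
  unfold SS
  apply Real.sq_sqrt
  have := h.pp_pos
  positivity

lemma Obt.SS_pos (h : Obt a b c) : 0 < SS a b c := by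
  unfold SS
  apply Real.sqrt_pos.2
  have := h.pp_pos
  positivity

lemma Obt.dd_lt (h : Obt a b c) : dd a b c < SS a b c := by
  have h1 := h.SS_sq
  have h2 := h.pp_pos
  have h3 := h.SS_pos
  nlinarith

lemma nn_sq (a b c : ℝ) : nn a b c ^ 2 = a ^ 2 * dd a b c ^ 2 - 4 * (1 - a ^ 2) * pp a b c := by
  unfold nn dd pp; ring

lemma nn_SS (h : Obt a b c) : SS a b c ^ 2 * (1 - a ^ 2) + nn a b c ^ 2 = dd a b c ^ 2 := by
  rw [h.SS_sq, nn_sq]; ring

/-- the denominators `u`, `v`, `w` -/
noncomputable def uu (a b c : ℝ) : ℝ := a * SS a b c + nn a b c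

lemma Obt.nn_lt (h : Obt a b c) : nn a b c ^ 2 < (a * SS a b c) ^ 2 := by
  have h1 := nn_SS h
  have h2 := h.SS_sq
  have h3 := h.pp_pos
  have h4 : (a * SS a b c) ^ 2 - nn a b c ^ 2 = 4 * pp a b c := by
    linear_combination h2 - h1
  linarith

lemma Obt.abs_nn (h : Obt a b c) : |nn a b c| < a * SS a b c := by
  have h1 := h.nn_lt
  have h2 : 0 < a * SS a b c := mul_pos h.a0 h.SS_pos
  exact abs_lt_of_sq_lt_sq h1 h2.le

lemma Obt.uu_pos (h : Obt a b c) : 0 < uu a b c := by
  have := (abs_lt.1 h.abs_nn).1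
  unfold uu; linarith

lemma Obt.uu_lt (h : Obt a b c) : uu a b c < SS a b c + dd a b c ∧
    SS a b c - dd a b c < uu a b c := by
  -- `((1 - a) S - n)^2 < d^2`
  have h1 := nn_SS h
  have h2 : ((1 - a) * SS a b c - nn a b c) ^ 2 < dd a b c ^ 2 := by
    have h3 : dd a b c ^ 2 - ((1 - a) * SS a b c - nn a b c) ^ 2 =
        2 * (1 - a) * SS a b c * uu a b c := by
      unfold uu
      linear_combination -h1
    have h4 : 0 < 2 * (1 - a) * SS a b c * uu a b c := by
      have := h.SS_pos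
      have := h.uu_pos
      have := sub_pos.2 h.a1
      positivity
    linarith
  have h5 := abs_lt.1 (abs_lt_of_sq_lt_sq h2 h.hd.le)
  unfold uu
  constructor <;> linarith [h5.1, h5.2]

lemma Obt.prod (h : Obt a b c) : uu a b c * uu b c a * uu c a b =
    4 * pp a b c * (SS a b c + dd a b c) := by
  have h1 := h.SS_sq
  unfold uu
  rw [SS_rot a b c, SS_rot b c a, SS_rot a b c]
  set S := SS a b c with hS
  have e : (a * S + nn a b c) * (b * S + nn b c a) * (c * S + nn c a b) -
      4 * pp a b c * (S + dd a b c) =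
      (S ^ 2 - (4 * pp a b c + dd a b c ^ 2)) * (a * b * c * S + (a * b * nn c a b +
        b * c * nn a b c + c * a * nn b c a)) := by
    unfold nn pp dd
    ring
  rw [h1, sub_self, zero_mul] at e
  linarith

lemma Obt.prod' (h : Obt a b c) : uu a b c * uu b c a * uu c a b =
    (SS a b c + dd a b c) ^ 2 * (SS a b c - dd a b c) := by
  rw [h.prod]
  have h1 := h.SS_sq
  linear_combination -(SS a b c + dd a b c) * h1

/-- both roots -/
lemma root_alg {S g x d m : ℝ} (hS : S ≠ 0) (h : S ^ 2 * (1 - g ^ 2) + x ^ 2 = d ^ 2)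
    (hm : m = S + d ∨ m = S - d) :
    g * ((g * S + x) ^ 2 + m ^ 2) - 2 * (g * S + x) * m =
      x / S * ((g * S + x) ^ 2 - m ^ 2) := by
  have key : g * S * ((g * S + x) ^ 2 + m ^ 2) - 2 * (g * S + x) * m * S =
      x * ((g * S + x) ^ 2 - m ^ 2) := by
    have h1 : m ^ 2 - 2 * S * m = d ^ 2 - S ^ 2 := by
      rcases hm with h | h <;> rw [h] <;> ring
    linear_combination (g * S + x) * h1 + (-(g * S + x)) * h
  field_simp
  linear_combination key

/-! ### The potentials -/

/-- the potentials of the three circles -/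
noncomputable def lamc (a b c : ℝ) : Fin 3 → Fin 3 → ℝ :=
  ![![uu c a b * uu a b c, (SS a b c + dd a b c) * uu a b c, (SS a b c + dd a b c) ^ 2],
    ![(SS a b c + dd a b c) ^ 2, uu a b c * uu b c a, (SS a b c + dd a b c) * uu b c a],
    ![(SS a b c + dd a b c) * uu c a b, (SS a b c + dd a b c) ^ 2, uu b c a * uu c a b]]

/-- the position of `i` in the order of the circle `e` -/
def rk (e i : Fin 3) : Fin 3 := i - e

lemma lamc_pos (h : Obt a b c) (e i : Fin 3) : 0 < lamc a b c e i := by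
  have h1 := h.uu_pos
  have h2 := h.rot.uu_pos
  have h3 := h.rot.rot.uu_pos
  have h4 : 0 < SS a b c + dd a b c := add_pos h.SS_pos h.hd
  fin_cases e <;> fin_cases i <;> simp [lamc] <;> positivity

lemma lamc_lt (h : Obt a b c) (e i j : Fin 3) :
    lamc a b c e i < lamc a b c e j ↔ rk e i < rk e j := by
  have h1 := h.uu_pos
  have h2 := h.rot.uu_pos
  have h3 := h.rot.rot.uu_pos
  have h4 : 0 < SS a b c + dd a b c := add_pos h.SS_pos h.hd
  have l1 := h.uu_lt.1
  have l2 := h.rot.uu_lt.1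
  have l3 := h.rot.rot.uu_lt.1
  rw [SS_rot, dd_rot] at l2 l3
  rw [SS_rot, dd_rot] at l3
  set s := SS a b c + dd a b c with hs
  set u := uu c a b with hu
  set v := uu a b c with hv
  set w := uu b c a with hw
  have e01 : u * v < s * v := mul_lt_mul_of_pos_right l3 h1
  have e02 : s * v < s ^ 2 := by rw [sq]; exact mul_lt_mul_of_pos_left l1 h4
  have e11 : v * w < s * w := mul_lt_mul_of_pos_right l1 h2
  have e12 : s * w < s ^ 2 := by rw [sq]; exact mul_lt_mul_of_pos_left l2 h4
  have e21 : w * u < s * u := mul_lt_mul_of_pos_right l2 h3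
  have e22 : s * u < s ^ 2 := by rw [sq]; exact mul_lt_mul_of_pos_left l3 h4
  have r : ∀ {x y : ℝ} {p q : Fin 3}, x < y → p < q → (x < y ↔ p < q) :=
    fun h1 h2 => ⟨fun _ => h2, fun _ => h1⟩
  have r' : ∀ {x y : ℝ} {p q : Fin 3}, y < x → q < p → (x < y ↔ p < q) :=
    fun h1 h2 => ⟨fun h => absurd h1 h.asymm, fun h => absurd h2 h.asymm⟩
  fin_cases e <;> fin_cases i <;> fin_cases j <;>
    first
    | exact ⟨fun h => absurd h (lt_irrefl _), fun h => absurd h (lt_irrefl _)⟩
    | exact r (by simp only [lamc]; exact e01) (by decide)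
    | exact r (by simp only [lamc]; exact e02) (by decide)
    | exact r (by simp only [lamc]; exact e01.trans e02) (by decide)
    | exact r (by simp only [lamc]; exact e11) (by decide)
    | exact r (by simp only [lamc]; exact e12) (by decide)
    | exact r (by simp only [lamc]; exact e11.trans e12) (by decide)
    | exact r (by simp only [lamc]; exact e21) (by decide)
    | exact r (by simp only [lamc]; exact e22) (by decide)
    | exact r (by simp only [lamc]; exact e21.trans e22) (by decide)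
    | exact r' (by simp only [lamc]; exact e01) (by decide)
    | exact r' (by simp only [lamc]; exact e02) (by decide)
    | exact r' (by simp only [lamc]; exact e01.trans e02) (by decide)
    | exact r' (by simp only [lamc]; exact e11) (by decide)
    | exact r' (by simp only [lamc]; exact e12) (by decide)
    | exact r' (by simp only [lamc]; exact e11.trans e12) (by decide)
    | exact r' (by simp only [lamc]; exact e21) (by decide)
    | exact r' (by simp only [lamc]; exact e22) (by decide)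
    | exact r' (by simp only [lamc]; exact e21.trans e22) (by decide)

lemma lamc_inj (h : Obt a b c) (e : Fin 3) : Function.Injective (lamc a b c e) := by
  intro i j hij
  have h1 := lamc_lt h e i j
  have h2 := lamc_lt h e j i
  rw [hij] at h1 h2
  have h3 : ¬ rk e i < rk e j := fun h => lt_irrefl _ (h1.2 h)
  have h4 : ¬ rk e j < rk e i := fun h => lt_irrefl _ (h2.2 h)
  have h5 : rk e i = rk e j := le_antisymm (not_lt.1 h4) (not_lt.1 h3)
  unfold rk at h5
  exact sub_left_injective h5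

/-! ### The common coefficients -/

variable {N : Matrix (Fin 3) (Fin 3) ℝ}

lemma xx_val {lam : Fin 3 → ℝ} {i j : Fin 3} {t p q y : ℝ} (ht : t ≠ 0) (hi : lam i = t * p)
    (hj : lam j = t * q) (hpq : p ^ 2 - q ^ 2 ≠ 0)
    (h : gr N i j * (p ^ 2 + q ^ 2) - 2 * p * q = y * (p ^ 2 - q ^ 2)) :
    xx N lam i j = y := by
  unfold xx
  rw [hi, hj, div_eq_iff]
  · linear_combination t ^ 2 * h
  · have : (t * p) ^ 2 - (t * q) ^ 2 = t ^ 2 * (p ^ 2 - q ^ 2) := by ring
    rw [this]
    exact mul_ne_zero (pow_ne_zero 2 ht) hpq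

lemma sq_sub_ne {p q : ℝ} (hp : 0 < p) (hq : 0 < q) (h : p ≠ q) : p ^ 2 - q ^ 2 ≠ 0 := by
  intro h1
  have h2 : (p - q) * (p + q) = 0 := by linear_combination h1
  rcases mul_eq_zero.1 h2 with h3 | h3
  · exact h (by linarith)
  · linarith

lemma xx_pair (h : Obt a b c) {lam : Fin 3 → ℝ} {i j : Fin 3} (hg : gr N i j = a)
    {t q : ℝ} (ht : t ≠ 0) (hq : q = SS a b c + dd a b c ∨ q = SS a b c - dd a b c)
    (hi : lam i = t * uu a b c) (hj : lam j = t * q) :
    xx N lam i j = nn a b c / SS a b c := by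
  have h1 := h.uu_pos
  have h4 : 0 < SS a b c + dd a b c := add_pos h.SS_pos h.hd
  have h5 : 0 < SS a b c - dd a b c := sub_pos.2 h.dd_lt
  refine xx_val (t := t) (p := uu a b c) (q := q) ht hi hj ?_ ?_
  · rcases hq with hq | hq
    · rw [hq]; exact sq_sub_ne h1 h4 h.uu_lt.1.ne
    · rw [hq]; exact sq_sub_ne h1 h5 h.uu_lt.2.ne'
  · rw [hg]
    exact root_alg h.SS_pos.ne' (nn_SS h) hq

/-- the common coefficients of the three circles -/
lemma xx_circle (h : Obt (gr N 1 2) (gr N 2 0) (gr N 0 1)) (e : Fin 3) :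
    xx N (lamc (gr N 1 2) (gr N 2 0) (gr N 0 1) e) 0 1 =
      nn (gr N 0 1) (gr N 1 2) (gr N 2 0) / SS (gr N 1 2) (gr N 2 0) (gr N 0 1) ∧
    xx N (lamc (gr N 1 2) (gr N 2 0) (gr N 0 1) e) 1 2 =
      nn (gr N 1 2) (gr N 2 0) (gr N 0 1) / SS (gr N 1 2) (gr N 2 0) (gr N 0 1) ∧
    xx N (lamc (gr N 1 2) (gr N 2 0) (gr N 0 1) e) 2 0 =
      nn (gr N 2 0) (gr N 0 1) (gr N 1 2) / SS (gr N 1 2) (gr N 2 0) (gr N 0 1) := by
  set a := gr N 1 2 with ha
  set b := gr N 2 0 with hb
  set c := gr N 0 1 with hc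
  have h1 := h.uu_pos
  have h2 := h.rot.uu_pos
  have h3 := h.rot.rot.uu_pos
  have h4 : 0 < SS a b c + dd a b c := add_pos h.SS_pos h.hd
  have hp := h.prod'
  have k01 : ∀ {lam : Fin 3 → ℝ} {t q : ℝ}, t ≠ 0 →
      (q = SS a b c + dd a b c ∨ q = SS a b c - dd a b c) →
      lam 0 = t * uu c a b → lam 1 = t * q → xx N lam 0 1 = nn c a b / SS a b c := by
    intro lam t q ht hq hi hj
    have := xx_pair (N := N) (i := 0) (j := 1) h.rot.rot hc.symm (lam := lam) (t := t) (q := q) ht
    rw [SS_rot, SS_rot, dd_rot, dd_rot] at this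
    exact this hq hi hj
  have k12 : ∀ {lam : Fin 3 → ℝ} {t q : ℝ}, t ≠ 0 →
      (q = SS a b c + dd a b c ∨ q = SS a b c - dd a b c) →
      lam 1 = t * uu a b c → lam 2 = t * q → xx N lam 1 2 = nn a b c / SS a b c := by
    intro lam t q ht hq hi hj
    exact xx_pair (N := N) (i := 1) (j := 2) h ha.symm ht hq hi hj
  have k20 : ∀ {lam : Fin 3 → ℝ} {t q : ℝ}, t ≠ 0 →
      (q = SS a b c + dd a b c ∨ q = SS a b c - dd a b c) →
      lam 2 = t * uu b c a → lam 0 = t * q → xx N lam 2 0 = nn b c a / SS a b c := by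
    intro lam t q ht hq hi hj
    have := xx_pair (N := N) (i := 2) (j := 0) h.rot hb.symm (lam := lam) (t := t) (q := q) ht
    rw [SS_rot, dd_rot] at this
    exact this hq hi hj
  have f1 : SS a b c + dd a b c = SS a b c + dd a b c ∨
      SS a b c + dd a b c = SS a b c - dd a b c := Or.inl rfl
  have f2 : SS a b c - dd a b c = SS a b c + dd a b c ∨
      SS a b c - dd a b c = SS a b c - dd a b c := Or.inr rfl
  fin_cases e
  · refine ⟨k01 h1.ne' f1 ?_ ?_, k12 h4.ne' f1 ?_ ?_,
      k20 (t := (SS a b c + dd a b c) ^ 2 / uu b c a) (by positivity) f2 ?_ ?_⟩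
    · simp [lamc]; ring
    · simp [lamc]; ring
    · simp [lamc]
    · simp [lamc]; ring
    · simp [lamc]; field_simp
    · simp [lamc]; field_simp; linarith
  · refine ⟨k01 (t := (SS a b c + dd a b c) ^ 2 / uu c a b) (by positivity) f2 ?_ ?_,
      k12 h2.ne' f1 ?_ ?_, k20 h4.ne' f1 ?_ ?_⟩
    · simp [lamc]; field_simp
    · simp [lamc]; field_simp; linarith
    · simp [lamc]; ring
    · simp [lamc]; ring
    · simp [lamc]
    · simp [lamc]; ring
  · refine ⟨k01 h4.ne' f1 ?_ ?_,
      k12 (t := (SS a b c + dd a b c) ^ 2 / uu a b c) (by positivity) f2 ?_ ?_,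
      k20 h3.ne' f1 ?_ ?_⟩
    · simp [lamc]
    · simp [lamc]; ring
    · simp [lamc]; field_simp
    · simp [lamc]; field_simp; linarith
    · simp [lamc]; ring
    · simp [lamc]; ring

end three

end Pool.Agent.helper69.FlexPoly
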