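import Pool.Agent.helper69.FlexPoly.Glue

set_option autoImplicit false

open MeasureTheory Filter Topology

namespace Pool.Agent.helper69.FlexPoly

section torus

/-- the facets of a torus with nine vertices -/
def tf : Fin 18 → Fin 3 → Fin 9 :=
  ![![7, 1, 8], ![7, 3, 4], ![1, 4, 8], ![4, 3, 5], ![0, 4, 1], ![2, 8, 4], ![6, 7, 4], ![1, 3, 2],
    ![3, 6, 0], ![4, 0, 6], ![0, 5, 3], ![5, 0, 2], ![0, 1, 2], ![7, 8, 2], ![4, 5, 2], ![2, 3, 7],
    ![1, 6, 3], ![6, 1, 7]]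

lemma tf_inj : ∀ F i j, tf F i = tf F j → i = j := by
  decide

lemma tf_cover : ∀ v : Fin 9, ∃ F i, tf F i = v := by
  decide

lemma tf_distinct : ∀ F G, (∀ i, ∃ j, tf G j = tf F i) → F = G := by
  decide

lemma tf_two : ∀ F i, ∃ G, (G ≠ F ∧ ∀ k, k ≠ i → ∃ l, tf G l = tf F k) ∧
    ∀ G', (G' ≠ F ∧ ∀ k, k ≠ i → ∃ l, tf G' l = tf F k) → G' = G := by
  decide

lemma tf_oriented : ∀ F G, F ≠ G → ∀ (i : Fin 3) (τ : Equiv.Perm (Fin 3)),
    (∀ k, k ≠ i → tf G (τ k) = tf F k) → Equiv.Perm.sign τ = -1 := by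
  decide

/-- a spanning tree -/
def tp : Fin 18 → Fin 18 := ![0, 15, 0, 14, 2, 2, 17, 15, 16, 4, 8, 12, 4, 0, 5, 13, 17, 0]

/-- the distance from the root -/
def td : Fin 18 → ℕ := ![0, 3, 1, 4, 2, 2, 2, 3, 3, 3, 4, 4, 3, 1, 3, 2, 2, 1]

lemma tp_spec : ∀ F, F = 0 ∨ (td (tp F) < td F ∧
    (∃ i, ∀ k, k ≠ i → ∃ l, tf F l = tf (tp F) k) ∧
    (∃ i, ∀ k, k ≠ i → ∃ l, tf (tp F) l = tf F k)) := by
  decide

lemma tf_injective : Function.Injective tf := by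
  intro F G h
  apply tf_distinct
  intro i
  exact ⟨i, by rw [h]⟩

lemma tf_conn (F : Fin 18) :
    Relation.ReflTransGen (fun A B : Fin 3 → Fin 9 =>
      B ∈ (Finset.univ.map ⟨tf, tf_injective⟩ : Finset (Fin 3 → Fin 9)) ∧
        ∃ i, ∀ k, k ≠ i → A k ∈ Set.range B) (tf 0) (tf F) ∧
    Relation.ReflTransGen (fun A B : Fin 3 → Fin 9 =>
      B ∈ (Finset.univ.map ⟨tf, tf_injective⟩ : Finset (Fin 3 → Fin 9)) ∧
        ∃ i, ∀ k, k ≠ i → A k ∈ Set.range B) (tf F) (tf 0) := by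
  induction hd : td F using Nat.strong_induction_on generalizing F with
  | _ d ih =>
      rcases tp_spec F with h | ⟨h1, ⟨i, hi⟩, j, hj⟩
      · rw [h]
        exact ⟨Relation.ReflTransGen.refl, Relation.ReflTransGen.refl⟩
      · obtain ⟨h2, h3⟩ := ih (td (tp F)) (by rw [← hd]; exact h1) (tp F) rfl
        constructor
        · refine h2.tail ⟨by simp, i, ?_⟩
          intro k hk
          exact hi k hk
        · refine Relation.ReflTransGen.head ⟨by simp, j, ?_⟩ h3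
          intro k hk
          exact hj k hk

/-- the torus -/
def torus : OrientedPseudomanifold (Fin 9) 3 where
  facets := Finset.univ.map ⟨tf, tf_injective⟩
  or := fun _ => 1
  or_eq := fun _ _ => Or.inl rfl
  nonempty := ⟨tf 0, by simp⟩
  inj := by
    intro F hF
    simp only [Finset.mem_map, Finset.mem_univ, true_and, Function.Embedding.coeFn_mk] at hF
    obtain ⟨a, rfl⟩ := hF
    intro i j h
    exact tf_inj a i j h
  cover := by
    intro v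
    obtain ⟨a, i, h⟩ := tf_cover v
    exact ⟨tf a, by simp, i, h⟩
  distinct := by
    intro F hF G hG h
    simp only [Finset.mem_map, Finset.mem_univ, true_and, Function.Embedding.coeFn_mk] at hF hG
    obtain ⟨a, rfl⟩ := hF
    obtain ⟨b, rfl⟩ := hG
    congr 1
    apply tf_distinct
    intro i
    have : tf a i ∈ Set.range (tf b) := by rw [← h]; exact ⟨i, rfl⟩
    exact this
  two := by
    intro F hF i
    simp only [Finset.mem_map, Finset.mem_univ, true_and, Function.Embedding.coeFn_mk] at hF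
    obtain ⟨a, rfl⟩ := hF
    obtain ⟨b, ⟨h1, h2⟩, h3⟩ := tf_two a i
    refine ⟨tf b, ⟨by simp, fun h => h1 (tf_injective h), h2⟩, ?_⟩
    rintro G ⟨hG, hne, hk⟩
    simp only [Finset.mem_map, Finset.mem_univ, true_and, Function.Embedding.coeFn_mk] at hG
    obtain ⟨c, rfl⟩ := hG
    congr 1
    exact h3 c ⟨fun h => hne (by rw [h]), hk⟩
  oriented := by
    intro F hF G hG hne i τ hτ
    simp only [Finset.mem_map, Finset.mem_univ, true_and, Function.Embedding.coeFn_mk] at hF hG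
    obtain ⟨a, rfl⟩ := hF
    obtain ⟨b, rfl⟩ := hG
    rw [tf_oriented a b (fun h => hne (by rw [h])) i τ hτ]
    norm_num
  connected := by
    intro F hF G hG
    simp only [Finset.mem_map, Finset.mem_univ, true_and, Function.Embedding.coeFn_mk] at hF hG
    obtain ⟨a, rfl⟩ := hF
    obtain ⟨b, rfl⟩ := hG
    exact (tf_conn a).2.trans (tf_conn b).1

/-- the coordinates -/
def tw : Fin 9 → Fin 4 → ℤ :=
  ![![1, -1, 2, 2], ![0, 2, 0, -1], ![2, -1, -1, -1], ![-2, -2, 1, -2], ![-1, 0, -1, 1],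
    ![0, 2, 1, -1], ![2, -1, -2, -1], ![1, 0, 2, 2], ![-1, -1, 1, -1]]

/-- the inner products -/
def tg (v w : Fin 9) : ℤ := tw v 0 * tw w 0 + tw v 1 * tw w 1 + tw v 2 * tw w 2 + tw v 3 * tw w 3

lemma tg_neg : ∀ F i j, i ≠ j → tg (tf F i) (tf F j) < 0 := by
  decide

lemma tg_det : ∀ x y z : Fin 9, x ≠ y → x ≠ z → y ≠ z →
    tg x x * tg y y * tg z z + 2 * tg x y * tg y z * tg x z - tg x x * tg y z ^ 2 -
      tg y y * tg x z ^ 2 - tg z z * tg x y ^ 2 ≠ 0 := by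
  decide

lemma tg_par : ∀ v w, v ≠ w → tg v w ^ 2 ≠ tg v v * tg w w := by
  decide

lemma tg_pos : ∀ v, 0 < tg v v := by
  decide

lemma tg_circ : ∀ F i v, (∀ j, tf F j ≠ v) → ∃ k, k ≠ i ∧
    tg v (tf F k) ^ 2 * tg (tf F i) (tf F i) ≠ tg (tf F i) (tf F k) ^ 2 * tg v v := by
  decide

lemma tf_col' : ∀ a0 a1 a2 a3 a4 a5 a6 a7 a8 : Bool, ∃ F,
    ![a0, a1, a2, a3, a4, a5, a6, a7, a8] (tf F 0) = ![a0, a1, a2, a3, a4, a5, a6, a7, a8] (tf F 1) ∧
    ![a0, a1, a2, a3, a4, a5, a6, a7, a8] (tf F 1) =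
      ![a0, a1, a2, a3, a4, a5, a6, a7, a8] (tf F 2) := by
  decide

lemma tf_col (a : Fin 9 → Bool) : ∃ F, a (tf F 0) = a (tf F 1) ∧ a (tf F 1) = a (tf F 2) := by
  have h := tf_col' (a 0) (a 1) (a 2) (a 3) (a 4) (a 5) (a 6) (a 7) (a 8)
  have h1 : ![a 0, a 1, a 2, a 3, a 4, a 5, a 6, a 7, a 8] = a := by
    funext i
    fin_cases i <;> rfl
  rwa [h1] at h

/-! ### The polyhedral torus -/

/-- the real vectors -/
noncomputable def twr (v : Fin 9) : Fin 4 → ℝ := fun l => (tw v l : ℝ)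

/-- the vertices in `S^3` -/
noncomputable def tP (v : Fin 9) : Fin 4 → ℝ := nz (n := 3) (twr v)

lemma twr_dot (v w : Fin 9) : twr v ⬝ᵥ twr w = (tg v w : ℝ) := by
  unfold twr tg
  simp only [dotProduct, Fin.sum_univ_four]
  push_cast
  ring

lemma twr_ne (v : Fin 9) : twr v ≠ 0 := by
  intro h
  have h1 := twr_dot v v
  rw [h, zero_dotProduct] at h1
  have h2 := tg_pos v
  have h3 : tg v v = 0 := by exact_mod_cast h1.symm
  omega

lemma tP_sq (v w : Fin 9) : (tP v ⬝ᵥ tP w) ^ 2 = (tg v w : ℝ) ^ 2 / ((tg v v : ℝ) * tg w w) := by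
  unfold tP
  rw [nz_dot_sq (twr_ne v) (twr_ne w), twr_dot, twr_dot, twr_dot]

lemma tP_dot (v w : Fin 9) : ∃ r : ℝ, 0 < r ∧ tP v ⬝ᵥ tP w = r * tg v w := by
  refine ⟨(√(twr v ⬝ᵥ twr v))⁻¹ * (√(twr w ⬝ᵥ twr w))⁻¹,
    mul_pos (nz_pos (n := 3) (twr_ne v)) (nz_pos (n := 3) (twr_ne w)), ?_⟩
  unfold tP
  rw [nz_dot, twr_dot v w]
  ring

lemma g3_smul (x y z : Fin 4 → ℝ) (a b c : ℝ) :
    g3 (a • x) (b • y) (c • z) = a ^ 2 * b ^ 2 * c ^ 2 * g3 x y z := by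
  unfold g3
  simp only [smul_dotProduct, dotProduct_smul, smul_eq_mul]
  ring

lemma tP_g3 {x y z : Fin 9} (hxy : x ≠ y) (hxz : x ≠ z) (hyz : y ≠ z) :
    g3 (tP x) (tP y) (tP z) ≠ 0 := by
  have h1 := tg_det x y z hxy hxz hyz
  unfold tP nz
  rw [g3_smul]
  have h2 : g3 (twr x) (twr y) (twr z) = ((tg x x * tg y y * tg z z +
      2 * tg x y * tg y z * tg x z - tg x x * tg y z ^ 2 -
      tg y y * tg x z ^ 2 - tg z z * tg x y ^ 2 : ℤ) : ℝ) := by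
    unfold g3
    simp only [twr_dot]
    push_cast
    ring
  rw [h2]
  have h3 := (nz_pos (n := 3) (twr_ne x)).ne'
  have h4 := (nz_pos (n := 3) (twr_ne y)).ne'
  have h5 := (nz_pos (n := 3) (twr_ne z)).ne'
  refine mul_ne_zero (mul_ne_zero (mul_ne_zero (pow_ne_zero 2 h3) (pow_ne_zero 2 h4))
    (pow_ne_zero 2 h5)) ?_
  exact_mod_cast h1

lemma g3_linInd {p : Fin 3 → Fin 4 → ℝ} (h : g3 (p 0) (p 1) (p 2) ≠ 0) :
    LinearIndependent ℝ p := by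
  rw [Fintype.linearIndependent_iff]
  intro g hg
  rw [Fin.sum_univ_three] at hg
  have e0 := congrArg (fun y => y ⬝ᵥ p 0) hg
  have e1 := congrArg (fun y => y ⬝ᵥ p 1) hg
  have e2 := congrArg (fun y => y ⬝ᵥ p 2) hg
  simp only [add_dotProduct, smul_dotProduct, smul_eq_mul, zero_dotProduct] at e0 e1 e2
  rw [dotProduct_comm (p 1) (p 0), dotProduct_comm (p 2) (p 0)] at e0
  rw [dotProduct_comm (p 2) (p 1)] at e1
  unfold g3 at h
  have k0 : g 0 = 0 := by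
    apply (mul_eq_zero.1 _).resolve_left h
    linear_combination ((p 1 ⬝ᵥ p 1) * (p 2 ⬝ᵥ p 2) - (p 1 ⬝ᵥ p 2) ^ 2) * e0 +
      ((p 0 ⬝ᵥ p 2) * (p 1 ⬝ᵥ p 2) - (p 0 ⬝ᵥ p 1) * (p 2 ⬝ᵥ p 2)) * e1 +
      ((p 0 ⬝ᵥ p 1) * (p 1 ⬝ᵥ p 2) - (p 0 ⬝ᵥ p 2) * (p 1 ⬝ᵥ p 1)) * e2
  have k1 : g 1 = 0 := by
    apply (mul_eq_zero.1 _).resolve_left h
    linear_combination ((p 0 ⬝ᵥ p 2) * (p 1 ⬝ᵥ p 2) - (p 0 ⬝ᵥ p 1) * (p 2 ⬝ᵥ p 2)) * e0 +
      ((p 0 ⬝ᵥ p 0) * (p 2 ⬝ᵥ p 2) - (p 0 ⬝ᵥ p 2) ^ 2) * e1 +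
      ((p 0 ⬝ᵥ p 1) * (p 0 ⬝ᵥ p 2) - (p 0 ⬝ᵥ p 0) * (p 1 ⬝ᵥ p 2)) * e2
  have k2 : g 2 = 0 := by
    apply (mul_eq_zero.1 _).resolve_left h
    linear_combination ((p 0 ⬝ᵥ p 1) * (p 1 ⬝ᵥ p 2) - (p 0 ⬝ᵥ p 2) * (p 1 ⬝ᵥ p 1)) * e0 +
      ((p 0 ⬝ᵥ p 1) * (p 0 ⬝ᵥ p 2) - (p 0 ⬝ᵥ p 0) * (p 1 ⬝ᵥ p 2)) * e1 +
      ((p 0 ⬝ᵥ p 0) * (p 1 ⬝ᵥ p 1) - (p 0 ⬝ᵥ p 1) ^ 2) * e2
  intro i
  fin_cases i
  · exact k0
  · exact k1
  · exact k2

lemma mem_torus {F : Fin 3 → Fin 9} (h : F ∈ torus.facets) : ∃ a, F = tf a := by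
  simp only [torus, Finset.mem_map, Finset.mem_univ, true_and,
    Function.Embedding.coeFn_mk] at h
  obtain ⟨a, rfl⟩ := h
  exact ⟨a, rfl⟩

/-- The torus satisfies all assumptions. -/
lemma core_torus : Core torus tP := by
  refine ⟨⟨fun v => nz_onSphere (n := 3) (twr_ne v), ?_⟩, ?_, ?_, ?_, ?_, ?_⟩
  · intro F hF
    obtain ⟨a, rfl⟩ := mem_torus hF
    apply g3_linInd (p := fun i => tP (tf a i))
    apply tP_g3
    · intro h; exact absurd (tf_inj a _ _ h) (by decide)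
    · intro h; exact absurd (tf_inj a _ _ h) (by decide)
    · intro h; exact absurd (tf_inj a _ _ h) (by decide)
  · intro F hF i j hij
    obtain ⟨a, rfl⟩ := mem_torus hF
    obtain ⟨r, hr, h⟩ := tP_dot (tf a i) (tf a j)
    rw [h]
    have h1 := tg_neg a i j hij
    have h2 : ((tg (tf a i) (tf a j) : ℤ) : ℝ) < 0 := by exact_mod_cast h1
    exact mul_neg_of_pos_of_neg hr h2
  · intro A
    classical
    obtain ⟨a, h1, h2⟩ := tf_col fun v => decide (v ∈ A)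
    refine ⟨tf a, by simp [torus], ?_⟩
    have h1' : tf a 0 ∈ A ↔ tf a 1 ∈ A := by simpa using h1
    have h2' : tf a 1 ∈ A ↔ tf a 2 ∈ A := by simpa using h2
    intro i j
    fin_cases i <;> fin_cases j
    · exact Iff.rfl
    · exact h1'
    · exact h1'.trans h2'
    · exact h1'.symm
    · exact Iff.rfl
    · exact h2'
    · exact (h1'.trans h2').symm
    · exact h2'.symm
    · exact Iff.rfl
  · intro v w hvw hp
    have h1 := tP_sq v w
    have hpos : ∀ v, (0 : ℝ) < tg v v := fun v => by exact_mod_cast tg_pos v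
    have h2 : (tP v ⬝ᵥ tP w) ^ 2 = 1 := by
      have h3 : tP w ⬝ᵥ tP w = 1 := (nz_onSphere (n := 3) (twr_ne w)).dot_self
      rcases hp with h4 | h4
      · rw [h4, h3]; norm_num
      · rw [h4, neg_dotProduct, h3]; norm_num
    rw [h2] at h1
    have h5 : (tg v w : ℝ) ^ 2 = (tg v v : ℝ) * tg w w := by
      have := mul_pos (hpos v) (hpos w)
      rw [eq_div_iff this.ne', one_mul] at h1
      exact h1.symm
    apply tg_par v w hvw
    exact_mod_cast h5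
  · intro x y z hxy hxz hyz
    exact tP_g3 hxy hxz hyz
  · intro F hF i v hv
    obtain ⟨a, rfl⟩ := mem_torus hF
    obtain ⟨k, hk, hne⟩ := tg_circ a i v (fun j hj => hv ⟨j, hj⟩)
    refine ⟨k, hk, ?_⟩
    rw [tP_sq, tP_sq]
    intro h
    apply hne
    have hpos : ∀ v, (0 : ℝ) < tg v v := fun v => by exact_mod_cast tg_pos v
    have p1 := hpos v
    have p2 := hpos (tf a k)
    have p3 := hpos (tf a i)
    rw [div_eq_div_iff (mul_pos p1 p2).ne' (mul_pos p3 p2).ne'] at h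
    have h6 : (tg v (tf a k) : ℝ) ^ 2 * tg (tf a i) (tf a i) =
        (tg (tf a i) (tf a k) : ℝ) ^ 2 * tg v v := by
      apply mul_right_cancel₀ p2.ne'
      linarith
    exact_mod_cast h6

end torus

end Pool.Agent.helper69.FlexPoly
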