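import Pool.Agent.helper69.FlexPoly.Split

set_option autoImplicit false

open MeasureTheory Filter Topology

namespace Pool.Agent.helper69.FlexPoly

section walls

variable {n : ℕ} {N : Matrix (Fin n) (Fin n) ℝ} {c s : Fin n → ℝ} {lam : Fin n → ℝ}
  {A : Set (Fin n × Bool)}

lemma continuousAt_vol_comp {V : Type} {K : OrientedPseudomanifold V n} {X : Type*}
    [TopologicalSpace X] {f : X → V → Fin (n + 1) → ℝ} (hf : Continuous f) {x : X}
    {y : Fin (n + 1) → ℝ} (hP : IsPolyhedron K (f x)) (hs : OnSphere y)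
    (hy : y ∉ image K (f x)) : ContinuousAt (fun x => volFrom K (f x) y) x :=
  ContinuousAt.comp (g := fun P => volFrom K P y) (f := f) (continuousAt_volFrom hP hs hy)
    hf.continuousAt

lemma vD_dot (hN : N.det ≠ 0) (i k : Fin n) :
    vD N c s i ⬝ᵥ ext (N k) 0 = c i * (if i = k then 1 else 0) := by
  have h2 := vA_dot hN i k
  unfold vA at h2
  rw [ext_dot] at h2
  unfold vD
  rw [ext_dot, ← h2, mul_zero, add_zero, mul_zero, add_zero, Finset.mul_sum]
  refine Finset.sum_congr rfl fun l _ => ?_
  ring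

lemma vD_ne (hN : N.det ≠ 0) {i : Fin n} (h : c i ≠ 0 ∨ s i ≠ 0) : vD N c s i ≠ 0 := by
  intro h0
  rcases h with h | h
  · have h1 := vD_dot (c := c) (s := s) hN i i
    rw [h0, zero_dotProduct, if_pos rfl, mul_one] at h1
    exact h h1.symm
  · have h1 := congrFun h0 (Fin.last n)
    unfold vD at h1
    rw [ext_last] at h1
    exact h h1

lemma eL_ext : eL n = ext (fun _ => 0) 1 := rfl

lemma eL_dot (k : Fin n) : eL n ⬝ᵥ ext (N k) 0 = 0 := by
  rw [eL_ext, ext_dot]; simp

lemma smul_eL_onSphere {κ : ℝ} (hκ : κ * κ = 1) : OnSphere (κ • eL n) := by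
  unfold OnSphere
  rw [Fin.sum_univ_castSucc]
  simp [eL_cast, eL_last, sq, hκ]

lemma ev_ne {V : Type} (A : Set V) (v : V) : ev A v ≠ 0 := by
  intro h
  have := ev_sq A v
  rw [h] at this
  norm_num at this

/-- the poles `± e` lie in the image only if a vertex is there -/
lemma notMem_PD (hN : N.det ≠ 0) (hne : ∀ i, c i ≠ 0 ∨ s i ≠ 0) {κ : ℝ} (hκ : κ * κ = 1)
    (hno : ∀ i, c i = 0 → κ * (ev A (i, true) * s i) ≤ 0) :
    κ • eL n ∉ image (crossPolytope n) (antipodes A (crs (vA N) (vD N c s))) := by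
  rintro ⟨_, F, hF, g, hg, hgeq⟩
  obtain ⟨s', rfl⟩ := mem_facets hF
  set rw' : Fin n → Fin (n + 1) → ℝ := fun j => if s' j then vD N c s j else vA N j with hrw
  have hrne : ∀ j, rw' j ≠ 0 := by
    intro j
    simp only [hrw]
    split_ifs
    · exact vD_ne hN (hne j)
    · exact vA_ne hN j
  have hP : ∀ j, antipodes A (crs (vA N) (vD N c s)) (facet s' j) =
      (ev A (j, s' j) * (√(rw' j ⬝ᵥ rw' j))⁻¹) • rw' j := by
    intro j
    rw [antipodes_apply]
    unfold crs facet nz
    rw [smul_smul]
  simp only [hP] at hgeq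
  -- the coefficients
  have h1 : ∀ k, s' k = true → g k * c k = 0 := by
    intro k hk
    have h2 := congrArg (fun z => z ⬝ᵥ ext (N k) 0) hgeq
    simp only [smul_dotProduct, eL_dot, smul_eq_mul, mul_zero, sum_dotProduct] at h2
    have h3 : ∑ j, g j * (ev A (j, s' j) * (√(rw' j ⬝ᵥ rw' j))⁻¹ * (rw' j ⬝ᵥ ext (N k) 0)) =
        g k * (ev A (k, s' k) * (√(rw' k ⬝ᵥ rw' k))⁻¹ * c k) := by
      rw [Finset.sum_eq_single k]
      · simp only [hrw, hk, if_true]
        rw [vD_dot hN, if_pos rfl, mul_one]
      · intro j _ hj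
        have : rw' j ⬝ᵥ ext (N k) 0 = 0 := by
          simp only [hrw]
          split_ifs
          · rw [vD_dot hN, if_neg hj, mul_zero]
          · rw [vA_dot hN, if_neg hj]
        rw [this]; ring
      · intro h; exact absurd (Finset.mem_univ k) h
    rw [h3] at h2
    have h4 : ev A (k, s' k) * (√(rw' k ⬝ᵥ rw' k))⁻¹ ≠ 0 :=
      mul_ne_zero (ev_ne _ _) (nz_pos (hrne k)).ne'
    have h5 : (ev A (k, s' k) * (√(rw' k ⬝ᵥ rw' k))⁻¹) * (g k * c k) = 0 := by
      rw [h2]; ring
    exact (mul_eq_zero.1 h5).resolve_left h4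
  have h2 := congrFun hgeq (Fin.last n)
  rw [Pi.smul_apply, eL_last, smul_eq_mul, mul_one, Finset.sum_apply] at h2
  have h3 : κ * κ = ∑ j, κ * ((g j • ((ev A (j, s' j) * (√(rw' j ⬝ᵥ rw' j))⁻¹) • rw' j))
      (Fin.last n)) := by
    rw [← Finset.mul_sum, ← h2]
  rw [hκ] at h3
  have h4 : ∑ j, κ * ((g j • ((ev A (j, s' j) * (√(rw' j ⬝ᵥ rw' j))⁻¹) • rw' j))
      (Fin.last n)) ≤ 0 := by
    apply Finset.sum_nonpos
    intro j _
    rw [Pi.smul_apply, Pi.smul_apply, smul_eq_mul, smul_eq_mul]
    by_cases hj : s' j = true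
    · have h5 : rw' j (Fin.last n) = s j := by
        simp only [hrw, hj, if_true, vD, ext_last]
      rw [h5]
      by_cases hc : c j = 0
      · have h6 := hno j hc
        have h7 : 0 ≤ g j * (√(rw' j ⬝ᵥ rw' j))⁻¹ := mul_nonneg (hg j) (nz_pos (hrne j)).le
        rw [hj]
        have h8 : κ * (g j * (ev A (j, true) * (√(rw' j ⬝ᵥ rw' j))⁻¹ * s j)) =
            (g j * (√(rw' j ⬝ᵥ rw' j))⁻¹) * (κ * (ev A (j, true) * s j)) := by ring
        rw [h8]
        exact mul_nonpos_of_nonneg_of_nonpos h7 h6
      · have h6 : g j = 0 := (mul_eq_zero.1 (h1 j hj)).resolve_right hc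
        rw [h6]; simp
    · have h5 : rw' j (Fin.last n) = 0 := by
        simp only [hrw, hj]
        exact vA_last j
      rw [h5]; simp
  linarith

lemma PD_isPolyhedron (hN : N.det ≠ 0) (hc : ∀ i, c i ≠ 0) :
    IsPolyhedron (crossPolytope n) (crs (vA N) (vD N c s)) := by
  apply crs_isPolyhedron (ν := fun k => ext (N k) 0) (vA_dot hN) vA_last
  intro w hw _
  funext k
  have h1 := hw k
  have h2 : ∑ i, w i * (vD N c s i ⬝ᵥ ext (N k) 0) = w k * c k := by
    rw [Finset.sum_eq_single k]
    · rw [vD_dot hN, if_pos rfl, mul_one]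
    · intro j _ hj
      rw [vD_dot hN, if_neg hj]; ring
    · intro h; exact absurd (Finset.mem_univ k) h
  rw [h2] at h1
  rcases mul_eq_zero.1 h1 with h3 | h3
  · exact h3
  · exact (mul_eq_zero.1 h3).resolve_right (hc k)

lemma continuous_PD {X : Type*} [TopologicalSpace X] (hN : N.det ≠ 0) {c s : X → Fin n → ℝ}
    (hc : ∀ i, Continuous fun x => c x i) (hs : ∀ i, Continuous fun x => s x i)
    (hne : ∀ x i, c x i ≠ 0 ∨ s x i ≠ 0) :
    Continuous fun x => crs (vA N) (vD N (c x) (s x)) := by
  rw [continuous_pi_iff]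
  rintro ⟨i, b⟩
  cases b
  · have h0 : (fun x => crs (vA N) (vD N (c x) (s x)) (i, false)) = fun _ => nz (vA N i) := rfl
    rw [h0]
    exact continuous_const
  · have h1 : Continuous fun x => vD N (c x) (s x) i := by
      unfold vD
      apply continuous_ext
      · rw [continuous_pi_iff]
        intro l
        exact (hc i).mul continuous_const
      · exact hs i
    exact continuous_nz (X := X) h1 fun x => vD_ne hN (hne x i)

/-- the sign of the flat cross-polytope -/
noncomputable def tau (N : Matrix (Fin n) (Fin n) ℝ) (A : Set (Fin n × Bool)) : ℤ :=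
  SignType.sign (dt (Fin.snoc (fun i => ev A (i, false) • nz (vA N i)) (eL n) :
    Fin (n + 1) → Fin (n + 1) → ℝ))

lemma dt_ne (hN : N.det ≠ 0) (A : Set (Fin n × Bool)) :
    dt (Fin.snoc (fun i => ev A (i, false) • nz (vA N i)) (eL n) :
      Fin (n + 1) → Fin (n + 1) → ℝ) ≠ 0 := by
  have hflat : ∀ i, (ev A (i, false) • nz (vA N i)) (Fin.last n) = 0 := by
    intro i
    rw [Pi.smul_apply, nz_last (vA_last i), smul_zero]
  have h1 : LinearIndependent ℝ (fun i => ev A (i, false) • nz (vA N i)) := by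
    have hF : facet (fun _ : Fin n => false) ∈ (crossPolytope n).facets := by
      simp [crossPolytope]
    have hpoly : IsPolyhedron (crossPolytope n)
        (antipodes A (crs (vA N) (vD N (fun _ => 1) (fun _ => 0)))) :=
      (PD_isPolyhedron hN (fun _ => one_ne_zero)).antipodes A
    have h2 := hpoly.2 _ hF
    convert h2 using 1
    funext i
    rw [antipodes_apply]
    rfl
  exact (dt_ne_zero_iff _).2 (h1.finSnoc (eL_notMem hflat))

lemma tau_cases (hN : N.det ≠ 0) (A : Set (Fin n × Bool)) : tau N A = 1 ∨ tau N A = -1 := by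
  unfold tau
  rcases lt_or_gt_of_ne (dt_ne hN A) with h | h
  · right; rw [sign_neg h]; rfl
  · left; rw [sign_pos h]; rfl

lemma volFrom_refl {P : Fin n × Bool → Fin (n + 1) → ℝ} (h : ∀ v, P v (Fin.last n) = 0) :
    volFrom (crossPolytope n) P (eL n) = - volFrom (crossPolytope n) P (-eL n) := by
  have h1 := mv_volFrom (K := crossPolytope n) refl_orth P (-eL n)
  rw [mv_flat h, refl_det] at h1
  have h2 : (refl n).mulVec (-eL n) = eL n := by
    rw [refl_mulVec]
    funext i
    refine Fin.lastCases ?_ (fun i => ?_) i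
    · simp
    · simp [eL_cast]
  rw [h2] at h1
  linarith

open Classical in
/-- the difference of the two lifts -/
lemma D_val (hN : N.det ≠ 0) {e : Fin n → ℝ} (he : ∀ i, e i = 1 ∨ e i = -1)
    (hce : ∀ i, 0 < c i * e i) :
    volFrom (crossPolytope n) (antipodes A (crs (vA N) (vD N c s))) (-eL n) -
      volFrom (crossPolytope n) (antipodes A (crs (vA N) (vD N c s))) (eL n) =
      if ∀ i, e i * ev A (i, true) = - ev A (i, false) then (tau N A : ℝ) * sphereVol n
      else 0 := by
  -- the homotopy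
  set cr : unitInterval → Fin n → ℝ := fun r i => (1 - r) * c i + r * e i with hcr
  set sr : unitInterval → Fin n → ℝ := fun r i => (1 - r) * s i with hsr
  have hee : ∀ i, e i * e i = 1 := fun i => by rcases he i with h | h <;> rw [h] <;> norm_num
  have hcr0 : ∀ r i, cr r i ≠ 0 := by
    intro r i h0
    have h1 : cr r i * e i = (1 - r) * (c i * e i) + r := by
      simp only [hcr]
      linear_combination (r : ℝ) * hee i
    rw [h0, zero_mul] at h1
    have h2 := r.2.1
    have h3 := r.2.2
    have h4 := hce i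
    rcases h3.lt_or_eq with h5 | h5
    · have : 0 < (1 - (r : ℝ)) * (c i * e i) := mul_pos (by linarith) h4
      linarith
    · rw [h5] at h1; norm_num at h1
  have hcont : Continuous fun r => antipodes A (crs (vA N) (vD N (cr r) (sr r))) := by
    apply (continuous_antipodes A).comp
    apply continuous_PD hN
    · intro i; simp only [hcr]; fun_prop
    · intro i; simp only [hsr]; fun_prop
    · intro r i; exact Or.inl (hcr0 r i)
  have hpoly : ∀ r, IsPolyhedron (crossPolytope n)
      (antipodes A (crs (vA N) (vD N (cr r) (sr r)))) :=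
    fun r => (PD_isPolyhedron hN (hcr0 r)).antipodes A
  have hnot : ∀ r (κ : ℝ), κ * κ = 1 → κ • eL n ∉ image (crossPolytope n)
      (antipodes A (crs (vA N) (vD N (cr r) (sr r)))) :=
    fun r κ hκ => notMem_PD hN (fun i => Or.inl (hcr0 r i)) hκ
      (fun i hi => absurd hi (hcr0 r i))
  have hm : (-1 : ℝ) • eL n = - eL n := by rw [neg_one_smul]
  have hp : (1 : ℝ) • eL n = eL n := one_smul _ _
  have hs1 : OnSphere (-eL n) := eL_onSphere
  have hs2 : OnSphere (eL n) := by
    have := smul_eL_onSphere (n := n) (κ := 1) (by norm_num)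
    rwa [hp] at this
  have hn1 : ∀ r, -eL n ∉ image (crossPolytope n)
      (antipodes A (crs (vA N) (vD N (cr r) (sr r)))) := by
    intro r
    have := hnot r (-1) (by norm_num)
    rwa [hm] at this
  have hn2 : ∀ r, eL n ∉ image (crossPolytope n)
      (antipodes A (crs (vA N) (vD N (cr r) (sr r)))) := by
    intro r
    have := hnot r 1 (by norm_num)
    rwa [hp] at this
  have hf : Continuous fun r => volFrom (crossPolytope n)
      (antipodes A (crs (vA N) (vD N (cr r) (sr r)))) (-eL n) -
      volFrom (crossPolytope n) (antipodes A (crs (vA N) (vD N (cr r) (sr r)))) (eL n) := by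
    rw [continuous_iff_continuousAt]
    intro r
    apply ContinuousAt.sub
    · exact continuousAt_vol_comp hcont (hpoly r) hs1 (hn1 r)
    · exact continuousAt_vol_comp hcont (hpoly r) hs2 (hn2 r)
  have hint : ∀ r, ∃ j : ℤ, volFrom (crossPolytope n)
      (antipodes A (crs (vA N) (vD N (cr r) (sr r)))) (-eL n) -
      volFrom (crossPolytope n) (antipodes A (crs (vA N) (vD N (cr r) (sr r)))) (eL n) =
      j * sphereVol n := by
    intro r
    obtain ⟨k, hk⟩ := volFrom_congr (hpoly r) hs1 (hn1 r) hs2 (hn2 r)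
    exact ⟨k, by rw [hk]; ring⟩
  have hconst := const_of_mul hf hint 0 1
  have h0c : cr 0 = c := by funext i; simp [hcr]
  have h0s : sr 0 = s := by funext i; simp [hsr]
  have h1c : cr 1 = e := by funext i; simp [hcr]
  have h1s : sr 1 = fun _ => 0 := by funext i; simp [hsr]
  rw [h0c, h0s, h1c, h1s] at hconst
  rw [hconst]
  -- the flat cross-polytope
  have hvD : ∀ i, vD N e (fun _ => 0) i = e i • vA N i := by
    intro i
    unfold vD vA
    funext l
    refine Fin.lastCases ?_ (fun l => ?_) l
    · simp [ext]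
    · simp [ext]
  have hB : ∀ i, crs (vA N) (vD N e (fun _ => 0)) (i, true) = e i • nz (vA N i) := by
    intro i
    have h1 : crs (vA N) (vD N e (fun _ => 0)) (i, true) = nz (vD N e (fun _ => 0) i) := rfl
    rw [h1, hvD]
    rcases he i with h | h
    · rw [h, one_smul, one_smul]
    · rw [h, neg_one_smul, neg_one_smul, nz_neg]
  have hA : ∀ i, crs (vA N) (vD N e (fun _ => 0)) (i, false) = nz (vA N i) := fun i => rfl
  by_cases h : ∀ i, e i * ev A (i, true) = - ev A (i, false)
  · rw [if_pos h]
    have hflat : ∀ i, (ev A (i, false) • nz (vA N i)) (Fin.last n) = 0 := by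
      intro i
      rw [Pi.smul_apply, nz_last (vA_last i), smul_zero]
    have hPb : ∀ i b, antipodes A (crs (vA N) (vD N e (fun _ => 0))) (i, b) =
        rs b • (ev A (i, false) • nz (vA N i)) := by
      intro i b
      rw [antipodes_apply]
      cases b
      · rw [hA]; simp [rs]
      · rw [hB, smul_smul, mul_comm, h i]; simp [rs]
    have hl : ∀ v, antipodes A (crs (vA N) (vD N e (fun _ => 0))) v (Fin.last n) = 0 := by
      rintro ⟨i, b⟩
      rw [hPb, Pi.smul_apply, hflat, smul_zero]
    have hv := volFrom_half hflat (dt_ne hN A) hPb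
    rw [volFrom_refl hl, hv]
    unfold tau
    ring
  · rw [if_neg h]
    push Not at h
    obtain ⟨i, hi⟩ := h
    have heq : antipodes A (crs (vA N) (vD N e (fun _ => 0))) (i, true) =
        antipodes A (crs (vA N) (vD N e (fun _ => 0))) (i, false) := by
      rw [antipodes_apply, antipodes_apply, hA, hB, smul_smul]
      congr 1
      have h1 := sq_eq_one_cases (ev_sq A (i, true))
      have h2 := sq_eq_one_cases (ev_sq A (i, false))
      rcases h1 with h1 | h1 <;> rcases h2 with h2 | h2 <;> rcases he i with h3 | h3 <;>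
        rw [h1, h2, h3] at hi ⊢ <;>
        first
        | (exfalso; apply hi; norm_num; done)
        | norm_num
    rw [volFrom_zero heq, volFrom_zero heq, sub_zero]

end walls

end Pool.Agent.helper69.FlexPoly
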